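import Mathlib

/-!
Base definitions for the disproof of MP_3afe9c_an (Aubry set versus chain recurrent set).
A smooth three stack machine (Hanoi towers).  Stacks are real vectors; stack `i` has five
tracks: `0` = bit `b`, `1` = bit `c`, `2,3,4` = data digits in `{0..m}`.
-/

set_option autoImplicit false

open Set Filter Topology

namespace Pool.Agent.Aub

noncomputable section

/-- number of digits -/
def mm : ℕ := 4096
/-- contraction factor of the stacks -/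
def lam : ℝ := 131072
/-- weight ratio between consecutive levels, `m ^ 3` -/
def MM : ℝ := 68719476736

/-- the state of the three stacks -/
abbrev Stk := Fin 3 → Fin 5 → ℝ

/-- data track number `k` -/
def dt (k : Fin 3) : Fin 5 := ⟨k.1 + 2, by omega⟩

/-- smooth step from `0` (for `t ≤ a`) to `1` (for `b ≤ t`) -/
def stp (a b t : ℝ) : ℝ := Real.smoothTransition ((t - a) / (b - a))

/-- reading of a bit -/
def Sc (t : ℝ) : ℝ := stp (1/4) (3/4) t
/-- first reading of a digit -/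
def S1 (t : ℝ) : ℝ := ∑ j ∈ Finset.range mm, stp (j + 5/8) (j + 3/4) t
/-- second reading of a digit -/
def S2 (t : ℝ) : ℝ := ∑ j ∈ Finset.range mm, stp (j + 1/2) (j + 5/8) t
/-- quantiser of a register -/
def Qx (t : ℝ) : ℝ := ∑ j ∈ Finset.range mm, stp (j + 1/4) (j + 3/4) t

def gT (t : ℝ) : ℝ := 1 - stp (1/8) (3/16) t * (1 - stp (13/16) (7/8) t)
def gt (t : ℝ) : ℝ := 1 - stp (1/16) (1/8) t * (1 - stp (7/8) (15/16) t)

/-- removal part of the carry -/
def cT (a b : ℝ) : ℝ :=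
  stp (mm - 1/2) (mm - 3/8) b * (1 - stp (mm + 3/8) (mm + 1/2) b) *
    (1 - stp (mm - 3/8) (mm - 1/4) a)
/-- addition part of the carry -/
def ct (a b : ℝ) : ℝ :=
  stp (mm - 1/4) (mm - 1/8) b * (1 - stp (mm + 1/8) (mm + 1/4) b) *
    (1 - stp (mm - 3/4) (mm - 1/2) a)

/-- carry between two neighbouring digits, `a` more significant than `b` -/
def carryHi (a b : ℝ) : ℝ := a + ct a b
def carryLo (a b : ℝ) : ℝ := b - mm * cT a b

/-- the three digits pushed on the target stack; `a` the digits read, `t` incoming carry -/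
def GG (a0 a1 a2 t : ℝ) : Fin 3 → ℝ :=
  ![carryHi a0 (carryHi a1 (a2 + t)),
    carryLo a0 (carryHi a1 (a2 + t)),
    carryLo a1 (a2 + t)]

/-! ### The relation used in the lower bound -/

def hC (t : ℝ) : ℝ := max (-1/4) (min (5/4) t)
def hX (t : ℝ) : ℝ := max (-1/4) (min (mm + 1/2) t)

/-- the digit decoded from a data coordinate, with margin `μ` -/
def Dg (μ t : ℝ) : ℤ := max 0 (min (mm : ℤ) ⌈hX t - 5/8 + μ⌉)

/-- value of three digits -/
def Vz (g : Fin 3 → ℤ) : ℝ := (mm : ℝ) ^ 2 * g 0 + mm * g 1 + g 2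

/-- data part of a move from stack `s` to stack `d` -/
def DatRel (s d : Fin 3) (β : ℝ) (z z' : Stk) : Prop :=
  ∃ (db : Bool) (g : Fin 3 → ℤ),
    (db = true → β = 0 ∧ (z d 0 ≤ 1/8 ∨ 7/8 ≤ z d 0) ∧
      (mm : ℝ) - 1/4 ≤ z d 2 ∧ z d 2 ≤ mm + 1/4) ∧
    Vz g ≤ Vz (fun k => Dg 0 (z s (dt k))) + (if db then 1 else 0) ∧
    ∀ k : Fin 3,
      hX (z' s (dt k)) ≤ max (hX (lam * (hX (z s (dt k)) - Dg 0 (z s (dt k))))) 0 ∧
      -1/8 ≤ z' d (dt k) ∧ z' d (dt k) ≤ mm + 1/8 ∧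
      Dg (1/16) (z' d (dt k)) ≤ g k ∧
      (Dg (1/16) (z' d (dt k)) = g k →
        hX (lam * (z' d (dt k) - g k)) ≤
          max (hX (z d (dt k) - (if db = true ∧ k = 0 then (mm : ℝ) else 0))) 0)

/-- a move of the top cell of `s` (with bit `b` equal to `β`) to `d` -/
def MvB (s d : Fin 3) (β : ℝ) (z z' : Stk) : Prop :=
  hC (z' s 0) = hC (lam * (hC (z s 0) - β)) ∧
  |z' d 0 - (1 - β)| ≤ 1/16 ∧ hC (lam * (z' d 0 - (1 - β))) = hC (z d 0) ∧
  (z s 1 ≤ 1/4 → hC (z' s 1) = hC (lam * hC (z s 1))) ∧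
  (3/4 ≤ z s 1 → hC (z' s 1) = hC (lam * (hC (z s 1) - 1))) ∧
  (β = 1 → |z' d 1| ≤ 1/16 ∧ hC (lam * z' d 1) = hC (z d 1)) ∧
  (β = 0 → (z d 1 ≤ 1/4 → |z' d 1 - 1| ≤ 1/16 ∧ hC (lam * (z' d 1 - 1)) = hC (z d 1)) ∧
    (3/4 ≤ z d 1 → |z' d 1| ≤ 1/16 ∧ hC (lam * z' d 1) = hC (z d 1))) ∧
  DatRel s d β z z'

def Mv (s d : Fin 3) (z z' : Stk) : Prop :=
  (z s 0 ≤ 1/4 → MvB s d 0 z z') ∧ (3/4 ≤ z s 0 → MvB s d 1 z z')

/-- type of a tick -/
inductive Ty | E | F
deriving DecidableEq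

def Ty.other : Ty → Ty
  | Ty.E => Ty.F
  | Ty.F => Ty.E

/-- one tick of the machine with orientation `δ` and virtual tower at peg `p` -/
def TickRel (δ : Fin 3) (ty : Ty) (p : Fin 3) (z z' : Stk) : Prop :=
  (∀ tr, z' p tr = z p tr) ∧
  (ty = Ty.E → Mv (p - δ) (p + δ) z z') ∧
  (ty = Ty.F → (z p 1 ≤ 1/4 → Mv (p + δ) (p - δ) z z') ∧
    (3/4 ≤ z p 1 → Mv (p - δ) (p + δ) z z'))

/-- cost of raising arbitrarily data track `k` -/
def kap (k : Fin 3) : ℝ := (mm : ℝ) ^ (3 - k.1) / (MM - 1)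

/-- one coordinate of `Md`; `sp` says whether a debit is taken here, `κ` is the price,
`pd` the amount paid, `t` the old and `t'` the new value -/
def Cd (sp : Prop) (κ pd ν t t' : ℝ) : Prop :=
  (¬ sp → κ ≤ pd ∨ t' ≤ max t 0 + ν) ∧
  (sp →
    ((mm : ℝ) - 1/4 - ν ≤ max t 0 ∧
      ((t' ≤ max (t - mm) 0 + ν ∧ t' ≤ 1/4 + 2 * ν) ∨ κ ≤ pd)) ∨
    (κ ≤ pd ∧ (t' ≤ 1/4 + 2 * ν ∨ 2 * κ ≤ pd)))

/-- harmless modifications plus noise of size `ν`, credit `cr` and (if `db`) one debit -/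
def Md (ty : Ty) (p : Fin 3) (ν cr : ℝ) (db : Bool) (z z' : Stk) : Prop :=
  0 ≤ ν ∧ (∀ i, |z' i 0 - z i 0| ≤ ν) ∧
  (∀ i, |z' i 1 - z i 1| ≤ ν ∨ (1/4 - ν < z i 1 ∧ z i 1 < 3/4 + ν)) ∧
  (db = true → ty = Ty.F ∧ (z p 0 ≤ 1/8 + ν ∨ 7/8 - ν ≤ z p 0)) ∧
  ∃ pd : Fin 3 → Fin 3 → ℝ, (∀ i k, 0 ≤ pd i k) ∧ ∑ i, ∑ k, pd i k ≤ cr ∧
    ∀ i k, Cd (db = true ∧ i = p ∧ k = 0) (kap k) (pd i k) ν (z i (dt k)) (z' i (dt k))

/-- generalised trajectories; the arguments are: orientation, start type, peg and state,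
current type, peg and state, energy before the last interval, noise of the last interval,
total credit, number of debits, number of ticks -/
inductive Tr (δ : Fin 3) (ty0 : Ty) (p0 : Fin 3) (z0 : Stk) :
    Ty → Fin 3 → Stk → ℝ → ℝ → ℝ → ℕ → ℕ → Prop
  | base (ν cr : ℝ) (db : Bool) (z : Stk) (h : Md ty0 p0 ν cr db z0 z) :
      Tr δ ty0 p0 z0 ty0 p0 z 0 ν cr db.toNat 0
  | step (ty : Ty) (p : Fin 3) (z : Stk) (e ν cr : ℝ) (d n : ℕ)
      (h : Tr δ ty0 p0 z0 ty p z e ν cr d n) (z1 z2 : Stk) (h1 : TickRel δ ty p z z1)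
      (ν' cr' : ℝ) (db : Bool) (h2 : Md ty.other (p + δ) ν' cr' db z1 z2) :
      Tr δ ty0 p0 z0 ty.other (p + δ) z2 (e + ν ^ 2) ν' (cr + cr') (d + db.toNat) (n + 1)

/-- stage number: `F` before noise 0, `F` after noise 1, `E` before noise 1, `E` after 2 -/
def stg : Ty → Bool → ℝ
  | Ty.F, false => 0
  | Ty.F, true => 1
  | Ty.E, false => 1
  | Ty.E, true => 2

/-- zone in which a bit is readable -/
def rho (ty : Ty) (post : Bool) : ℝ := 1/8 + (1 + stg ty post) / 32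
/-- margin of the digit decoding -/
def mu (ty : Ty) (post : Bool) : ℝ := (2 - stg ty post) / 32

/-- peg of the top disk -/
def posn (δ : Fin 3) (ty : Ty) (p : Fin 3) : Fin 3 := if ty = Ty.F then p else p - δ

/-- remove the top disk, sitting on peg `q`, with bit `β`, new `c` value `c'`, digits `D` -/
def peel (q : Fin 3) (β c' : ℝ) (D : Fin 3 → ℤ) (z : Stk) : Stk := fun i tr =>
  if i = q then
    ![hC (lam * (hC (z q 0) - β)), c', hX (lam * (hX (z q 2) - D 0)),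
      hX (lam * (hX (z q 3) - D 1)), hX (lam * (hX (z q 4) - D 2))] tr
  else ![hC (z i 0), hC (z i 1), hX (z i 2), hX (z i 3), hX (z i 4)] tr

/-- value of `c` below the top disk, phase `E` -/
def cE (r c : ℝ) : ℝ :=
  if c ≤ r then hC (lam * hC c) else if 1 - r ≤ c then hC (lam * (hC c - 1)) else 1/2

/-- value of `c` below the top disk, phase `F`, bit `1` -/
def cF (r c : ℝ) : ℝ :=
  if c ≤ r ∧ 3/4 ≤ hC (lam * hC c) then hC (lam * hC c)
  else if 1 - r ≤ c ∧ hC (lam * (hC c - 1)) ≤ 1/4 then hC (lam * (hC c - 1)) else 1/2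

/-- digits of the top disk -/
def DD (ty : Ty) (post : Bool) (q : Fin 3) (z : Stk) : Fin 3 → ℤ :=
  fun k => Dg (mu ty post) (z q (dt k))

/-- bit of the top disk: `some 0`, `some 1` or `none` -/
def rb (ty : Ty) (post : Bool) (q : Fin 3) (z : Stk) : Option ℝ :=
  if z q 0 ≤ rho ty post then some 0 else if 1 - rho ty post ≤ z q 0 then some 1 else none

/-- type of the next tick of the subsystem -/
def subTy (ty : Ty) (β : ℝ) : Ty :=
  if ty = Ty.F then (if β = 0 then Ty.E else Ty.F) else (if β = 0 then Ty.F else Ty.E)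

/-- peg of the virtual tower of the subsystem -/
def subP (δ : Fin 3) (ty : Ty) (p : Fin 3) : Fin 3 := if ty = Ty.F then p else p + δ

/-- new `c` value for the subsystem -/
def subC (ty : Ty) (post : Bool) (β : ℝ) (q : Fin 3) (z : Stk) : ℝ :=
  if ty = Ty.F ∧ β = 1 then cF (rho ty post) (z q 1) else cE (rho ty post) (z q 1)

/-- state of the subsystem -/
def sub (δ : Fin 3) (ty : Ty) (post : Bool) (p : Fin 3) (β : ℝ) (z : Stk) : Stk :=
  peel (posn δ ty p) β (subC ty post β (posn δ ty p) z) (DD ty post (posn δ ty p) z) z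

/-- the bad case: phase `F`, bit `0`, but `c` not readable as `0` -/
def broken (ty : Ty) (post : Bool) (q : Fin 3) (β : ℝ) (z : Stk) : Prop :=
  ty = Ty.F ∧ β = 0 ∧ ¬ z q 1 ≤ rho ty post

open Classical in
/-- the potential, truncated at level `N` -/
def UU : ℕ → Bool → Fin 3 → Ty → Fin 3 → Stk → ℝ
  | 0, _, _, _, _, _ => 2
  | (N + 1), post, δ, ty, p, z =>
    match rb ty post (posn δ ty p) z with
    | none => 2
    | some β =>
      (Vz (DD ty post (posn δ ty p) z) +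
        (if broken ty post (posn δ ty p) β z then 2
         else UU N post (-δ) (subTy ty β) (subP δ ty p) (sub δ ty post p β z))) / MM

end

end Pool.Agent.Aub
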