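import Mathlib
import Pool.Agent.Helper961.Aub.Base

/-!
The physical machine for the disproof of MP_3afe9c_an: the fields of the slots and their
time one maps.
-/

set_option autoImplicit false

open Set Filter Topology

namespace Pool.Agent.Aub

noncomputable section

/-- a one dimensional flow which is the identity on `[-1/4, hi]` and brings every point of
`[-2^32, 2^32]` close to it in time one -/
structure Clamp (hi : ℝ) where
  χ : ℝ → ℝ
  Φ : ℝ → ℝ → ℝ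
  smooth : ContDiff ℝ ((⊤ : ℕ∞) : WithTop ℕ∞) χ
  zero : ∀ t, Φ 0 t = t
  deriv : ∀ u t, HasDerivAt (fun u => Φ u t) (χ (Φ u t)) u
  fix : ∀ u t, -1/4 ≤ t → t ≤ hi → Φ u t = t
  lo : ∀ t, t ≤ -1/4 → Φ 1 t ≤ -1/4
  up : ∀ t, hi ≤ t → hi ≤ Φ 1 t
  rng : ∀ t, |t| ≤ 2 ^ 32 → -1/2 ≤ Φ 1 t ∧ Φ 1 t ≤ hi + 1/4
  bd : ∀ u t, 0 ≤ u → u ≤ 1 → |t| ≤ 2 ^ 32 → |Φ u t| ≤ 2 ^ 33

/-- index set of stacks and registers -/
abbrev Ix := (Fin 3 × Fin 5) ⊕ Fin 12
/-- stacks and registers.  Registers: `0` κ, `1` ub, `2` vc, `3` tc, `4,5,6` u, `7,8,9` v,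
`10` hT, `11` ht -/
abbrev Zs := Ix → ℝ

def stk (z : Zs) : Stk := fun i tr => z (Sum.inl (i, tr))
def reg (z : Zs) : Fin 12 → ℝ := fun k => z (Sum.inr k)
def mkz (S : Stk) (R : Fin 12 → ℝ) : Zs := Sum.elim (fun q => S q.1 q.2) R

/-- weight of a conditional move -/
def Wt (b : Bool) (z : Zs) : ℝ := if b then Sc (reg z 0) else 1 - Sc (reg z 0)

/-- slot fields -/
def f0 (cc : Clamp (5/4)) (cx : Clamp (mm + 1/2)) (s d : Fin 3) (z : Zs) : Zs :=
  mkz (fun i tr => if i = s ∨ i = d then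
    (if tr.1 < 2 then cc.χ (stk z i tr) else cx.χ (stk z i tr)) else 0) 0

def f1 (s d : Fin 3) (z : Zs) : Zs :=
  mkz 0 ![0, Sc (stk z s 0), Sc (stk z s 1), Sc (stk z d 1),
    S1 (stk z s 2), S1 (stk z s 3), S1 (stk z s 4),
    S2 (stk z s 2), S2 (stk z s 3), S2 (stk z s 4), 0, 0]

def f2 (d : Fin 3) (z : Zs) : Zs :=
  mkz 0 ![0, 0, 0, 0, 0, 0, 0, 0, 0, 0,
    (1 - Sc (reg z 1)) * gT (stk z d 0) * cT (Qx (reg z 6)) (stk z d 2),
    (1 - Sc (reg z 1)) * gt (stk z d 0) * ct (Qx (reg z 6)) (stk z d 2)]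

def f3 (b : Bool) (s d : Fin 3) (z : Zs) : Zs :=
  mkz (fun i tr => if i = s then
      -(Wt b z * ![Sc (reg z 1), Sc (reg z 2), Qx (reg z 7), Qx (reg z 8), Qx (reg z 9)] tr)
    else if i = d ∧ tr = 2 then -(Wt b z * (mm * Sc (reg z 10))) else 0) 0

def f4 (b : Bool) (s d : Fin 3) (z : Zs) : Zs :=
  mkz (fun i tr => if i = s then Wt b z * Real.log lam * stk z i tr
    else if i = d then -(Wt b z * Real.log lam) * stk z i tr else 0) 0

/-- the digits to be pushed -/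
def pushed (r : ℝ) (z : Zs) : Fin 5 → ℝ :=
  ![1 - Sc (reg z 1), (1 - Sc (reg z 1)) * (1 - Sc (reg z 3)),
    Qx (GG (Qx (reg z 4)) (Qx (reg z 5)) (Qx (reg z 6)) (Sc (reg z 11)) 0 * (1 - r)),
    Qx (GG (Qx (reg z 4)) (Qx (reg z 5)) (Qx (reg z 6)) (Sc (reg z 11)) 1 * (1 - r)),
    Qx (GG (Qx (reg z 4)) (Qx (reg z 5)) (Qx (reg z 6)) (Sc (reg z 11)) 2 * (1 - r))]

def f5 (b : Bool) (d : Fin 3) (r : ℝ) (z : Zs) : Zs :=
  mkz (fun i tr => if i = d then Wt b z * pushed r z tr else 0) 0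

def f6 (z : Zs) : Zs := mkz 0 (fun k => if k = 0 then 0 else -16 * reg z k)

def g0 (ty : Ty) (p : Fin 3) (z : Zs) : Zs :=
  mkz 0 (fun k => if k = 0 then (if ty = Ty.E then 1 else Sc (stk z p 1)) else 0)

def g1 (z : Zs) : Zs := mkz 0 (fun k => if k = 0 then -16 * reg z 0 else 0)

/-- time one maps of `f0`, `f4`, `f6`, `g1` -/
def M0 (cc : Clamp (5/4)) (cx : Clamp (mm + 1/2)) (s d : Fin 3) (z : Zs) : Zs :=
  mkz (fun i tr => if i = s ∨ i = d then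
    (if tr.1 < 2 then cc.Φ 1 (stk z i tr) else cx.Φ 1 (stk z i tr)) else stk z i tr) (reg z)

def M4 (b : Bool) (s d : Fin 3) (z : Zs) : Zs :=
  mkz (fun i tr => if i = s then Real.exp (Wt b z * Real.log lam) * stk z i tr
    else if i = d then Real.exp (-(Wt b z * Real.log lam)) * stk z i tr
    else stk z i tr) (reg z)

def M6 (z : Zs) : Zs :=
  mkz (stk z) (fun k => if k = 0 then reg z 0 else Real.exp (-16) * reg z k)

def N1 (z : Zs) : Zs :=
  mkz (stk z) (fun k => if k = 0 then Real.exp (-16) * reg z 0 else reg z k)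

/-- conditional move -/
def cm (cc : Clamp (5/4)) (cx : Clamp (mm + 1/2)) (b : Bool) (s d : Fin 3) (r : ℝ)
    (z : Zs) : Zs :=
  let z0 := M0 cc cx s d z
  let z1 := z0 + f1 s d z0
  let z2 := z1 + f2 d z1
  let z3 := z2 + f3 b s d z2
  let z4 := M4 b s d z3
  let z5 := z4 + f5 b d r z4
  M6 z5

/-- one tick of the machine -/
def tick (cc : Clamp (5/4)) (cx : Clamp (mm + 1/2)) (ty : Ty) (p : Fin 3) (r : ℝ)
    (z : Zs) : Zs :=
  N1 (cm cc cx false (p + 1) (p - 1) 0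
    (cm cc cx true (p - 1) (p + 1) (if ty = Ty.E then r else 0) (z + g0 ty p z)))

/-- the field of slot `j` of the tick -/
def slotf (cc : Clamp (5/4)) (cx : Clamp (mm + 1/2)) (ty : Ty) (p : Fin 3) (r : ℝ)
    (j : Fin 16) : Zs → Zs :=
  ![g0 ty p,
    f0 cc cx (p - 1) (p + 1), f1 (p - 1) (p + 1), f2 (p + 1), f3 true (p - 1) (p + 1),
    f4 true (p - 1) (p + 1), f5 true (p + 1) (if ty = Ty.E then r else 0), f6,
    f0 cc cx (p + 1) (p - 1), f1 (p + 1) (p - 1), f2 (p - 1), f3 false (p + 1) (p - 1),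
    f4 false (p + 1) (p - 1), f5 false (p - 1) 0, f6,
    g1] j

/-- type and peg of tick number `j` -/
def tyj (j : ℕ) : Ty := if j % 2 = 0 then Ty.E else Ty.F
def pj (j : ℕ) : Fin 3 := Fin.ofNat 3 j

end

end Pool.Agent.Aub
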