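import Mathlib
import Pool.Agent.Helper961.Aub.Mach

/-!
The symbolic (exact) dynamics of the machine for the disproof of MP_3afe9c_an.
-/

set_option autoImplicit false

open Set Filter Topology

namespace Pool.Agent.Aub

/-- a cell (disk): two bits and three digits -/
structure Cell where
  b : Bool
  c : Bool
  D : Fin 3 → ℕ

/-- the zero cell -/
def zc : Cell := ⟨false, false, 0⟩

/-- the next cell, lists are continued by zero cells -/
def hd : List Cell → Cell
  | [] => zc
  | a :: _ => a

/-- internal carry of the digits, after adding `t` to the last digit -/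
def carry (D : Fin 3 → ℕ) (t : ℕ) : Fin 3 → ℕ :=
  if D 2 + t = mm ∧ D 1 < mm then
    (if D 1 + 1 = mm ∧ D 0 < mm then ![D 0 + 1, 0, 0] else ![D 0, D 1 + 1, 0])
  else (if D 1 = mm ∧ D 0 < mm then ![D 0 + 1, 0, D 2 + t] else ![D 0, D 1, D 2 + t])

/-- joined carry from the next cell `e` to the moving cell `a` -/
def tt (a e : Cell) : ℕ := if a.b = false ∧ e.D 0 = mm ∧ a.D 2 < mm then 1 else 0

/-- the moved cell -/
def newc (r : Bool) (a e : Cell) : Cell :=
  ⟨!a.b, !a.b && !e.c, if r then 0 else carry a.D (tt a e)⟩

/-- the first digit of the head is set to zero -/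
def dec : List Cell → List Cell
  | [] => []
  | a :: tl => ⟨a.b, a.c, Function.update a.D 0 0⟩ :: tl

def stE (r : Bool) : List Cell → List Cell
  | [] => [newc r zc zc]
  | a :: tl => newc r a (hd tl) :: (if tt a (hd tl) = 1 then dec tl else tl)

def stF : List Cell → List Cell
  | [] => zc :: stE false []
  | a :: tl => a :: (if a.b then stF tl else stE false tl)

/-- symbolic step; `r` is the reset flag, only used in type `E` -/
def st (ty : Ty) (r : Bool) (l : List Cell) : List Cell :=
  match ty with
  | Ty.E => stE r l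
  | Ty.F => stF l

/-- type of the subsystem -/
def sT : Ty → Bool → Ty
  | Ty.E, false => Ty.F
  | Ty.E, true => Ty.E
  | Ty.F, false => Ty.E
  | Ty.F, true => Ty.F

/-- validity of a configuration -/
def Val : Ty → List Cell → Prop
  | _, [] => True
  | ty, a :: tl => (ty = Ty.F → a.c = (a.b && !(hd tl).c)) ∧ Val (sT ty a.b) tl

/-- the digits are at most `mm` -/
def Dle (l : List Cell) : Prop := ∀ a ∈ l, ∀ k, a.D k ≤ mm

noncomputable section

def vb (b : Bool) : ℝ := if b then 1 else 0

def Cell.val (a : Cell) : Fin 5 → ℝ := ![vb a.b, vb a.c, a.D 0, a.D 1, a.D 2]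

/-- the stacks of a configuration -/
def rl : Ty → Fin 3 → Fin 3 → List Cell → Stk
  | _, _, _, [] => 0
  | ty, δ, p, a :: tl => fun i tr =>
      if i = posn δ ty p then a.val tr + rl (sT ty a.b) (-δ) (subP δ ty p) tl i tr / lam
      else rl (sT ty a.b) (-δ) (subP δ ty p) tl i tr

end

/-- the first `N` cells have bit `b = 0` -/
def base : ℕ → List Cell → Prop
  | 0, _ => True
  | N + 1, l => (hd l).b = false ∧ base N l.tail

/-- `n` steps, starting with type `ty`; `r k` is the reset flag of step number `k` -/
def run : ℕ → (ℕ → Bool) → Ty → List Cell → List Cell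
  | 0, _, _, l => l
  | n + 1, r, ty, l => run n (fun k => r (k + 1)) ty.other (st ty (r 0) l)

/-- type after `n` steps -/
def tyn (ty : Ty) (n : ℕ) : Ty := if n % 2 = 0 then ty else ty.other

/-- the first `N` cells are saturated -/
def sat : ℕ → List Cell → Prop
  | 0, _ => True
  | N + 1, l => (∀ k, (hd l).D k = mm) ∧ sat N l.tail

/-- lexicographic value of the digits of the first `N` cells and of the first digit of
cell number `N` -/
def lex : ℕ → List Cell → ℕ
  | 0, l => (hd l).D 0
  | N + 1, l => (((hd l).D 0 * (mm + 1) + (hd l).D 1) * (mm + 1) + (hd l).D 2) *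
      (mm + 1) ^ (3 * N + 1) + lex N l.tail

/-- first `N` cells (completed by zero cells), then a fresh cell -/
def refill : ℕ → List Cell → List Cell
  | 0, _ => [⟨false, false, ![mm, 0, 0]⟩]
  | N + 1, l => hd l :: refill N l.tail

end Pool.Agent.Aub
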