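import Mathlib

/-!
Definitions for MP_3afe9c_an: the flat torus `ℝ^ι / (Lℤ)^ι`, described on its universal
cover `EuclideanSpace ℝ ι`.
-/

set_option autoImplicit false

open Set Filter Topology MeasureTheory

namespace Pool.Agent.Aub

noncomputable section

variable {ι : Type} [Fintype ι]

/-- the lattice vector `L k` -/
def lat (L : ℝ) (k : ι → ℤ) : EuclideanSpace ℝ ι := WithLp.toLp 2 (fun i => L * (k i : ℝ))

/-- a vector field on the torus is a field on `ℝ^ι` invariant under the lattice `(Lℤ)^ι` -/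
def PerField (L : ℝ) (f : EuclideanSpace ℝ ι → EuclideanSpace ℝ ι) : Prop :=
  ∀ x (k : ι → ℤ), f (x + lat L k) = f x

/-- `φ` is the flow of `f` (lifted to `ℝ^ι`) -/
def IsFlow (f : EuclideanSpace ℝ ι → EuclideanSpace ℝ ι)
    (φ : ℝ → EuclideanSpace ℝ ι → EuclideanSpace ℝ ι) : Prop :=
  (∀ x, φ 0 x = x) ∧ ∀ x t, HasDerivAt (fun s => φ s x) (f (φ t x)) t

/-- `γ` is absolutely continuous on `[0, T]` with derivative `v`:
`γ(s) = γ(0) + ∫_0^s v` with `v` integrable -/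
def IsCurve (γ v : ℝ → EuclideanSpace ℝ ι) (T : ℝ) : Prop :=
  IntegrableOn v (Icc 0 T) ∧ ∀ s ∈ Icc (0 : ℝ) T, γ s = γ 0 + ∫ u in (0 : ℝ)..s, v u

/-- the action `∫_0^T ½ ‖γ' - f(γ)‖²` -/
def action (f : EuclideanSpace ℝ ι → EuclideanSpace ℝ ι) (γ v : ℝ → EuclideanSpace ℝ ι)
    (T : ℝ) : ENNReal :=
  ∫⁻ s in Icc (0 : ℝ) T, ENNReal.ofReal (‖v s - f (γ s)‖ ^ 2 / 2)

/-- `h_T(x, y)`: infimum of the action of the absolutely continuous curves of the torus from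
the class of `x` to the class of `y` in time `T` (curves are lifted with `γ(0) = x`) -/
def hT (L : ℝ) (f : EuclideanSpace ℝ ι → EuclideanSpace ℝ ι) (T : ℝ)
    (x y : EuclideanSpace ℝ ι) : ENNReal :=
  ⨅ (γ : ℝ → EuclideanSpace ℝ ι) (v : ℝ → EuclideanSpace ℝ ι) (_ : IsCurve γ v T)
    (_ : γ 0 = x) (_ : ∃ k : ι → ℤ, γ T = y + lat L k), action f γ v T

/-- the Peierls barrier `h(x, y) = liminf_{T → ∞} h_T(x, y)` -/
def barrier (L : ℝ) (f : EuclideanSpace ℝ ι → EuclideanSpace ℝ ι)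
    (x y : EuclideanSpace ℝ ι) : ENNReal :=
  liminf (fun T => hT L f T x y) atTop

/-- the (projected) Aubry set `{x : h(x, x) = 0}` (lifted) -/
def AubrySet (L : ℝ) (f : EuclideanSpace ℝ ι → EuclideanSpace ℝ ι) :
    Set (EuclideanSpace ℝ ι) := {x | barrier L f x x = 0}

/-- the distance on the torus of the classes of `x` and `y` is smaller than `ε` -/
def near (L ε : ℝ) (x y : EuclideanSpace ℝ ι) : Prop :=
  ∃ k : ι → ℤ, ‖x - y - lat L k‖ < ε

/-- one step of an `(ε, T)`-chain -/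
def chstep (L : ℝ) (φ : ℝ → EuclideanSpace ℝ ι → EuclideanSpace ℝ ι) (ε T : ℝ)
    (a b : EuclideanSpace ℝ ι) : Prop := ∃ t, T ≤ t ∧ near L ε (φ t a) b

/-- `x` is chain recurrent: for all `ε, T > 0` there is an `(ε, T)`-chain
`x = x_0, x_1, ..., x_k = x`, `k ≥ 1` -/
def ChainRec (L : ℝ) (φ : ℝ → EuclideanSpace ℝ ι → EuclideanSpace ℝ ι)
    (x : EuclideanSpace ℝ ι) : Prop :=
  ∀ ε > 0, ∀ T > 0, Relation.TransGen (chstep L φ ε T) x x

end

end Pool.Agent.Aub
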