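import Mathlib
import Pool.Agent.Helper961.Aub.Sym
import Pool.Agent.Helper961.Aub.Torus

/-!
Coordinates of the phase space and the list of all slots of the clock
-/

set_option autoImplicit false

open Set Filter Topology MeasureTheory

namespace Pool.Agent.Aub

noncomputable section

/-- coordinates: stacks, registers, `y = inr 0`, clock `θ = inr 1` -/
abbrev Jx := Ix ⊕ Fin 2
abbrev EE := EuclideanSpace ℝ Jx

def mkp (z : Zs) (y θ : ℝ) : EE := WithLp.toLp 2 (Sum.elim z ![y, θ])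
/-- stack-register part of a point -/
def pz (x : EE) : Zs := fun i => x (Sum.inl i)
def py (x : EE) : ℝ := x (Sum.inr 0)
def pth (x : EE) : ℝ := x (Sum.inr 1)

/-- period of all coordinates -/
def LL : ℝ := 2 ^ 40

/-- the speed of `y` -/
def psi (y : ℝ) : ℝ := Real.sin (Real.pi * y / LL) ^ 2

/-- the reset function -/
structure Rho where
  ρ : ℝ → ℝ
  smooth : ContDiff ℝ ((⊤ : ℕ∞) : WithTop ℕ∞) ρ
  per : ∀ y, ρ (y + LL) = ρ y
  nonneg : ∀ y, 0 ≤ ρ y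
  le_one : ∀ y, ρ y ≤ 1
  one : ρ (LL / 2) = 1
  zero : ∀ y, 0 ≤ y → y ≤ LL → 1/4 ≤ |y - LL / 2| → ρ y = 0

/-- the fields of the `97` slots of one period of the clock -/
def YY (cc : Clamp (5/4)) (cx : Clamp (mm + 1/2)) (rh : Rho) (k : Fin 97)
    (x : Zs × ℝ) : Zs × ℝ :=
  if h : k.1 < 96 then
    (slotf cc cx (tyj (k.1 / 16)) (pj (k.1 / 16)) (rh.ρ x.2)
      ⟨k.1 % 16, Nat.mod_lt _ (by norm_num)⟩ x.1, 0)
  else (0, psi x.2)

/-- a flow realising the slots `Y 0, ..., Y (n-1)` one after the other -/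
structure Realz (n : ℕ) (Y : Fin n → Zs × ℝ → Zs × ℝ) (L : ℝ)
    (F : EE → EE) (φ : ℝ → EE → EE) : Prop where
  smooth : ContDiff ℝ ((⊤ : ℕ∞) : WithTop ℕ∞) F
  per : PerField L F
  theta : ∀ x, F x (Sum.inr 1) = 1
  flow : IsFlow F φ
  slot : ∀ (k : Fin n) (q : ℤ) (ζ : ℝ → Zs) (η : ℝ → ℝ),
    (∀ u ∈ Icc (0 : ℝ) 1, HasDerivAt (fun u => (ζ u, η u)) (Y k (ζ u, η u)) u ∧
      ∀ i, |ζ u i| ≤ L / 4) →
    φ 1 (mkp (ζ 0) (η 0) (q * L + k)) = mkp (ζ 1) (η 1) (q * L + k + 1)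
  idle : ∀ (q : ℤ) (z : Zs) (y t : ℝ), 0 ≤ t → t ≤ L - n →
    φ t (mkp z y (q * L + n)) = mkp z y (q * L + n + t)

/-- section times -/
def Th (n : ℕ) : ℝ := (n / 6 : ℕ) * LL + 16 * (n % 6 : ℕ)

/-- the compact set of points at which the top disk has saturated digits and the reset is
switched on -/
def KK : Set EE := {x | ∃ z : Zs, x = mkp z (LL / 2) 0 ∧ (∀ i tr, |stk z i tr| ≤ 2 ^ 13) ∧
  (∀ k, |reg z k| ≤ 1/32) ∧ 0 ≤ stk z 2 0 ∧ stk z 2 0 ≤ 1/16 ∧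
  ∀ k : Fin 3, (mm : ℝ) - 1/16 ≤ stk z 2 (dt k) ∧ stk z 2 (dt k) ≤ mm + 1/16}

/-- the state of a configuration at the beginning of a period -/
def pt (l : List Cell) (R : Fin 12 → ℝ) (y : ℝ) : EE := mkp (mkz (rl Ty.E 1 0 l) R) y 0

/-- the orbit of `y` through `L/2` -/
def yo (n : ℤ) : ℝ := LL / 2 + LL / Real.pi * Real.arctan (Real.pi * n / LL)

end

end Pool.Agent.Aub
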