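import Mathlib
import Pool.Agent.Helper961.Aub.Base

set_option autoImplicit false

open Set Filter Topology

namespace Pool.Agent.Aub

theorem R02_ff {κ a b ν1 ν2 t t1 t2 : ℝ} (ha : 0 ≤ a) (hb : 0 ≤ b) (h1 : 0 ≤ ν1)
    (hA : κ ≤ a ∨ t1 ≤ max t 0 + ν1) (hB : κ ≤ b ∨ t2 ≤ max t1 0 + ν2) :
    κ ≤ a + b ∨ t2 ≤ max t 0 + (ν1 + ν2) := by
  rcases hA with hA | hA
  · left; linarith
  · rcases hB with hB | hB
    · left; linarith
    · right
      have h3 : max t1 0 ≤ max t 0 + ν1 := max_le hA (by linarith [le_max_right t 0])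
      linarith

theorem R02_tf {κ a b ν1 ν2 t t1 t2 m : ℝ} (ha : 0 ≤ a) (hb : 0 ≤ b) (h1 : 0 ≤ ν1) (h2 : 0 ≤ ν2)
    (hA : (m - 1/4 - ν1 ≤ max t 0 ∧ ((t1 ≤ max (t - m) 0 + ν1 ∧ t1 ≤ 1/4 + 2 * ν1) ∨ κ ≤ a)) ∨
      (κ ≤ a ∧ (t1 ≤ 1/4 + 2 * ν1 ∨ 2 * κ ≤ a)))
    (hB : κ ≤ b ∨ t2 ≤ max t1 0 + ν2) :
    (m - 1/4 - (ν1 + ν2) ≤ max t 0 ∧ ((t2 ≤ max (t - m) 0 + (ν1 + ν2) ∧
      t2 ≤ 1/4 + 2 * (ν1 + ν2)) ∨ κ ≤ a + b)) ∨
      (κ ≤ a + b ∧ (t2 ≤ 1/4 + 2 * (ν1 + ν2) ∨ 2 * κ ≤ a + b)) := by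
  have hm := le_max_right (t - m) 0
  rcases hA with ⟨hA0, ⟨hA1, hA2⟩ | hA⟩ | ⟨hA, hA1 | hA1⟩
  · left
    refine ⟨by linarith, ?_⟩
    rcases hB with hB | hB
    · right; linarith
    · left
      constructor
      · have h3 : max t1 0 ≤ max (t - m) 0 + ν1 := max_le hA1 (by linarith)
        linarith
      · have h3 : max t1 0 ≤ 1/4 + 2 * ν1 := max_le hA2 (by linarith)
        linarith
  · left
    exact ⟨by linarith, Or.inr (by linarith)⟩
  · right
    refine ⟨by linarith, ?_⟩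
    rcases hB with hB | hB
    · right; linarith
    · left
      have h3 : max t1 0 ≤ 1/4 + 2 * ν1 := max_le hA1 (by linarith)
      linarith
  · right
    exact ⟨by linarith, Or.inr (by linarith)⟩

theorem R02_ft {κ a b ν1 ν2 t t1 t2 m : ℝ} (ha : 0 ≤ a) (hb : 0 ≤ b) (h1 : 0 ≤ ν1) (hm0 : 0 ≤ m)
    (hA : κ ≤ a ∨ t1 ≤ max t 0 + ν1)
    (hB : (m - 1/4 - ν2 ≤ max t1 0 ∧ ((t2 ≤ max (t1 - m) 0 + ν2 ∧ t2 ≤ 1/4 + 2 * ν2) ∨ κ ≤ b)) ∨
      (κ ≤ b ∧ (t2 ≤ 1/4 + 2 * ν2 ∨ 2 * κ ≤ b))) :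
    (m - 1/4 - (ν1 + ν2) ≤ max t 0 ∧ ((t2 ≤ max (t - m) 0 + (ν1 + ν2) ∧
      t2 ≤ 1/4 + 2 * (ν1 + ν2)) ∨ κ ≤ a + b)) ∨
      (κ ≤ a + b ∧ (t2 ≤ 1/4 + 2 * (ν1 + ν2) ∨ 2 * κ ≤ a + b)) := by
  have hm := le_max_right (t - m) 0
  rcases hB with ⟨hB0, ⟨hB1, hB2⟩ | hB⟩ | ⟨hB, hB1 | hB1⟩
  · rcases hA with hA | hA
    · right
      exact ⟨by linarith, Or.inl (by linarith)⟩
    · left
      have h3 : max t1 0 ≤ max t 0 + ν1 := max_le hA (by linarith [le_max_right t 0])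
      refine ⟨by linarith, Or.inl ⟨?_, by linarith⟩⟩
      have h4 : max t 0 ≤ max (t - m) 0 + m :=
        max_le (by linarith [le_max_left (t - m) 0]) (by linarith)
      have h5 : max (t1 - m) 0 ≤ max (t - m) 0 + ν1 := max_le (by linarith) (by linarith)
      linarith
  · rcases hA with hA | hA
    · right
      exact ⟨by linarith, Or.inr (by linarith)⟩
    · left
      have h3 : max t1 0 ≤ max t 0 + ν1 := max_le hA (by linarith [le_max_right t 0])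
      exact ⟨by linarith, Or.inr (by linarith)⟩
  · right
    exact ⟨by linarith, Or.inl (by linarith)⟩
  · right
    exact ⟨by linarith, Or.inr (by linarith)⟩

/-- TARGET -/
theorem Md_comp {ty : Ty} {p : Fin 3} {ν1 ν2 cr1 cr2 : ℝ} {db1 db2 : Bool} {z z1 z2 : Stk}
    (h1 : Md ty p ν1 cr1 db1 z z1) (h2 : Md ty p ν2 cr2 db2 z1 z2)
    (hd : db1 = false ∨ db2 = false) :
    Md ty p (ν1 + ν2) (cr1 + cr2) (db1 || db2) z z2 := by
  obtain ⟨hν1, hb1, hc1, hd1, pd1, hp1, hs1, hC1⟩ := h1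
  obtain ⟨hν2, hb2, hc2, hd2, pd2, hp2, hs2, hC2⟩ := h2
  refine ⟨by linarith, ?_, ?_, ?_, fun i k => pd1 i k + pd2 i k, ?_, ?_, ?_⟩
  · intro i
    have e : z2 i 0 - z i 0 = (z1 i 0 - z i 0) + (z2 i 0 - z1 i 0) := by ring
    rw [e]
    exact le_trans (abs_add_le _ _) (add_le_add (hb1 i) (hb2 i))
  · intro i
    rcases hc1 i with h | ⟨h, h'⟩
    · rcases hc2 i with g | ⟨g, g'⟩
      · left
        have e : z2 i 1 - z i 1 = (z1 i 1 - z i 1) + (z2 i 1 - z1 i 1) := by ring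
        rw [e]
        exact le_trans (abs_add_le _ _) (add_le_add h g)
      · right
        have := abs_le.1 h
        constructor <;> linarith [this.1, this.2]
    · right
      constructor <;> linarith
  · intro hdb
    rw [Bool.or_eq_true] at hdb
    rcases hdb with hdb | hdb
    · obtain ⟨e1, e2 | e2⟩ := hd1 hdb
      · exact ⟨e1, Or.inl (by linarith)⟩
      · exact ⟨e1, Or.inr (by linarith)⟩
    · have := abs_le.1 (hb1 p)
      obtain ⟨e1, e2 | e2⟩ := hd2 hdb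
      · exact ⟨e1, Or.inl (by linarith [this.1, this.2])⟩
      · exact ⟨e1, Or.inr (by linarith [this.1, this.2])⟩
  · intro i k
    exact add_nonneg (hp1 i k) (hp2 i k)
  · simp only [Finset.sum_add_distrib]
    linarith
  · intro i k
    have g1 := hC1 i k
    have g2 := hC2 i k
    have q1 := hp1 i k
    have q2 := hp2 i k
    have hm0 : (0:ℝ) ≤ (mm : ℝ) := Nat.cast_nonneg _
    unfold Cd at g1 g2 ⊢
    by_cases hik : i = p ∧ k = 0
    · cases db1 <;> cases db2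
      · simp only [Bool.false_eq_true, false_and, not_false_eq_true, true_implies, false_implies,
          and_true, Bool.or_self] at g1 g2 ⊢
        exact R02_ff q1 q2 hν1 g1 g2
      · simp only [Bool.false_eq_true, false_and, not_false_eq_true, true_implies, false_implies,
          and_true, Bool.or_true, true_and, hik, not_true_eq_false] at g1 g2 ⊢
        simp only [hik] at q1 q2
        exact R02_ft q1 q2 hν1 hm0 g1 g2
      · simp only [Bool.false_eq_true, false_and, not_false_eq_true, true_implies, false_implies,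
          and_true, Bool.or_false, true_and, hik, not_true_eq_false] at g1 g2 ⊢
        simp only [hik] at q1 q2
        exact R02_tf q1 q2 hν1 hν2 g1 g2
      · simp at hd
    · have n1 : ¬ (db1 = true ∧ i = p ∧ k = 0) := fun h => hik h.2
      have n2 : ¬ (db2 = true ∧ i = p ∧ k = 0) := fun h => hik h.2
      have n3 : ¬ ((db1 || db2) = true ∧ i = p ∧ k = 0) := fun h => hik h.2
      exact ⟨fun _ => R02_ff q1 q2 hν1 (g1.1 n1) (g2.1 n2), fun h => absurd h n3⟩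

end Pool.Agent.Aub
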