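import Mathlib
import Pool.Agent.Helper961.Aub.Base

set_option autoImplicit false

open Set Filter Topology

namespace Pool.Agent.Aub

theorem R04_hC_id {t : ℝ} (h1 : -1/4 ≤ t) (h2 : t ≤ 5/4) : hC t = t := by
  unfold hC; rw [min_eq_right h2, max_eq_right h1]

theorem R04_hX_id {t : ℝ} (h1 : -1/4 ≤ t) (h2 : t ≤ mm + 1/2) : hX t = t := by
  unfold hX; rw [min_eq_right h2, max_eq_right h1]

theorem R04_peel0 (q : Fin 3) (β c' : ℝ) (D : Fin 3 → ℤ) (z : Stk) :
    peel q β c' D z q 0 = hC (lam * (hC (z q 0) - β)) := by simp [peel]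

theorem R04_peel1 (q : Fin 3) (β c' : ℝ) (D : Fin 3 → ℤ) (z : Stk) :
    peel q β c' D z q 1 = c' := by simp [peel]

theorem R04_peeld (q : Fin 3) (β c' : ℝ) (D : Fin 3 → ℤ) (z : Stk) (k : Fin 3) :
    peel q β c' D z q (dt k) = hX (lam * (hX (z q (dt k)) - D k)) := by
  fin_cases k <;> simp [peel, dt]

theorem R04_peel0' {q i : Fin 3} (h : i ≠ q) (β c' : ℝ) (D : Fin 3 → ℤ) (z : Stk) :
    peel q β c' D z i 0 = hC (z i 0) := by simp [peel, h]

theorem R04_peel1' {q i : Fin 3} (h : i ≠ q) (β c' : ℝ) (D : Fin 3 → ℤ) (z : Stk) :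
    peel q β c' D z i 1 = hC (z i 1) := by simp [peel, h]

theorem R04_peeld' {q i : Fin 3} (h : i ≠ q) (β c' : ℝ) (D : Fin 3 → ℤ) (z : Stk) (k : Fin 3) :
    peel q β c' D z i (dt k) = hX (z i (dt k)) := by
  fin_cases k <;> simp [peel, dt, h]

theorem R04_ne : ∀ δ p : Fin 3, δ ≠ 0 → p - δ ≠ p + δ ∧ p ≠ p - δ ∧ p ≠ p + δ := by decide

theorem R04_cases : ∀ δ p i : Fin 3, δ ≠ 0 → i = p ∨ i = p - δ ∨ i = p + δ := by decide

theorem R04_kap0 : kap 0 ≤ (mm : ℝ) ^ 2 := by norm_num [kap, mm, MM]
theorem R04_kap1 : kap 1 ≤ (mm : ℝ) := by norm_num [kap, mm, MM]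
theorem R04_kap2 : kap 2 ≤ 1 := by norm_num [kap, mm, MM]
theorem R04_kap_nonneg (k : Fin 3) : 0 ≤ kap k := by
  unfold kap MM mm
  positivity

theorem R04_pay {a b : ℤ} (h : a ≤ b) {κ w : ℝ} (hκ : κ ≤ w) (hκ0 : 0 ≤ κ) :
    (if a < b then κ else 0) ≤ w * ((b : ℝ) - a) := by
  split_ifs with h1
  · have h2 : (1 : ℝ) ≤ (b : ℝ) - a := by
      have : a + 1 ≤ b := h1
      have : ((a : ℝ) + 1) ≤ b := by exact_mod_cast this
      linarith
    nlinarith
  · have h2 : (0 : ℝ) ≤ (b : ℝ) - a := by
      have : (a : ℝ) ≤ b := by exact_mod_cast h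
      linarith
    exact mul_nonneg (hκ0.trans hκ) h2

theorem R04_value (D g : Fin 3 → ℤ) (h : ∀ k, D k ≤ g k) :
    Vz D + ∑ k, (if D k < g k then kap k else 0) ≤ Vz g := by
  rw [Fin.sum_univ_three]
  have h0 := R04_pay (h 0) R04_kap0 (R04_kap_nonneg 0)
  have h1 := R04_pay (h 1) R04_kap1 (R04_kap_nonneg 1)
  have h2 := R04_pay (h 2) R04_kap2 (R04_kap_nonneg 2)
  unfold Vz
  linarith

/-- TARGET -/
theorem etick {δ : Fin 3} (hδ : δ ≠ 0) {p : Fin 3} {z z1 : Stk} {β : ℝ}
    (hb : rb Ty.E true (posn δ Ty.E p) z = some β) (h : TickRel δ Ty.E p z z1) :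
    rb Ty.F false (posn δ Ty.F (p + δ)) z1 = some (1 - β) ∧
    ¬ broken Ty.F false (posn δ Ty.F (p + δ)) (1 - β) z1 ∧
    subTy Ty.F (1 - β) = subTy Ty.E β ∧ subP δ Ty.F (p + δ) = subP δ Ty.E p ∧
    ∃ cr' db', Md (subTy Ty.E β) (subP δ Ty.E p) 0 cr' db'
        (sub δ Ty.E true p β z) (sub δ Ty.F false (p + δ) (1 - β) z1) ∧
      Vz (DD Ty.F false (posn δ Ty.F (p + δ)) z1) + cr'
        ≤ Vz (DD Ty.E true (posn δ Ty.E p) z) + db'.toNat := by
  obtain ⟨hsd, hps, hpd⟩ := R04_ne δ p hδ
  have e1 : posn δ Ty.E p = p - δ := by simp [posn]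
  have e2 : posn δ Ty.F (p + δ) = p + δ := by simp [posn]
  have r1 : rho Ty.E true = 7/32 := by norm_num [rho, stg]
  have r2 : rho Ty.F false = 5/32 := by norm_num [rho, stg]
  have m1 : mu Ty.E true = 0 := by norm_num [mu, stg]
  have m2 : mu Ty.F false = 1/16 := by norm_num [mu, stg]
  have p1 : subP δ Ty.E p = p + δ := by simp [subP]
  have p2 : subP δ Ty.F (p + δ) = p + δ := by simp [subP]
  obtain ⟨hp, hE, -⟩ := h
  have hMv := hE rfl
  rw [e1] at hb
  have hβ : (β = 0 ∧ z (p - δ) 0 ≤ 7/32) ∨ (β = 1 ∧ 25/32 ≤ z (p - δ) 0) := by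
    unfold rb at hb
    rw [r1] at hb
    split_ifs at hb with h1 h2
    · left; exact ⟨(Option.some.inj hb).symm, h1⟩
    · right; exact ⟨(Option.some.inj hb).symm, by linarith⟩
  have hM : MvB (p - δ) (p + δ) β z z1 := by
    rcases hβ with ⟨rfl, h1⟩ | ⟨rfl, h1⟩
    · exact hMv.1 (by linarith)
    · exact hMv.2 (by linarith)
  have hβ' : β = 0 ∨ β = 1 := hβ.imp And.left And.left
  rw [e1, e2, p1, p2]
  have hDD1 : DD Ty.E true (p - δ) z = fun k => Dg 0 (z (p - δ) (dt k)) := by
    unfold DD; rw [m1]
  have hDD2 : DD Ty.F false (p + δ) z1 = fun k => Dg (1/16) (z1 (p + δ) (dt k)) := by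
    unfold DD; rw [m2]
  have hsub1 : sub δ Ty.E true p β z = peel (p - δ) β (subC Ty.E true β (p - δ) z)
      (fun k => Dg 0 (z (p - δ) (dt k))) z := by
    unfold sub; rw [e1, hDD1]
  have hsub2 : sub δ Ty.F false (p + δ) (1 - β) z1 = peel (p + δ) (1 - β)
      (subC Ty.F false (1 - β) (p + δ) z1) (fun k => Dg (1/16) (z1 (p + δ) (dt k))) z1 := by
    unfold sub; rw [e2, hDD2]
  rw [hsub1, hsub2, hDD1, hDD2]
  have hcase := fun i => R04_cases δ p i hδ
  generalize hs : p - δ = s at *
  generalize hd : p + δ = d at *
  obtain ⟨b1, b2, b3, b4, b5, b6, b7, b8⟩ := hM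
  obtain ⟨db, g, hdb, hV, hk⟩ := b8
  have hlam : (0:ℝ) < lam := by norm_num [lam]
  rw [abs_le] at b2
  have hC0 : hC (z1 d 0) = z1 d 0 := by
    apply R04_hC_id
    · rcases hβ' with rfl | rfl <;> linarith [b2.1, b2.2]
    · rcases hβ' with rfl | rfl <;> linarith [b2.1, b2.2]
  refine ⟨?_, ?_, ?_, rfl, ?_⟩
  · unfold rb
    rw [r2]
    rcases hβ' with rfl | rfl
    · rw [if_neg (by linarith [b2.1]), if_pos (by linarith [b2.1]), sub_zero]
    · rw [if_pos (by linarith [b2.2]), sub_self]
  · rintro ⟨-, h1, h2⟩
    rw [r2] at h2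
    have hβ1 : β = 1 := by linarith
    have h3 := (abs_le.1 (b6 hβ1).1).2
    exact h2 (by linarith)
  · rcases hβ' with rfl | rfl <;> simp [subTy]
  · refine ⟨∑ k, (if Dg (1/16) (z1 d (dt k)) < g k then kap k else 0), db, ?_, ?_⟩
    · refine ⟨le_rfl, ?_, ?_, ?_, ?_⟩
      · -- bit b
        intro i
        rcases hcase i with rfl | rfl | rfl
        · rw [R04_peel0' hpd, R04_peel0' hps, hp]
          simp
        · rw [R04_peel0' hsd, R04_peel0, b1]
          simp
        · rw [R04_peel0, R04_peel0' hsd.symm, hC0, b3]
          simp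
      · -- bit c
        intro i
        rcases hcase i with rfl | rfl | rfl
        · left
          rw [R04_peel1' hpd, R04_peel1' hps, hp]
          simp
        · rw [R04_peel1' hsd, R04_peel1]
          have hc : subC Ty.E true β i z = cE (7/32) (z i 1) := by
            unfold subC
            rw [if_neg (by simp), r1]
          rw [hc]
          unfold cE
          split_ifs with h1 h2
          · left
            rw [b4 (by linarith)]
            simp
          · left
            rw [b5 (by linarith)]
            simp
          · right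
            constructor <;> norm_num
        · rw [R04_peel1, R04_peel1' hsd.symm]
          rcases hβ' with hb0 | hb1
          · have hc : subC Ty.F false (1 - β) i z1 = cF (5/32) (z1 i 1) := by
              unfold subC
              rw [if_pos (by simp [hb0]), r2]
            rw [hc]
            obtain ⟨c1, c2⟩ := b7 hb0
            by_cases h1 : z i 1 ≤ 1/4
            · left
              obtain ⟨a1, a2⟩ := c1 h1
              rw [abs_le] at a1
              have h3 : hC (z1 i 1) = z1 i 1 :=
                R04_hC_id (by linarith [a1.1]) (by linarith [a1.2])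
              have h4 : hC (z i 1) ≤ 1/4 := by
                unfold hC
                exact max_le (by norm_num) ((min_le_right _ _).trans h1)
              unfold cF
              rw [if_neg (by rintro ⟨h5, -⟩; linarith [a1.1]), if_pos
                ⟨by linarith [a1.1], by rw [h3, a2]; exact h4⟩, h3, a2]
              simp
            · by_cases h2 : 3/4 ≤ z i 1
              · left
                obtain ⟨a1, a2⟩ := c2 h2
                rw [abs_le] at a1
                have h3 : hC (z1 i 1) = z1 i 1 :=
                  R04_hC_id (by linarith [a1.1]) (by linarith [a1.2])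
                have h4 : 3/4 ≤ hC (z i 1) := by
                  unfold hC
                  exact le_max_of_le_right (le_min (by norm_num) h2)
                unfold cF
                rw [if_pos ⟨by linarith [a1.2], by rw [h3, a2]; exact h4⟩, h3, a2]
                simp
              · right
                push Not at h1 h2
                have h3 : hC (z i 1) = z i 1 := R04_hC_id (by linarith) (by linarith)
                rw [h3]
                constructor <;> linarith
          · left
            have hc : subC Ty.F false (1 - β) i z1 = cE (5/32) (z1 i 1) := by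
              unfold subC
              rw [if_neg (by simp [hb1]), r2]
            obtain ⟨a1, a2⟩ := b6 hb1
            rw [abs_le] at a1
            have h3 : hC (z1 i 1) = z1 i 1 :=
              R04_hC_id (by linarith [a1.1]) (by linarith [a1.2])
            rw [hc]
            unfold cE
            rw [if_pos (by linarith [a1.2]), h3, a2]
            simp
      · -- debit
        intro hdbt
        obtain ⟨h1, h2, -, -⟩ := hdb hdbt
        refine ⟨by simp [subTy, h1], ?_⟩
        rw [R04_peel0' hsd.symm]
        rcases h2 with h2 | h2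
        · left
          unfold hC
          rw [add_zero]
          exact max_le (by norm_num) ((min_le_right _ _).trans h2)
        · right
          unfold hC
          rw [sub_zero]
          exact le_max_of_le_right (le_min (by norm_num) h2)
      · refine ⟨fun i k => if i = d ∧ Dg (1/16) (z1 d (dt k)) < g k then kap k else 0, ?_, ?_, ?_⟩
        · intro i k
          show 0 ≤ if _ then kap k else 0
          split_ifs
          · exact R04_kap_nonneg k
          · exact le_rfl
        · rw [Finset.sum_eq_single d]
          · simp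
          · intro i _ hi
            simp [hi]
          · intro h
            exact absurd (Finset.mem_univ d) h
        · intro i k
          rcases hcase i with rfl | rfl | rfl
          · refine ⟨fun _ => Or.inr ?_, fun h => absurd h.2.1 hpd⟩
            rw [R04_peeld' hpd, R04_peeld' hps, hp, add_zero]
            exact le_max_left _ _
          · refine ⟨fun _ => Or.inr ?_, fun h => absurd h.2.1 hsd⟩
            rw [R04_peeld' hsd, R04_peeld, add_zero]
            exact (hk k).1
          · obtain ⟨-, k2, k3, k4, k5⟩ := hk k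
            have hXid : hX (z1 i (dt k)) = z1 i (dt k) :=
              R04_hX_id (by linarith) (by linarith)
            rw [R04_peeld, R04_peeld' hsd.symm, hXid]
            rcases k4.lt_or_eq with hlt | heq
            · -- payment
              have hpd' : kap k ≤ (if i = i ∧ Dg (1/16) (z1 i (dt k)) < g k then kap k else 0) := by
                rw [if_pos ⟨rfl, hlt⟩]
              refine ⟨fun _ => Or.inl hpd', ?_⟩
              rintro ⟨h1, -, h3⟩
              obtain ⟨-, -, h4, h5⟩ := hdb h1
              left
              refine ⟨?_, Or.inr hpd'⟩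
              subst h3
              have h6 : hX (z i (dt 0)) = z i 2 :=
                R04_hX_id (show -1/4 ≤ z i 2 by
                  have : (0:ℝ) ≤ mm := Nat.cast_nonneg _
                  linarith) (show z i 2 ≤ mm + 1/2 by linarith)
              rw [h6, sub_zero]
              exact le_max_of_le_left h4
            · have hle := k5 heq
              rw [← heq] at hle
              refine ⟨fun hsp => Or.inr ?_, ?_⟩
              · have h1 : ¬ (db = true ∧ k = 0) := fun h => hsp ⟨h.1, rfl, h.2⟩
                rw [if_neg h1, sub_zero] at hle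
                rw [add_zero]
                exact hle
              · rintro ⟨h1, -, h3⟩
                obtain ⟨-, -, h4, h5⟩ := hdb h1
                rw [if_pos ⟨h1, h3⟩] at hle
                subst h3
                left
                have hmm : (0:ℝ) ≤ mm := Nat.cast_nonneg _
                have h6 : hX (z i (dt 0)) = z i 2 :=
                  R04_hX_id (show -1/4 ≤ z i 2 by linarith) (show z i 2 ≤ mm + 1/2 by linarith)
                have h7 : hX (z i (dt 0) - mm) = z i 2 - mm :=
                  R04_hX_id (show -1/4 ≤ z i 2 - mm by linarith)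
                    (show z i 2 - mm ≤ mm + 1/2 by linarith)
                rw [h7] at hle
                rw [h6]
                refine ⟨?_, Or.inl ⟨?_, ?_⟩⟩
                · rw [sub_zero]
                  exact le_max_of_le_left h4
                · rw [add_zero]
                  exact hle
                · refine hle.trans (max_le ?_ ?_)
                  · linarith
                  · norm_num
    · have h1 := R04_value (fun k => Dg (1/16) (z1 d (dt k))) g (fun k => (hk k).2.2.2.1)
      have h2 : ((db.toNat : ℕ) : ℝ) = if db then 1 else 0 := by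
        cases db <;> simp
      rw [h2]
      exact h1.trans hV

end Pool.Agent.Aub
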