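import Mathlib
import Pool.Agent.Helper961.Aub.Base

set_option autoImplicit false

open Set Filter Topology

namespace Pool.Agent.Aub

theorem R05_hC_idem (t : ℝ) : hC (hC t) = hC t := by
  unfold hC
  rcases le_total t (5/4) with h | h
  · rw [min_eq_right h]
    rcases le_total t (-1/4) with h1 | h1
    · rw [max_eq_left h1]
      norm_num
    · rw [max_eq_right h1, min_eq_right h, max_eq_right h1]
  · rw [min_eq_left h]
    norm_num

theorem R05_hC_id {t : ℝ} (h1 : -1/4 ≤ t) (h2 : t ≤ 5/4) : hC t = t := by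
  unfold hC
  rw [min_eq_right h2, max_eq_right h1]

theorem R05_hC_le {t a : ℝ} (ha : -1/4 ≤ a) (ha' : a < 5/4) : hC t ≤ a ↔ t ≤ a := by
  unfold hC
  rw [max_le_iff, min_le_iff]
  constructor
  · rintro ⟨_, h | h⟩
    · linarith
    · exact h
  · intro h
    exact ⟨ha, Or.inr h⟩

theorem R05_le_hC {t a : ℝ} (ha : -1/4 < a) (ha' : a ≤ 5/4) : a ≤ hC t ↔ a ≤ t := by
  unfold hC
  rw [le_max_iff, le_min_iff]
  constructor
  · rintro (h | ⟨_, h⟩)
    · linarith
    · exact h
  · intro h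
    exact Or.inr ⟨ha', h⟩

theorem R05_hX_id {t : ℝ} (h1 : -1/4 ≤ t) (h2 : t ≤ mm + 1/2) : hX t = t := by
  unfold hX
  rw [min_eq_right h2, max_eq_right h1]

theorem R05_hX_mem (t : ℝ) : -1/4 ≤ hX t ∧ hX t ≤ mm + 1/2 := by
  unfold hX
  have h0 : (0:ℝ) ≤ (mm:ℝ) := Nat.cast_nonneg _
  refine ⟨le_max_left _ _, max_le (by linarith) (min_le_left _ _)⟩

theorem R05_hX_idem (t : ℝ) : hX (hX t) = hX t :=
  R05_hX_id (R05_hX_mem t).1 (R05_hX_mem t).2

theorem R05_Dg (μ t : ℝ) : Dg μ (hX t) = Dg μ t := by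
  unfold Dg
  rw [R05_hX_idem]

/-- `w` is the clamped version of `z` at stack `i` -/
def R05_cl (w z : Stk) (i : Fin 3) : Prop :=
  w i 0 = hC (z i 0) ∧ w i 1 = hC (z i 1) ∧ ∀ k, w i (dt k) = hX (z i (dt k))

theorem R05_dat {s d : Fin 3} {β : ℝ} {z z1 w ζ : Stk} (hws : R05_cl w z s) (hwd : R05_cl w z d)
    (hζs : R05_cl ζ z1 s) (hζd : R05_cl ζ z1 d) (h : DatRel s d β z z1) : DatRel s d β w ζ := by
  obtain ⟨db, g, h1, h2, h3⟩ := h
  have hm0 : (0:ℝ) ≤ (mm:ℝ) := Nat.cast_nonneg _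
  have hm4 : (1:ℝ) ≤ (mm:ℝ) := by norm_num [mm]
  have hw2 : w d 2 = hX (z d 2) := hwd.2.2 0
  refine ⟨db, g, ?_, ?_, ?_⟩
  · intro hdb
    obtain ⟨e1, e2, e3, e4⟩ := h1 hdb
    refine ⟨e1, ?_, ?_, ?_⟩
    · rw [hwd.1]
      rcases e2 with e2 | e2
      · left
        exact (R05_hC_le (by norm_num) (by norm_num)).2 e2
      · right
        exact (R05_le_hC (by norm_num) (by norm_num)).2 e2
    · rw [hw2, R05_hX_id (by linarith) (by linarith)]
      exact e3
    · rw [hw2, R05_hX_id (by linarith) (by linarith)]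
      exact e4
  · have e : (fun k => Dg 0 (w s (dt k))) = fun k => Dg 0 (z s (dt k)) := by
      funext k
      rw [hws.2.2 k, R05_Dg]
    rw [e]
    exact h2
  · intro k
    obtain ⟨e1, e2, e3, e4, e5⟩ := h3 k
    have hid : ζ d (dt k) = z1 d (dt k) := by
      rw [hζd.2.2 k]
      exact R05_hX_id (by linarith) (by linarith)
    refine ⟨?_, ?_, ?_, ?_, ?_⟩
    · rw [hζs.2.2 k, R05_hX_idem, hws.2.2 k, R05_hX_idem, R05_Dg]
      exact e1
    · rw [hid]
      exact e2
    · rw [hid]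
      exact e3
    · rw [hid]
      exact e4
    · rw [hid]
      intro hg
      refine (e5 hg).trans (le_of_eq ?_)
      congr 1
      rw [hwd.2.2 k]
      by_cases hc : db = true ∧ k = 0
      · simp only [if_pos hc]
        obtain ⟨hc1, hc2⟩ := hc
        obtain ⟨_, _, f3, f4⟩ := h1 hc1
        subst hc2
        have : hX (z d (dt 0)) = z d (dt 0) := by
          show hX (z d 2) = z d 2
          exact R05_hX_id (by linarith) (by linarith)
        rw [this]
      · simp only [if_neg hc, sub_zero]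
        rw [R05_hX_idem]

theorem R05_mvB {s d : Fin 3} {β : ℝ} (hβ : β = 0 ∨ β = 1) {z z1 w ζ : Stk}
    (hws : R05_cl w z s) (hwd : R05_cl w z d)
    (hζs : R05_cl ζ z1 s) (hζd : R05_cl ζ z1 d) (h : MvB s d β z z1) : MvB s d β w ζ := by
  obtain ⟨h1, h2, h3, h4, h5, h6, h7, h8⟩ := h
  have hb0 : 0 ≤ β := by
    rcases hβ with h | h
    · rw [h]
    · rw [h]; norm_num
  have hb1 : β ≤ 1 := by
    rcases hβ with h | h
    · rw [h]; norm_num
    · rw [h]
  have hz0 : ζ d 0 = z1 d 0 := by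
    rw [hζd.1]
    have := abs_le.1 h2
    exact R05_hC_id (by linarith [this.1]) (by linarith [this.2])
  have hz1 : ∀ a : ℝ, 0 ≤ a → a ≤ 1 → |z1 d 1 - a| ≤ 1/16 → ζ d 1 = z1 d 1 := by
    intro a ha ha' haa
    rw [hζd.2.1]
    have := abs_le.1 haa
    exact R05_hC_id (by linarith [this.1]) (by linarith [this.2])
  refine ⟨?_, ?_, ?_, ?_, ?_, ?_, ?_, R05_dat hws hwd hζs hζd h8⟩
  · rw [hζs.1, hws.1, R05_hC_idem, R05_hC_idem]
    exact h1
  · rw [hz0]
    exact h2
  · rw [hz0, hwd.1, R05_hC_idem]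
    exact h3
  · intro hc
    rw [hws.2.1, R05_hC_le (by norm_num) (by norm_num)] at hc
    rw [hζs.2.1, hws.2.1, R05_hC_idem, R05_hC_idem]
    exact h4 hc
  · intro hc
    rw [hws.2.1, R05_le_hC (by norm_num) (by norm_num)] at hc
    rw [hζs.2.1, hws.2.1, R05_hC_idem, R05_hC_idem]
    exact h5 hc
  · intro hb
    obtain ⟨e1, e2⟩ := h6 hb
    have := hz1 0 le_rfl zero_le_one (by rw [sub_zero]; exact e1)
    rw [this, hwd.2.1, R05_hC_idem]
    exact ⟨e1, e2⟩
  · intro hb
    obtain ⟨e1, e2⟩ := h7 hb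
    refine ⟨?_, ?_⟩
    · intro hc
      rw [hwd.2.1, R05_hC_le (by norm_num) (by norm_num)] at hc
      obtain ⟨f1, f2⟩ := e1 hc
      have := hz1 1 zero_le_one le_rfl f1
      rw [this, hwd.2.1, R05_hC_idem]
      exact ⟨f1, f2⟩
    · intro hc
      rw [hwd.2.1, R05_le_hC (by norm_num) (by norm_num)] at hc
      obtain ⟨f1, f2⟩ := e2 hc
      have := hz1 0 le_rfl zero_le_one (by rw [sub_zero]; exact f1)
      rw [this, hwd.2.1, R05_hC_idem]
      exact ⟨f1, f2⟩

theorem R05_mv {s d : Fin 3} {z z1 w ζ : Stk}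
    (hws : R05_cl w z s) (hwd : R05_cl w z d)
    (hζs : R05_cl ζ z1 s) (hζd : R05_cl ζ z1 d) (h : Mv s d z z1) : Mv s d w ζ := by
  refine ⟨?_, ?_⟩
  · intro hc
    rw [hws.1, R05_hC_le (by norm_num) (by norm_num)] at hc
    exact R05_mvB (Or.inl rfl) hws hwd hζs hζd (h.1 hc)
  · intro hc
    rw [hws.1, R05_le_hC (by norm_num) (by norm_num)] at hc
    exact R05_mvB (Or.inr rfl) hws hwd hζs hζd (h.2 hc)

theorem R05_peel_cl (q : Fin 3) (β c' : ℝ) (D : Fin 3 → ℤ) (z : Stk) {i : Fin 3} (hi : i ≠ q) :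
    R05_cl (peel q β c' D z) z i := by
  unfold peel
  refine ⟨?_, ?_, ?_⟩
  · simp only [if_neg hi]
    rfl
  · simp only [if_neg hi]
    rfl
  · intro k
    simp only [if_neg hi]
    fin_cases k <;> rfl

theorem R05_dat_ne (z z' : Stk) (q : Fin 3) (β c' c'' : ℝ) (D : Fin 3 → ℤ)
    (hz : ∀ tr, z' q tr = z q tr) (tr : Fin 5) (htr : tr ≠ 1) :
    peel q β c' D z' q tr = peel q β c'' D z q tr := by
  unfold peel
  simp only [if_true]
  fin_cases tr
  · simp [hz]
  · exact absurd rfl htr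
  · simp [hz]
  · simp [hz]
  · simp [hz]

theorem R05_peel_one (z : Stk) (q : Fin 3) (β c' : ℝ) (D : Fin 3 → ℤ) :
    peel q β c' D z q 1 = c' := by
  unfold peel
  simp

/-- TARGET -/
theorem ftick {δ : Fin 3} (hδ : δ ≠ 0) {p : Fin 3} {z z1 : Stk} {β : ℝ}
    (hb : rb Ty.F true (posn δ Ty.F p) z = some β) (h : TickRel δ Ty.F p z z1) :
    rb Ty.E false (posn δ Ty.E (p + δ)) z1 = some β ∧
    DD Ty.E false (posn δ Ty.E (p + δ)) z1 = DD Ty.F true (posn δ Ty.F p) z ∧
    (¬ broken Ty.F true (posn δ Ty.F p) β z →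
      subTy Ty.E β = (subTy Ty.F β).other ∧ subP δ Ty.E (p + δ) = subP δ Ty.F p + -δ ∧
      ∃ ζ, TickRel (-δ) (subTy Ty.F β) (subP δ Ty.F p) (sub δ Ty.F true p β z) ζ ∧
        Md (subTy Ty.F β).other (subP δ Ty.F p + -δ) 0 0 false ζ
          (sub δ Ty.E false (p + δ) β z1)) := by
  have hpF : posn δ Ty.F p = p := by simp [posn]
  have hpE : posn δ Ty.E (p + δ) = p := by simp [posn]
  have hrho1 : rho Ty.F true = 3/16 := by norm_num [rho, stg]
  have hrho2 : rho Ty.E false = 3/16 := by norm_num [rho, stg]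
  have hmu : mu Ty.E false = mu Ty.F true := by norm_num [mu, stg]
  obtain ⟨hz, -, hF⟩ := h
  obtain ⟨hF1, hF2⟩ := hF rfl
  rw [hpF] at hb
  rw [hpF, hpE]
  have hrb : rb Ty.E false p z1 = rb Ty.F true p z := by
    unfold rb
    rw [hrho1, hrho2, hz 0]
  have hDD : DD Ty.E false p z1 = DD Ty.F true p z := by
    unfold DD
    rw [hmu]
    funext k
    rw [hz]
  have hβ : β = 0 ∨ β = 1 := by
    unfold rb at hb
    split_ifs at hb
    · left
      exact (Option.some.inj hb).symm
    · right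
      exact (Option.some.inj hb).symm
  refine ⟨hrb.trans hb, hDD, ?_⟩
  intro hbr
  have hsubP : subP δ Ty.F p = p := by simp [subP]
  have hsubP2 : subP δ Ty.E (p + δ) = p + -δ := by
    simp only [subP, if_neg (by decide : ¬ Ty.E = Ty.F)]
    fin_cases δ <;> fin_cases p <;> rfl
  have hp1 : p + δ ≠ p := by
    intro hh
    apply hδ
    simpa using hh
  have hp2 : p - δ ≠ p := by
    intro hh
    apply hδ
    simpa using hh
  refine ⟨?_, ?_, ?_⟩
  · rcases hβ with h0 | h0 <;> subst h0 <;> simp [subTy, Ty.other]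
  · rw [hsubP, hsubP2]
  rw [hsubP]
  -- the two states
  have hw : sub δ Ty.F true p β z = peel p β (subC Ty.F true β p z) (DD Ty.F true p z) z := by
    unfold sub
    rw [hpF]
  have hw' : sub δ Ty.E false (p + δ) β z1 =
      peel p β (subC Ty.E false β p z1) (DD Ty.F true p z) z1 := by
    unfold sub
    rw [hpE, hDD]
  rw [hw, hw']
  set c1 : ℝ := subC Ty.F true β p z with hc1
  set c2 : ℝ := subC Ty.E false β p z1 with hc2
  set D := DD Ty.F true p z with hD
  have hws : ∀ i, i ≠ p → R05_cl (peel p β c1 D z) z i := fun i hi => R05_peel_cl p β c1 D z hi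
  have hc2' : c2 = cE (3/16) (z p 1) := by
    rw [hc2]
    simp only [subC]
    rw [if_neg (by simp), hrho2, hz]
  let ζ : Stk := fun i tr => if i = p then peel p β c1 D z i tr else peel p β c2 D z1 i tr
  have hζp : ∀ tr, ζ p tr = peel p β c1 D z p tr := fun tr => by simp [ζ]
  have hζn : ∀ i, i ≠ p → ∀ tr, ζ i tr = peel p β c2 D z1 i tr := fun i hi tr => by simp [ζ, hi]
  have hζs : ∀ i, i ≠ p → R05_cl ζ z1 i := by
    intro i hi
    have := R05_peel_cl p β c2 D z1 hi
    refine ⟨?_, ?_, ?_⟩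
    · rw [hζn i hi]
      exact this.1
    · rw [hζn i hi]
      exact this.2.1
    · intro k
      rw [hζn i hi]
      exact this.2.2 k
  have hA : Mv (p + δ) (p - δ) z z1 → Mv (p + δ) (p - δ) (peel p β c1 D z) ζ :=
    R05_mv (hws _ hp1) (hws _ hp2) (hζs _ hp1) (hζs _ hp2)
  have hB : Mv (p - δ) (p + δ) z z1 → Mv (p - δ) (p + δ) (peel p β c1 D z) ζ :=
    R05_mv (hws _ hp2) (hws _ hp1) (hζs _ hp2) (hζs _ hp1)
  refine ⟨ζ, ⟨hζp, ?_, ?_⟩, le_rfl, ?_, ?_, ?_, fun _ _ => 0, ?_, ?_, ?_⟩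
  · intro hE
    rw [sub_neg_eq_add, ← sub_eq_add_neg]
    have hb0 : β = 0 := by
      rcases hβ with h0 | h0
      · exact h0
      · exfalso
        subst h0
        simp [subTy] at hE
    have h316 : z p 1 ≤ 3/16 := by
      by_contra hcon
      exact hbr ⟨rfl, hb0, by rw [hrho1]; exact hcon⟩
    exact hA (hF1 (by linarith))
  · intro hE
    rw [sub_neg_eq_add, ← sub_eq_add_neg]
    have hb1 : β = 1 := by
      rcases hβ with h0 | h0
      · exfalso
        subst h0
        simp [subTy] at hE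
      · exact h0
    have hc1' : c1 = cF (3/16) (z p 1) := by
      rw [hc1]
      simp only [subC]
      rw [if_pos ⟨trivial, hb1⟩, hrho1]
    rw [R05_peel_one]
    refine ⟨?_, ?_⟩
    · intro hc
      rw [hc1'] at hc
      unfold cF at hc
      split_ifs at hc with g1 g2
      · exfalso
        linarith [g1.2]
      · exact hB (hF2 (by linarith [g2.1]))
      · exfalso
        norm_num at hc
    · intro hc
      rw [hc1'] at hc
      unfold cF at hc
      split_ifs at hc with g1 g2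
      · exact hA (hF1 (by linarith [g1.1]))
      · exfalso
        linarith [g2.2]
      · exfalso
        norm_num at hc
  · intro i
    by_cases hi : i = p
    · subst hi
      rw [hζp, R05_dat_ne z z1 i β c2 c1 D hz 0 (by decide)]
      simp
    · rw [hζn i hi]
      simp
  · intro i
    by_cases hi : i = p
    · subst hi
      rw [hζp, R05_peel_one, R05_peel_one, hc2']
      rcases hβ with h0 | h0
      · left
        have : c1 = cE (3/16) (z i 1) := by
          rw [hc1]
          simp only [subC]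
          rw [if_neg (by rw [h0]; simp), hrho1]
        rw [this]
        simp
      · have hc1' : c1 = cF (3/16) (z i 1) := by
          rw [hc1]
          simp only [subC]
          rw [if_pos ⟨trivial, h0⟩, hrho1]
        rw [hc1']
        by_cases g1 : z i 1 ≤ 3/16 ∧ 3/4 ≤ hC (lam * hC (z i 1))
        · left
          unfold cE cF
          rw [if_pos g1, if_pos g1.1]
          simp
        · by_cases g2 : 1 - 3/16 ≤ z i 1 ∧ hC (lam * (hC (z i 1) - 1)) ≤ 1/4
          · left
            unfold cE cF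
            rw [if_neg g1, if_pos g2, if_neg (by linarith [g2.1]), if_pos g2.1]
            simp
          · right
            unfold cF
            rw [if_neg g1, if_neg g2]
            norm_num
    · left
      rw [hζn i hi]
      simp
  · intro hcon
    exact absurd hcon (by decide)
  · intro i k
    exact le_rfl
  · simp
  · intro i k
    refine ⟨fun _ => Or.inr ?_, fun hcon => absurd hcon.1 (by decide)⟩
    have : peel p β c2 D z1 i (dt k) = ζ i (dt k) := by
      by_cases hi : i = p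
      · subst hi
        rw [hζp, R05_dat_ne z z1 i β c2 c1 D hz (dt k) ?_]
        fin_cases k <;> decide
      · rw [hζn i hi]
    rw [this, add_zero]
    exact le_max_left _ _

end Pool.Agent.Aub
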