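import Mathlib
import Pool.Agent.Helper961.Aub.Base

set_option autoImplicit false

open Set Filter Topology

namespace Pool.Agent.Aub

theorem R03_hC_mono {a b : ℝ} (h : a ≤ b) : hC a ≤ hC b := by
  unfold hC
  exact max_le_max le_rfl (min_le_min le_rfl h)

theorem R03_hC_add (a c : ℝ) (hc : 0 ≤ c) : hC (a + c) ≤ hC a + c := by
  unfold hC
  apply max_le
  · have := le_max_left (-1/4 : ℝ) (min (5/4) a)
    linarith
  · have h1 := le_max_right (-1/4 : ℝ) (min (5/4) a)
    have h2 : min (5/4 : ℝ) (a + c) ≤ min (5/4 : ℝ) a + c := by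
      rcases le_total (5/4 : ℝ) a with h | h
      · rw [min_eq_left h]
        exact (min_le_left _ _).trans (by linarith)
      · rw [min_eq_right h]
        exact min_le_right _ _
    linarith

theorem R03_hC_lip (a b : ℝ) : |hC a - hC b| ≤ |a - b| := by
  have key : ∀ a b : ℝ, hC a ≤ hC b + |a - b| := by
    intro a b
    refine (R03_hC_mono (?_ : a ≤ b + |a - b|)).trans (R03_hC_add b _ (abs_nonneg _))
    have := le_abs_self (a - b)
    linarith
  rw [abs_le]
  constructor
  · have := key b a
    rw [abs_sub_comm] at this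
    linarith
  · have := key a b
    linarith

theorem R03_hC_id {a : ℝ} (h1 : -1/4 ≤ a) (h2 : a ≤ 5/4) : hC a = a := by
  unfold hC
  rw [min_eq_right h2, max_eq_right h1]

theorem R03_hX_mono {a b : ℝ} (h : a ≤ b) : hX a ≤ hX b := by
  unfold hX
  exact max_le_max le_rfl (min_le_min le_rfl h)

theorem R03_hX_ub (a : ℝ) : hX a ≤ mm + 1/2 := by
  unfold hX mm
  apply max_le
  · norm_num
  · exact min_le_left _ _

theorem R03_hX_lb (a : ℝ) : -1/4 ≤ hX a := le_max_left _ _

theorem R03_hX_add (a c : ℝ) (hc : 0 ≤ c) : hX (a + c) ≤ hX a + c := by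
  unfold hX
  apply max_le
  · have := le_max_left (-1/4 : ℝ) (min (mm + 1/2) a)
    linarith
  · have h1 := le_max_right (-1/4 : ℝ) (min (mm + 1/2) a)
    have h2 : min ((mm : ℝ) + 1/2) (a + c) ≤ min ((mm : ℝ) + 1/2) a + c := by
      rcases le_total ((mm : ℝ) + 1/2) a with h | h
      · rw [min_eq_left h]
        exact (min_le_left _ _).trans (by linarith)
      · rw [min_eq_right h]
        exact min_le_right _ _
    linarith

/-- comparison with the positive part -/
theorem R03_hX_pos (a b c : ℝ) (hc : 0 ≤ c) (h : a ≤ max b 0 + c) : hX a ≤ max (hX b) 0 + c := by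
  have h1 := R03_hX_mono h
  have h2 := R03_hX_add (max b 0) c hc
  have h3 : hX (max b 0) ≤ max (hX b) 0 := by
    rcases le_total b 0 with hb | hb
    · rw [max_eq_right hb]
      have : hX 0 = 0 := by
        unfold hX mm
        norm_num
      rw [this]; exact le_max_right _ _
    · rw [max_eq_left hb]; exact le_max_left _ _
  linarith

theorem R03_Dg_nonneg (μ t : ℝ) : 0 ≤ Dg μ t := le_max_left _ _

theorem R03_Dg_le (μ t : ℝ) : Dg μ t ≤ (mm : ℤ) := by
  unfold Dg
  apply max_le
  · unfold mm; norm_num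
  · exact min_le_left _ _

theorem R03_Dg_mono (μ μ' t t' : ℝ) (hμ : μ ≤ 1/16)
    (h : hX t' + μ' ≤ max (hX t) 0 + μ) : Dg μ' t' ≤ Dg μ t := by
  rcases le_total 0 (hX t) with h0 | h0
  · rw [max_eq_left h0] at h
    unfold Dg
    apply max_le_max le_rfl
    apply min_le_min le_rfl
    apply Int.ceil_le_ceil
    linarith
  · rw [max_eq_right h0] at h
    have h1 : ⌈hX t' - 5/8 + μ'⌉ ≤ 0 := by
      apply Int.ceil_le.2
      push_cast
      linarith
    have h2 : Dg μ' t' ≤ 0 := by
      unfold Dg
      apply max_le le_rfl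
      exact (min_le_right _ _).trans h1
    exact h2.trans (R03_Dg_nonneg μ t)

theorem R03_Dg_zero (μ t : ℝ) (h : hX t - 5/8 + μ ≤ 0) : Dg μ t = 0 := by
  apply le_antisymm _ (R03_Dg_nonneg μ t)
  unfold Dg
  apply max_le le_rfl
  refine (min_le_right _ _).trans ?_
  apply Int.ceil_le.2
  push_cast
  exact h

theorem R03_Dg_top (μ t : ℝ) (h : (mm : ℝ) - 1 < hX t - 5/8 + μ) : Dg μ t = (mm : ℤ) := by
  apply le_antisymm (R03_Dg_le μ t)
  unfold Dg
  apply le_max_of_le_right
  apply le_min le_rfl
  have : (mm : ℤ) - 1 < ⌈hX t - 5/8 + μ⌉ := by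
    apply Int.lt_ceil.2
    push_cast
    exact h
  omega

theorem R03_coord {μ μ' κ w pd ν t t' s : ℝ} {sp : Prop}
    (hμμ : μ = μ' + 1/32) (hμ : μ ≤ 1/16) (hκ : 0 < κ) (hκw : κ ≤ w)
    (hw : MM * κ = w * mm + κ) (hpd : 0 ≤ pd) (hν0 : 0 ≤ ν) (hν : ν < 1/32)
    (hs : (sp ∧ s = MM ∧ μ = 1/16 ∧ w * mm = MM) ∨ (¬ sp ∧ s = 0))
    (h : Cd sp κ pd ν t t') :
    ∃ pd', 0 ≤ pd' ∧ w * (Dg μ' t' : ℝ) + s + pd' ≤ w * (Dg μ t : ℝ) + MM * pd ∧
      Cd False κ pd' (lam * ν) (hX (lam * (hX t - Dg μ t))) (hX (lam * (hX t' - Dg μ' t'))) := by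
  have hMM : (0 : ℝ) < MM := by unfold MM; norm_num
  have hlam : (1 : ℝ) ≤ lam := by unfold lam; norm_num
  have hlam0 : (0 : ℝ) ≤ lam := by linarith
  have hlν : 0 ≤ lam * ν := mul_nonneg hlam0 hν0
  have hw0 : 0 < w := lt_of_lt_of_le hκ hκw
  have hD0 : (0 : ℝ) ≤ (Dg μ t : ℝ) := by exact_mod_cast R03_Dg_nonneg μ t
  have hD'm : (Dg μ' t' : ℝ) ≤ (mm : ℝ) := by exact_mod_cast R03_Dg_le μ' t'
  have hwD : 0 ≤ w * (Dg μ t : ℝ) := mul_nonneg hw0.le hD0
  have hwD' : w * (Dg μ' t' : ℝ) ≤ w * mm := mul_le_mul_of_nonneg_left hD'm hw0.le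
  have hCκ : ∀ x x' : ℝ, Cd False κ κ (lam * ν) x x' := fun x x' =>
    ⟨fun _ => Or.inl le_rfl, fun h => h.elim⟩
  have hpaid : κ ≤ pd → MM * κ ≤ MM * pd := fun h => mul_le_mul_of_nonneg_left h hMM.le
  have hpd0 : 0 ≤ MM * pd := mul_nonneg hMM.le hpd
  rcases hs with ⟨hsp, hsM, hμ1, hwM⟩ | ⟨hsp, hs0⟩
  · have hzero : t' ≤ 1/4 + 2 * ν → Dg μ' t' = 0 := by
      intro ht'
      apply R03_Dg_zero
      have h1 : hX t' ≤ 5/16 := by
        have h2 := R03_hX_mono (show t' ≤ 5/16 by linarith)
        have h3 : hX (5/16) = 5/16 := by unfold hX mm; norm_num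
        linarith
      linarith
    rcases h.2 hsp with ⟨h1, h2⟩ | ⟨h1, h2⟩
    · have hmm : (mm : ℝ) = 4096 := by unfold mm; norm_num
      have ht0 : (mm : ℝ) - 1/4 - ν ≤ t := by
        rcases le_total t 0 with ht | ht
        · rw [max_eq_right ht] at h1
          linarith
        · rwa [max_eq_left ht] at h1
      have hXt : (mm : ℝ) - 1/4 - ν ≤ hX t := by
        unfold hX
        apply le_max_of_le_right
        apply le_min _ ht0
        linarith
      have hD : Dg μ t = (mm : ℤ) := by
        apply R03_Dg_top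
        rw [hμ1]
        linarith
      rcases h2 with ⟨h2, h3⟩ | h2
      · have hD' := hzero h3
        refine ⟨0, le_rfl, ?_, ?_⟩
        · rw [hD, hD', hsM]
          push_cast
          linarith
        · refine ⟨fun _ => Or.inr ?_, fun h => h.elim⟩
          rw [hD, hD']
          push_cast
          rw [sub_zero]
          have h4 : hX t' ≤ max (t - mm) 0 + ν := by
            have h5 : 0 ≤ max (t - mm) 0 := le_max_right _ _
            have h6 : t' ≤ 0 ∨ hX t' ≤ t' := by
              rcases le_total t' 0 with h | h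
              · exact Or.inl h
              · right
                unfold hX
                apply max_le (by linarith) (min_le_right _ _)
            rcases h6 with h6 | h6
            · have h7 := R03_hX_mono h6
              have h8 : hX 0 = 0 := by unfold hX mm; norm_num
              linarith
            · linarith
          rcases le_total t ((mm : ℝ) + 1/2) with ht | ht
          · have hXt2 : hX t = t := by
              unfold hX
              rw [min_eq_right ht, max_eq_right (by linarith)]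
            rw [hXt2]
            apply R03_hX_pos _ _ _ hlν
            have h5 := mul_le_mul_of_nonneg_left h4 hlam0
            have h6 : lam * (max (t - mm) 0 + ν) = max (lam * (t - mm)) 0 + lam * ν := by
              rw [mul_add, mul_max_of_nonneg _ _ hlam0, mul_zero]
            linarith
          · have hXt2 : hX t = (mm : ℝ) + 1/2 := by
              unfold hX
              rw [min_eq_left ht, max_eq_right (by linarith)]
            rw [hXt2]
            have h5 : hX (lam * ((mm : ℝ) + 1/2 - mm)) = (mm : ℝ) + 1/2 := by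
              unfold hX lam
              rw [min_eq_left (by rw [hmm]; norm_num), max_eq_right (by linarith)]
            rw [h5]
            have h6 := R03_hX_ub (lam * hX t')
            have h7 := le_max_left ((mm : ℝ) + 1/2) 0
            linarith
      · refine ⟨κ, hκ.le, ?_, hCκ _ _⟩
        have h3 := hpaid h2
        rw [hD, hsM]
        push_cast
        linarith
    · have h3 := hpaid h1
      refine ⟨κ, hκ.le, ?_, hCκ _ _⟩
      rcases h2 with h2 | h2
      · rw [hzero h2, hsM]
        push_cast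
        linarith
      · have h4 : MM * (2 * κ) ≤ MM * pd := mul_le_mul_of_nonneg_left h2 hMM.le
        rw [hsM]
        linarith
  · rcases h.1 hsp with h1 | h1
    · refine ⟨κ, hκ.le, ?_, hCκ _ _⟩
      have h3 := hpaid h1
      rw [hs0]
      linarith
    · have h2 := R03_hX_pos _ _ _ hν0 h1
      have h3 : Dg μ' t' ≤ Dg μ t := R03_Dg_mono μ μ' t t' hμ (by linarith)
      rcases eq_or_lt_of_le h3 with h4 | h4
      · refine ⟨0, le_rfl, ?_, ?_⟩
        · rw [h4, hs0]; linarith
        · refine ⟨fun _ => Or.inr ?_, fun h => h.elim⟩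
          rw [h4]
          rcases le_total 0 (hX t) with h5 | h5
          · rw [max_eq_left h5] at h2
            have h6 : lam * (hX t' - Dg μ t) ≤ lam * (hX t - Dg μ t) + lam * ν := by
              have := mul_le_mul_of_nonneg_left h2 hlam0
              linarith
            have h7 := (R03_hX_mono h6).trans (R03_hX_add _ _ hlν)
            have h8 := le_max_left (hX (lam * (hX t - Dg μ t))) 0
            linarith
          · rw [max_eq_right h5] at h2
            have h6 : Dg μ t = 0 := R03_Dg_zero μ t (by linarith)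
            rw [h6]
            push_cast
            rw [sub_zero]
            have h7 : lam * hX t' ≤ 0 + lam * ν := by
              have := mul_le_mul_of_nonneg_left h2 hlam0
              linarith
            have h8 := (R03_hX_mono h7).trans (R03_hX_add _ _ hlν)
            have h9 : hX 0 = 0 := by unfold hX mm; norm_num
            have h10 := le_max_right (hX (lam * (hX t - 0))) 0
            linarith
      · refine ⟨κ, hκ.le, ?_, hCκ _ _⟩
        have h5 : (Dg μ' t' : ℝ) + 1 ≤ (Dg μ t : ℝ) := by exact_mod_cast h4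
        have h6 := mul_le_mul_of_nonneg_left h5 hw0.le
        rw [hs0]
        linarith

theorem R03_cE {r r' c c' ν : ℝ} (hr0 : 0 ≤ r) (hr : r ≤ 3/16) (hr' : r' = r + 1/32)
    (hν0 : 0 ≤ ν) (hν : ν < 1/32) (h : |c' - c| ≤ ν ∨ (1/4 - ν < c ∧ c < 3/4 + ν)) :
    |cE r' c' - cE r c| ≤ lam * ν ∨ (1/4 - lam * ν < cE r c ∧ cE r c < 3/4 + lam * ν) := by
  have hlam : (1 : ℝ) ≤ lam := by unfold lam; norm_num
  have hlam0 : (0 : ℝ) ≤ lam := by linarith
  have hlν : 0 ≤ lam * ν := mul_nonneg hlam0 hν0
  by_cases h1 : c ≤ r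
  · have h2 : |c' - c| ≤ ν := by
      rcases h with h | h
      · exact h
      · exfalso; linarith [h.1]
    have h3 := abs_le.1 h2
    have h4 : c' ≤ r' := by linarith
    left
    unfold cE
    rw [if_pos h1, if_pos h4]
    refine (R03_hC_lip _ _).trans ?_
    rw [← mul_sub, abs_mul, abs_of_nonneg hlam0]
    exact mul_le_mul_of_nonneg_left ((R03_hC_lip _ _).trans h2) hlam0
  · by_cases h2 : 1 - r ≤ c
    · have h3 : |c' - c| ≤ ν := by
        rcases h with h | h
        · exact h
        · exfalso; linarith [h.2]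
      have h4 := abs_le.1 h3
      have h5 : 1 - r' ≤ c' := by linarith
      have h6 : ¬ c' ≤ r' := by intro h7; linarith
      left
      unfold cE
      rw [if_neg h1, if_pos h2, if_neg h6, if_pos h5]
      refine (R03_hC_lip _ _).trans ?_
      rw [← mul_sub, abs_mul, abs_of_nonneg hlam0]
      apply mul_le_mul_of_nonneg_left _ hlam0
      have h8 : hC c' - 1 - (hC c - 1) = hC c' - hC c := by ring
      rw [h8]
      exact (R03_hC_lip _ _).trans h3
    · right
      unfold cE
      rw [if_neg h1, if_neg h2]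
      constructor <;> linarith

theorem R03_cF {r r' c c' ν : ℝ} (hr0 : 0 ≤ r) (hr : r ≤ 3/16) (hr' : r' = r + 1/32)
    (hν0 : 0 ≤ ν) (hν : ν < 1/32) (h : |c' - c| ≤ ν ∨ (1/4 - ν < c ∧ c < 3/4 + ν)) :
    |cF r' c' - cF r c| ≤ lam * ν ∨ (1/4 - lam * ν < cF r c ∧ cF r c < 3/4 + lam * ν) := by
  have hlam : (1 : ℝ) ≤ lam := by unfold lam; norm_num
  have hlam0 : (0 : ℝ) ≤ lam := by linarith
  have hlν : 0 ≤ lam * ν := mul_nonneg hlam0 hν0
  by_cases h1 : c ≤ r ∧ 3/4 ≤ hC (lam * hC c)
  · have h2 : |c' - c| ≤ ν := by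
      rcases h with h | h
      · exact h
      · exfalso; linarith [h.1, h1.1]
    have h3 := abs_le.1 h2
    have h4 : c' ≤ r' := by linarith [h1.1]
    have h5 : |hC (lam * hC c') - hC (lam * hC c)| ≤ lam * ν := by
      refine (R03_hC_lip _ _).trans ?_
      rw [← mul_sub, abs_mul, abs_of_nonneg hlam0]
      exact mul_le_mul_of_nonneg_left ((R03_hC_lip _ _).trans h2) hlam0
    by_cases h6 : 3/4 ≤ hC (lam * hC c')
    · left
      unfold cF
      rw [if_pos h1, if_pos ⟨h4, h6⟩]
      exact h5
    · right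
      unfold cF
      rw [if_pos h1]
      have h7 := abs_le.1 h5
      constructor
      · linarith [h1.2]
      · linarith [h7.1, not_le.1 h6]
  · by_cases h2 : 1 - r ≤ c ∧ hC (lam * (hC c - 1)) ≤ 1/4
    · have h3 : |c' - c| ≤ ν := by
        rcases h with h | h
        · exact h
        · exfalso; linarith [h.2, h2.1]
      have h4 := abs_le.1 h3
      have h5 : 1 - r' ≤ c' := by linarith [h2.1]
      have h6 : ¬ c' ≤ r' := by intro h7; linarith
      have h8 : |hC (lam * (hC c' - 1)) - hC (lam * (hC c - 1))| ≤ lam * ν := by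
        refine (R03_hC_lip _ _).trans ?_
        rw [← mul_sub, abs_mul, abs_of_nonneg hlam0]
        apply mul_le_mul_of_nonneg_left _ hlam0
        have h8 : hC c' - 1 - (hC c - 1) = hC c' - hC c := by ring
        rw [h8]
        exact (R03_hC_lip _ _).trans h3
      by_cases h9 : hC (lam * (hC c' - 1)) ≤ 1/4
      · left
        unfold cF
        rw [if_neg h1, if_pos h2, if_neg (fun hh => h6 hh.1), if_pos ⟨h5, h9⟩]
        exact h8
      · right
        unfold cF
        rw [if_neg h1, if_pos h2]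
        have h10 := abs_le.1 h8
        constructor
        · linarith [h10.2, not_le.1 h9]
        · linarith [h2.2]
    · right
      unfold cF
      rw [if_neg h1, if_neg h2]
      constructor <;> linarith

/-- constants -/
theorem R03_kap (k : Fin 3) : 0 < kap k ∧ kap k ≤ (mm : ℝ) ^ (2 - k.1) ∧
    MM * kap k = (mm : ℝ) ^ (2 - k.1) * mm + kap k := by
  unfold kap mm MM
  fin_cases k <;> norm_num

theorem R03_rho (ty : Ty) : rho ty true = rho ty false + 1/32 ∧ mu ty false = mu ty true + 1/32 ∧
    mu ty false ≤ 1/16 ∧ 0 ≤ rho ty false ∧ rho ty false ≤ 3/16 := by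
  cases ty <;> simp only [rho, mu, stg] <;> norm_num

theorem R03_Vz (g : Fin 3 → ℤ) : Vz g = ∑ k : Fin 3, (mm : ℝ) ^ (2 - k.1) * (g k : ℝ) := by
  unfold Vz
  rw [Fin.sum_univ_three]
  norm_num

theorem R03_sub_dt (δ : Fin 3) (ty : Ty) (post : Bool) (p : Fin 3) (β : ℝ) (z : Stk) (i k : Fin 3) :
    sub δ ty post p β z i (dt k) = if i = posn δ ty p then
      hX (lam * (hX (z (posn δ ty p) (dt k)) - DD ty post (posn δ ty p) z k)) else
      hX (z i (dt k)) := by
  unfold sub peel
  by_cases hi : i = posn δ ty p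
  · rw [if_pos hi, if_pos hi]
    fin_cases k <;> rfl
  · rw [if_neg hi, if_neg hi]
    fin_cases k <;> rfl

theorem R03_sub_0 (δ : Fin 3) (ty : Ty) (post : Bool) (p : Fin 3) (β : ℝ) (z : Stk) (i : Fin 3) :
    sub δ ty post p β z i 0 = if i = posn δ ty p then
      hC (lam * (hC (z (posn δ ty p) 0) - β)) else hC (z i 0) := by
  unfold sub peel
  by_cases hi : i = posn δ ty p
  · rw [if_pos hi, if_pos hi]
    rfl
  · rw [if_neg hi, if_neg hi]
    rfl

theorem R03_sub_1 (δ : Fin 3) (ty : Ty) (post : Bool) (p : Fin 3) (β : ℝ) (z : Stk) (i : Fin 3) :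
    sub δ ty post p β z i 1 = if i = posn δ ty p then
      subC ty post β (posn δ ty p) z else hC (z i 1) := by
  unfold sub peel
  by_cases hi : i = posn δ ty p
  · rw [if_pos hi, if_pos hi]
    rfl
  · rw [if_neg hi, if_neg hi]
    rfl

/-- TARGET -/
theorem mod_step {δ : Fin 3} (hδ : δ ≠ 0) {ty : Ty} {p : Fin 3} {ν cr : ℝ} {db : Bool}
    {z z' : Stk} (h : Md ty p ν cr db z z') (hν : ν < 1/32) {β : ℝ}
    (hb : rb ty false (posn δ ty p) z = some β) :
    rb ty true (posn δ ty p) z' = some β ∧
    Vz (DD ty true (posn δ ty p) z') + MM * db.toNat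
      ≤ Vz (DD ty false (posn δ ty p) z) + MM * cr ∧
    (¬ broken ty false (posn δ ty p) β z →
      ¬ broken ty true (posn δ ty p) β z' ∧
      ∃ cr', Md (subTy ty β) (subP δ ty p) (lam * ν) cr' false
          (sub δ ty false p β z) (sub δ ty true p β z') ∧
        Vz (DD ty true (posn δ ty p) z') + MM * db.toNat + cr'
          ≤ Vz (DD ty false (posn δ ty p) z) + MM * cr) := by
  obtain ⟨hν0, hb0, hc, hdb, pd, hpd0, hpdcr, hCd⟩ := h
  obtain ⟨hρ, hμ, hμ1, hρ0, hρ1⟩ := R03_rho ty
  have hMM : (0 : ℝ) < MM := by unfold MM; norm_num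
  have hMM1 : (1 : ℝ) ≤ MM := by unfold MM; norm_num
  have hlam : (1 : ℝ) ≤ lam := by unfold lam; norm_num
  have hlam0 : (0 : ℝ) ≤ lam := by linarith
  have hlν : 0 ≤ lam * ν := mul_nonneg hlam0 hν0
  have hνl : ν ≤ lam * ν := by nlinarith
  obtain ⟨q, hq⟩ : ∃ q, q = posn δ ty p := ⟨_, rfl⟩
  -- the bit
  have hrb : rb ty true (posn δ ty p) z' = some β := by
    rw [← hq] at hb ⊢
    have h1 := abs_le.1 (hb0 q)
    unfold rb at hb ⊢
    split_ifs at hb with h2 h3
    · have h4 : z' q 0 ≤ rho ty true := by linarith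
      rw [if_pos h4]; exact hb
    · have h4 : 1 - rho ty true ≤ z' q 0 := by linarith
      have h5 : ¬ z' q 0 ≤ rho ty true := by intro h6; linarith
      rw [if_neg h5, if_pos h4]; exact hb
  -- the debit sits at the top of the stack `q`
  have hdbq : db = true → p = q ∧ mu ty false = 1/16 := by
    intro h1
    obtain ⟨h2, _⟩ := hdb h1
    subst h2
    refine ⟨?_, ?_⟩
    · rw [hq]; simp [posn]
    · simp only [mu, stg]; norm_num
  -- the coordinates
  have hco : ∀ i k : Fin 3, ∃ e : ℝ, 0 ≤ e ∧
      (i = q → (mm : ℝ) ^ (2 - k.1) * (DD ty true q z' k : ℝ) +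
        (if k = 0 then MM * (db.toNat : ℝ) else 0) + e ≤
        (mm : ℝ) ^ (2 - k.1) * (DD ty false q z k : ℝ) + MM * pd i k) ∧
      (i ≠ q → e ≤ MM * pd i k) ∧
      Cd False (kap k) e (lam * ν) (sub δ ty false p β z i (dt k))
        (sub δ ty true p β z' i (dt k)) := by
    intro i k
    obtain ⟨hk0, hk1, hk2⟩ := R03_kap k
    by_cases hi : i = q
    · have hs : ((db = true ∧ i = p ∧ k = 0) ∧ (if k = 0 then MM * (db.toNat : ℝ) else 0) = MM ∧
          mu ty false = 1/16 ∧ (mm : ℝ) ^ (2 - k.1) * mm = MM) ∨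
          (¬ (db = true ∧ i = p ∧ k = 0) ∧ (if k = 0 then MM * (db.toNat : ℝ) else 0) = 0) := by
        by_cases hd : db = true
        · obtain ⟨h1, h2⟩ := hdbq hd
          by_cases hk : k = 0
          · left
            refine ⟨⟨hd, by rw [hi, h1], hk⟩, ?_, h2, ?_⟩
            · rw [if_pos hk, hd]; simp
            · rw [hk]; unfold mm MM; norm_num
          · right
            refine ⟨fun h => hk h.2.2, by rw [if_neg hk]⟩
        · right
          refine ⟨fun h => hd h.1, ?_⟩
          have : db = false := by simpa using hd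
          rw [this]; simp
      obtain ⟨e, he0, he1, he2⟩ := R03_coord hμ hμ1 hk0 hk1 hk2 (hpd0 i k) hν0 hν hs (hCd i k)
      refine ⟨e, he0, ?_, fun h => absurd hi h, ?_⟩
      · intro _
        rw [hi] at he1 ⊢
        exact he1
      · rw [R03_sub_dt, R03_sub_dt, ← hq, if_pos hi, if_pos hi]
        rw [hi] at he2
        exact he2
    · refine ⟨pd i k, hpd0 i k, fun h => absurd h hi, fun _ => ?_, ?_⟩
      · have := hpd0 i k
        nlinarith
      · have hns : ¬ (db = true ∧ i = p ∧ k = 0) := by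
          rintro ⟨h1, h2, _⟩
          apply hi
          rw [h2]; exact (hdbq h1).1
        rw [R03_sub_dt, R03_sub_dt, ← hq, if_neg hi, if_neg hi]
        refine ⟨fun _ => ?_, fun h => h.elim⟩
        rcases (hCd i k).1 hns with h1 | h1
        · exact Or.inl h1
        · right
          have := R03_hX_pos _ _ _ hν0 h1
          linarith
  choose e he0 he1 he2 he3 using hco
  -- the total
  have htot : Vz (DD ty true (posn δ ty p) z') + MM * db.toNat + ∑ i, ∑ k, e i k
      ≤ Vz (DD ty false (posn δ ty p) z) + MM * cr := by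
    rw [← hq]
    have h1 : ∀ i, ∑ k, e i k + (if i = q then
        (Vz (DD ty true q z') + MM * db.toNat - Vz (DD ty false q z)) else 0) ≤
        MM * ∑ k, pd i k := by
      intro i
      by_cases hi : i = q
      · rw [if_pos hi, R03_Vz, R03_Vz, Finset.mul_sum]
        have h2 := fun k => he1 i k hi
        rw [Fin.sum_univ_three, Fin.sum_univ_three, Fin.sum_univ_three, Fin.sum_univ_three]
        have h3 := h2 0
        have h4 := h2 1
        have h5 := h2 2
        rw [if_pos rfl] at h3
        rw [if_neg (by decide)] at h4 h5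
        linarith
      · rw [if_neg hi, add_zero, Finset.mul_sum]
        exact Finset.sum_le_sum fun k _ => he2 i k hi
    have h2 := Finset.sum_le_sum (fun i (_ : i ∈ Finset.univ) => h1 i)
    rw [Finset.sum_add_distrib, ← Finset.mul_sum, Finset.sum_ite_eq' Finset.univ q,
      if_pos (Finset.mem_univ _)] at h2
    have h3 := mul_le_mul_of_nonneg_left hpdcr hMM.le
    linarith
  have hesum : 0 ≤ ∑ i, ∑ k, e i k :=
    Finset.sum_nonneg fun i _ => Finset.sum_nonneg fun k _ => he0 i k
  refine ⟨hrb, by linarith, ?_⟩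
  intro hbr
  rw [← hq] at hbr
  refine ⟨?_, ∑ i, ∑ k, e i k, ⟨hlν, ?_, ?_, fun h => by simp at h, e, he0, le_rfl, ?_⟩, htot⟩
  · rw [← hq]
    rintro ⟨h1, h2, h3⟩
    apply h3
    have h4 : z q 1 ≤ rho ty false := by
      by_contra h5
      exact hbr ⟨h1, h2, h5⟩
    rcases hc q with h5 | h5
    · have := abs_le.1 h5
      linarith
    · exfalso
      linarith [h5.1]
  · intro i
    rw [R03_sub_0, R03_sub_0, ← hq]
    by_cases hi : i = q
    · rw [if_pos hi, if_pos hi]
      refine (R03_hC_lip _ _).trans ?_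
      rw [← mul_sub, abs_mul, abs_of_nonneg hlam0]
      apply mul_le_mul_of_nonneg_left _ hlam0
      have h8 : hC (z' q 0) - β - (hC (z q 0) - β) = hC (z' q 0) - hC (z q 0) := by ring
      rw [h8]
      exact (R03_hC_lip _ _).trans (hb0 q)
    · rw [if_neg hi, if_neg hi]
      exact ((R03_hC_lip _ _).trans (hb0 i)).trans hνl
  · intro i
    rw [R03_sub_1, R03_sub_1, ← hq]
    by_cases hi : i = q
    · rw [if_pos hi, if_pos hi]
      unfold subC
      by_cases h1 : ty = Ty.F ∧ β = 1
      · rw [if_pos h1, if_pos h1]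
        exact R03_cF hρ0 hρ1 hρ hν0 hν (hc q)
      · rw [if_neg h1, if_neg h1]
        exact R03_cE hρ0 hρ1 hρ hν0 hν (hc q)
    · rw [if_neg hi, if_neg hi]
      rcases hc i with h1 | h1
      · left
        exact ((R03_hC_lip _ _).trans h1).trans hνl
      · right
        rw [R03_hC_id (by linarith [h1.1]) (by linarith [h1.2])]
        constructor <;> linarith [h1.1, h1.2]
  · intro i k
    have h1 : (false = true ∧ i = subP δ ty p ∧ k = 0) = False := by simp
    rw [h1]
    exact he3 i k

end Pool.Agent.Aub
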