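import Mathlib
import Pool.Agent.Helper961.Aub.Base

set_option autoImplicit false

open Set Filter Topology

namespace Pool.Agent.Aub

theorem R01_Dg (μ t : ℝ) : (0 : ℝ) ≤ (Dg μ t : ℝ) ∧ (Dg μ t : ℝ) ≤ 4096 := by
  have h1 : (0 : ℤ) ≤ Dg μ t := le_max_left _ _
  have h2 : Dg μ t ≤ 4096 := by
    unfold Dg
    refine max_le (by norm_num) ((min_le_left _ _).trans ?_)
    simp [mm]
  constructor
  · exact_mod_cast h1
  · exact_mod_cast h2

theorem R01_Vz (ty : Ty) (post : Bool) (q : Fin 3) (z : Stk) :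
    0 ≤ Vz (DD ty post q z) ∧ Vz (DD ty post q z) ≤ 4096 ^ 3 + 4096 ^ 2 + 4096 := by
  have h0 := R01_Dg (mu ty post) (z q (dt 0))
  have h1 := R01_Dg (mu ty post) (z q (dt 1))
  have h2 := R01_Dg (mu ty post) (z q (dt 2))
  have e : Vz (DD ty post q z) = 4096 ^ 2 * (Dg (mu ty post) (z q (dt 0)) : ℝ) +
      4096 * (Dg (mu ty post) (z q (dt 1)) : ℝ) + (Dg (mu ty post) (z q (dt 2)) : ℝ) := by
    unfold Vz DD mm
    norm_num
  rw [e]
  constructor
  · linarith [h0.1, h1.1, h2.1]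
  · linarith [h0.2, h1.2, h2.2]

theorem R01_step (x y : ℝ) (hx0 : 0 ≤ x) (hx : x ≤ 4096 ^ 3 + 4096 ^ 2 + 4096) (hy0 : 0 ≤ y)
    (hy : y ≤ 2) : 0 ≤ (x + y) / MM ∧ (x + y) / MM ≤ 2 := by
  have hMM : (0 : ℝ) < MM := by unfold MM; norm_num
  constructor
  · positivity
  · rw [div_le_iff₀ hMM]
    unfold MM
    norm_num at hx
    linarith

theorem R01_both (N : ℕ) : ∀ post δ ty p z, 0 ≤ UU N post δ ty p z ∧ UU N post δ ty p z ≤ 2 := by
  induction N with
  | zero =>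
    intro post δ ty p z
    unfold UU
    norm_num
  | succ N ih =>
    intro post δ ty p z
    unfold UU
    split
    · norm_num
    · have hV := R01_Vz ty post (posn δ ty p) z
      split_ifs
      · exact R01_step _ _ hV.1 hV.2 (by norm_num) le_rfl
      · exact R01_step _ _ hV.1 hV.2 (ih _ _ _ _ _).1 (ih _ _ _ _ _).2

/-- TARGET -/
theorem UU_nonneg (N : ℕ) : ∀ post δ ty p z, 0 ≤ UU N post δ ty p z :=
  fun post δ ty p z => (R01_both N post δ ty p z).1

/-- TARGET -/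
theorem UU_le (N : ℕ) : ∀ post δ ty p z, UU N post δ ty p z ≤ 2 :=
  fun post δ ty p z => (R01_both N post δ ty p z).2

end Pool.Agent.Aub
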