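import Mathlib
import Pool.Agent.Helper961.Aub.Base
import Pool.Agent.Helper961.Aub.RUU
import Pool.Agent.Helper961.Aub.RComp
import Pool.Agent.Helper961.Aub.RMod
import Pool.Agent.Helper961.Aub.REtick
import Pool.Agent.Helper961.Aub.RFtick

set_option autoImplicit false

open Set Filter Topology

namespace Pool.Agent.Aub

/-- extension property of a state right after a tick (or at the start) -/
def R06_TrP (δ : Fin 3) (ty0 : Ty) (p0 : Fin 3) (z0 : Stk) (ty : Ty) (p : Fin 3) (ζ : Stk)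
    (e cr : ℝ) (d n : ℕ) : Prop :=
  ∀ (ν cr1 : ℝ) (db : Bool) (z : Stk), Md ty p ν cr1 db ζ z →
    Tr δ ty0 p0 z0 ty p z e ν (cr + cr1) (d + db.toNat) n

theorem R06_TrP_start (δ : Fin 3) (ty0 : Ty) (p0 : Fin 3) (z0 : Stk) :
    R06_TrP δ ty0 p0 z0 ty0 p0 z0 0 0 0 0 := by
  intro ν cr1 db z h
  rw [zero_add, zero_add]
  exact Tr.base ν cr1 db z h

theorem R06_TrP_tick {δ : Fin 3} {ty0 : Ty} {p0 : Fin 3} {z0 : Stk} {ty : Ty} {p : Fin 3} {z z1 : Stk}
    {e ν cr : ℝ} {d n : ℕ} (h : Tr δ ty0 p0 z0 ty p z e ν cr d n) (h1 : TickRel δ ty p z z1) :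
    R06_TrP δ ty0 p0 z0 ty.other (p + δ) z1 (e + ν ^ 2) cr d (n + 1) := by
  intro ν' cr' db z2 h2
  exact Tr.step ty p z e ν cr d n h z1 z2 h1 ν' cr' db h2

theorem R06_Md_cr {ty : Ty} {p : Fin 3} {ν cr : ℝ} {db : Bool} {z z' : Stk}
    (h : Md ty p ν cr db z z') : 0 ≤ ν ∧ 0 ≤ cr := by
  obtain ⟨h0, -, -, -, pd, hpd, hs, -⟩ := h
  refine ⟨h0, le_trans ?_ hs⟩
  exact Finset.sum_nonneg fun i _ => Finset.sum_nonneg fun k _ => hpd i k

theorem R06_toNat_le (db : Bool) : (db.toNat : ℝ) ≤ 1 := by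
  cases db <;> simp

theorem R06_Tr_basic {δ : Fin 3} {ty0 : Ty} {p0 : Fin 3} {z0 : Stk} {ty : Ty} {p : Fin 3} {z : Stk}
    {e ν cr : ℝ} {d n : ℕ} (h : Tr δ ty0 p0 z0 ty p z e ν cr d n) :
    0 ≤ e ∧ 0 ≤ cr ∧ (d : ℝ) ≤ n + 1 := by
  induction h with
  | base ν cr db z h =>
    refine ⟨le_rfl, (R06_Md_cr h).2, ?_⟩
    have := R06_toNat_le db
    push_cast
    linarith
  | step ty p z e ν cr d n h z1 z2 h1 ν' cr' db h2 ih =>
    obtain ⟨a1, a2, a3⟩ := ih
    refine ⟨by positivity, by have := (R06_Md_cr h2).2; linarith, ?_⟩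
    have := R06_toNat_le db
    push_cast
    linarith

theorem R06_MM_pos : (0:ℝ) < MM := by unfold MM; norm_num

theorem R06_UU_some {N : ℕ} {post : Bool} {δ : Fin 3} {ty : Ty} {p : Fin 3} {z : Stk} {β : ℝ}
    (h : rb ty post (posn δ ty p) z = some β) (hb : ¬ broken ty post (posn δ ty p) β z) :
    UU (N + 1) post δ ty p z = (Vz (DD ty post (posn δ ty p) z) +
      UU N post (-δ) (subTy ty β) (subP δ ty p) (sub δ ty post p β z)) / MM := by
  rw [UU, h]
  simp only
  rw [if_neg hb]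

theorem R06_UU_broken {N : ℕ} {post : Bool} {δ : Fin 3} {ty : Ty} {p : Fin 3} {z : Stk} {β : ℝ}
    (h : rb ty post (posn δ ty p) z = some β) (hb : broken ty post (posn δ ty p) β z) :
    UU (N + 1) post δ ty p z = (Vz (DD ty post (posn δ ty p) z) + 2) / MM := by
  rw [UU, h]
  simp only
  rw [if_pos hb]

theorem R06_UU_le_some {N : ℕ} {post : Bool} {δ : Fin 3} {ty : Ty} {p : Fin 3} {z : Stk} {β : ℝ}
    (h : rb ty post (posn δ ty p) z = some β) :
    UU (N + 1) post δ ty p z ≤ (Vz (DD ty post (posn δ ty p) z) + 2) / MM := by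
  by_cases hb : broken ty post (posn δ ty p) β z
  · rw [R06_UU_broken h hb]
  · rw [R06_UU_some h hb]
    have := UU_le N post (-δ) (subTy ty β) (subP δ ty p) (sub δ ty post p β z)
    have hM := R06_MM_pos
    gcongr

theorem R06_UU_none {N : ℕ} {post : Bool} {δ : Fin 3} {ty : Ty} {p : Fin 3} {z : Stk}
    (h : rb ty post (posn δ ty p) z = none) : UU (N + 1) post δ ty p z = 2 := by
  rw [UU, h]

theorem R06_nodebit {δ : Fin 3} {ty : Ty} {p : Fin 3} {ν cr : ℝ} {db : Bool} {z z' : Stk}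
    (h : Md ty p ν cr db z z') (hν : ν < 1/32) (hn : rb ty false (posn δ ty p) z = none) :
    db = false := by
  obtain ⟨-, -, -, h4, -⟩ := h
  cases db with
  | false => rfl
  | true =>
    exfalso
    obtain ⟨h5, h6⟩ := h4 rfl
    subst h5
    have hr : rho Ty.F false = 5/32 := by
      unfold rho stg; norm_num
    unfold rb posn at hn
    rw [hr] at hn
    simp only [if_true] at hn
    rcases h6 with h6 | h6
    · rw [if_pos (by linarith)] at hn
      exact absurd hn (by simp)
    · by_cases h7 : z p 0 ≤ 5/32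
      · rw [if_pos h7] at hn
        exact absurd hn (by simp)
      · rw [if_neg h7, if_pos (by linarith)] at hn
        exact absurd hn (by simp)

/-- the main alternative of the invariant -/
def R06_b (N : ℕ) (δ : Fin 3) (R0 : ℝ) (ty : Ty) (p : Fin 3) (z : Stk) (e ν cr : ℝ) (d n : ℕ) : Prop :=
  ∃ (β : ℝ) (tyr : Ty) (pr : Fin 3) (zr : Stk) (βr Er crr : ℝ) (dr nr : ℕ) (e' ν' cr' : ℝ) (d' n' : ℕ),
    rb ty true (posn δ ty p) z = some β ∧ ¬ broken ty true (posn δ ty p) β z ∧
    rb tyr false (posn δ tyr pr) zr = some βr ∧ ¬ broken tyr false (posn δ tyr pr) βr zr ∧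
    UU (N + 1) false δ tyr pr zr + dr ≤ R0 + 3072 * Er + crr + nr / MM ^ (N + 1) ∧
    n' + nr ≤ n ∧
    Tr (-δ) (subTy tyr βr) (subP δ tyr pr) (sub δ tyr false pr βr zr)
      (subTy ty β) (subP δ ty p) (sub δ ty true p β z) e' ν' cr' d' n' ∧
    Vz (DD ty true (posn δ ty p) z) + MM * ((d : ℝ) - dr) + cr'
      ≤ Vz (DD tyr false (posn δ tyr pr) zr) + MM * (cr - crr) + d' ∧
    (ty = Ty.F → e' + ν' ^ 2 ≤ 2 * lam ^ 2 * (e + ν ^ 2 - Er)) ∧
    (ty = Ty.E → e' + 2 * ν' ^ 2 ≤ 2 * lam ^ 2 * (e + ν ^ 2 - Er) ∧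
      ∃ (ζ : Stk) (cr0 crl : ℝ), cr' = cr0 + crl ∧
        R06_TrP (-δ) (subTy tyr βr) (subP δ tyr pr) (sub δ tyr false pr βr zr)
          (subTy ty β) (subP δ ty p) ζ e' cr0 d' n' ∧
        Md (subTy ty β) (subP δ ty p) ν' crl false ζ (sub δ ty true p β z))

/-- the invariant -/
def R06_Inv (N : ℕ) (δ : Fin 3) (R0 : ℝ) (ty : Ty) (p : Fin 3) (z : Stk) (e ν cr : ℝ) (d n : ℕ) :
    Prop :=
  (2 + (d : ℝ) ≤ R0 + 3072 * (e + ν ^ 2) + cr + (n + 1) / MM ^ (N + 1)) ∨
  (ty = Ty.F ∧ ∃ β, rb ty true (posn δ ty p) z = some β ∧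
    (Vz (DD ty true (posn δ ty p) z) + 2) / MM + d ≤
      R0 + 3072 * (e + ν ^ 2) + cr + (n + 1) / MM ^ (N + 1)) ∨
  R06_b N δ R0 ty p z e ν cr d n

theorem R06_concl {N : ℕ} (IH : ∀ (δ : Fin 3), δ ≠ 0 → ∀ (ty0 : Ty) (p0 : Fin 3) (z0 : Stk)
    (ty : Ty) (p : Fin 3) (z : Stk) (e ν cr : ℝ) (d n : ℕ),
    Tr δ ty0 p0 z0 ty p z e ν cr d n →
    UU N true δ ty p z + d ≤
      UU N false δ ty0 p0 z0 + 3072 * (e + ν ^ 2) + cr + (n + 1) / MM ^ N)
    {δ : Fin 3} (hδ : δ ≠ 0) {R0 : ℝ} {ty : Ty} {p : Fin 3} {z : Stk} {e ν cr : ℝ} {d n : ℕ}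
    (h : R06_Inv N δ R0 ty p z e ν cr d n) :
    UU (N + 1) true δ ty p z + d ≤ R0 + 3072 * (e + ν ^ 2) + cr + (n + 1) / MM ^ (N + 1) := by
  have hM := R06_MM_pos
  rcases h with h | ⟨-, β, hβ, h⟩ | h
  · have := UU_le (N + 1) true δ ty p z
    linarith
  · have := R06_UU_le_some (N := N) hβ
    linarith
  · obtain ⟨β, tyr, pr, zr, βr, Er, crr, dr, nr, e', ν', cr', d', n', h1, h2, h3, h4, h5, h6, h7,
      h8, h9, h10⟩ := h
    have hδ' : -δ ≠ 0 := neg_ne_zero.mpr hδ
    have hI := IH (-δ) hδ' _ _ _ _ _ _ _ _ _ _ _ h7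
    have hEn : e' + ν' ^ 2 ≤ 2 * lam ^ 2 * (e + ν ^ 2 - Er) := by
      rcases hty : ty with _ | _
      · have := (h10 hty).1
        nlinarith [sq_nonneg ν']
      · exact h9 hty
    have he' : 0 ≤ e' + ν' ^ 2 := by
      have := (R06_Tr_basic h7).1
      positivity
    have hl : (2:ℝ) * lam ^ 2 * 2 = MM := by unfold lam MM; norm_num
    have hEs : 3072 * (e' + ν' ^ 2) / MM ≤ 3072 * (e + ν ^ 2 - Er) := by
      rw [div_le_iff₀ hM, ← hl]
      have : 0 ≤ 2 * lam ^ 2 * (e + ν ^ 2 - Er) := he'.trans hEn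
      nlinarith
    rw [R06_UU_some h1 h2]
    rw [R06_UU_some h3 h4] at h5
    set A := UU N true (-δ) (subTy ty β) (subP δ ty p) (sub δ ty true p β z)
    set B := UU N false (-δ) (subTy tyr βr) (subP δ tyr pr) (sub δ tyr false pr βr zr)
    set V := Vz (DD ty true (posn δ ty p) z)
    set Vr := Vz (DD tyr false (posn δ tyr pr) zr)
    have e1 : (V + A) / MM ≤ (Vr + B) / MM + (cr - crr) - ((d:ℝ) - dr) + 3072 * (e' + ν' ^ 2) / MM
        + (n' + 1) / MM ^ (N + 1) := by
      have e2 : (Vr + B) / MM + (cr - crr) - ((d:ℝ) - dr) + 3072 * (e' + ν' ^ 2) / MM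
        + (n' + 1) / MM ^ (N + 1) = (Vr + B + MM * (cr - crr) - MM * ((d:ℝ) - dr) +
          3072 * (e' + ν' ^ 2) + (n' + 1) / MM ^ N) / MM := by
        field_simp
        ring
      rw [e2]
      apply div_le_div_of_nonneg_right _ hM.le
      linarith
    have e3 : ((n':ℝ) + 1) / MM ^ (N + 1) + nr / MM ^ (N + 1) ≤ (n + 1) / MM ^ (N + 1) := by
      rw [← add_div]
      apply div_le_div_of_nonneg_right _ (by positivity)
      have : ((n' + nr : ℕ) : ℝ) ≤ n := by exact_mod_cast h6
      push_cast at this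
      linarith
    linarith

theorem R06_start {N : ℕ} {δ : Fin 3} (hδ : δ ≠ 0) {R0 : ℝ} {ty : Ty} {p : Fin 3} {z1 z2 : Stk}
    {E0 cr0 ν1 cr1 : ℝ} {d0 n0 n : ℕ} {db : Bool} (hn : n0 ≤ n)
    (_hE0 : 0 ≤ E0) (hd : UU (N + 1) false δ ty p z1 + d0 ≤ R0 + 3072 * E0 + cr0 + n0 / MM ^ (N + 1))
    (h : Md ty p ν1 cr1 db z1 z2) :
    R06_Inv N δ R0 ty p z2 E0 ν1 (cr0 + cr1) (d0 + db.toNat) n := by
  have hM := R06_MM_pos
  have hUn := UU_nonneg (N + 1) false δ ty p z1
  obtain ⟨hν0, hcr1⟩ := R06_Md_cr h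
  have hdb := R06_toNat_le db
  have hnn : (n0:ℝ) / MM ^ (N + 1) ≤ (n + 1) / MM ^ (N + 1) := by
    apply div_le_div_of_nonneg_right _ (by positivity)
    have : (n0:ℝ) ≤ n := by exact_mod_cast hn
    linarith
  by_cases hν : ν1 < 1/32
  · rcases hrb : rb ty false (posn δ ty p) z1 with _ | β
    · left
      have hdf := R06_nodebit h hν hrb
      rw [R06_UU_none hrb] at hd
      subst hdf
      have : 0 ≤ ν1 ^ 2 := sq_nonneg _
      simp only [Bool.toNat_false, add_zero]
      linarith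
    · obtain ⟨m1, m2, m3⟩ := mod_step hδ h hν hrb
      by_cases hbr : broken ty false (posn δ ty p) β z1
      · right; left
        refine ⟨hbr.1, β, m1, ?_⟩
        rw [R06_UU_broken hrb hbr] at hd
        have e1 : (Vz (DD ty true (posn δ ty p) z2) + 2) / MM + db.toNat ≤
            (Vz (DD ty false (posn δ ty p) z1) + 2) / MM + cr1 := by
          rw [div_add' _ _ _ hM.ne', div_add' _ _ _ hM.ne']
          apply div_le_div_of_nonneg_right _ hM.le
          linarith
        have : 0 ≤ ν1 ^ 2 := sq_nonneg _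
        push_cast
        linarith
      · right; right
        obtain ⟨m4, cr', m5, m6⟩ := m3 hbr
        refine ⟨β, ty, p, z1, β, E0, cr0, d0, n0, 0, lam * ν1, cr', 0, 0, m1, m4, hrb, hbr, hd, ?_, ?_,
          ?_, ?_, ?_⟩
        · omega
        · exact Tr.base (lam * ν1) cr' false _ m5
        · push_cast
          linarith
        · intro _
          have : 0 ≤ lam ^ 2 * ν1 ^ 2 := by positivity
          nlinarith
        · intro _
          refine ⟨?_, sub δ ty false p β z1, 0, cr', by ring, R06_TrP_start _ _ _ _, m5⟩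
          apply le_of_eq
          ring
  · left
    have : (1/32:ℝ) ^ 2 ≤ ν1 ^ 2 := by
      apply pow_le_pow_left₀ (by norm_num)
      linarith
    push_cast
    nlinarith

/-- TARGET -/
theorem main_ineq (N : ℕ) : ∀ (δ : Fin 3), δ ≠ 0 → ∀ (ty0 : Ty) (p0 : Fin 3) (z0 : Stk)
    (ty : Ty) (p : Fin 3) (z : Stk) (e ν cr : ℝ) (d n : ℕ),
    Tr δ ty0 p0 z0 ty p z e ν cr d n →
    UU N true δ ty p z + d ≤
      UU N false δ ty0 p0 z0 + 3072 * (e + ν ^ 2) + cr + (n + 1) / MM ^ N := by
  induction N with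
  | zero =>
    intro δ hδ ty0 p0 z0 ty p z e ν cr d n h
    obtain ⟨h1, h2, h3⟩ := R06_Tr_basic h
    have e1 : UU 0 true δ ty p z = 2 := rfl
    have e2 : UU 0 false δ ty0 p0 z0 = 2 := rfl
    rw [e1, e2, pow_zero, div_one]
    have : 0 ≤ ν ^ 2 := sq_nonneg _
    nlinarith
  | succ N IH =>
    intro δ hδ ty0 p0 z0 ty p z e ν cr d n h
    have hM := R06_MM_pos
    have hinv : R06_Inv N δ (UU (N + 1) false δ ty0 p0 z0) ty p z e ν cr d n := by
      induction h with
      | base ν cr db z h =>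
        have := R06_start (N := N) hδ (R0 := UU (N + 1) false δ ty0 p0 z0) (E0 := 0) (cr0 := 0)
          (d0 := 0) (n0 := 0) (n := 0) le_rfl le_rfl (by simp) h
        simpa using this
      | step ty p z e ν cr d n h z1 z2 h1 ν1 cr1 db h2 ih =>
        have hc := R06_concl IH hδ ih
        have hUt := UU_nonneg (N + 1) true δ ty p z
        obtain ⟨b1, b2, b3⟩ := R06_Tr_basic h
        have hE0 : 0 ≤ e + ν ^ 2 := by positivity
        have hcast : ((n + 1 : ℕ) : ℝ) / MM ^ (N + 1) = ((n : ℝ) + 1) / MM ^ (N + 1) := by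
          push_cast; rfl
        rcases ih with ih | ⟨hF, β, hβ, ih⟩ | ih
        · apply R06_start hδ (le_refl (n + 1)) hE0 _ h2
          have := UU_le (N + 1) false δ ty.other (p + δ) z1
          rw [hcast]
          linarith
        · subst hF
          obtain ⟨f1, f2, -⟩ := ftick hδ hβ h1
          apply R06_start hδ (le_refl (n + 1)) hE0 _ h2
          have f3 : UU (N + 1) false δ Ty.E (p + δ) z1 ≤ _ := R06_UU_le_some (N := N) f1
          rw [f2] at f3
          rw [hcast]
          change UU (N + 1) false δ Ty.E (p + δ) z1 + (d:ℝ) ≤ _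
          linarith
        · by_cases hν : ν1 < 1/32
          swap
          · left
            obtain ⟨hν0, hcr1⟩ := R06_Md_cr h2
            have hdb := R06_toNat_le db
            have h5 : (1/32:ℝ) ^ 2 ≤ ν1 ^ 2 := by
              apply pow_le_pow_left₀ (by norm_num)
              linarith
            have h6 : ((n:ℝ) + 1) / MM ^ (N + 1) ≤ (((n + 1 : ℕ) : ℝ) + 1) / MM ^ (N + 1) := by
              apply div_le_div_of_nonneg_right _ (by positivity)
              push_cast
              linarith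
            push_cast at h6 ⊢
            nlinarith
          · right; right
            obtain ⟨β, tyr, pr, zr, βr, Er, crr, dr, nr, e', ν', cr', d', n', g1, g2, g3, g4, g5, g6,
              g7, g8, g9, g10⟩ := ih
            cases ty with
            | E =>
              obtain ⟨t1, t2, t3, t4, crt, dbt, t5, t6⟩ := etick hδ g1 h1
              obtain ⟨g11, ζ, c0, cl, hcc, g12, g13⟩ := g10 rfl
              obtain ⟨m1, m2, m3⟩ := mod_step (ty := Ty.F) hδ h2 hν t1
              obtain ⟨m4, crm, m5, m6⟩ := m3 t2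
              rw [t3, t4] at m5
              have k1 := Md_comp g13 t5 (Or.inl rfl)
              have k2 := Md_comp k1 m5 (Or.inr rfl)
              have k3 := g12 _ _ _ _ k2
              refine ⟨1 - β, tyr, pr, zr, βr, Er, crr, dr, nr, e', ν' + 0 + lam * ν1,
                c0 + (cl + crt + crm), d' + dbt.toNat, n', m1, m4, g3, g4, g5, by omega, ?_, ?_, ?_, ?_⟩
              · change Tr (-δ) _ _ _ (subTy Ty.F (1 - β)) (subP δ Ty.F (p + δ)) _ _ _ _ _ _
                rw [t3, t4]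
                rw [Bool.false_or, Bool.or_false] at k3
                exact k3
              · change Vz (DD Ty.F true (posn δ Ty.F (p + δ)) z2) + _ + _ ≤ _
                push_cast
                linarith
              · intro _
                have : (ν' + 0 + lam * ν1) ^ 2 ≤ 2 * ν' ^ 2 + 2 * lam ^ 2 * ν1 ^ 2 := by
                  nlinarith [sq_nonneg (ν' - lam * ν1)]
                linarith
              · intro hh
                exact absurd hh (by decide)
            | F =>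
              obtain ⟨t1, t2, t3⟩ := ftick hδ g1 h1
              obtain ⟨t4, t5, ζ, t6, t7⟩ := t3 g2
              obtain ⟨m1, m2, m3⟩ := mod_step (ty := Ty.E) hδ h2 hν t1
              obtain ⟨m4, crm, m5, m6⟩ := m3 (fun hb => by
                have := hb.1
                exact absurd this (by decide))
              rw [t4, t5] at m5
              have k1 := Md_comp t7 m5 (Or.inl rfl)
              have k0 := R06_TrP_tick g7 t6
              have k3 := k0 _ _ _ _ k1
              refine ⟨β, tyr, pr, zr, βr, Er, crr, dr, nr, e' + ν' ^ 2, 0 + lam * ν1,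
                cr' + (0 + crm), d', n' + 1, m1, m4, g3, g4, g5, by omega, ?_, ?_, ?_, ?_⟩
              · change Tr (-δ) _ _ _ (subTy Ty.E β) (subP δ Ty.E (p + δ)) _ _ _ _ _ _
                rw [t4, t5]
                exact k3
              · rw [t2] at m6
                change Vz (DD Ty.E true (posn δ Ty.E (p + δ)) z2) + _ + _ ≤ _
                push_cast
                linarith
              · intro hh
                exact absurd hh (by decide)
              · intro _
                have hg9 := g9 rfl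
                refine ⟨?_, ζ, cr', 0 + crm, rfl, ?_, ?_⟩
                · nlinarith
                · change R06_TrP (-δ) _ _ _ (subTy Ty.E β) (subP δ Ty.E (p + δ)) _ _ _ _ _
                  rw [t4, t5]
                  exact k0
                · change Md (subTy Ty.E β) (subP δ Ty.E (p + δ)) _ _ _ _ _
                  rw [t4, t5]
                  exact k1
    exact R06_concl IH hδ hinv


end Pool.Agent.Aub
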