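import Mathlib
import Pool.Agent.Helper961.Aub.Base
import Pool.Agent.Helper961.Aub.Mach

set_option autoImplicit false

open Set Filter Topology

namespace Pool.Agent.Aub

theorem X01_exists_solution_Ioo {X : ℝ → ℝ} {K M : NNReal} (hK : LipschitzWith K X)
    (hM : ∀ x, ‖X x‖ ≤ M) (x : ℝ) (n : ℕ) :
    ∃ γ : ℝ → ℝ, γ 0 = x ∧ ∀ t ∈ Ioo (-((n:ℝ) + 1)) ((n:ℝ) + 1), HasDerivAt γ (X (γ t)) t := by
  have h0 : (0:ℝ) ∈ Icc (-((n:ℝ) + 1)) ((n:ℝ) + 1) := ⟨by linarith [n.cast_nonneg (α := ℝ)],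
    by positivity⟩
  have hpl : IsPicardLindelof (fun _ => X) (⟨0, h0⟩ : Icc (-((n:ℝ) + 1)) ((n:ℝ) + 1)) x
      (M * (n + 1)) 0 M K := by
    refine IsPicardLindelof.of_time_independent (fun y _ => hM y) (hK.lipschitzOnWith) ?_
    simp
  obtain ⟨γ, h1, h2⟩ := hpl.exists_eq_forall_mem_Icc_hasDerivWithinAt₀
  exact ⟨γ, h1, fun t ht => (h2 t (Ioo_subset_Icc_self ht)).hasDerivAt (Icc_mem_nhds ht.1 ht.2)⟩

theorem X01_exists_solution {X : ℝ → ℝ} {K M : NNReal} (hK : LipschitzWith K X)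
    (hM : ∀ x, ‖X x‖ ≤ M) (x : ℝ) :
    ∃ γ : ℝ → ℝ, γ 0 = x ∧ ∀ t, HasDerivAt γ (X (γ t)) t := by
  choose γ h0 h1 using X01_exists_solution_Ioo hK hM x
  have hun : ∀ n k : ℕ, n ≤ k → EqOn (γ n) (γ k) (Ioo (-((n:ℝ) + 1)) ((n:ℝ) + 1)) := by
    intro n k hnk
    have hnk' : (n:ℝ) ≤ k := by exact_mod_cast hnk
    have hn : (0:ℝ) ≤ n := n.cast_nonneg
    refine ODE_solution_unique_of_mem_Ioo (v := fun _ => X) (s := fun _ => univ) (K := K) (t₀ := 0)
      (fun t _ => hK.lipschitzOnWith) ⟨by linarith, by linarith⟩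
      (fun t ht => ⟨h1 n t ht, trivial⟩) (fun t ht => ⟨h1 k t ⟨?_, ?_⟩, trivial⟩) ?_
    · linarith [ht.1]
    · linarith [ht.2]
    · rw [h0, h0]
  refine ⟨fun t => γ ⌈|t|⌉₊ t, ?_, ?_⟩
  · simp only; rw [h0]
  · intro t
    set N : ℕ := ⌈|t|⌉₊ + 1 with hN
    have hval : ∀ s : ℝ, |s| < |t| + 1 → γ ⌈|s|⌉₊ s = γ N s := by
      intro s hs
      have h2 : ⌈|s|⌉₊ ≤ N := by
        have h3 : |s| ≤ ((⌈|t|⌉₊ + 1 : ℕ) : ℝ) := by
          push_cast
          linarith [Nat.le_ceil |t|]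
        exact Nat.ceil_le.2 h3
      refine hun _ _ h2 ?_
      have h3 := Nat.le_ceil |s|
      exact abs_lt.1 (by linarith : |s| < (⌈|s|⌉₊:ℝ) + 1)
    have h3 : HasDerivAt (γ N) (X (γ N t)) t := by
      apply h1
      have h4 := Nat.le_ceil |t|
      refine abs_lt.1 ?_
      rw [hN]; push_cast
      linarith
    have h4 : (fun s => γ ⌈|s|⌉₊ s) =ᶠ[𝓝 t] γ N := by
      have : ∀ᶠ s in 𝓝 t, |s| < |t| + 1 :=
        (continuous_abs.tendsto t).eventually (gt_mem_nhds (by linarith))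
      exact this.mono hval
    change HasDerivAt _ (X (γ ⌈|t|⌉₊ t)) t
    rw [hval t (by linarith)]
    exact h3.congr_of_eventuallyEq h4

theorem X01_const {g : ℝ → ℝ} {L : NNReal} (hL : LipschitzWith L g) {y : ℝ → ℝ}
    (hy : ∀ u, HasDerivAt y (g (y u)) u) {v : ℝ} (hv : g (y v) = 0) (u : ℝ) : y u = y v := by
  have h1 : y = fun _ => y v := by
    refine ODE_solution_unique_univ (v := fun _ => g) (s := fun _ => univ) (K := L) (t₀ := v)
      (fun t => hL.lipschitzOnWith) (fun t => ⟨hy t, trivial⟩) (fun t => ⟨?_, trivial⟩) rfl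
    show HasDerivAt (fun _ => y v) (g (y v)) t
    rw [hv]
    exact hasDerivAt_const t (y v)
  rw [h1]

theorem X01_side1 {g : ℝ → ℝ} {L : NNReal} (hL : LipschitzWith L g) {c : ℝ} (hc : g c = 0)
    {y : ℝ → ℝ} (hy : ∀ u, HasDerivAt y (g (y u)) u) (h0 : c ≤ y 0) (u : ℝ) : c ≤ y u := by
  by_contra hcon
  push Not at hcon
  have hcont : Continuous y := continuous_iff_continuousAt.2 fun u => (hy u).continuousAt
  have h1 : c ∈ Icc (y u) (y 0) := ⟨hcon.le, h0⟩
  obtain ⟨v, hv⟩ := mem_range_of_exists_le_of_exists_ge hcont ⟨u, hcon.le⟩ ⟨0, h0⟩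
  have h2 := X01_const hL hy (v := v) (by rw [hv]; exact hc) u
  rw [hv] at h2
  linarith

theorem X01_side2 {g : ℝ → ℝ} {L : NNReal} (hL : LipschitzWith L g) {c K : ℝ} (hc : g c = 0)
    (hneg : ∀ x, c ≤ x → g x ≤ 0) (hK : ∀ x, c + 1/8 ≤ x → g x = -K)
    {y : ℝ → ℝ} (hy : ∀ u, HasDerivAt y (g (y u)) u) (h0 : c ≤ y 0) (hlt : y 0 - K ≤ c) :
    (∀ u, 0 ≤ u → y u ≤ y 0) ∧ y 1 ≤ c + 1/8 := by
  have h1 := X01_side1 hL hc hy h0
  have hanti : Antitone y := by
    refine antitone_of_deriv_nonpos (fun u => (hy u).differentiableAt) fun u => ?_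
    rw [(hy u).deriv]
    exact hneg _ (h1 u)
  refine ⟨fun u hu => hanti hu, ?_⟩
  by_contra hcon
  push Not at hcon
  have h2 : ∀ u ∈ Icc (0:ℝ) 1, g (y u) = -K := fun u hu =>
    hK _ (le_trans hcon.le (hanti hu.2))
  have h3 : y 1 = y 0 + (-K) * (1 - 0) := by
    have h4 : ∀ u ∈ Icc (0:ℝ) 1, (fun u => y u + K * u) u = (fun u => y u + K * u) 0 := by
      refine constant_of_has_deriv_right_zero ?_ ?_
      · exact (Continuous.add (continuous_iff_continuousAt.2 fun u => (hy u).continuousAt)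
          (continuous_const.mul continuous_id)).continuousOn
      · intro u hu
        have h5 : HasDerivAt (fun u => y u + K * u) (g (y u) + K * 1) u :=
          (hy u).add ((hasDerivAt_id u).const_mul K)
        rw [h2 u ⟨hu.1, hu.2.le⟩] at h5
        simpa using h5.hasDerivWithinAt
    have h6 := h4 1 ⟨zero_le_one, le_refl 1⟩
    simp only at h6
    linarith
  linarith

theorem X01_lip : ∃ L : NNReal, LipschitzWith L Real.smoothTransition := by
  have hd : Differentiable ℝ Real.smoothTransition :=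
    (Real.smoothTransition.contDiff (n := 1)).differentiable (by simp)
  have hcd : Continuous (deriv Real.smoothTransition) :=
    (Real.smoothTransition.contDiff (n := 1)).continuous_deriv (by simp)
  obtain ⟨C, hC⟩ := isCompact_Icc.exists_bound_of_continuousOn (s := Icc (0:ℝ) 1) hcd.continuousOn
  refine ⟨(max C 0).toNNReal, lipschitzWith_of_nnnorm_deriv_le hd ?_⟩
  intro x
  rw [← NNReal.coe_le_coe, coe_nnnorm, Real.coe_toNNReal _ (le_max_right C 0)]
  rcases lt_or_ge x 0 with h | h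
  · have h1 : Real.smoothTransition =ᶠ[𝓝 x] fun _ => 0 := by
      filter_upwards [gt_mem_nhds h] with y hy
      exact Real.smoothTransition.zero_of_nonpos hy.le
    rw [h1.deriv_eq]
    simp
  · rcases lt_or_ge 1 x with h' | h'
    · have h1 : Real.smoothTransition =ᶠ[𝓝 x] fun _ => 1 := by
        filter_upwards [lt_mem_nhds h'] with y hy
        exact Real.smoothTransition.one_of_one_le hy.le
      rw [h1.deriv_eq]
      simp
    · exact le_trans (hC x ⟨h, h'⟩) (le_max_left _ _)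

/-- the field -/
noncomputable def X01_chi (hi : ℝ) (t : ℝ) : ℝ :=
  -(2 ^ 34) * Real.smoothTransition (8 * (t - hi)) +
    2 ^ 34 * Real.smoothTransition (8 * (-1/4 - t))

theorem X01_chi_smooth (hi : ℝ) : ContDiff ℝ ((⊤ : ℕ∞) : WithTop ℕ∞) (X01_chi hi) := by
  unfold X01_chi
  have h1 : ContDiff ℝ ((⊤ : ℕ∞) : WithTop ℕ∞) (fun t : ℝ => 8 * (t - hi)) := by fun_prop
  have h2 : ContDiff ℝ ((⊤ : ℕ∞) : WithTop ℕ∞) (fun t : ℝ => 8 * (-1/4 - t)) := by fun_prop
  exact (contDiff_const.mul (Real.smoothTransition.contDiff.comp h1)).add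
    (contDiff_const.mul (Real.smoothTransition.contDiff.comp h2))

theorem X01_chi_lip (hi : ℝ) : ∃ L : NNReal, LipschitzWith L (X01_chi hi) := by
  obtain ⟨L, hL⟩ := X01_lip
  have h1 : ∀ x y : ℝ, |Real.smoothTransition x - Real.smoothTransition y| ≤ L * |x - y| := by
    intro x y
    have := hL.dist_le_mul x y
    rwa [Real.dist_eq, Real.dist_eq] at this
  refine ⟨⟨2 ^ 34 * (L * 8) + 2 ^ 34 * (L * 8), by positivity⟩, LipschitzWith.of_dist_le_mul ?_⟩
  intro x y
  rw [Real.dist_eq, Real.dist_eq]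
  show |X01_chi hi x - X01_chi hi y| ≤ (2 ^ 34 * ((L:ℝ) * 8) + 2 ^ 34 * ((L:ℝ) * 8)) * |x - y|
  have e : X01_chi hi x - X01_chi hi y =
      2 ^ 34 * (Real.smoothTransition (8 * (y - hi)) - Real.smoothTransition (8 * (x - hi))) +
      2 ^ 34 * (Real.smoothTransition (8 * (-1/4 - x)) - Real.smoothTransition (8 * (-1/4 - y))) := by
    unfold X01_chi
    ring
  rw [e]
  have h2 := h1 (8 * (y - hi)) (8 * (x - hi))
  have h3 := h1 (8 * (-1/4 - x)) (8 * (-1/4 - y))
  have h4 : |8 * (y - hi) - 8 * (x - hi)| = 8 * |x - y| := by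
    rw [show 8 * (y - hi) - 8 * (x - hi) = 8 * (y - x) by ring, abs_mul, abs_sub_comm y x]
    norm_num
  have h5 : |8 * (-1/4 - x) - 8 * (-1/4 - y)| = 8 * |x - y| := by
    rw [show 8 * (-1/4 - x) - 8 * (-1/4 - y) = 8 * (y - x) by ring, abs_mul, abs_sub_comm y x]
    norm_num
  rw [h4] at h2
  rw [h5] at h3
  refine le_trans (abs_add_le _ _) ?_
  rw [abs_mul, abs_mul, abs_of_pos (by positivity : (0:ℝ) < 2 ^ 34)]
  nlinarith [h2, h3]

theorem X01_chi_bdd (hi : ℝ) : ∀ x, ‖X01_chi hi x‖ ≤ ((⟨2 ^ 35, by positivity⟩ : NNReal) : ℝ) := by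
  intro x
  show |X01_chi hi x| ≤ (2:ℝ) ^ 35
  unfold X01_chi
  have h1 := Real.smoothTransition.nonneg (8 * (x - hi))
  have h2 := Real.smoothTransition.le_one (8 * (x - hi))
  have h3 := Real.smoothTransition.nonneg (8 * (-1/4 - x))
  have h4 := Real.smoothTransition.le_one (8 * (-1/4 - x))
  rw [abs_le]
  constructor <;> nlinarith

theorem X01_chi_mid (hi : ℝ) {t : ℝ} (h1 : -1/4 ≤ t) (h2 : t ≤ hi) : X01_chi hi t = 0 := by
  unfold X01_chi
  rw [Real.smoothTransition.zero_of_nonpos (by linarith),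
    Real.smoothTransition.zero_of_nonpos (by linarith)]
  simp

theorem X01_chi_up (hi : ℝ) (h : 1 ≤ hi) {t : ℝ} (h1 : hi ≤ t) :
    X01_chi hi t = -(2 ^ 34) * Real.smoothTransition (8 * (t - hi)) := by
  unfold X01_chi
  rw [Real.smoothTransition.zero_of_nonpos (by linarith : 8 * (-1/4 - t) ≤ 0)]
  simp

theorem X01_chi_lo (hi : ℝ) (h : 1 ≤ hi) {t : ℝ} (h1 : t ≤ -1/4) :
    X01_chi hi t = 2 ^ 34 * Real.smoothTransition (8 * (-1/4 - t)) := by
  unfold X01_chi
  rw [Real.smoothTransition.zero_of_nonpos (by linarith : 8 * (t - hi) ≤ 0)]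
  simp

/-- TARGET -/
theorem clamp_exists (hi : ℝ) (h1 : 1 ≤ hi) (h2 : hi ≤ 5000) : Nonempty (Clamp hi) := by
  obtain ⟨L, hL⟩ := X01_chi_lip hi
  choose Y hY0 hY using fun t : ℝ => X01_exists_solution hL (X01_chi_bdd hi) t
  -- reflected field
  have hL' : LipschitzWith L (fun x => -X01_chi hi (-x)) := by
    refine LipschitzWith.of_dist_le_mul ?_
    intro x y
    have h3 := hL.dist_le_mul (-x) (-y)
    rw [dist_neg_neg] at h3
    rw [dist_neg_neg]
    exact h3
  have hYneg : ∀ t u, HasDerivAt (fun u => -Y t u) ((fun x => -X01_chi hi (-x)) (-Y t u)) u := by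
    intro t u
    have h3 := (hY t u).neg
    show HasDerivAt (fun u => -Y t u) (-X01_chi hi (-(-Y t u))) u
    rw [neg_neg]
    exact h3
  have hfix : ∀ u t, -1/4 ≤ t → t ≤ hi → Y t u = t := by
    intro u t h3 h4
    have h5 := X01_const hL (hY t) (v := 0) (by rw [hY0]; exact X01_chi_mid hi h3 h4) u
    rw [h5, hY0]
  have hup : ∀ t, hi ≤ t → ∀ u, hi ≤ Y t u := by
    intro t ht u
    exact X01_side1 hL (X01_chi_mid hi (by linarith) le_rfl) (hY t) (by rw [hY0]; exact ht) u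
  have hc' : (fun x => -X01_chi hi (-x)) (1/4) = 0 := by
    show -X01_chi hi (-(1/4)) = 0
    rw [X01_chi_mid hi (by norm_num) (by linarith), neg_zero]
  have hlo : ∀ t, t ≤ -1/4 → ∀ u, Y t u ≤ -1/4 := by
    intro t ht u
    have h3 := X01_side1 hL' hc' (hYneg t) (by rw [hY0]; linarith) u
    linarith
  have hup2 : ∀ t, hi ≤ t → |t| ≤ 2 ^ 32 → (∀ u, 0 ≤ u → Y t u ≤ t) ∧ Y t 1 ≤ hi + 1/8 := by
    intro t ht hb
    have hb' := (abs_le.1 hb).2
    have h3 := X01_side2 hL (c := hi) (K := 2 ^ 34) (X01_chi_mid hi (by linarith) le_rfl) ?_ ?_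
      (hY t) (by rw [hY0]; exact ht) (by rw [hY0]; linarith)
    · rw [hY0] at h3
      exact h3
    · intro x hx
      rw [X01_chi_up hi h1 hx]
      have := Real.smoothTransition.nonneg (8 * (x - hi))
      nlinarith
    · intro x hx
      rw [X01_chi_up hi h1 (by linarith), Real.smoothTransition.one_of_one_le (by linarith)]
      ring
  have hlo2 : ∀ t, t ≤ -1/4 → |t| ≤ 2 ^ 32 → (∀ u, 0 ≤ u → t ≤ Y t u) ∧ -3/8 ≤ Y t 1 := by
    intro t ht hb
    have hb' := (abs_le.1 hb).1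
    have h3 := X01_side2 hL' (c := 1/4) (K := 2 ^ 34) hc' ?_ ?_
      (hYneg t) (by rw [hY0]; linarith) (by rw [hY0]; linarith)
    · simp only [hY0] at h3
      refine ⟨fun u hu => ?_, ?_⟩
      · have := h3.1 u hu
        linarith
      · have := h3.2
        linarith
    · intro x hx
      show -X01_chi hi (-x) ≤ 0
      rw [X01_chi_lo hi h1 (by linarith)]
      have := Real.smoothTransition.nonneg (8 * (-1/4 - -x))
      nlinarith
    · intro x hx
      show -X01_chi hi (-x) = -(2 ^ 34)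
      rw [X01_chi_lo hi h1 (by linarith), Real.smoothTransition.one_of_one_le (by linarith)]
      ring
  refine ⟨{
    χ := X01_chi hi
    Φ := fun u t => Y t u
    smooth := X01_chi_smooth hi
    zero := hY0
    deriv := fun u t => hY t u
    fix := hfix
    lo := fun t ht => hlo t ht 1
    up := fun t ht => hup t ht 1
    rng := ?_
    bd := ?_ }⟩
  · intro t hb
    rcases le_total hi t with h3 | h3
    · exact ⟨by linarith [hup t h3 1], by linarith [(hup2 t h3 hb).2]⟩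
    · rcases le_total t (-1/4) with h4 | h4
      · exact ⟨by linarith [(hlo2 t h4 hb).2], by linarith [hlo t h4 1]⟩
      · rw [hfix 1 t h4 h3]
        exact ⟨by linarith, by linarith⟩
  · intro u t hu _ hb
    have hb' := abs_le.1 hb
    rcases le_total hi t with h3 | h3
    · rw [abs_le]
      exact ⟨by linarith [hup t h3 u], by linarith [(hup2 t h3 hb).1 u hu]⟩
    · rcases le_total t (-1/4) with h4 | h4
      · rw [abs_le]
        exact ⟨by linarith [(hlo2 t h4 hb).1 u hu], by linarith [hlo t h4 u]⟩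
      · rw [hfix u t h4 h3]
        exact le_trans hb (by norm_num)

end Pool.Agent.Aub
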