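import Mathlib
import Pool.Agent.Helper961.Aub.Base
import Pool.Agent.Helper961.Aub.Mach
import Pool.Agent.Helper961.Aub.Sym
import Pool.Agent.Helper961.Aub.XRange

set_option autoImplicit false

open Set Filter Topology

namespace Pool.Agent.Aub

theorem X13_unf (ty : Ty) (δ p : Fin 3) (l : List Cell) (i : Fin 3) (tr : Fin 5)
    (hb : (hd l).b = false) :
    rl ty δ p l i tr = if i = posn δ ty p then
      (hd l).val tr + rl (sT ty false) (-δ) (subP δ ty p) l.tail i tr / lam
      else rl (sT ty false) (-δ) (subP δ ty p) l.tail i tr := by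
  cases l with
  | nil =>
    have h0 : zc.val tr = 0 := by fin_cases tr <;> simp [Cell.val, zc, vb]
    simp [rl, hd, h0]
  | cons a tl =>
    simp only [hd] at hb
    simp only [rl, hd, List.tail_cons, hb]

theorem X13_e (p : Fin 3) (l : List Cell) (i : Fin 3) (tr : Fin 5) (hb : (hd l).b = false) :
    rl Ty.E 1 p l i tr = if i = p - 1 then (hd l).val tr + rl Ty.F 2 (p + 1) l.tail i tr / lam
      else rl Ty.F 2 (p + 1) l.tail i tr := by
  have h := X13_unf Ty.E 1 p l i tr hb
  have h1 : posn 1 Ty.E p = p - 1 := by simp [posn]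
  have h2 : subP 1 Ty.E p = p + 1 := by simp [subP]
  have h3 : sT Ty.E false = Ty.F := rfl
  have h4 : (-1 : Fin 3) = 2 := by decide
  rw [h1, h2, h3, h4] at h
  exact h

theorem X13_f (p : Fin 3) (l : List Cell) (i : Fin 3) (tr : Fin 5) (hb : (hd l).b = false) :
    rl Ty.F 2 p l i tr = if i = p then (hd l).val tr + rl Ty.E 1 p l.tail i tr / lam
      else rl Ty.E 1 p l.tail i tr := by
  have h := X13_unf Ty.F 2 p l i tr hb
  have h1 : posn 2 Ty.F p = p := by simp [posn]
  have h2 : subP 2 Ty.F p = p := by simp [subP]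
  have h3 : sT Ty.F false = Ty.E := rfl
  have h4 : (-2 : Fin 3) = 1 := by decide
  rw [h1, h2, h3, h4] at h
  exact h

theorem X13_lam : (0:ℝ) < lam := by unfold lam; norm_num

theorem X13_six (l l' : List Cell)
    (b1 : (hd l).b = false) (b2 : (hd l.tail).b = false) (b3 : (hd l.tail.tail).b = false)
    (b4 : (hd l.tail.tail.tail).b = false) (b5 : (hd l.tail.tail.tail.tail).b = false)
    (b6 : (hd l.tail.tail.tail.tail.tail).b = false)
    (e1 : hd l' = hd l) (e2 : hd l'.tail = hd l.tail) (e3 : hd l'.tail.tail = hd l.tail.tail)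
    (e4 : hd l'.tail.tail.tail = hd l.tail.tail.tail)
    (e5 : hd l'.tail.tail.tail.tail = hd l.tail.tail.tail.tail)
    (e6 : hd l'.tail.tail.tail.tail.tail = hd l.tail.tail.tail.tail.tail) (i : Fin 3)
    (tr : Fin 5) :
    rl Ty.E 1 0 l i tr - rl Ty.E 1 0 l' i tr =
      (rl Ty.E 1 0 l.tail.tail.tail.tail.tail.tail i tr -
        rl Ty.E 1 0 l'.tail.tail.tail.tail.tail.tail i tr) / lam ^ 2 := by
  have hl := X13_lam
  rw [X13_e 0 l i tr b1, X13_f _ l.tail i tr b2, X13_e _ l.tail.tail i tr b3,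
    X13_f _ l.tail.tail.tail i tr b4, X13_e _ l.tail.tail.tail.tail i tr b5,
    X13_f _ l.tail.tail.tail.tail.tail i tr b6,
    X13_e 0 l' i tr (by rw [e1]; exact b1), X13_f _ l'.tail i tr (by rw [e2]; exact b2),
    X13_e _ l'.tail.tail i tr (by rw [e3]; exact b3),
    X13_f _ l'.tail.tail.tail i tr (by rw [e4]; exact b4),
    X13_e _ l'.tail.tail.tail.tail i tr (by rw [e5]; exact b5),
    X13_f _ l'.tail.tail.tail.tail.tail i tr (by rw [e6]; exact b6), e1, e2, e3, e4, e5, e6]
  fin_cases i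
  · simp only [show ((0:Fin 3) - 1) = 2 from by decide, show ((0:Fin 3) + 1) = 1 from by decide,
      show ((1:Fin 3) - 1) = 0 from by decide, show ((1:Fin 3) + 1) = 2 from by decide,
      show ((2:Fin 3) - 1) = 1 from by decide, show ((2:Fin 3) + 1) = 0 from by decide]
    simp
    field_simp
    ring
  · simp only [show ((0:Fin 3) - 1) = 2 from by decide, show ((0:Fin 3) + 1) = 1 from by decide,
      show ((1:Fin 3) - 1) = 0 from by decide, show ((1:Fin 3) + 1) = 2 from by decide,
      show ((2:Fin 3) - 1) = 1 from by decide, show ((2:Fin 3) + 1) = 0 from by decide]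
    simp
    field_simp
    ring
  · simp only [show ((0:Fin 3) - 1) = 2 from by decide, show ((0:Fin 3) + 1) = 1 from by decide,
      show ((1:Fin 3) - 1) = 0 from by decide, show ((1:Fin 3) + 1) = 2 from by decide,
      show ((2:Fin 3) - 1) = 1 from by decide, show ((2:Fin 3) + 1) = 0 from by decide]
    simp
    field_simp
    ring

theorem X13_Dle_tail (l : List Cell) (h : Dle l) : Dle l.tail :=
  fun a ha => h a (List.mem_of_mem_tail ha)

/-- TARGET -/
theorem rl_close (D : ℕ) : ∀ (l : List Cell), Dle l → base (6 * D) l → ∀ i tr,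
    |rl Ty.E 1 0 l i tr - rl Ty.E 1 0 (refill (6 * D) l) i tr| ≤ (mm + 1) / lam ^ D := by
  induction D with
  | zero =>
    intro l hD _ i tr
    have h1 := rl_range l hD Ty.E 1 0 i tr
    have hD' : Dle (refill (6 * 0) l) := by
      intro a ha k
      simp only [refill, List.mem_singleton] at ha
      subst ha
      fin_cases k <;> simp
    have h2 := rl_range _ hD' Ty.E 1 0 i tr
    rw [pow_zero, div_one, abs_le]
    constructor <;> linarith [h1.1, h1.2.1, h2.1, h2.2.1]
  | succ D ih =>
    intro l hD hb i tr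
    have h6 : 6 * (D + 1) = 6 * D + 1 + 1 + 1 + 1 + 1 + 1 := by ring
    rw [h6] at hb ⊢
    simp only [base] at hb
    obtain ⟨b1, b2, b3, b4, b5, b6, hb⟩ := hb
    rw [X13_six l (refill (6 * D + 1 + 1 + 1 + 1 + 1 + 1) l) b1 b2 b3 b4 b5 b6 rfl rfl rfl rfl
      rfl rfl i tr]
    have h := ih l.tail.tail.tail.tail.tail.tail
      (X13_Dle_tail _ (X13_Dle_tail _ (X13_Dle_tail _ (X13_Dle_tail _ (X13_Dle_tail _
        (X13_Dle_tail _ hD)))))) hb i tr
    have hl := X13_lam
    have hl1 : (1:ℝ) ≤ lam := by unfold lam; norm_num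
    rw [abs_div, abs_of_pos (pow_pos hl 2), div_le_iff₀ (pow_pos hl 2)]
    refine le_trans h ?_
    have hm : (0:ℝ) ≤ (mm:ℝ) + 1 := by positivity
    have : ((mm:ℝ) + 1) / lam ^ (D + 1) * lam ^ 2 = ((mm:ℝ) + 1) / lam ^ D * lam := by
      field_simp
      ring
    rw [this]
    exact le_mul_of_one_le_right (by positivity) hl1

end Pool.Agent.Aub
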