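import Mathlib
import Pool.Agent.Helper961.Aub.Base
import Pool.Agent.Helper961.Aub.Mach
import Pool.Agent.Helper961.Aub.Sym

set_option autoImplicit false

open Set Filter Topology

namespace Pool.Agent.Aub

/-- TARGET -/
theorem head_sat (ty : Ty) (l : List Cell) (h : ∀ k, (hd l).D k = mm) (hl : l ≠ []) :
    ∀ k, (hd (st ty false l)).D k = mm := by
  cases l with
  | nil => exact absurd rfl hl
  | cons a tl =>
    have h0 : a.D 0 = mm := h 0
    have h1 : a.D 1 = mm := h 1
    have h2 : a.D 2 = mm := h 2
    cases ty with
    | E =>
      have ht : tt a (hd tl) = 0 := by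
        unfold tt
        rw [if_neg]
        rintro ⟨_, _, h3⟩
        omega
      have hc : carry a.D 0 = ![a.D 0, a.D 1, a.D 2 + 0] := by
        unfold carry
        rw [if_neg (by omega), if_neg (by omega)]
      intro k
      change (newc false a (hd tl)).D k = mm
      unfold newc
      simp only [Bool.false_eq_true, if_false]
      rw [ht, hc]
      fin_cases k
      · exact h0
      · exact h1
      · exact h2
    | F =>
      intro k
      exact h k

end Pool.Agent.Aub
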