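import Mathlib
import Pool.Agent.Helper961.Aub.Base
import Pool.Agent.Helper961.Aub.Mach
import Pool.Agent.Helper961.Aub.Sym

set_option autoImplicit false

open Set Filter Topology

namespace Pool.Agent.Aub

/-- value of the three digits -/
def X10_val (D : Fin 3 → ℕ) : ℕ := (D 0 * (mm + 1) + D 1) * (mm + 1) + D 2

theorem X10_lex_succ (N : ℕ) (l : List Cell) :
    lex (N + 1) l = X10_val (hd l).D * (mm + 1) ^ (3 * N + 1) + lex N l.tail := rfl

theorem X10_carry (D : Fin 3 → ℕ) (t : ℕ) (hD : ∀ k, D k ≤ mm) :
    X10_val D + t ≤ X10_val (carry D t) := by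
  have h0 := hD 0
  have h1 := hD 1
  have h2 := hD 2
  unfold X10_val carry
  generalize mm = m at *
  generalize D 0 = x at *
  generalize D 1 = y at *
  generalize D 2 = z at *
  split_ifs with c1 c2 c3
  · simp only [Matrix.cons_val_zero, Matrix.cons_val_one, Matrix.cons_val]
    obtain ⟨c11, c12⟩ := c1
    obtain ⟨c21, c22⟩ := c2
    subst c21
    nlinarith
  · simp only [Matrix.cons_val_zero, Matrix.cons_val_one, Matrix.cons_val]
    obtain ⟨c11, c12⟩ := c1
    nlinarith
  · simp only [Matrix.cons_val_zero, Matrix.cons_val_one, Matrix.cons_val]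
    obtain ⟨c31, c32⟩ := c3
    subst c31
    nlinarith
  · simp only [Matrix.cons_val_zero, Matrix.cons_val_one, Matrix.cons_val]
    omega

theorem X10_carry0 (D : Fin 3 → ℕ) (t : ℕ) : D 0 ≤ carry D t 0 := by
  unfold carry
  split_ifs <;> simp

theorem X10_hd (l : List Cell) (h : Dle l) (k : Fin 3) : (hd l).D k ≤ mm := by
  cases l with
  | nil => exact Nat.zero_le _
  | cons a tl => exact h a (List.mem_cons_self) k

theorem X10_tail (l : List Cell) (h : Dle l) : Dle l.tail := by
  intro a ha
  exact h a (List.mem_of_mem_tail ha)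

theorem X10_bound (N : ℕ) : ∀ l : List Cell, Dle l → lex N l < (mm + 1) ^ (3 * N + 1) := by
  induction N with
  | zero =>
    intro l h
    have := X10_hd l h 0
    show (hd l).D 0 < _
    simpa using Nat.lt_succ_of_le this
  | succ N ih =>
    intro l h
    rw [X10_lex_succ]
    have h1 := ih l.tail (X10_tail l h)
    have h2 : X10_val (hd l).D + 1 ≤ (mm + 1) ^ 3 := by
      have h0 := X10_hd l h 0
      have h1 := X10_hd l h 1
      have h2 := X10_hd l h 2
      unfold X10_val
      generalize mm = m at *
      generalize (hd l).D 0 = x at *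
      generalize (hd l).D 1 = y at *
      generalize (hd l).D 2 = z at *
      have e1 : x * (m + 1) + y ≤ m * (m + 1) + m := by nlinarith
      calc (x * (m + 1) + y) * (m + 1) + z + 1 ≤ (m * (m + 1) + m) * (m + 1) + m + 1 := by
            have := Nat.mul_le_mul_right (m + 1) e1
            omega
        _ = (m + 1) ^ 3 := by ring
    have h3 : (mm + 1) ^ (3 * (N + 1) + 1) = (mm + 1) ^ 3 * (mm + 1) ^ (3 * N + 1) := by
      rw [← pow_add]
      congr 1
      ring
    rw [h3]
    calc X10_val (hd l).D * (mm + 1) ^ (3 * N + 1) + lex N l.tail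
        < X10_val (hd l).D * (mm + 1) ^ (3 * N + 1) + (mm + 1) ^ (3 * N + 1) := by omega
      _ = (X10_val (hd l).D + 1) * (mm + 1) ^ (3 * N + 1) := by ring
      _ ≤ (mm + 1) ^ 3 * (mm + 1) ^ (3 * N + 1) := Nat.mul_le_mul_right _ h2

theorem X10_nil (N : ℕ) : lex N [] = 0 := by
  induction N with
  | zero => rfl
  | succ N ih =>
    rw [X10_lex_succ]
    show X10_val zc.D * _ + lex N [] = 0
    rw [ih]
    simp [X10_val, zc]

/-- TARGET -/
theorem lex_mono (N : ℕ) : ∀ (ty : Ty) (l : List Cell), Dle l → lex N l ≤ lex N (st ty false l) := by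
  induction N with
  | zero =>
    intro ty l hl
    cases l with
    | nil => rw [X10_nil]; exact Nat.zero_le _
    | cons a tl =>
      cases ty with
      | E =>
        show a.D 0 ≤ (newc false a (hd tl)).D 0
        exact X10_carry0 a.D _
      | F =>
        exact le_refl (a.D 0)
  | succ N ih =>
    intro ty l hl
    cases l with
    | nil => rw [X10_nil]; exact Nat.zero_le _
    | cons a tl =>
      have htl : Dle tl := X10_tail (a :: tl) hl
      cases ty with
      | E =>
        rw [X10_lex_succ, X10_lex_succ]
        show X10_val a.D * (mm + 1) ^ (3 * N + 1) + lex N tl ≤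
          X10_val (carry a.D (tt a (hd tl))) * (mm + 1) ^ (3 * N + 1) +
            lex N (if tt a (hd tl) = 1 then dec tl else tl)
        have hc := X10_carry a.D (tt a (hd tl)) (fun k => X10_hd (a :: tl) hl k)
        by_cases ht : tt a (hd tl) = 1
        · rw [if_pos ht]
          rw [ht] at hc ⊢
          have hb := X10_bound N tl htl
          calc X10_val a.D * (mm + 1) ^ (3 * N + 1) + lex N tl
              ≤ X10_val a.D * (mm + 1) ^ (3 * N + 1) + (mm + 1) ^ (3 * N + 1) := by omega
            _ = (X10_val a.D + 1) * (mm + 1) ^ (3 * N + 1) := by ring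
            _ ≤ X10_val (carry a.D 1) * (mm + 1) ^ (3 * N + 1) := Nat.mul_le_mul_right _ hc
            _ ≤ _ := Nat.le_add_right _ _
        · rw [if_neg ht]
          have := Nat.mul_le_mul_right ((mm + 1) ^ (3 * N + 1)) (le_trans (Nat.le_add_right _ _) hc)
          omega
      | F =>
        rw [X10_lex_succ, X10_lex_succ]
        show X10_val a.D * (mm + 1) ^ (3 * N + 1) + lex N tl ≤
          X10_val a.D * (mm + 1) ^ (3 * N + 1) + lex N (if a.b then stF tl else stE false tl)
        by_cases hb : a.b
        · rw [if_pos hb]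
          have := ih Ty.F tl htl
          exact Nat.add_le_add_left this _
        · rw [if_neg hb]
          have := ih Ty.E tl htl
          exact Nat.add_le_add_left this _

end Pool.Agent.Aub
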