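import Mathlib
import Pool.Agent.Helper961.Aub.Base
import Pool.Agent.Helper961.Aub.Mach
import Pool.Agent.Helper961.Aub.XReg

set_option autoImplicit false

open Set Filter Topology

namespace Pool.Agent.Aub

/-! auxiliary facts about the step functions -/

theorem X03_stp_nonneg (a b t : ℝ) : 0 ≤ stp a b t := Real.smoothTransition.nonneg _
theorem X03_stp_le_one (a b t : ℝ) : stp a b t ≤ 1 := Real.smoothTransition.le_one _
theorem X03_stp_zero {a b t : ℝ} (hab : a < b) (h : t ≤ a) : stp a b t = 0 :=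
  Real.smoothTransition.zero_of_nonpos
    (div_nonpos_of_nonpos_of_nonneg (by linarith) (by linarith))
theorem X03_stp_one {a b t : ℝ} (hab : a < b) (h : b ≤ t) : stp a b t = 1 :=
  Real.smoothTransition.one_of_one_le ((one_le_div (by linarith)).mpr (by linarith))
theorem X03_stp_pos {a b t : ℝ} (hab : a < b) (h : 0 < stp a b t) : a < t := by
  by_contra hcon
  push Not at hcon
  rw [X03_stp_zero hab hcon] at h
  exact lt_irrefl _ h
theorem X03_stp_lt {a b t : ℝ} (hab : a < b) (h : stp a b t < 1) : t < b := by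
  by_contra hcon
  push Not at hcon
  rw [X03_stp_one hab hcon] at h
  exact lt_irrefl _ h

theorem X03_Sc_nonneg (t : ℝ) : 0 ≤ Sc t := X03_stp_nonneg _ _ _
theorem X03_Sc_le_one (t : ℝ) : Sc t ≤ 1 := X03_stp_le_one _ _ _
theorem X03_Sc_zero {t : ℝ} (h : t ≤ 1/4) : Sc t = 0 := X03_stp_zero (by norm_num) h
theorem X03_Sc_one {t : ℝ} (h : 3/4 ≤ t) : Sc t = 1 := X03_stp_one (by norm_num) h
theorem X03_Sc_pos {t : ℝ} (h : 0 < Sc t) : 1/4 < t := X03_stp_pos (by norm_num) h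

theorem X03_mm : (mm : ℝ) = 4096 := by unfold mm; norm_num
theorem X03_mmZ : (mm : ℤ) = 4096 := by unfold mm; norm_num
theorem X03_lam : lam = 131072 := rfl

theorem X03_sum_le (f : ℕ → ℝ) (h1 : ∀ j, f j ≤ 1) (n : ℕ) (h : ∀ j, n ≤ j → f j ≤ 0) :
    ∑ j ∈ Finset.range mm, f j ≤ n := by
  calc ∑ j ∈ Finset.range mm, f j ≤ ∑ j ∈ Finset.range mm, (if j < n then (1:ℝ) else 0) := by
        refine Finset.sum_le_sum fun j _ => ?_
        split_ifs with hj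
        · exact h1 j
        · exact h j (by omega)
    _ = ((Finset.range mm).filter (fun j => j < n)).card := by
        rw [Finset.sum_ite, Finset.sum_const, Finset.sum_const_zero, add_zero, nsmul_eq_mul,
          mul_one]
    _ ≤ n := by
        have : ((Finset.range mm).filter (fun j => j < n)) ⊆ Finset.range n := by
          intro j hj
          rw [Finset.mem_filter] at hj
          exact Finset.mem_range.mpr hj.2
        have h2 := Finset.card_le_card this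
        rw [Finset.card_range] at h2
        exact_mod_cast h2

theorem X03_le_sum (f : ℕ → ℝ) (h0 : ∀ j, 0 ≤ f j) (n : ℕ) (hn : n ≤ mm)
    (h : ∀ j, j < n → f j = 1) : (n : ℝ) ≤ ∑ j ∈ Finset.range mm, f j := by
  calc (n : ℝ) = ∑ j ∈ Finset.range n, f j := by
        rw [Finset.sum_congr rfl (fun j hj => h j (Finset.mem_range.mp hj))]
        simp
    _ ≤ ∑ j ∈ Finset.range mm, f j :=
        Finset.sum_le_sum_of_subset_of_nonneg (Finset.range_mono hn) (fun j _ _ => h0 j)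

/-- upper bound for the quantiser -/
theorem X03_Qx_le (x : ℝ) (N : ℤ) (hN : 0 ≤ N) (h : x - 1/4 ≤ N) : Qx x ≤ N := by
  obtain ⟨n, rfl⟩ := Int.eq_ofNat_of_zero_le hN
  unfold Qx
  have := X03_sum_le (fun j => stp (j + 1/4) (j + 3/4) x) (fun j => X03_stp_le_one _ _ _) n
    (fun j hj => by
      rw [X03_stp_zero (by linarith)]
      have : (n:ℝ) ≤ j := by exact_mod_cast hj
      have h2 : (((n:ℕ):ℤ):ℝ) = (n:ℝ) := by norm_num
      rw [h2] at h
      linarith)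
  simpa using this

theorem X03_Qx_nonneg (x : ℝ) : 0 ≤ Qx x :=
  Finset.sum_nonneg fun j _ => X03_stp_nonneg _ _ _

theorem X03_Qx_le_mm (x : ℝ) : Qx x ≤ mm := by
  unfold Qx
  calc _ ≤ ∑ j ∈ Finset.range mm, (1:ℝ) := Finset.sum_le_sum fun j _ => X03_stp_le_one _ _ _
    _ = mm := by simp

theorem X03_Qx_ge (x : ℝ) (n : ℕ) (hn : n ≤ mm) (h : (n:ℝ) - 1/16 ≤ x) : (n:ℝ) ≤ Qx x := by
  unfold Qx
  refine X03_le_sum _ (fun j => X03_stp_nonneg _ _ _) n hn (fun j hj => ?_)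
  have : (j:ℝ) + 1 ≤ n := by exact_mod_cast hj
  exact X03_stp_one (by linarith) (by linarith)

/-! clamps -/

theorem X03_hX_mono {x y : ℝ} (h : x ≤ y) : hX x ≤ hX y := by
  unfold hX
  exact max_le_max le_rfl (min_le_min le_rfl h)

theorem X03_hX_le (x : ℝ) : hX x ≤ mm + 1/2 := by
  unfold hX
  rw [X03_mm]
  exact max_le (by norm_num) (min_le_left _ _)

theorem X03_hX_eq {x : ℝ} (h1 : -1/4 ≤ x) (h2 : x ≤ mm + 1/2) : hX x = x := by
  unfold hX
  rw [min_eq_right h2, max_eq_right h1]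

theorem X03_hX_lo {x : ℝ} (h1 : x ≤ -1/4) : hX x = -1/4 := by
  unfold hX
  rw [max_eq_left ((min_le_right _ _).trans h1)]

theorem X03_hX_hi {x : ℝ} (h1 : (mm:ℝ) + 1/2 ≤ x) : hX x = mm + 1/2 := by
  unfold hX
  rw [min_eq_left h1, max_eq_right]
  rw [X03_mm]; norm_num

theorem X03_hC_eq {x : ℝ} (h1 : -1/4 ≤ x) (h2 : x ≤ 5/4) : hC x = x := by
  unfold hC
  rw [min_eq_right h2, max_eq_right h1]

theorem X03_hC_lo {x : ℝ} (h1 : x ≤ -1/4) : hC x = -1/4 := by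
  unfold hC
  rw [max_eq_left ((min_le_right _ _).trans h1)]

theorem X03_hC_hi {x : ℝ} (h1 : 5/4 ≤ x) : hC x = 5/4 := by
  unfold hC
  rw [min_eq_left h1, max_eq_right]
  norm_num

/-- trichotomy for a clamp -/
theorem X03_clamp {hi : ℝ} (c : Clamp hi) (t : ℝ) :
    (-1/4 ≤ t ∧ t ≤ hi ∧ c.Φ 1 t = t) ∨ (t < -1/4 ∧ c.Φ 1 t ≤ -1/4) ∨
      (hi < t ∧ hi ≤ c.Φ 1 t) := by
  by_cases h1 : -1/4 ≤ t
  · by_cases h2 : t ≤ hi
    · exact Or.inl ⟨h1, h2, c.fix 1 t h1 h2⟩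
    · push Not at h2
      exact Or.inr (Or.inr ⟨h2, c.up t h2.le⟩)
  · push Not at h1
    exact Or.inr (Or.inl ⟨h1, c.lo t h1.le⟩)

theorem X03_hC_clamp (c : Clamp (5/4)) (t : ℝ) : hC (c.Φ 1 t) = hC t := by
  rcases X03_clamp c t with ⟨_, _, h⟩ | ⟨h1, h2⟩ | ⟨h1, h2⟩
  · rw [h]
  · rw [X03_hC_lo h2, X03_hC_lo h1.le]
  · rw [X03_hC_hi h2, X03_hC_hi h1.le]

theorem X03_hX_clamp (c : Clamp (mm + 1/2)) (t : ℝ) : hX (c.Φ 1 t) = hX t := by
  rcases X03_clamp c t with ⟨_, _, h⟩ | ⟨h1, h2⟩ | ⟨h1, h2⟩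
  · rw [h]
  · rw [X03_hX_lo h2, X03_hX_lo h1.le]
  · rw [X03_hX_hi h2, X03_hX_hi h1.le]

theorem X03_hC_lam (c : Clamp (5/4)) (t β : ℝ) (h0 : 0 ≤ β) (h1 : β ≤ 1) :
    hC (lam * (c.Φ 1 t - β)) = hC (lam * (hC t - β)) := by
  rw [X03_lam]
  rcases X03_clamp c t with ⟨h2, h3, h⟩ | ⟨h2, h3⟩ | ⟨h2, h3⟩
  · rw [h, X03_hC_eq h2 h3]
  · rw [X03_hC_lo h2.le, X03_hC_lo (x := 131072 * (c.Φ 1 t - β)) (by linarith),
      X03_hC_lo (x := 131072 * (-1/4 - β)) (by linarith)]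
  · rw [X03_hC_hi h2.le, X03_hC_hi (x := 131072 * (c.Φ 1 t - β)) (by linarith),
      X03_hC_hi (x := 131072 * (5/4 - β)) (by linarith)]

theorem X03_le_quarter (c : Clamp (5/4)) {t : ℝ} (h : t ≤ 1/4) : c.Φ 1 t ≤ 1/4 := by
  rcases X03_clamp c t with ⟨h2, h3, h'⟩ | ⟨h2, h3⟩ | ⟨h2, h3⟩
  · rw [h']; exact h
  · linarith
  · linarith

theorem X03_ge_quarter (c : Clamp (5/4)) {t : ℝ} (h : 3/4 ≤ t) : 3/4 ≤ c.Φ 1 t := by
  rcases X03_clamp c t with ⟨h2, h3, h'⟩ | ⟨h2, h3⟩ | ⟨h2, h3⟩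
  · rw [h']; exact h
  · linarith
  · linarith

/-- reading a bit equal to zero through a register -/
theorem X03_read0 (c : Clamp (5/4)) {t ρ : ℝ} (h : t ≤ 1/4) (hρ : |ρ| ≤ 1/16) :
    Sc (ρ + Sc (c.Φ 1 t)) = 0 := by
  rw [X03_Sc_zero (X03_le_quarter c h), add_zero]
  exact X03_Sc_zero (by linarith [(abs_le.mp hρ).2])

theorem X03_read1 (c : Clamp (5/4)) {t ρ : ℝ} (h : 3/4 ≤ t) (hρ : |ρ| ≤ 1/16) :
    Sc (ρ + Sc (c.Φ 1 t)) = 1 := by
  rw [X03_Sc_one (X03_ge_quarter c h)]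
  exact X03_Sc_one (by linarith [(abs_le.mp hρ).1])

/-! digits -/

theorem X03_Dg_nonneg (μ t : ℝ) : 0 ≤ Dg μ t := le_max_left _ _
theorem X03_Dg_le (μ t : ℝ) : Dg μ t ≤ mm := by
  unfold Dg
  rw [X03_mmZ]
  exact max_le (by norm_num) (min_le_left _ _)

/-- `S2` of the clamped value is at least the digit -/
theorem X03_S2_ge (c : Clamp (mm + 1/2)) (t : ℝ) : (Dg 0 t : ℝ) ≤ S2 (c.Φ 1 t) := by
  obtain ⟨n, hn⟩ := Int.eq_ofNat_of_zero_le (X03_Dg_nonneg 0 t)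
  have hmm : n ≤ mm := by
    have := X03_Dg_le 0 t
    rw [hn] at this
    exact_mod_cast this
  rw [hn]
  unfold S2
  have key := X03_le_sum (fun j => stp (j + 1/2) (j + 5/8) (c.Φ 1 t))
    (fun j => X03_stp_nonneg _ _ _) n hmm (fun j hj => by
      -- j < Dg 0 t, hence j + 5/8 < hX t
      have h1 : (j:ℤ) < Dg 0 t := by rw [hn]; exact_mod_cast hj
      unfold Dg at h1
      have h2 : (j:ℤ) < min (mm : ℤ) ⌈hX t - 5/8 + 0⌉ := by
        rcases lt_max_iff.mp h1 with h | h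
        · exact absurd h (by have := Int.natCast_nonneg j; omega)
        · exact h
      have h3 : (j:ℤ) < ⌈hX t - 5/8 + 0⌉ := (lt_min_iff.mp h2).2
      have h4 : ((j:ℤ):ℝ) < hX t - 5/8 + 0 := Int.lt_ceil.mp h3
      have h5 : (j:ℝ) + 5/8 < hX t := by
        have : ((j:ℤ):ℝ) = (j:ℝ) := by norm_num
        linarith
      have hj0 : (0:ℝ) ≤ j := Nat.cast_nonneg j
      refine X03_stp_one (by linarith) ?_
      rcases X03_clamp c t with ⟨h6, h7, h'⟩ | ⟨h6, h7⟩ | ⟨h6, h7⟩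
      · rw [h']; rw [X03_hX_eq h6 h7] at h5; exact h5.le
      · rw [X03_hX_lo h6.le] at h5; linarith
      · rw [X03_hX_hi h6.le] at h5; linarith)
  simpa using key

/-- `S1` of the clamped value is at most the digit -/
theorem X03_S1_le (c : Clamp (mm + 1/2)) (t : ℝ) : S1 (c.Φ 1 t) ≤ (Dg 0 t : ℝ) := by
  obtain ⟨n, hn⟩ := Int.eq_ofNat_of_zero_le (X03_Dg_nonneg 0 t)
  rw [hn]
  by_cases hnm : mm ≤ n
  · unfold S1
    calc _ ≤ ∑ j ∈ Finset.range mm, (1:ℝ) := Finset.sum_le_sum fun j _ => X03_stp_le_one _ _ _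
      _ = mm := by simp
      _ ≤ _ := by
        have : (mm:ℝ) ≤ n := by exact_mod_cast hnm
        simpa using this
  · push Not at hnm
    -- then t is below
    have h0 : ∀ j : ℕ, n ≤ j → c.Φ 1 t ≤ j + 5/8 := by
      intro j hj
      have h1 : Dg 0 t ≤ j := by rw [hn]; exact_mod_cast hj
      have h2 : min (mm : ℤ) ⌈hX t - 5/8 + 0⌉ ≤ n := by
        have : min (mm : ℤ) ⌈hX t - 5/8 + 0⌉ ≤ Dg 0 t := le_max_right _ _
        rw [hn] at this
        exact_mod_cast this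
      have h3 : ⌈hX t - 5/8 + 0⌉ ≤ n := by
        rcases min_le_iff.mp h2 with h | h
        · have : mm ≤ n := by exact_mod_cast h
          omega
        · exact h
      have h4 : hX t - 5/8 + 0 ≤ ((n:ℤ):ℝ) := Int.ceil_le.mp h3
      have h5 : hX t ≤ (j:ℝ) + 5/8 := by
        have e1 : ((n:ℤ):ℝ) = (n:ℝ) := by norm_num
        have e2 : (n:ℝ) ≤ j := by exact_mod_cast hj
        linarith
      have hj0 : (0:ℝ) ≤ j := Nat.cast_nonneg j
      rcases X03_clamp c t with ⟨h6, h7, h'⟩ | ⟨h6, h7⟩ | ⟨h6, h7⟩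
      · rw [h']; rw [X03_hX_eq h6 h7] at h5; exact h5
      · linarith
      · -- hX t = mm + 1/2 ≤ n + 5/8, n < mm: impossible
        exfalso
        rw [X03_hX_hi h6.le] at h4
        have e1 : ((n:ℤ):ℝ) = (n:ℝ) := by norm_num
        have e3 : (n:ℝ) + 1 ≤ mm := by exact_mod_cast hnm
        linarith
    unfold S1
    have key := X03_sum_le (fun j => stp (j + 5/8) (j + 3/4) (c.Φ 1 t))
      (fun j => X03_stp_le_one _ _ _) n (fun j hj => by
        rw [X03_stp_zero (by linarith) (h0 j hj)])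
    simpa using key

/-! formulas for the output of a conditional move -/

theorem X03_Wt_congr {b : Bool} {z w : Zs} (h : reg z 0 = reg w 0) : Wt b z = Wt b w := by
  unfold Wt; rw [h]

theorem X03_f1_4 (s d : Fin 3) (z : Zs) : reg (f1 s d z) 4 = S1 (stk z s 2) := by
  simp [f1, reg, mkz]
theorem X03_f1_5 (s d : Fin 3) (z : Zs) : reg (f1 s d z) 5 = S1 (stk z s 3) := by
  simp [f1, reg, mkz]
theorem X03_f1_6 (s d : Fin 3) (z : Zs) : reg (f1 s d z) 6 = S1 (stk z s 4) := by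
  simp [f1, reg, mkz]
theorem X03_f1_7 (s d : Fin 3) (z : Zs) : reg (f1 s d z) 7 = S2 (stk z s 2) := by
  simp [f1, reg, mkz]
theorem X03_f1_8 (s d : Fin 3) (z : Zs) : reg (f1 s d z) 8 = S2 (stk z s 3) := by
  simp [f1, reg, mkz]
theorem X03_f1_9 (s d : Fin 3) (z : Zs) : reg (f1 s d z) 9 = S2 (stk z s 4) := by
  simp [f1, reg, mkz]
theorem X03_f1_10 (s d : Fin 3) (z : Zs) : reg (f1 s d z) 10 = 0 := by
  simp [f1, reg, mkz]
theorem X03_f1_11 (s d : Fin 3) (z : Zs) : reg (f1 s d z) 11 = 0 := by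
  simp [f1, reg, mkz]
theorem X03_f2_4 (d : Fin 3) (z : Zs) : reg (f2 d z) 4 = 0 := by
  simp [f2, reg, mkz]
theorem X03_f2_5 (d : Fin 3) (z : Zs) : reg (f2 d z) 5 = 0 := by
  simp [f2, reg, mkz]
theorem X03_f2_6 (d : Fin 3) (z : Zs) : reg (f2 d z) 6 = 0 := by
  simp [f2, reg, mkz]
theorem X03_f2_7 (d : Fin 3) (z : Zs) : reg (f2 d z) 7 = 0 := by
  simp [f2, reg, mkz]
theorem X03_f2_8 (d : Fin 3) (z : Zs) : reg (f2 d z) 8 = 0 := by
  simp [f2, reg, mkz]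
theorem X03_f2_9 (d : Fin 3) (z : Zs) : reg (f2 d z) 9 = 0 := by
  simp [f2, reg, mkz]

theorem X03_lam_pos : 0 < lam := by rw [X03_lam]; norm_num

theorem X03_out_s (cc : Clamp (5/4)) (cx : Clamp (mm + 1/2)) (b : Bool) (s d : Fin 3)
    (hsd : s ≠ d) (r : ℝ) (z : Zs) (hw : Wt b z = 1) (tr : Fin 5) :
    stk (cm cc cx b s d r z) s tr = lam * (stk (M0 cc cx s d z) s tr -
      ![Sc (reg z 1 + Sc (stk (M0 cc cx s d z) s 0)),
        Sc (reg z 2 + Sc (stk (M0 cc cx s d z) s 1)),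
        Qx (reg z 7 + S2 (stk (M0 cc cx s d z) s 2)),
        Qx (reg z 8 + S2 (stk (M0 cc cx s d z) s 3)),
        Qx (reg z 9 + S2 (stk (M0 cc cx s d z) s 4))] tr) := by
  unfold cm
  dsimp only
  generalize hz0 : M0 cc cx s d z = z0
  have hr0 : reg z0 = reg z := by rw [← hz0]; rfl
  generalize hz1 : z0 + f1 s d z0 = z1
  have hr1 : ∀ k, reg z1 k = reg z0 k + reg (f1 s d z0) k := fun k => by rw [← hz1]; rfl
  have hs1 : ∀ i tr, stk z1 i tr = stk z0 i tr := fun i tr => by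
    rw [← hz1]
    show stk z0 i tr + 0 = _
    rw [add_zero]
  generalize hz2 : z1 + f2 d z1 = z2
  have hr2 : ∀ k, reg z2 k = reg z1 k + reg (f2 d z1) k := fun k => by rw [← hz2]; rfl
  have hs2 : ∀ i tr, stk z2 i tr = stk z1 i tr := fun i tr => by
    rw [← hz2]
    show stk z1 i tr + 0 = _
    rw [add_zero]
  generalize hz3 : z2 + f3 b s d z2 = z3
  have hr3 : ∀ k, reg z3 k = reg z2 k := fun k => by
    rw [← hz3]
    show reg z2 k + 0 = _
    rw [add_zero]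
  have hs3 : ∀ i tr, stk z3 i tr = stk z2 i tr + stk (f3 b s d z2) i tr := fun i tr => by
    rw [← hz3]; rfl
  generalize hz4 : M4 b s d z3 = z4
  generalize hz5 : z4 + f5 b d r z4 = z5
  have hs5 : ∀ i tr, stk z5 i tr = stk z4 i tr + stk (f5 b d r z4) i tr := fun i tr => by
    rw [← hz5]; rfl
  have hreg0 : reg z2 0 = reg z 0 := by
    rw [hr2, hr1, hr0]
    show reg z 0 + 0 + 0 = _
    ring
  have hw2 : Wt b z2 = 1 := by rw [X03_Wt_congr hreg0, hw]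
  have hw3 : Wt b z3 = 1 := by rw [X03_Wt_congr (hr3 0), hw2]
  show stk z5 s tr = _
  have e5 : stk (f5 b d r z4) s tr = 0 := by
    show (if s = d then _ else _) = _
    rw [if_neg hsd]
  rw [hs5, e5, add_zero]
  have e4 : stk z4 s tr = lam * stk z3 s tr := by
    rw [← hz4]
    show (if s = s then Real.exp (Wt b z3 * Real.log lam) * stk z3 s tr else _) = _
    rw [if_pos rfl, hw3, one_mul, Real.exp_log X03_lam_pos]
  rw [e4, hs3, hs2, hs1]
  have e3 : stk (f3 b s d z2) s tr =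
      -(Wt b z2 * ![Sc (reg z2 1), Sc (reg z2 2), Qx (reg z2 7), Qx (reg z2 8), Qx (reg z2 9)] tr) := by
    show (if s = s then _ else _) = _
    rw [if_pos rfl]
  rw [e3, hw2, one_mul]
  have r1 : reg z2 1 = reg z 1 + Sc (stk z0 s 0) := by
    rw [hr2, hr1, hr0]
    show reg z 1 + Sc (stk z0 s 0) + 0 = _
    ring
  have r2 : reg z2 2 = reg z 2 + Sc (stk z0 s 1) := by
    rw [hr2, hr1, hr0]
    show reg z 2 + Sc (stk z0 s 1) + 0 = _
    ring
  have r7 : reg z2 7 = reg z 7 + S2 (stk z0 s 2) := by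
    rw [hr2, hr1, hr0, X03_f1_7, X03_f2_7, add_zero]
  have r8 : reg z2 8 = reg z 8 + S2 (stk z0 s 3) := by
    rw [hr2, hr1, hr0, X03_f1_8, X03_f2_8, add_zero]
  have r9 : reg z2 9 = reg z 9 + S2 (stk z0 s 4) := by
    rw [hr2, hr1, hr0, X03_f1_9, X03_f2_9, add_zero]
  rw [r1, r2, r7, r8, r9]
  ring

/-- the value `hT` -/
noncomputable def X03_hT (cc : Clamp (5/4)) (cx : Clamp (mm + 1/2)) (s d : Fin 3) (z : Zs) : ℝ :=
  reg z 10 + (1 - Sc (reg z 1 + Sc (stk (M0 cc cx s d z) s 0))) *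
    gT (stk (M0 cc cx s d z) d 0) *
    cT (Qx (reg z 6 + S1 (stk (M0 cc cx s d z) s 4))) (stk (M0 cc cx s d z) d 2)

/-- the value `ht` -/
noncomputable def X03_ht (cc : Clamp (5/4)) (cx : Clamp (mm + 1/2)) (s d : Fin 3) (z : Zs) : ℝ :=
  reg z 11 + (1 - Sc (reg z 1 + Sc (stk (M0 cc cx s d z) s 0))) *
    gt (stk (M0 cc cx s d z) d 0) *
    ct (Qx (reg z 6 + S1 (stk (M0 cc cx s d z) s 4))) (stk (M0 cc cx s d z) d 2)

theorem X03_out_d (cc : Clamp (5/4)) (cx : Clamp (mm + 1/2)) (b : Bool) (s d : Fin 3)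
    (hsd : s ≠ d) (r : ℝ) (z : Zs) (hw : Wt b z = 1) (tr : Fin 5) :
    stk (cm cc cx b s d r z) d tr =
      (stk (M0 cc cx s d z) d tr - if tr = 2 then mm * Sc (X03_hT cc cx s d z) else 0) / lam +
      ![1 - Sc (reg z 1 + Sc (stk (M0 cc cx s d z) s 0)),
        (1 - Sc (reg z 1 + Sc (stk (M0 cc cx s d z) s 0))) *
          (1 - Sc (reg z 3 + Sc (stk (M0 cc cx s d z) d 1))),
        Qx (GG (Qx (reg z 4 + S1 (stk (M0 cc cx s d z) s 2)))
          (Qx (reg z 5 + S1 (stk (M0 cc cx s d z) s 3)))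
          (Qx (reg z 6 + S1 (stk (M0 cc cx s d z) s 4)))
          (Sc (X03_ht cc cx s d z)) 0 * (1 - r)),
        Qx (GG (Qx (reg z 4 + S1 (stk (M0 cc cx s d z) s 2)))
          (Qx (reg z 5 + S1 (stk (M0 cc cx s d z) s 3)))
          (Qx (reg z 6 + S1 (stk (M0 cc cx s d z) s 4)))
          (Sc (X03_ht cc cx s d z)) 1 * (1 - r)),
        Qx (GG (Qx (reg z 4 + S1 (stk (M0 cc cx s d z) s 2)))
          (Qx (reg z 5 + S1 (stk (M0 cc cx s d z) s 3)))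
          (Qx (reg z 6 + S1 (stk (M0 cc cx s d z) s 4)))
          (Sc (X03_ht cc cx s d z)) 2 * (1 - r))] tr := by
  unfold cm X03_hT X03_ht
  dsimp only
  generalize hz0 : M0 cc cx s d z = z0
  have hr0 : reg z0 = reg z := by rw [← hz0]; rfl
  generalize hz1 : z0 + f1 s d z0 = z1
  have hr1 : ∀ k, reg z1 k = reg z0 k + reg (f1 s d z0) k := fun k => by rw [← hz1]; rfl
  have hs1 : ∀ i tr, stk z1 i tr = stk z0 i tr := fun i tr => by
    rw [← hz1]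
    show stk z0 i tr + 0 = _
    rw [add_zero]
  generalize hz2 : z1 + f2 d z1 = z2
  have hr2 : ∀ k, reg z2 k = reg z1 k + reg (f2 d z1) k := fun k => by rw [← hz2]; rfl
  have hs2 : ∀ i tr, stk z2 i tr = stk z1 i tr := fun i tr => by
    rw [← hz2]
    show stk z1 i tr + 0 = _
    rw [add_zero]
  generalize hz3 : z2 + f3 b s d z2 = z3
  have hr3 : ∀ k, reg z3 k = reg z2 k := fun k => by
    rw [← hz3]
    show reg z2 k + 0 = _
    rw [add_zero]
  have hs3 : ∀ i tr, stk z3 i tr = stk z2 i tr + stk (f3 b s d z2) i tr := fun i tr => by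
    rw [← hz3]; rfl
  generalize hz4 : M4 b s d z3 = z4
  have hr4 : ∀ k, reg z4 k = reg z3 k := fun k => by rw [← hz4]; rfl
  generalize hz5 : z4 + f5 b d r z4 = z5
  have hs5 : ∀ i tr, stk z5 i tr = stk z4 i tr + stk (f5 b d r z4) i tr := fun i tr => by
    rw [← hz5]; rfl
  have hreg0 : reg z2 0 = reg z 0 := by
    rw [hr2, hr1, hr0]
    show reg z 0 + 0 + 0 = _
    ring
  have hw2 : Wt b z2 = 1 := by rw [X03_Wt_congr hreg0, hw]
  have hw3 : Wt b z3 = 1 := by rw [X03_Wt_congr (hr3 0), hw2]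
  have hw4 : Wt b z4 = 1 := by rw [X03_Wt_congr (hr4 0), hw3]
  show stk z5 d tr = _
  have e5 : stk (f5 b d r z4) d tr = pushed r z4 tr := by
    show (if d = d then Wt b z4 * pushed r z4 tr else _) = _
    rw [if_pos rfl, hw4, one_mul]
  have e4 : stk z4 d tr = stk z3 d tr / lam := by
    rw [← hz4]
    show (if d = s then _ else if d = d then
      Real.exp (-(Wt b z3 * Real.log lam)) * stk z3 d tr else _) = _
    rw [if_neg hsd.symm, if_pos rfl, hw3, one_mul, Real.exp_neg, Real.exp_log X03_lam_pos]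
    ring
  have k1 : reg z1 1 = reg z 1 + Sc (stk z0 s 0) := by rw [hr1, hr0]; rfl
  have k6 : reg z1 6 = reg z 6 + S1 (stk z0 s 4) := by rw [hr1, hr0, X03_f1_6]
  have k10 : reg z1 10 = reg z 10 := by
    rw [hr1, hr0]
    show reg z 10 + 0 = _
    ring
  have k11 : reg z1 11 = reg z 11 := by
    rw [hr1, hr0]
    show reg z 11 + 0 = _
    ring
  have r1 : reg z2 1 = reg z 1 + Sc (stk z0 s 0) := by
    rw [hr2, k1]
    show reg z 1 + Sc (stk z0 s 0) + 0 = _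
    ring
  have r3 : reg z2 3 = reg z 3 + Sc (stk z0 d 1) := by
    rw [hr2, hr1, hr0]
    show reg z 3 + Sc (stk z0 d 1) + 0 = _
    ring
  have r4 : reg z2 4 = reg z 4 + S1 (stk z0 s 2) := by
    rw [hr2, hr1, hr0, X03_f1_4, X03_f2_4, add_zero]
  have r5 : reg z2 5 = reg z 5 + S1 (stk z0 s 3) := by
    rw [hr2, hr1, hr0, X03_f1_5, X03_f2_5, add_zero]
  have r6 : reg z2 6 = reg z 6 + S1 (stk z0 s 4) := by
    rw [hr2, k6, X03_f2_6, add_zero]
  have r10 : reg z2 10 = reg z 10 + (1 - Sc (reg z 1 + Sc (stk z0 s 0))) *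
      gT (stk z0 d 0) * cT (Qx (reg z 6 + S1 (stk z0 s 4))) (stk z0 d 2) := by
    rw [hr2, k10]
    show reg z 10 + (1 - Sc (reg z1 1)) * gT (stk z1 d 0) * cT (Qx (reg z1 6)) (stk z1 d 2) = _
    rw [k1, k6, hs1, hs1]
  have r11 : reg z2 11 = reg z 11 + (1 - Sc (reg z 1 + Sc (stk z0 s 0))) *
      gt (stk z0 d 0) * ct (Qx (reg z 6 + S1 (stk z0 s 4))) (stk z0 d 2) := by
    rw [hr2, k11]
    show reg z 11 + (1 - Sc (reg z1 1)) * gt (stk z1 d 0) * ct (Qx (reg z1 6)) (stk z1 d 2) = _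
    rw [k1, k6, hs1, hs1]
  have e3 : stk (f3 b s d z2) d tr = -(if tr = 2 then mm * Sc (reg z2 10) else 0) := by
    show (if d = s then _ else if d = d ∧ tr = 2 then -(Wt b z2 * (mm * Sc (reg z2 10)))
      else 0) = _
    rw [if_neg hsd.symm, hw2, one_mul]
    by_cases ht : tr = 2
    · rw [if_pos ⟨rfl, ht⟩, if_pos ht]
    · rw [if_neg (fun h => ht h.2), if_neg ht, neg_zero]
  rw [hs5, e5, e4, hs3, hs2, hs1, e3, r10, ← sub_eq_add_neg]
  congr 1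
  unfold pushed
  rw [hr4, hr4, hr4, hr4, hr4, hr4, hr3, hr3, hr3, hr3, hr3, hr3, r1, r3, r4, r5, r6, r11]

/-! carries -/

theorem X03_ct_nonneg (a b : ℝ) : 0 ≤ ct a b := by
  unfold ct
  have h1 := X03_stp_nonneg ((mm:ℝ) - 1/4) (mm - 1/8) b
  have h2 := X03_stp_le_one ((mm:ℝ) + 1/8) (mm + 1/4) b
  have h3 := X03_stp_le_one ((mm:ℝ) - 3/4) (mm - 1/2) a
  exact mul_nonneg (mul_nonneg h1 (by linarith)) (by linarith)

theorem X03_ct_le_one (a b : ℝ) : ct a b ≤ 1 := by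
  unfold ct
  have h1 := X03_stp_nonneg ((mm:ℝ) - 1/4) (mm - 1/8) b
  have h1' := X03_stp_le_one ((mm:ℝ) - 1/4) (mm - 1/8) b
  have h2 := X03_stp_le_one ((mm:ℝ) + 1/8) (mm + 1/4) b
  have h2' := X03_stp_nonneg ((mm:ℝ) + 1/8) (mm + 1/4) b
  have h3 := X03_stp_le_one ((mm:ℝ) - 3/4) (mm - 1/2) a
  have h3' := X03_stp_nonneg ((mm:ℝ) - 3/4) (mm - 1/2) a
  exact mul_le_one₀ (mul_le_one₀ h1' (by linarith) (by linarith)) (by linarith) (by linarith)

theorem X03_cT_nonneg (a b : ℝ) : 0 ≤ cT a b := by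
  unfold cT
  have h1 := X03_stp_nonneg ((mm:ℝ) - 1/2) (mm - 3/8) b
  have h2 := X03_stp_le_one ((mm:ℝ) + 3/8) (mm + 1/2) b
  have h3 := X03_stp_le_one ((mm:ℝ) - 3/8) (mm - 1/4) a
  exact mul_nonneg (mul_nonneg h1 (by linarith)) (by linarith)

theorem X03_ct_pos {a b : ℝ} (h : 0 < ct a b) :
    (mm:ℝ) - 1/4 < b ∧ b < mm + 1/4 ∧ a < mm - 1/2 := by
  unfold ct at h
  have h1 := X03_stp_nonneg ((mm:ℝ) - 1/4) (mm - 1/8) b
  have h2 := X03_stp_le_one ((mm:ℝ) + 1/8) (mm + 1/4) b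
  have h3 := X03_stp_le_one ((mm:ℝ) - 3/4) (mm - 1/2) a
  have e3 : stp ((mm:ℝ) - 3/4) (mm - 1/2) a < 1 := by
    by_contra hcon
    have : stp ((mm:ℝ) - 3/4) (mm - 1/2) a = 1 := le_antisymm h3 (not_lt.mp hcon)
    rw [this] at h
    simp at h
  have e2 : stp ((mm:ℝ) + 1/8) (mm + 1/4) b < 1 := by
    by_contra hcon
    have : stp ((mm:ℝ) + 1/8) (mm + 1/4) b = 1 := le_antisymm h2 (not_lt.mp hcon)
    rw [this] at h
    simp at h
  have e1 : 0 < stp ((mm:ℝ) - 1/4) (mm - 1/8) b := by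
    by_contra hcon
    have : stp ((mm:ℝ) - 1/4) (mm - 1/8) b = 0 := le_antisymm (not_lt.mp hcon) h1
    rw [this] at h
    simp at h
  refine ⟨X03_stp_pos (by linarith) e1, X03_stp_lt (by linarith) e2,
    X03_stp_lt (by linarith) e3⟩

theorem X03_cT_one {a b : ℝ} (h1 : (mm:ℝ) - 1/4 < b) (h2 : b < mm + 1/4)
    (h3 : a < mm - 1/2) : cT a b = 1 := by
  unfold cT
  rw [X03_stp_one (by linarith) (by linarith), X03_stp_zero (by linarith) (by linarith),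
    X03_stp_zero (by linarith) (by linarith)]
  norm_num

theorem X03_carry (a b : ℝ) (D E : ℤ) (hE : 0 ≤ E) (ha : a ≤ D) (hb : b ≤ E) :
    ∃ E1 : ℤ, D ≤ E1 ∧ carryHi a b ≤ E1 ∧
      (mm:ℤ) * E1 + max 0 ⌈carryLo a b - 1/4⌉ ≤ mm * D + E := by
  rcases (X03_ct_nonneg a b).lt_or_eq with h | h
  · obtain ⟨h1, h2, h3⟩ := X03_ct_pos h
    refine ⟨D + 1, by omega, ?_, ?_⟩
    · unfold carryHi
      push_cast
      linarith [X03_ct_le_one a b]
    · have hc : max 0 ⌈carryLo a b - 1/4⌉ = 0 := by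
        apply max_eq_left
        rw [Int.ceil_le]
        unfold carryLo
        rw [X03_cT_one h1 h2 h3]
        push_cast
        linarith
      rw [hc]
      have hEm : (mm:ℤ) ≤ E := by
        have : ((mm:ℤ):ℝ) - 1 < E := by
          push_cast
          linarith
        have h5 : (mm:ℤ) - 1 < E := by exact_mod_cast this
        omega
      linarith
  · refine ⟨D, le_rfl, ?_, ?_⟩
    · unfold carryHi
      rw [← h]
      linarith
    · have hc : max 0 ⌈carryLo a b - 1/4⌉ ≤ E := by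
        apply max_le hE
        rw [Int.ceil_le]
        unfold carryLo
        have := mul_nonneg (Nat.cast_nonneg (α := ℝ) mm) (X03_cT_nonneg a b)
        linarith
      linarith

theorem X03_Vz (a0 a1 a2 T : ℝ) (D : Fin 3 → ℤ) (hD : ∀ k, 0 ≤ D k) (h0 : a0 ≤ D 0)
    (h1 : a1 ≤ D 1) (h2 : a2 ≤ D 2) (hT1 : T ≤ 1) (db : Bool)
    (hdb : db = decide (0 < T)) :
    Vz (fun k => max 0 ⌈GG a0 a1 a2 T k - 1/4⌉) ≤ Vz D + (if db then 1 else 0) := by
  obtain ⟨E2, hE2, hE2b, hE20⟩ : ∃ E2 : ℤ, (E2:ℝ) = D 2 + (if db then 1 else 0) ∧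
      a2 + T ≤ E2 ∧ 0 ≤ E2 := by
    by_cases hT : 0 < T
    · refine ⟨D 2 + 1, ?_, ?_, ?_⟩
      · rw [hdb, decide_eq_true hT]; push_cast; simp
      · push_cast; linarith
      · have := hD 2; omega
    · refine ⟨D 2, ?_, ?_, ?_⟩
      · rw [hdb, decide_eq_false hT]; simp
      · linarith
      · exact hD 2
  obtain ⟨E1, hE1a, hE1b, hE1c⟩ := X03_carry a1 (a2 + T) (D 1) E2 hE20 h1 hE2b
  have hE10 : 0 ≤ E1 := (hD 1).trans hE1a
  obtain ⟨E0, hE0a, hE0b, hE0c⟩ := X03_carry a0 (carryHi a1 (a2 + T)) (D 0) E1 hE10 h0 hE1b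
  have hE00 : 0 ≤ E0 := (hD 0).trans hE0a
  have hg0 : max 0 ⌈carryHi a0 (carryHi a1 (a2 + T)) - 1/4⌉ ≤ E0 := by
    apply max_le hE00
    rw [Int.ceil_le]
    linarith
  have e0 : GG a0 a1 a2 T 0 = carryHi a0 (carryHi a1 (a2 + T)) := rfl
  have e1 : GG a0 a1 a2 T 1 = carryLo a0 (carryHi a1 (a2 + T)) := rfl
  have e2 : GG a0 a1 a2 T 2 = carryLo a1 (a2 + T) := rfl
  unfold Vz
  simp only [e0, e1, e2]
  have r0 : ((max 0 ⌈carryHi a0 (carryHi a1 (a2 + T)) - 1/4⌉ : ℤ) : ℝ) ≤ E0 := by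
    exact_mod_cast hg0
  have r1 : (mm:ℝ) * E0 + ((max 0 ⌈carryLo a0 (carryHi a1 (a2 + T)) - 1/4⌉ : ℤ) : ℝ) ≤
      mm * D 0 + E1 := by exact_mod_cast hE0c
  have r2 : (mm:ℝ) * E1 + ((max 0 ⌈carryLo a1 (a2 + T) - 1/4⌉ : ℤ) : ℝ) ≤
      mm * D 1 + E2 := by exact_mod_cast hE1c
  generalize ((max 0 ⌈carryHi a0 (carryHi a1 (a2 + T)) - 1/4⌉ : ℤ) : ℝ) = G0 at r0 ⊢
  generalize ((max 0 ⌈carryLo a0 (carryHi a1 (a2 + T)) - 1/4⌉ : ℤ) : ℝ) = G1 at r1 ⊢
  generalize ((max 0 ⌈carryLo a1 (a2 + T) - 1/4⌉ : ℤ) : ℝ) = G2 at r2 ⊢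
  rw [add_assoc _ (D 2 : ℝ), ← hE2]
  rw [X03_mm] at *
  nlinarith

/-- the gate conditions -/
theorem X03_gt_pos {u : ℝ} (h : 0 < gt u) : u < 1/8 ∨ 7/8 < u := by
  by_contra hcon
  push Not at hcon
  unfold gt at h
  rw [X03_stp_one (by norm_num) hcon.1, X03_stp_zero (by norm_num) hcon.2] at h
  norm_num at h

theorem X03_gt_nonneg (u : ℝ) : 0 ≤ gt u := by
  unfold gt
  have h1 := X03_stp_nonneg (1/16) (1/8) u
  have h1' := X03_stp_le_one (1/16) (1/8) u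
  have h2 := X03_stp_nonneg (7/8) (15/16) u
  have h2' := X03_stp_le_one (7/8) (15/16) u
  have := mul_le_one₀ h1' (by linarith : 0 ≤ 1 - stp (7/8) (15/16) u) (by linarith)
  linarith

theorem X03_gT_one {u : ℝ} (h : u < 1/8 ∨ 7/8 < u) : gT u = 1 := by
  unfold gT
  rcases h with h | h
  · rw [X03_stp_zero (by norm_num) h.le]; ring
  · rw [X03_stp_one (a := 13/16) (by norm_num) h.le]; ring

theorem X03_gates (cc : Clamp (5/4)) (cx : Clamp (mm + 1/2)) (β ρ10 ρ11 x0 x2 a2 : ℝ)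
    (hβ : β = 0 ∨ β = 1) (h10 : |ρ10| ≤ 1/16) (h11 : |ρ11| ≤ 1/16)
    (hT : 0 < Sc (ρ11 + (1 - β) * gt (cc.Φ 1 x0) * ct a2 (cx.Φ 1 x2))) :
    β = 0 ∧ (x0 ≤ 1/8 ∨ 7/8 ≤ x0) ∧ (mm:ℝ) - 1/4 ≤ x2 ∧ x2 ≤ mm + 1/4 ∧
      Sc (ρ10 + (1 - β) * gT (cc.Φ 1 x0) * cT a2 (cx.Φ 1 x2)) = 1 := by
  have h1 := X03_Sc_pos hT
  have h2 : 0 < (1 - β) * gt (cc.Φ 1 x0) * ct a2 (cx.Φ 1 x2) := by
    linarith [(abs_le.mp h11).2]
  have hb : β = 0 := by
    rcases hβ with h | h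
    · exact h
    · rw [h] at h2; norm_num at h2
  subst hb
  have h3 : 0 < gt (cc.Φ 1 x0) := by
    rcases (X03_gt_nonneg (cc.Φ 1 x0)).lt_or_eq with h | h
    · exact h
    · rw [← h] at h2; norm_num at h2
  have h4 : 0 < ct a2 (cx.Φ 1 x2) := by
    rcases (X03_ct_nonneg a2 (cx.Φ 1 x2)).lt_or_eq with h | h
    · exact h
    · rw [← h] at h2; norm_num at h2
  have h5 := X03_gt_pos h3
  obtain ⟨h6, h7, h8⟩ := X03_ct_pos h4
  have hmm := X03_mm
  have hx2 : cx.Φ 1 x2 = x2 := by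
    rcases X03_clamp cx x2 with ⟨_, _, h⟩ | ⟨_, h⟩ | ⟨_, h⟩
    · exact h
    · linarith
    · linarith
  refine ⟨rfl, ?_, ?_, ?_, ?_⟩
  · rcases X03_clamp cc x0 with ⟨_, _, h⟩ | ⟨h, _⟩ | ⟨h, _⟩
    · rw [h] at h5
      exact h5.imp le_of_lt le_of_lt
    · exact Or.inl (by linarith)
    · exact Or.inr (by linarith)
  · rw [hx2] at h6; exact h6.le
  · rw [hx2] at h7; exact h7.le
  · rw [X03_gT_one h5, X03_cT_one h6 h7 h8]
    exact X03_Sc_one (by linarith [(abs_le.mp h10).1])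

/-- the output of a data track of the source -/
theorem X03_src (cx : Clamp (mm + 1/2)) (t ρ : ℝ) (hρ : |ρ| ≤ 1/16) :
    hX (lam * (cx.Φ 1 t - Qx (ρ + S2 (cx.Φ 1 t)))) ≤
      max (hX (lam * (hX t - Dg 0 t))) 0 := by
  have hD0 : (0:ℝ) ≤ Dg 0 t := by exact_mod_cast X03_Dg_nonneg 0 t
  have hQ : (Dg 0 t : ℝ) ≤ Qx (ρ + S2 (cx.Φ 1 t)) := by
    obtain ⟨n, hn⟩ := Int.eq_ofNat_of_zero_le (X03_Dg_nonneg 0 t)
    have hmm : n ≤ mm := by
      have := X03_Dg_le 0 t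
      rw [hn] at this
      exact_mod_cast this
    have h1 := X03_S2_ge cx t
    rw [hn] at h1 ⊢
    have h2 : ((n:ℤ):ℝ) = n := by norm_num
    change ((n:ℤ):ℝ) ≤ _ at h1
    change ((n:ℤ):ℝ) ≤ _
    rw [h2] at h1 ⊢
    exact X03_Qx_ge _ n hmm (by linarith [(abs_le.mp hρ).1])
  have hlam := X03_lam_pos
  have hle : lam * (cx.Φ 1 t - Qx (ρ + S2 (cx.Φ 1 t))) ≤ lam * (cx.Φ 1 t - Dg 0 t) :=
    mul_le_mul_of_nonneg_left (by linarith) hlam.le
  rcases X03_clamp cx t with ⟨h1, h2, h⟩ | ⟨h1, h2⟩ | ⟨h1, h2⟩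
  · refine le_trans ?_ (le_max_left _ _)
    rw [X03_hX_eq h1 h2]
    rw [h] at hle ⊢
    exact X03_hX_mono hle
  · refine le_trans ?_ (le_max_right _ _)
    have : lam * (cx.Φ 1 t - Dg 0 t) ≤ -1/4 := by
      rw [X03_lam]
      linarith
    rw [X03_hX_lo (hle.trans this)]
    norm_num
  · refine le_trans ?_ (le_max_left _ _)
    have hD : (Dg 0 t : ℝ) ≤ mm := by exact_mod_cast X03_Dg_le 0 t
    have : (mm:ℝ) + 1/2 ≤ lam * (hX t - Dg 0 t) := by
      rw [X03_hX_hi h1.le, X03_lam, X03_mm]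
      rw [X03_mm] at hD
      linarith
    rw [X03_hX_hi this]
    exact X03_hX_le _

/-- the digit read is at most the true digit -/
theorem X03_read (cx : Clamp (mm + 1/2)) (t ρ : ℝ) (hρ : |ρ| ≤ 1/16) :
    Qx (ρ + S1 (cx.Φ 1 t)) ≤ Dg 0 t :=
  X03_Qx_le _ _ (X03_Dg_nonneg 0 t) (by linarith [X03_S1_le cx t, (abs_le.mp hρ).2])

/-- the output of a data track of the target -/
theorem X03_tgt (y q : ℝ) (g : ℤ) (hg : 0 ≤ g) (hy1 : -1/2 - mm ≤ y) (hy2 : y ≤ mm + 3/4)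
    (hq0 : 0 ≤ q) (hqm : q ≤ mm) (hqg : q ≤ g) :
    -1/8 ≤ y / lam + q ∧ y / lam + q ≤ mm + 1/8 ∧ Dg (1/16) (y / lam + q) ≤ g ∧
    hX (lam * (y / lam + q - g)) ≤ hX y ∧ |y / lam| ≤ 1/16 := by
  have hmm := X03_mm
  have hlam := X03_lam
  have hw1 : -1/16 ≤ y / lam := by
    rw [le_div_iff₀ X03_lam_pos, hlam]
    linarith
  have hw2 : y / lam ≤ 1/16 := by
    rw [div_le_iff₀ X03_lam_pos, hlam]
    linarith
  refine ⟨by linarith, by linarith, ?_, ?_, abs_le.mpr ⟨by linarith, hw2⟩⟩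
  · unfold Dg
    refine max_le hg (le_trans (min_le_right _ _) ?_)
    rw [Int.ceil_le, X03_hX_eq (by linarith) (by linarith)]
    linarith
  · apply X03_hX_mono
    have : lam * (y / lam + q - g) = y + lam * (q - g) := by
      have := X03_lam_pos.ne'
      field_simp
      ring
    rw [this]
    have := mul_nonneg X03_lam_pos.le (by linarith : (0:ℝ) ≤ g - q)
    linarith

theorem X03_q_le (G r : ℝ) (hr0 : 0 ≤ r) (hr1 : r ≤ 1) :
    Qx (G * (1 - r)) ≤ ((max 0 ⌈G - 1/4⌉ : ℤ) : ℝ) := by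
  apply X03_Qx_le _ _ (le_max_left _ _)
  have h1 : (0:ℝ) ≤ ((max 0 ⌈G - 1/4⌉ : ℤ) : ℝ) := by exact_mod_cast le_max_left _ _
  have h2 : G - 1/4 ≤ ((max 0 ⌈G - 1/4⌉ : ℤ) : ℝ) :=
    (Int.le_ceil _).trans (by exact_mod_cast le_max_right _ _)
  rcases le_total 0 G with h | h
  · have := mul_nonneg h hr0
    nlinarith
  · have := mul_nonneg (neg_nonneg.mpr h) (by linarith : 0 ≤ 1 - r)
    nlinarith

theorem X03_M0_lo (cc : Clamp (5/4)) (cx : Clamp (mm + 1/2)) (s d i : Fin 3) (z : Zs)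
    (hi : i = s ∨ i = d) (tr : Fin 5) (htr : tr.1 < 2) :
    stk (M0 cc cx s d z) i tr = cc.Φ 1 (stk z i tr) := by
  show (if i = s ∨ i = d then
    (if tr.1 < 2 then cc.Φ 1 (stk z i tr) else cx.Φ 1 (stk z i tr)) else stk z i tr) = _
  rw [if_pos hi, if_pos htr]

theorem X03_M0_hi (cc : Clamp (5/4)) (cx : Clamp (mm + 1/2)) (s d i : Fin 3) (z : Zs)
    (hi : i = s ∨ i = d) (tr : Fin 5) (htr : ¬ tr.1 < 2) :
    stk (M0 cc cx s d z) i tr = cx.Φ 1 (stk z i tr) := by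
  show (if i = s ∨ i = d then
    (if tr.1 < 2 then cc.Φ 1 (stk z i tr) else cx.Φ 1 (stk z i tr)) else stk z i tr) = _
  rw [if_pos hi, if_neg htr]

theorem X03_v2 (a b c d e : ℝ) (tr : Fin 5) (h : tr = 2) : ![a, b, c, d, e] tr = c := by
  subst h; rfl
theorem X03_v3 (a b c d e : ℝ) (tr : Fin 5) (h : tr = 3) : ![a, b, c, d, e] tr = d := by
  subst h; rfl
theorem X03_v4 (a b c d e : ℝ) (tr : Fin 5) (h : tr = 4) : ![a, b, c, d, e] tr = e := by
  subst h; rfl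

theorem X03_main (cc : Clamp (5/4)) (cx : Clamp (mm + 1/2)) (b : Bool) (s d : Fin 3)
    (hsd : s ≠ d) (r : ℝ) (hr0 : 0 ≤ r) (hr1 : r ≤ 1) (z : Zs)
    (hS : ∀ i tr, |stk z i tr| ≤ 2 ^ 32) (hR : ∀ k, k ≠ 0 → |reg z k| ≤ 1/16)
    (hw : Wt b z = 1) (β : ℝ) (hβ : β = 0 ∨ β = 1)
    (hu : Sc (reg z 1 + Sc (cc.Φ 1 (stk z s 0))) = β) :
    MvB s d β (stk z) (stk (cm cc cx b s d r z)) := by
  have hmm := X03_mm
  have hlam := X03_lam
  have hlam0 := X03_lam_pos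
  have hβ0 : 0 ≤ β := by rcases hβ with h | h <;> rw [h] <;> norm_num
  have hβ1 : β ≤ 1 := by rcases hβ with h | h <;> rw [h] <;> norm_num
  have hs := X03_out_s cc cx b s d hsd r z hw
  have hd := X03_out_d cc cx b s d hsd r z hw
  have s0 := X03_M0_lo cc cx s d s z (Or.inl rfl) 0 (by decide)
  have s1 := X03_M0_lo cc cx s d s z (Or.inl rfl) 1 (by decide)
  have s2 := X03_M0_hi cc cx s d s z (Or.inl rfl) 2 (by decide)
  have s3 := X03_M0_hi cc cx s d s z (Or.inl rfl) 3 (by decide)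
  have s4 := X03_M0_hi cc cx s d s z (Or.inl rfl) 4 (by decide)
  have d0 := X03_M0_lo cc cx s d d z (Or.inr rfl) 0 (by decide)
  have d1 := X03_M0_lo cc cx s d d z (Or.inr rfl) 1 (by decide)
  have d2 := X03_M0_hi cc cx s d d z (Or.inr rfl) 2 (by decide)
  have d3 := X03_M0_hi cc cx s d d z (Or.inr rfl) 3 (by decide)
  have d4 := X03_M0_hi cc cx s d d z (Or.inr rfl) 4 (by decide)
  unfold X03_hT X03_ht at hd
  rw [s0, s1, s2, s3, s4] at hs
  rw [s0, s2, s3, s4, d0, d1, d2] at hd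
  rw [hu] at hs hd
  have a0 : stk (cm cc cx b s d r z) s 0 = lam * (cc.Φ 1 (stk z s 0) - β) := by
    rw [hs 0, s0]; rfl
  have a1 : stk (cm cc cx b s d r z) s 1 =
      lam * (cc.Φ 1 (stk z s 1) - Sc (reg z 2 + Sc (cc.Φ 1 (stk z s 1)))) := by
    rw [hs 1, s1]; rfl
  have a2 : stk (cm cc cx b s d r z) s 2 =
      lam * (cx.Φ 1 (stk z s 2) - Qx (reg z 7 + S2 (cx.Φ 1 (stk z s 2)))) := by
    rw [hs 2, X03_v2 _ _ _ _ _ _ rfl, s2]
  have a3 : stk (cm cc cx b s d r z) s 3 =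
      lam * (cx.Φ 1 (stk z s 3) - Qx (reg z 8 + S2 (cx.Φ 1 (stk z s 3)))) := by
    rw [hs 3, X03_v3 _ _ _ _ _ _ rfl, s3]
  have a4 : stk (cm cc cx b s d r z) s 4 =
      lam * (cx.Φ 1 (stk z s 4) - Qx (reg z 9 + S2 (cx.Φ 1 (stk z s 4)))) := by
    rw [hs 4, X03_v4 _ _ _ _ _ _ rfl, s4]
  have b0 : stk (cm cc cx b s d r z) d 0 = cc.Φ 1 (stk z d 0) / lam + (1 - β) := by
    rw [hd 0, d0, if_neg (by decide), sub_zero]; rfl
  have b1 : stk (cm cc cx b s d r z) d 1 = cc.Φ 1 (stk z d 1) / lam +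
      (1 - β) * (1 - Sc (reg z 3 + Sc (cc.Φ 1 (stk z d 1)))) := by
    rw [hd 1, d1, if_neg (by decide), sub_zero]; rfl
  have b2 := hd 2
  have b3 := hd 3
  have b4 := hd 4
  rw [if_pos rfl, d2, X03_v2 _ _ _ _ _ _ rfl] at b2
  rw [if_neg (by decide), d3, sub_zero, X03_v3 _ _ _ _ _ _ rfl] at b3
  rw [if_neg (by decide), d4, sub_zero, X03_v4 _ _ _ _ _ _ rfl] at b4
  have rc : ∀ i tr, |cc.Φ 1 (stk z i tr) / lam| ≤ 1/16 := by
    intro i tr
    have := cc.rng _ (hS i tr)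
    rw [abs_le]
    constructor
    · rw [le_div_iff₀ hlam0, hlam]; linarith
    · rw [div_le_iff₀ hlam0, hlam]; linarith
  have cancel : ∀ x : ℝ, lam * (x / lam) = x := fun x => by field_simp
  refine ⟨?_, ?_, ?_, ?_, ?_, ?_, ?_, ?_⟩
  · rw [a0, X03_hC_lam cc _ β hβ0 hβ1]
  · rw [b0, add_sub_cancel_right]
    exact rc d 0
  · rw [b0, add_sub_cancel_right, cancel, X03_hC_clamp]
  · intro h
    rw [a1, X03_read0 cc h (hR 2 (by decide)), X03_hC_lam cc _ 0 le_rfl zero_le_one, sub_zero]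
  · intro h
    rw [a1, X03_read1 cc h (hR 2 (by decide)), X03_hC_lam cc _ 1 zero_le_one le_rfl]
  · intro h
    rw [b1, h]
    simp only [sub_self, zero_mul, add_zero]
    exact ⟨rc d 1, by rw [cancel, X03_hC_clamp]⟩
  · intro h
    refine ⟨fun h1 => ?_, fun h1 => ?_⟩
    · rw [b1, h, X03_read0 cc h1 (hR 3 (by decide))]
      simp only [sub_zero, one_mul, add_sub_cancel_right]
      exact ⟨rc d 1, by rw [cancel, X03_hC_clamp]⟩
    · rw [b1, h, X03_read1 cc h1 (hR 3 (by decide))]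
      simp only [sub_self, mul_zero, add_zero]
      exact ⟨rc d 1, by rw [cancel, X03_hC_clamp]⟩
  · -- data
    have u0 := X03_read cx (stk z s 2) (reg z 4) (hR 4 (by decide))
    have u1 := X03_read cx (stk z s 3) (reg z 5) (hR 5 (by decide))
    have u2 := X03_read cx (stk z s 4) (reg z 6) (hR 6 (by decide))
    generalize Qx (reg z 4 + S1 (cx.Φ 1 (stk z s 2))) = A0 at *
    generalize Qx (reg z 5 + S1 (cx.Φ 1 (stk z s 3))) = A1 at *
    generalize Qx (reg z 6 + S1 (cx.Φ 1 (stk z s 4))) = A2 at *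
    have hg := X03_gates cc cx β (reg z 10) (reg z 11) (stk z d 0) (stk z d 2) A2 hβ
      (hR 10 (by decide)) (hR 11 (by decide))
    have hT1 := X03_Sc_le_one
      (reg z 11 + (1 - β) * gt (cc.Φ 1 (stk z d 0)) * ct A2 (cx.Φ 1 (stk z d 2)))
    generalize Sc (reg z 11 + (1 - β) * gt (cc.Φ 1 (stk z d 0)) *
      ct A2 (cx.Φ 1 (stk z d 2))) = T at *
    have hh0 := X03_Sc_nonneg
      (reg z 10 + (1 - β) * gT (cc.Φ 1 (stk z d 0)) * cT A2 (cx.Φ 1 (stk z d 2)))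
    have hh1 := X03_Sc_le_one
      (reg z 10 + (1 - β) * gT (cc.Φ 1 (stk z d 0)) * cT A2 (cx.Φ 1 (stk z d 2)))
    generalize Sc (reg z 10 + (1 - β) * gT (cc.Φ 1 (stk z d 0)) *
      cT A2 (cx.Φ 1 (stk z d 2))) = H at *
    refine ⟨decide (0 < T), fun k => max 0 ⌈GG A0 A1 A2 T k - 1/4⌉, ?_, ?_, ?_⟩
    · intro h
      obtain ⟨h1, h2, h3, h4, -⟩ := hg (of_decide_eq_true h)
      exact ⟨h1, h2, h3, h4⟩
    · exact X03_Vz A0 A1 A2 T (fun k => Dg 0 (stk z s (dt k))) (fun k => X03_Dg_nonneg _ _)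
        u0 u1 u2 hT1 _ rfl
    · have hmH0 : 0 ≤ (mm:ℝ) * H := mul_nonneg (by rw [hmm]; norm_num) hh0
      have hmH1 : (mm:ℝ) * H ≤ mm := mul_le_of_le_one_right (by rw [hmm]; norm_num) hh1
      have r2 := cx.rng _ (hS d 2)
      have r3 := cx.rng _ (hS d 3)
      have r4 := cx.rng _ (hS d 4)
      intro k
      have hgk : 0 ≤ (max 0 ⌈GG A0 A1 A2 T k - 1/4⌉ : ℤ) := le_max_left _ _
      have hq := X03_q_le (GG A0 A1 A2 T k) r hr0 hr1
      have hq0 := X03_Qx_nonneg (GG A0 A1 A2 T k * (1 - r))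
      have hqm := X03_Qx_le_mm (GG A0 A1 A2 T k * (1 - r))
      fin_cases k
      · -- k = 0
        have b2' : stk (cm cc cx b s d r z) d 2 =
          (cx.Φ 1 (stk z d 2) - mm * H) / lam + Qx (GG A0 A1 A2 T 0 * (1 - r)) := b2
        obtain ⟨c1, c2, c3, c4, -⟩ := X03_tgt (cx.Φ 1 (stk z d 2) - mm * H)
          (Qx (GG A0 A1 A2 T 0 * (1 - r))) (max 0 ⌈GG A0 A1 A2 T 0 - 1/4⌉) hgk
          (by linarith) (by linarith) hq0 hqm hq
        rw [← b2'] at c1 c2 c3 c4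
        refine ⟨?_, c1, c2, c3, fun _ => ?_⟩
        · show hX (stk (cm cc cx b s d r z) s 2) ≤ _
          rw [a2]
          exact X03_src cx _ _ (hR 7 (by decide))
        · refine le_trans c4 ?_
          refine le_trans ?_ (le_max_left _ _)
          by_cases hT : 0 < T
          · obtain ⟨-, -, h3, h4, h5⟩ := hg hT
            rw [if_pos ⟨decide_eq_true hT, rfl⟩, h5, mul_one,
              cx.fix 1 _ (by rw [hmm] at h3; linarith) (by linarith)]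
            exact le_rfl
          · rw [if_neg (by simp [hT]), sub_zero]
            refine le_trans ?_ (X03_hX_clamp cx (stk z d 2)).le
            apply X03_hX_mono
            linarith
      · -- k = 1
        have b3' : stk (cm cc cx b s d r z) d 3 =
          cx.Φ 1 (stk z d 3) / lam + Qx (GG A0 A1 A2 T 1 * (1 - r)) := b3
        obtain ⟨c1, c2, c3, c4, -⟩ := X03_tgt (cx.Φ 1 (stk z d 3))
          (Qx (GG A0 A1 A2 T 1 * (1 - r))) (max 0 ⌈GG A0 A1 A2 T 1 - 1/4⌉) hgk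
          (by linarith) (by linarith) hq0 hqm hq
        rw [← b3'] at c1 c2 c3 c4
        refine ⟨?_, c1, c2, c3, fun _ => ?_⟩
        · show hX (stk (cm cc cx b s d r z) s 3) ≤ _
          rw [a3]
          exact X03_src cx _ _ (hR 8 (by decide))
        · refine le_trans c4 ?_
          refine le_trans ?_ (le_max_left _ _)
          rw [if_neg (by simp), sub_zero]
          exact (X03_hX_clamp cx _).le
      · -- k = 2
        have b4' : stk (cm cc cx b s d r z) d 4 =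
          cx.Φ 1 (stk z d 4) / lam + Qx (GG A0 A1 A2 T 2 * (1 - r)) := b4
        obtain ⟨c1, c2, c3, c4, -⟩ := X03_tgt (cx.Φ 1 (stk z d 4))
          (Qx (GG A0 A1 A2 T 2 * (1 - r))) (max 0 ⌈GG A0 A1 A2 T 2 - 1/4⌉) hgk
          (by linarith) (by linarith) hq0 hqm hq
        rw [← b4'] at c1 c2 c3 c4
        refine ⟨?_, c1, c2, c3, fun _ => ?_⟩
        · show hX (stk (cm cc cx b s d r z) s 4) ≤ _
          rw [a4]
          exact X03_src cx _ _ (hR 9 (by decide))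
        · refine le_trans c4 ?_
          refine le_trans ?_ (le_max_left _ _)
          rw [if_neg (by simp), sub_zero]
          exact (X03_hX_clamp cx _).le

/-- TARGET -/
theorem cm_move (cc : Clamp (5/4)) (cx : Clamp (mm + 1/2)) (b : Bool) (s d : Fin 3)
    (hsd : s ≠ d) (r : ℝ) (hr0 : 0 ≤ r) (hr1 : r ≤ 1) (z : Zs)
    (hS : ∀ i tr, |stk z i tr| ≤ 2 ^ 32) (hR : ∀ k, k ≠ 0 → |reg z k| ≤ 1/16)
    (hw : Wt b z = 1) :
    Mv s d (stk z) (stk (cm cc cx b s d r z)) := by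
  refine ⟨fun h => ?_, fun h => ?_⟩
  · exact X03_main cc cx b s d hsd r hr0 hr1 z hS hR hw 0 (Or.inl rfl)
      (X03_read0 cc h (hR 1 (by decide)))
  · exact X03_main cc cx b s d hsd r hr0 hr1 z hS hR hw 1 (Or.inr rfl)
      (X03_read1 cc h (hR 1 (by decide)))

end Pool.Agent.Aub
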