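import Mathlib
import Pool.Agent.Helper961.Aub.Base
import Pool.Agent.Helper961.Aub.Mach
import Pool.Agent.Helper961.Aub.Sym
import Pool.Agent.Helper961.Aub.XLex
import Pool.Agent.Helper961.Aub.XBase
import Pool.Agent.Helper961.Aub.XRange

set_option autoImplicit false

open Set Filter Topology

namespace Pool.Agent.Aub

theorem X11_carry_le (D : Fin 3 → ℕ) (hD : ∀ k, D k ≤ mm) (t : ℕ)
    (ht : t = 0 ∨ (t = 1 ∧ D 2 < mm)) (k : Fin 3) : carry D t k ≤ mm := by
  have h0 := hD 0
  have h1 := hD 1
  have h2 := hD 2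
  unfold carry
  split_ifs <;> fin_cases k <;> simp <;> omega

theorem X11_tt (a e : Cell) : tt a e = 0 ∨ (tt a e = 1 ∧ a.D 2 < mm) := by
  unfold tt
  split_ifs with h
  · exact Or.inr ⟨rfl, h.2.2⟩
  · exact Or.inl rfl

theorem X11_newc_D (a e : Cell) : (newc false a e).D = carry a.D (tt a e) := by
  simp [newc]

theorem X11_newc_le (a e : Cell) (h : ∀ k, a.D k ≤ mm) (k : Fin 3) : (newc false a e).D k ≤ mm := by
  rw [X11_newc_D]
  exact X11_carry_le a.D h _ (X11_tt a e) k

theorem X11_dec (l : List Cell) (h : Dle l) : Dle (dec l) := by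
  rcases l with _ | ⟨a, tl⟩
  · exact h
  · intro c hc k
    simp only [dec, List.mem_cons] at hc
    rcases hc with rfl | hc
    · simp only
      by_cases hk : k = 0
      · subst hk; simp
      · rw [Function.update_of_ne hk]
        exact h a (by simp) k
    · exact h c (by simp [hc]) k

theorem X11_tail (l : List Cell) (h : Dle l) : Dle l.tail :=
  fun a ha k => h a (List.mem_of_mem_tail ha) k

theorem X11_hd (l : List Cell) (h : Dle l) (k : Fin 3) : (hd l).D k ≤ mm := by
  rcases l with _ | ⟨a, tl⟩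
  · simp [hd, zc]
  · exact h a (by simp) k

theorem X11_stE (l : List Cell) (h : Dle l) : Dle (stE false l) := by
  rcases l with _ | ⟨a, tl⟩
  · intro c hc k
    simp only [stE, List.mem_singleton] at hc
    subst hc
    exact X11_newc_le zc zc (fun k => by simp [zc]) k
  · intro c hc k
    simp only [stE, List.mem_cons] at hc
    rcases hc with rfl | hc
    · exact X11_newc_le a _ (h a (by simp)) k
    · split_ifs at hc
      · exact X11_dec tl (X11_tail _ h) c hc k
      · exact X11_tail _ h c hc k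

theorem X11_stF (l : List Cell) (h : Dle l) : Dle (stF l) := by
  induction l with
  | nil =>
    intro c hc k
    simp only [stF, List.mem_cons] at hc
    rcases hc with rfl | hc
    · simp [zc]
    · exact X11_stE [] (fun a ha => by simp at ha) c hc k
  | cons a tl ih =>
    intro c hc k
    simp only [stF, List.mem_cons] at hc
    rcases hc with rfl | hc
    · exact h c (by simp) k
    · split_ifs at hc
      · exact ih (X11_tail _ h) c hc k
      · exact X11_stE tl (X11_tail _ h) c hc k

theorem X11_st (ty : Ty) (l : List Cell) (h : Dle l) : Dle (st ty false l) := by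
  cases ty with
  | E => exact X11_stE l h
  | F => exact X11_stF l h

theorem X11_run (k : ℕ) : ∀ (ty : Ty) (l : List Cell), Dle l → Dle (run k (fun _ => false) ty l) := by
  induction k with
  | zero => intro ty l h; exact h
  | succ k ih => intro ty l h; exact ih ty.other _ (X11_st ty l h)

theorem X11_run_succ (k : ℕ) : ∀ (ty : Ty) (l : List Cell), ∃ ty' : Ty,
    run (k + 1) (fun _ => false) ty l = st ty' false (run k (fun _ => false) ty l) := by
  induction k with
  | zero => intro ty l; exact ⟨ty, rfl⟩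
  | succ k ih =>
    intro ty l
    obtain ⟨ty', h⟩ := ih ty.other (st ty false l)
    exact ⟨ty', h⟩

theorem X11_mono (N : ℕ) (ty : Ty) (l : List Cell) (h : Dle l) :
    Monotone fun k => lex N (run k (fun _ => false) ty l) := by
  refine monotone_nat_of_le_succ fun k => ?_
  obtain ⟨ty', h'⟩ := X11_run_succ k ty l
  rw [h']
  exact lex_mono N ty' _ (X11_run k ty l h)

theorem X11_H_lt (d0 d1 d2 : ℕ) (h0 : d0 ≤ mm) (h1 : d1 ≤ mm) (h2 : d2 ≤ mm) :
    (d0 * (mm + 1) + d1) * (mm + 1) + d2 < (mm + 1) ^ 3 := by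
  have e1 : d0 * (mm + 1) + d1 + 1 ≤ (mm + 1) * (mm + 1) := by
    calc d0 * (mm + 1) + d1 + 1 ≤ mm * (mm + 1) + mm + 1 := by
          have := Nat.mul_le_mul_right (mm + 1) h0
          omega
      _ = (mm + 1) * (mm + 1) := by ring
  calc (d0 * (mm + 1) + d1) * (mm + 1) + d2 < (d0 * (mm + 1) + d1 + 1) * (mm + 1) := by
        rw [Nat.add_mul (d0 * (mm + 1) + d1) 1 (mm + 1)]
        omega
    _ ≤ ((mm + 1) * (mm + 1)) * (mm + 1) := Nat.mul_le_mul_right _ e1
    _ = (mm + 1) ^ 3 := by ring

theorem X11_lex_lt (N : ℕ) : ∀ l : List Cell, Dle l → lex N l < (mm + 1) ^ (3 * N + 1) := by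
  induction N with
  | zero =>
    intro l h
    have := X11_hd l h 0
    simp only [lex, Nat.mul_zero, Nat.zero_add, pow_one]
    omega
  | succ N ih =>
    intro l h
    have h1 := ih l.tail (X11_tail l h)
    have h2 := X11_H_lt _ _ _ (X11_hd l h 0) (X11_hd l h 1) (X11_hd l h 2)
    set H := ((hd l).D 0 * (mm + 1) + (hd l).D 1) * (mm + 1) + (hd l).D 2 with hH
    have h3 : lex (N + 1) l = H * (mm + 1) ^ (3 * N + 1) + lex N l.tail := rfl
    rw [h3]
    clear_value H
    calc H * (mm + 1) ^ (3 * N + 1) + lex N l.tail < (H + 1) * (mm + 1) ^ (3 * N + 1) := by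
          rw [Nat.add_mul H 1, Nat.one_mul]
          omega
      _ ≤ (mm + 1) ^ 3 * (mm + 1) ^ (3 * N + 1) := Nat.mul_le_mul_right _ h2
      _ = (mm + 1) ^ (3 * (N + 1) + 1) := by rw [← pow_add]; congr 1; ring

theorem X11_uniq (P H H' r r' : ℕ) (hr : r < P) (hr' : r' < P) (h : H * P + r = H' * P + r') :
    H = H' ∧ r = r' := by
  have h1 : ∀ H r : ℕ, r < P → (H * P + r) / P = H := by
    intro H r hr
    rw [Nat.add_comm, Nat.add_mul_div_right _ _ (by omega), Nat.div_eq_of_lt hr, Nat.zero_add]
  have h2 : H = H' := by rw [← h1 H r hr, h, h1 H' r' hr']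
  subst h2
  exact ⟨rfl, by omega⟩

theorem X11_lex_inj (N : ℕ) (l l' : List Cell) (h : Dle l) (h' : Dle l')
    (he : lex (N + 1) l = lex (N + 1) l') : (hd l).D = (hd l').D ∧ lex N l.tail = lex N l'.tail := by
  have h1 := X11_uniq _ _ _ _ _ (X11_lex_lt N l.tail (X11_tail l h))
    (X11_lex_lt N l'.tail (X11_tail l' h')) he
  have h2 := X11_uniq _ _ _ _ _ (Nat.lt_succ_of_le (X11_hd l h 2)) (Nat.lt_succ_of_le (X11_hd l' h' 2)) h1.1
  have h3 := X11_uniq _ _ _ _ _ (Nat.lt_succ_of_le (X11_hd l h 1)) (Nat.lt_succ_of_le (X11_hd l' h' 1)) h2.1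
  refine ⟨?_, h1.2⟩
  funext k
  fin_cases k
  · exact h3.1
  · exact h3.2
  · exact h2.2

theorem X11_hd0 (N : ℕ) (l l' : List Cell) (h : Dle l) (h' : Dle l')
    (he : lex N l = lex N l') : (hd l).D 0 = (hd l').D 0 := by
  cases N with
  | zero => exact he
  | succ N => rw [(X11_lex_inj N l l' h h' he).1]

theorem X11_tt0 (a e : Cell) (hc : (newc false a e).D = a.D) : tt a e = 0 := by
  rcases X11_tt a e with h | ⟨h, h2⟩
  · exact h
  · exfalso
    rw [X11_newc_D, h] at hc
    have e0 := congrFun hc 0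
    have e1 := congrFun hc 1
    have e2 := congrFun hc 2
    unfold carry at e0 e1 e2
    split_ifs at e0 e1 e2 <;> simp at e0 e1 e2 <;> omega

theorem X11_sat (a e : Cell) (ha : ∀ k, a.D k ≤ mm) (hb : a.b = false) (he : e.D 0 = mm)
    (hc : (newc false a e).D = a.D) (k : Fin 3) : a.D k = mm := by
  have ht := X11_tt0 a e hc
  have h2 : a.D 2 = mm := by
    by_contra hne
    have hlt : a.D 2 < mm := lt_of_le_of_ne (ha 2) hne
    unfold tt at ht
    rw [if_pos ⟨hb, he, hlt⟩] at ht
    exact one_ne_zero ht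
  rw [X11_newc_D, ht] at hc
  have e0 := congrFun hc 0
  have e1 := congrFun hc 1
  have e2 := congrFun hc 2
  have a0 := ha 0
  have a1 := ha 1
  unfold carry at e0 e1 e2
  have hmm : 0 < mm := by unfold mm; norm_num
  have h1 : a.D 1 = mm := by
    by_contra hne
    have hlt : a.D 1 < mm := lt_of_le_of_ne a1 hne
    rw [if_pos ⟨by omega, hlt⟩] at e2
    split_ifs at e2 <;> simp at e2 <;> omega
  have h0 : a.D 0 = mm := by
    by_contra hne
    have hlt : a.D 0 < mm := lt_of_le_of_ne a0 hne
    rw [if_neg (by omega), if_pos ⟨h1, hlt⟩] at e0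
    simp at e0
  fin_cases k
  · exact h0
  · exact h1
  · exact h2

theorem X11_other (ty : Ty) : ty.other.other = ty := by cases ty <;> rfl

theorem X11_sT (ty : Ty) (b : Bool) : sT ty (!b) = (sT ty b).other := by
  cases ty <;> cases b <;> rfl

theorem X11_two (N : ℕ) (ty : Ty) (a : Cell) (tl : List Cell) (h : Dle (a :: tl))
    (h1 : lex (N + 1) (st ty false (a :: tl)) = lex (N + 1) (a :: tl))
    (h2 : lex (N + 1) (st ty.other false (st ty false (a :: tl))) = lex (N + 1) (a :: tl)) :
    ∃ a' : Cell, a'.b = !a.b ∧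
      st ty.other false (st ty false (a :: tl)) = a' :: st (sT ty a.b) false tl := by
  have hd1 := X11_st ty _ h
  cases ty with
  | E =>
    have h3 := (X11_lex_inj N _ _ hd1 h h1).1
    have h4 : (newc false a (hd tl)).D = a.D := h3
    have h5 := X11_tt0 a (hd tl) h4
    have h6 : st Ty.E false (a :: tl) = newc false a (hd tl) :: tl := by
      show newc false a (hd tl) :: (if tt a (hd tl) = 1 then dec tl else tl) = _
      rw [h5]; simp
    refine ⟨newc false a (hd tl), rfl, ?_⟩
    rw [h6]
    show newc false a (hd tl) :: (if (!a.b) then stF tl else stE false tl) = _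
    cases hb : a.b <;> simp [sT, st]
  | F =>
    have h6 : st Ty.F false (a :: tl) = a :: st (sT Ty.F a.b) false tl := by
      show a :: (if a.b then stF tl else stE false tl) = _
      cases hb : a.b <;> simp [sT, st]
    rw [h6] at h2 hd1 ⊢
    set tl' := st (sT Ty.F a.b) false tl with htl
    have hd2 := X11_st Ty.E _ hd1
    have h3 := (X11_lex_inj N _ _ hd2 h h2).1
    have h4 : (newc false a (hd tl')).D = a.D := h3
    have h5 := X11_tt0 a (hd tl') h4
    refine ⟨newc false a (hd tl'), rfl, ?_⟩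
    show newc false a (hd tl') :: (if tt a (hd tl') = 1 then dec tl' else tl') = _
    rw [h5]; simp

theorem X11_double (N k : ℕ) : ∀ (ty : Ty) (a : Cell) (tl : List Cell), Dle (a :: tl) →
    (∀ j ≤ 2 * k, lex (N + 1) (run j (fun _ => false) ty (a :: tl)) = lex (N + 1) (a :: tl)) →
    ∃ a' : Cell, run (2 * k) (fun _ => false) ty (a :: tl) =
      a' :: run k (fun _ => false) (sT ty a.b) tl := by
  induction k with
  | zero => intro ty a tl _ _; exact ⟨a, rfl⟩
  | succ k ih =>
    intro ty a tl h hc
    have h1 := hc 1 (by omega)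
    have h2 := hc 2 (by omega)
    obtain ⟨a', hb', hs⟩ := X11_two N ty a tl h h1 h2
    have hrun : ∀ j, run (j + 2) (fun _ => false) ty (a :: tl) =
        run j (fun _ => false) ty (a' :: st (sT ty a.b) false tl) := by
      intro j
      rw [← hs]
      show run j (fun _ => false) ty.other.other _ = _
      rw [X11_other]
    have hD2 : Dle (a' :: st (sT ty a.b) false tl) := by
      rw [← hs]
      exact X11_st _ _ (X11_st _ _ h)
    have h2' : lex (N + 1) (a' :: st (sT ty a.b) false tl) = lex (N + 1) (a :: tl) := by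
      rw [← hs]; exact h2
    obtain ⟨a'', h''⟩ := ih ty a' (st (sT ty a.b) false tl) hD2 (fun j hj => by
      rw [← hrun j, h2']
      exact hc (j + 2) (by omega))
    refine ⟨a'', ?_⟩
    rw [show 2 * (k + 1) = 2 * k + 2 by ring, hrun, h'', hb', X11_sT]
    rfl

theorem X11_main (N : ℕ) : ∀ (ty : Ty) (l : List Cell), Dle l → base N l →
    (hd (l.drop N)).D 0 = mm →
    (∀ k ≤ 2 ^ (N + 1), lex N (run k (fun _ => false) ty l) = lex N l) → sat N l := by
  induction N with
  | zero => intro ty l _ _ _ _; trivial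
  | succ N ih =>
    intro ty l hD hb hN hc
    rcases l with _ | ⟨a, tl⟩
    · exfalso
      simp [hd, zc] at hN
      unfold mm at hN
      omega
    have hb1 : a.b = false := hb.1
    have hb2 : base N tl := hb.2
    have hN2 : (hd (tl.drop N)).D 0 = mm := by simpa using hN
    have hDt : Dle tl := X11_tail _ hD
    have htail : ∀ k ≤ 2 ^ (N + 1), lex N (run k (fun _ => false) (sT ty a.b) tl) = lex N tl := by
      intro k hk
      have hk2 : 2 * k ≤ 2 ^ (N + 1 + 1) := by
        rw [pow_succ' 2 (N + 1)]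
        omega
      obtain ⟨a', ha'⟩ := X11_double N k ty a tl hD (fun j hj => hc j (hj.trans hk2))
      have h1 := hc (2 * k) hk2
      have h2 := X11_run (2 * k) ty _ hD
      rw [ha'] at h1 h2
      exact (X11_lex_inj N _ _ h2 hD h1).2
    have hsat := ih (sT ty a.b) tl hDt hb2 hN2 htail
    have he : (hd tl).D 0 = mm := by
      cases N with
      | zero => simpa using hN2
      | succ N => exact hsat.1 0
    refine ⟨?_, hsat⟩
    have hpos : 1 ≤ 2 ^ (N + 1 + 1) := Nat.one_le_two_pow
    have hpos2 : 2 ≤ 2 ^ (N + 1 + 1) := by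
      rw [pow_succ' 2 (N + 1)]
      have := Nat.one_le_two_pow (n := N + 1)
      omega
    have h1 : lex (N + 1) (st ty false (a :: tl)) = lex (N + 1) (a :: tl) := hc 1 hpos
    have h2 : lex (N + 1) (st ty.other false (st ty false (a :: tl))) = lex (N + 1) (a :: tl) :=
      hc 2 hpos2
    have hD1 := X11_st ty _ hD
    have hD2 := X11_st ty.other _ hD1
    have haD : ∀ k, a.D k ≤ mm := hD a (by simp)
    cases ty with
    | E =>
      have h3 : (newc false a (hd tl)).D = a.D := (X11_lex_inj N _ _ hD1 hD h1).1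
      exact X11_sat a (hd tl) haD hb1 he h3
    | F =>
      have h6 : st Ty.F false (a :: tl) = a :: stE false tl := by
        show a :: (if a.b then stF tl else stE false tl) = _
        rw [hb1]; simp
      rw [h6] at h1 h2 hD1 hD2
      have h3 : lex N (stE false tl) = lex N tl := (X11_lex_inj N _ _ hD1 hD h1).2
      have he' : (hd (stE false tl)).D 0 = mm := by
        rw [X11_hd0 N (stE false tl) tl (X11_tail _ hD1) hDt h3, he]
      have h4 : (newc false a (hd (stE false tl))).D = a.D := (X11_lex_inj N _ _ hD2 hD h2).1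
      exact X11_sat a _ haD hb1 he' h4

/-- TARGET -/
theorem lex_raise (N : ℕ) (ty : Ty) (l : List Cell) (hD : Dle l)
    (hb : base N l) (hN : (hd (l.drop N)).D 0 = mm)
    (h : lex N (run (2 ^ (N + 1)) (fun _ => false) ty l) = lex N l) : sat N l := by
  refine X11_main N ty l hD hb hN fun k hk => ?_
  have hm := X11_mono N ty l hD
  have h1 : lex N l ≤ lex N (run k (fun _ => false) ty l) := hm (Nat.zero_le k)
  have h2 : lex N (run k (fun _ => false) ty l) ≤ lex N (run (2 ^ (N + 1)) (fun _ => false) ty l) := hm hk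
  omega

end Pool.Agent.Aub
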