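import Mathlib
import Pool.Agent.Helper961.Aub.Base
import Pool.Agent.Helper961.Aub.Mach
import Pool.Agent.Helper961.Aub.Sym

set_option autoImplicit false

open Set Filter Topology

namespace Pool.Agent.Aub

theorem X12_hd_Dle (l : List Cell) (hD : Dle l) (k : Fin 3) : (hd l).D k ≤ mm := by
  cases l with
  | nil => simp [hd, zc]
  | cons a tl => exact hD a (by simp) k

theorem X12_tail_Dle (l : List Cell) (hD : Dle l) : Dle l.tail := by
  intro a ha
  exact hD a (List.mem_of_mem_tail ha)

/-- TARGET -/
theorem refill_facts (N : ℕ) (l : List Cell) (hD : Dle l) (ty : Ty) (hb : base N l)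
    (hv : Val ty l) :
    Dle (refill N l) ∧ base N (refill N l) ∧ Val ty (refill N l) ∧
    (hd ((refill N l).drop N)).D 0 = mm ∧ lex N l ≤ lex N (refill N l) := by
  induction N generalizing l ty with
  | zero =>
    refine ⟨?_, trivial, ?_, ?_, ?_⟩
    · intro a ha k
      simp only [refill, List.mem_singleton] at ha
      subst ha
      fin_cases k <;> simp
    · simp [refill, Val]
    · simp [refill, hd]
    · show (hd l).D 0 ≤ (hd (refill 0 l)).D 0
      refine (X12_hd_Dle l hD 0).trans ?_
      simp [refill, hd]
  | succ N ih =>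
    obtain ⟨hb0, hb1⟩ := hb
    have hv1 : Val (sT ty (hd l).b) l.tail := by
      cases l with
      | nil => simp [Val]
      | cons a tl => exact hv.2
    have hv0 : ty = Ty.F → (hd l).c = false := by
      intro h
      cases l with
      | nil => simp [hd, zc]
      | cons a tl =>
        have h1 := hv.1 h
        have h2 : a.b = false := hb0
        show a.c = false
        rw [h1, h2]
        simp
    obtain ⟨i1, i2, i3, i4, i5⟩ := ih l.tail (X12_tail_Dle l hD) (sT ty (hd l).b) hb1 hv1
    refine ⟨?_, ⟨hb0, i2⟩, ⟨?_, i3⟩, ?_, ?_⟩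
    · intro a ha k
      simp only [refill, List.mem_cons] at ha
      rcases ha with ha | ha
      · subst ha
        exact X12_hd_Dle l hD k
      · exact i1 a ha k
    · intro h
      rw [hv0 h, hb0]
      simp
    · simpa [refill] using i4
    · show (((hd l).D 0 * (mm + 1) + (hd l).D 1) * (mm + 1) + (hd l).D 2) *
          (mm + 1) ^ (3 * N + 1) + lex N l.tail ≤
        (((hd l).D 0 * (mm + 1) + (hd l).D 1) * (mm + 1) + (hd l).D 2) *
          (mm + 1) ^ (3 * N + 1) + lex N (refill N l.tail)
      exact Nat.add_le_add_left i5 _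

end Pool.Agent.Aub
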