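import Mathlib
import Pool.Agent.Helper961.Aub.Base
import Pool.Agent.Helper961.Aub.Mach
import Pool.Agent.Helper961.Aub.Sym
import Pool.Agent.Helper961.Aub.XBase
import Pool.Agent.Helper961.Aub.XLex
import Pool.Agent.Helper961.Aub.XRaise
import Pool.Agent.Helper961.Aub.XRefill
import Pool.Agent.Helper961.Aub.XRange

set_option autoImplicit false

open Set Filter Topology

namespace Pool.Agent.Aub

theorem X14_other (ty : Ty) : ty.other.other = ty := by cases ty <;> rfl

theorem X14_tyn_other (ty : Ty) (n : ℕ) : tyn ty.other n = tyn ty (n + 1) := by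
  unfold tyn
  rcases Nat.mod_two_eq_zero_or_one n with h | h
  · have h2 : (n + 1) % 2 = 1 := by omega
    simp [h, h2]
  · have h2 : (n + 1) % 2 = 0 := by omega
    simp [h, h2, X14_other]

theorem X14_run_add (a : ℕ) : ∀ (b : ℕ) (ty : Ty) (l : List Cell),
    run (a + b) (fun _ => false) ty l
      = run b (fun _ => false) (tyn ty a) (run a (fun _ => false) ty l) := by
  induction a with
  | zero =>
    intro b ty l
    simp [run, tyn]
  | succ a ih =>
    intro b ty l
    have h1 : a + 1 + b = (a + b) + 1 := by omega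
    rw [h1]
    have h2 : run (a + b + 1) (fun _ => false) ty l
        = run (a + b) (fun _ => false) ty.other (st ty false l) := rfl
    have h3 : run (a + 1) (fun _ => false) ty l
        = run a (fun _ => false) ty.other (st ty false l) := rfl
    rw [h2, h3, ih, X14_tyn_other]

theorem X14_facts (N : ℕ) (n : ℕ) : ∀ (ty : Ty) (l : List Cell), Dle l → Val ty l →
    Dle (run n (fun _ => false) ty l) ∧ Val (tyn ty n) (run n (fun _ => false) ty l) ∧
      lex N l ≤ lex N (run n (fun _ => false) ty l) := by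
  induction n with
  | zero =>
    intro ty l hD hv
    refine ⟨hD, ?_, le_refl _⟩
    simpa [run, tyn] using hv
  | succ n ih =>
    intro ty l hD hv
    have h3 : run (n + 1) (fun _ => false) ty l
        = run n (fun _ => false) ty.other (st ty false l) := rfl
    rw [h3]
    obtain ⟨hv', hD'⟩ := st_val ty false l hD hv
    obtain ⟨h4, h5, h6⟩ := ih ty.other (st ty false l) hD' hv'
    refine ⟨h4, ?_, le_trans (lex_mono N ty l hD) h6⟩
    rwa [X14_tyn_other] at h5

theorem X14_hd {l : List Cell} (hD : Dle l) (k : Fin 3) : (hd l).D k ≤ mm := by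
  cases l with
  | nil => simp [hd, zc]
  | cons a tl => exact hD a (by simp) k

theorem X14_tail {l : List Cell} (hD : Dle l) : Dle l.tail := by
  intro a ha k
  exact hD a (List.mem_of_mem_tail ha) k

theorem X14_lex (N : ℕ) : ∀ l : List Cell, Dle l → lex N l < (mm + 1) ^ (3 * N + 1) := by
  induction N with
  | zero =>
    intro l hD
    have := X14_hd hD 0
    have h1 : lex 0 l = (hd l).D 0 := rfl
    rw [h1]
    simp only [mul_zero, zero_add, pow_one]
    omega
  | succ N ih =>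
    intro l hD
    have h1 : lex (N + 1) l = (((hd l).D 0 * (mm + 1) + (hd l).D 1) * (mm + 1) + (hd l).D 2) *
      (mm + 1) ^ (3 * N + 1) + lex N l.tail := rfl
    rw [h1]
    have h2 := ih l.tail (X14_tail hD)
    have a0 := X14_hd hD 0
    have a1 := X14_hd hD 1
    have a2 := X14_hd hD 2
    have h3 : ((hd l).D 0 * (mm + 1) + (hd l).D 1) * (mm + 1) + (hd l).D 2 + 1
        ≤ (mm + 1) ^ 3 := by
      have e1 : (hd l).D 0 * (mm + 1) + (hd l).D 1 + 1 ≤ (mm + 1) * (mm + 1) := by
        nlinarith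
      nlinarith
    have h4 : (mm + 1) ^ (3 * (N + 1) + 1) = (mm + 1) ^ 3 * (mm + 1) ^ (3 * N + 1) := by
      rw [← pow_add]
      congr 1
      ring
    rw [h4]
    have h5 : (((hd l).D 0 * (mm + 1) + (hd l).D 1) * (mm + 1) + (hd l).D 2 + 1) *
        (mm + 1) ^ (3 * N + 1) ≤ (mm + 1) ^ 3 * (mm + 1) ^ (3 * N + 1) :=
      Nat.mul_le_mul_right _ h3
    linarith

theorem X14_tyn_even (ty : Ty) (n : ℕ) (h : n % 2 = 0) : tyn ty n = ty := by
  unfold tyn
  simp [h]

theorem X14_main (N : ℕ) (hN : 1 ≤ N) (n : ℕ) (hn : 2 ^ (N + 1) ∣ n) (hn0 : 0 < n)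
    (P : List Cell → Prop)
    (h : ∀ l, Dle l → Val Ty.E l → base N l → P l →
      P (refill N (run n (fun _ => false) Ty.E l))) (K : ℕ) : ∀ l : List Cell,
    (mm + 1) ^ (3 * N + 1) - lex N l = K → Dle l → Val Ty.E l → base N l → P l →
    (hd (l.drop N)).D 0 = mm →
    ∃ l', Dle l' ∧ Val Ty.E l' ∧ base N l' ∧ P l' ∧ ∀ k, (hd l').D k = mm := by
  induction K using Nat.strong_induction_on with
  | _ K ih =>
  intro l hK hD hv hb hP hm
  obtain ⟨k, hk⟩ := hn
  have hk0 : 0 < k := by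
    rcases Nat.eq_zero_or_pos k with h0 | h0
    · rw [h0, mul_zero] at hk
      omega
    · exact h0
  obtain ⟨k', rfl⟩ : ∃ k', k = k' + 1 := ⟨k - 1, by omega⟩
  have hev : (2 ^ (N + 1)) % 2 = 0 := by
    rw [pow_succ]
    omega
  have hnev : n % 2 = 0 := by
    rw [hk, Nat.mul_mod, hev]
    simp
  obtain ⟨f1, f2, f3⟩ := X14_facts N n Ty.E l hD hv
  rw [X14_tyn_even _ _ hnev] at f2
  have fb : base N (run n (fun _ => false) Ty.E l) := by
    rw [hk]
    exact run_base N _ _ _ _ hb
  obtain ⟨g1, g2, g3, g4, g5⟩ := refill_facts N (run n (fun _ => false) Ty.E l) f1 Ty.E fb f2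
  by_cases hlt : lex N l < lex N (refill N (run n (fun _ => false) Ty.E l))
  · have hbd := X14_lex N _ g1
    have hbd0 := X14_lex N _ hD
    exact ih ((mm + 1) ^ (3 * N + 1) - lex N (refill N (run n (fun _ => false) Ty.E l)))
      (by omega) _ rfl g1 g3 g2 (h l hD hv hb hP) g4
  · have e1 : run n (fun _ => false) Ty.E l = run (2 ^ (N + 1) * k') (fun _ => false)
        (tyn Ty.E (2 ^ (N + 1))) (run (2 ^ (N + 1)) (fun _ => false) Ty.E l) := by
      rw [← X14_run_add, hk]
      congr 1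
      ring
    obtain ⟨p1, p2, p3⟩ := X14_facts N (2 ^ (N + 1)) Ty.E l hD hv
    rw [X14_tyn_even _ _ hev] at p2 e1
    obtain ⟨q1, q2, q3⟩ := X14_facts N (2 ^ (N + 1) * k') Ty.E _ p1 p2
    rw [← e1] at q3
    have heq : lex N (run (2 ^ (N + 1)) (fun _ => false) Ty.E l) = lex N l := by omega
    have hs := lex_raise N Ty.E l hD hb hm heq
    refine ⟨l, hD, hv, hb, hP, ?_⟩
    obtain ⟨N', rfl⟩ : ∃ N', N = N' + 1 := ⟨N - 1, by omega⟩
    exact hs.1

/-- TARGET -/
theorem raising (N : ℕ) (hN : 1 ≤ N) (n : ℕ) (hn : 2 ^ (N + 1) ∣ n) (hn0 : 0 < n)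
    (P : List Cell → Prop)
    (h : ∀ l, Dle l → Val Ty.E l → base N l → P l →
      P (refill N (run n (fun _ => false) Ty.E l))) (l : List Cell)
    (hD : Dle l) (hv : Val Ty.E l) (hb : base N l) (hP : P l) :
    ∃ l', Dle l' ∧ Val Ty.E l' ∧ base N l' ∧ P l' ∧ ∀ k, (hd l').D k = mm := by
  have hnev : n % 2 = 0 := by
    obtain ⟨k, hk⟩ := hn
    have hev : (2 ^ (N + 1)) % 2 = 0 := by
      rw [pow_succ]
      omega
    rw [hk, Nat.mul_mod, hev]
    simp
  obtain ⟨f1, f2, f3⟩ := X14_facts N n Ty.E l hD hv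
  rw [X14_tyn_even _ _ hnev] at f2
  have fb : base N (run n (fun _ => false) Ty.E l) := by
    obtain ⟨k, hk⟩ := hn
    rw [hk]
    exact run_base N _ _ _ _ hb
  obtain ⟨g1, g2, g3, g4, g5⟩ := refill_facts N (run n (fun _ => false) Ty.E l) f1 Ty.E fb f2
  exact X14_main N hN n hn hn0 P h _ _ rfl g1 g3 g2 (h l hD hv hb hP) g4

end Pool.Agent.Aub
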