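import Mathlib
import Pool.Agent.Helper961.Aub.Base
import Pool.Agent.Helper961.Aub.Mach
import Pool.Agent.Helper961.Aub.XReg
import Pool.Agent.Helper961.Aub.XMove
import Pool.Agent.Helper961.Aub.XTick

set_option autoImplicit false

open Set Filter Topology

namespace Pool.Agent.Aub

theorem X05_mm : ((mm : ℕ) : ℝ) = 4096 := by norm_num [mm]

theorem X05_Dg_le (μ t : ℝ) : ((Dg μ t : ℤ) : ℝ) ≤ mm := by
  have h : Dg μ t ≤ (mm : ℤ) := by
    unfold Dg
    apply max_le
    · exact Int.natCast_nonneg _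
    · exact min_le_left _ _
  exact_mod_cast h

theorem X05_Dg_nonneg (μ t : ℝ) : (0 : ℝ) ≤ ((Dg μ t : ℤ) : ℝ) := by
  have h : 0 ≤ Dg μ t := by
    unfold Dg
    exact le_max_left _ _
  exact_mod_cast h

open Classical in
theorem X05_UU_le (N : ℕ) : ∀ (post : Bool) (δ : Fin 3) (ty : Ty) (p : Fin 3) (z : Stk),
    UU N post δ ty p z ≤ 2 := by
  induction N with
  | zero => intro post δ ty p z; simp [UU]
  | succ N ih =>
    intro post δ ty p z
    rw [UU]
    cases hrb : rb ty post (posn δ ty p) z with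
    | none => simp
    | some β =>
      simp only
      have hV : Vz (DD ty post (posn δ ty p) z) ≤ (mm : ℝ)^2 * mm + mm * mm + mm := by
        unfold Vz DD
        have h0 := X05_Dg_le (mu ty post) (z (posn δ ty p) (dt 0))
        have h1 := X05_Dg_le (mu ty post) (z (posn δ ty p) (dt 1))
        have h2 := X05_Dg_le (mu ty post) (z (posn δ ty p) (dt 2))
        have hm : (0:ℝ) ≤ (mm : ℝ) := Nat.cast_nonneg _
        gcongr
      have hU : (if broken ty post (posn δ ty p) β z then (2:ℝ)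
         else UU N post (-δ) (subTy ty β) (subP δ ty p) (sub δ ty post p β z)) ≤ 2 := by
        split_ifs
        · exact le_refl _
        · exact ih _ _ _ _ _
      rw [div_le_iff₀ (by norm_num [MM])]
      rw [X05_mm] at hV
      have : (MM:ℝ) = 68719476736 := rfl
      rw [this]
      linarith

theorem X05_stp_one (a b t : ℝ) (hab : a < b) (h : b ≤ t) : stp a b t = 1 := by
  unfold stp
  apply Real.smoothTransition.one_of_one_le
  rw [le_div_iff₀ (by linarith)]
  linarith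

theorem X05_stp_zero (a b t : ℝ) (hab : a < b) (h : t ≤ a) : stp a b t = 0 := by
  unfold stp
  apply Real.smoothTransition.zero_of_nonpos
  apply div_nonpos_of_nonpos_of_nonneg <;> linarith

theorem X05_Qx_zero : Qx 0 = 0 := by
  unfold Qx
  apply Finset.sum_eq_zero
  intro j _
  apply X05_stp_zero
  · linarith
  · have : (0:ℝ) ≤ (j:ℝ) := Nat.cast_nonneg _
    linarith

theorem X05_Sc_mem (t : ℝ) : 0 ≤ Sc t ∧ Sc t ≤ 1 := by
  unfold Sc stp
  exact ⟨Real.smoothTransition.nonneg _, Real.smoothTransition.le_one _⟩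

theorem X05_stk_add (a b : Zs) (i : Fin 3) (tr : Fin 5) :
    stk (a + b) i tr = stk a i tr + stk b i tr := rfl

theorem X05_reg_add (a b : Zs) (k : Fin 12) : reg (a + b) k = reg a k + reg b k := rfl

theorem X05_stk_mkz (S : Stk) (R : Fin 12 → ℝ) : stk (mkz S R) = S := rfl
theorem X05_reg_mkz (S : Stk) (R : Fin 12 → ℝ) : reg (mkz S R) = R := rfl

theorem X05_Dg_small (t : ℝ) (h : |t| ≤ 1/16) : Dg (1/16) t = 0 := by
  rw [abs_le] at h
  have hx : hX t = t := by
    unfold hX
    rw [min_eq_right (by rw [X05_mm]; linarith), max_eq_right (by linarith)]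
  have hc : ⌈hX t - 5/8 + 1/16⌉ = 0 := by
    rw [hx, Int.ceil_eq_iff]
    constructor
    · push_cast; linarith
    · push_cast; linarith
  unfold Dg
  rw [hc]
  have : (0:ℤ) ≤ (mm:ℤ) := Int.natCast_nonneg _
  rw [min_eq_right this, max_self]

theorem X05_small (cc : Clamp (5/4)) (cx : Clamp (mm + 1/2)) (s d : Fin 3) (hsd : s ≠ d) (z : Zs)
    (hS : ∀ i tr, |stk z i tr| ≤ 2 ^ 32) (hw : 3/4 ≤ reg z 0) (k : Fin 3) :
    |stk (cm cc cx true s d 1 z) d (dt k)| ≤ 1/16 := by
  have hpush : ∀ y : Zs, pushed 1 y (dt k) = 0 := by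
    intro y
    fin_cases k <;> simp [pushed, dt, X05_Qx_zero]
  set z0 := M0 cc cx s d z with hz0
  set z1 := z0 + f1 s d z0 with hz1
  set z2 := z1 + f2 d z1 with hz2
  set z3 := z2 + f3 true s d z2 with hz3
  set z4 := M4 true s d z3 with hz4
  set z5 := z4 + f5 true d 1 z4 with hz5
  have hcm : cm cc cx true s d 1 z = M6 z5 := rfl
  have h0 : stk z0 d (dt k) = cx.Φ 1 (stk z d (dt k)) := by
    rw [hz0]
    unfold M0
    rw [X05_stk_mkz]
    have : ¬ ((dt k).1 < 2) := by simp [dt]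
    simp [this]
  have h0r := cx.rng (stk z d (dt k)) (hS _ _)
  have h1 : stk z1 d (dt k) = stk z0 d (dt k) := by
    rw [hz1, X05_stk_add]; unfold f1; rw [X05_stk_mkz]; simp
  have h2 : stk z2 d (dt k) = stk z1 d (dt k) := by
    rw [hz2, X05_stk_add]; unfold f2; rw [X05_stk_mkz]; simp
  have r0 : reg z0 0 = reg z 0 := by
    rw [hz0]; unfold M0; rw [X05_reg_mkz]
  have r1 : reg z1 0 = reg z 0 := by
    rw [hz1, X05_reg_add, r0]; unfold f1; rw [X05_reg_mkz]; simp
  have r2 : reg z2 0 = reg z 0 := by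
    rw [hz2, X05_reg_add, r1]; unfold f2; rw [X05_reg_mkz]; simp
  have r3 : reg z3 0 = reg z 0 := by
    rw [hz3, X05_reg_add, r2]; unfold f3; rw [X05_reg_mkz]; simp
  have hW : ∀ y : Zs, reg y 0 = reg z 0 → Wt true y = 1 := by
    intro y hy
    unfold Wt
    simp only [if_true]
    rw [hy]
    exact X05_stp_one _ _ _ (by norm_num) hw
  have h3 : stk z3 d (dt k) = stk z2 d (dt k) +
      (if (dt k) = 2 then -((mm:ℝ) * Sc (reg z2 10)) else 0) := by
    rw [hz3, X05_stk_add]; unfold f3; rw [X05_stk_mkz, hW _ r2]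
    simp [Ne.symm hsd]
  have hSc := X05_Sc_mem (reg z2 10)
  have h3b : |stk z3 d (dt k)| ≤ mm + 3/4 := by
    rw [h3, h2, h1, h0, abs_le]
    have hm := X05_mm
    have hm1 : 0 ≤ (mm:ℝ) * Sc (reg z2 10) := mul_nonneg (Nat.cast_nonneg _) hSc.1
    have hm2 : (mm:ℝ) * Sc (reg z2 10) ≤ mm := mul_le_of_le_one_right (Nat.cast_nonneg _) hSc.2
    generalize cx.Φ 1 (stk z d (dt k)) = X at h0r ⊢
    generalize (mm:ℝ) * Sc (reg z2 10) = Y at hm1 hm2 ⊢
    split_ifs
    · constructor <;> linarith [h0r.1, h0r.2]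
    · constructor <;> linarith [h0r.1, h0r.2]
  have h4 : stk z4 d (dt k) = Real.exp (-(Real.log lam)) * stk z3 d (dt k) := by
    rw [hz4]; unfold M4; rw [X05_stk_mkz, hW _ r3]
    simp [Ne.symm hsd]
  have h5 : stk z5 d (dt k) = stk z4 d (dt k) := by
    rw [hz5, X05_stk_add]; unfold f5; rw [X05_stk_mkz]; simp [hpush]
  have h6 : stk (M6 z5) d (dt k) = stk z5 d (dt k) := by
    unfold M6; rw [X05_stk_mkz]
  rw [hcm, h6, h5, h4, Real.exp_neg, Real.exp_log (by norm_num [lam]), abs_mul]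
  rw [X05_mm] at h3b
  have : |(lam:ℝ)⁻¹| = 1/131072 := by
    rw [abs_of_pos (by norm_num [lam])]; norm_num [lam]
  rw [this]
  have hx := abs_nonneg (stk z3 d (dt k))
  linarith

/-- TARGET -/
theorem tick_reset (cc : Clamp (5/4)) (cx : Clamp (mm + 1/2)) (p : Fin 3) (z : Zs)
    (hS : ∀ i tr, |stk z i tr| ≤ 2 ^ 32) (hR : ∀ k, |reg z k| ≤ 1/16)
    (hb : stk z (p - 1) 0 ≤ 1/4) (N : ℕ) :
    UU N false 1 Ty.F (p + 1) (stk (tick cc cx Ty.E p 1 z)) ≤ 2 / MM ∨ N = 0 := by
  cases N with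
  | zero => exact Or.inr rfl
  | succ N =>
  left
  have hsd : p - 1 ≠ p + 1 := by clear hb; revert p; decide
  have hsd' : p + 1 ≠ p - 1 := hsd.symm
  -- bit
  obtain ⟨⟨_, hE, _⟩, _, _⟩ := tick_rel cc cx Ty.E p 1 (by norm_num) (by norm_num) z hS hR
  obtain ⟨hM, _⟩ := hE rfl
  obtain ⟨_, hbit, _⟩ := hM hb
  set z' := stk (tick cc cx Ty.E p 1 z) with hz'
  -- data
  have hdat : ∀ k : Fin 3, |z' (p + 1) (dt k)| ≤ 1/16 := by
    intro k
    set y0 := z + g0 Ty.E p z with hy0
    have hy0s : stk y0 = stk z := by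
      funext i tr
      rw [hy0, X05_stk_add]; unfold g0; rw [X05_stk_mkz]; simp
    have hy0r0 : reg y0 0 = reg z 0 + 1 := by
      rw [hy0, X05_reg_add]; unfold g0; rw [X05_reg_mkz]; simp
    have hy0r : ∀ k, k ≠ 0 → reg y0 k = reg z k := by
      intro k hk
      rw [hy0, X05_reg_add]; unfold g0; rw [X05_reg_mkz]; simp [hk]
    have hR0 := abs_le.mp (hR 0)
    have hRy0 : ∀ k, k ≠ 0 → |reg y0 k| ≤ 1/16 := by
      intro k hk; rw [hy0r k hk]; exact hR k
    set y1 := cm cc cx true (p - 1) (p + 1) 1 y0 with hy1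
    have hreg := cm_reg cc cx true (p - 1) (p + 1) hsd 1 y0 hRy0
    have hsm := X05_small cc cx (p - 1) (p + 1) hsd y0 (by rw [hy0s]; exact hS)
      (by rw [hy0r0]; linarith [hR0.1]) k
    have hw1 : Wt false y1 = 0 := by
      unfold Wt
      rw [hy1, hreg.1, hy0r0]
      have : Sc (reg z 0 + 1) = 1 :=
        X05_stp_one _ _ _ (by norm_num) (by linarith [hR0.1])
      simp [this]
    have hz2 := cm_zero cc cx false (p + 1) (p - 1) hsd' 0 y1 hw1
    have htick : z' = stk (cm cc cx false (p + 1) (p - 1) 0 y1) := by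
      rw [hz']
      rfl
    rw [htick, hz2]
    unfold M0
    rw [X05_stk_mkz]
    have hlt : ¬ ((dt k).1 < 2) := by simp [dt]
    have hab := abs_le.mp hsm
    have hfix := cx.fix 1 (stk y1 (p + 1) (dt k)) (by rw [hy1]; linarith [hab.1])
      (by rw [hy1, X05_mm]; linarith [hab.2])
    simp only [true_or, if_true, hlt, if_false]
    rw [hfix]
    exact hsm
  have hposn : posn 1 Ty.F (p + 1) = p + 1 := by simp [posn]
  have hrb : rb Ty.F false (p + 1) z' = some 1 := by
    unfold rb rho stg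
    have hab := abs_le.mp hbit
    rw [if_neg (by push Not; linarith [hab.1]), if_pos (by linarith [hab.1])]
  rw [UU, hposn, hrb]
  simp only
  have hV : Vz (DD Ty.F false (p + 1) z') = 0 := by
    have hmu : mu Ty.F false = 1/16 := by unfold mu stg; norm_num
    unfold Vz DD
    rw [hmu]
    simp only [X05_Dg_small _ (hdat _)]
    simp
  have hbr : ¬ broken Ty.F false (p + 1) 1 z' := by
    unfold broken
    rintro ⟨_, h, _⟩
    norm_num at h
  rw [hV, if_neg hbr, zero_add]
  have hMM : (0:ℝ) < MM := by norm_num [MM]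
  exact div_le_div_of_nonneg_right (X05_UU_le _ _ _ _ _ _) hMM.le

end Pool.Agent.Aub
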