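import Mathlib
import Pool.Agent.Helper961.Aub.Base
import Pool.Agent.Helper961.Aub.Mach
import Pool.Agent.Helper961.Aub.Sym
import Pool.Agent.Helper961.Aub.Torus
import Pool.Agent.Helper961.Aub.Phys

set_option autoImplicit false

open Set Filter Topology MeasureTheory

namespace Pool.Agent.Aub

theorem Z04_bdd {G : Type*} [NormedAddCommGroup G] {g : EE → G} {L : ℝ} (hL : 0 < L)
    (hc : Continuous g) (hp : ∀ x (k : Jx → ℤ), g (x + lat L k) = g x) :
    ∃ B : ℝ, 0 < B ∧ ∀ x, ‖g x‖ ≤ B := by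
  have hK : IsCompact (Set.pi Set.univ (fun _ : Jx => Set.Icc (0 : ℝ) L)) :=
    isCompact_univ_pi (fun _ => isCompact_Icc)
  have hK2 : IsCompact ((WithLp.toLp 2 : (Jx → ℝ) → EE) ''
      (Set.pi Set.univ (fun _ : Jx => Set.Icc (0 : ℝ) L))) :=
    hK.image (PiLp.continuous_toLp 2 _)
  obtain ⟨C, hC⟩ := hK2.exists_bound_of_continuousOn hc.continuousOn
  refine ⟨max C 1, lt_max_of_lt_right one_pos, ?_⟩
  intro x
  have h1 := hp x (fun i => -⌊x i / L⌋)
  rw [← h1]
  refine le_trans (hC _ ?_) (le_max_left _ _)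
  refine ⟨fun i => x i - L * (⌊x i / L⌋ : ℝ), ?_, ?_⟩
  · intro i _
    have h2 := Int.floor_le (x i / L)
    have h3 := Int.lt_floor_add_one (x i / L)
    have h4 : L * (x i / L) = x i := by field_simp
    constructor
    · have : L * (⌊x i / L⌋ : ℝ) ≤ L * (x i / L) := mul_le_mul_of_nonneg_left h2 hL.le
      simp only
      linarith
    · have : L * (x i / L) ≤ L * ((⌊x i / L⌋ : ℝ) + 1) := mul_le_mul_of_nonneg_left h3.le hL.le
      simp only
      linarith
  · ext i
    simp [lat]
    ring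

theorem Z04_uniq {F : EE → EE} {K : NNReal} (hK : LipschitzWith K F) {f g : ℝ → EE}
    (hf : ∀ t, HasDerivAt f (F (f t)) t) (hg : ∀ t, HasDerivAt g (F (g t)) t)
    (h0 : f 0 = g 0) : f = g := by
  exact ODE_solution_unique_univ (v := fun _ => F) (s := fun _ => Set.univ) (t₀ := 0)
    (fun _ => hK.lipschitzOnWith) (fun t => ⟨hf t, trivial⟩) (fun t => ⟨hg t, trivial⟩) h0

theorem Z04_gron {F : EE → EE} {K : NNReal} (hK : LipschitzWith K F) {f g : ℝ → EE}
    (hf : ∀ t, HasDerivAt f (F (f t)) t) (hg : ∀ t, HasDerivAt g (F (g t)) t)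
    {t : ℝ} (ht : 0 ≤ t) : ‖f t - g t‖ ≤ Real.exp (K * t) * ‖f 0 - g 0‖ := by
  have h := dist_le_of_trajectories_ODE (v := fun _ => F) (f := f) (g := g) (a := 0) (b := t)
    (δ := dist (f 0) (g 0)) (K := K) (fun _ => hK)
    (fun s _ => (hf s).continuousAt.continuousWithinAt)
    (fun s _ => (hf s).hasDerivWithinAt)
    (fun s _ => (hg s).continuousAt.continuousWithinAt)
    (fun s _ => (hg s).hasDerivWithinAt) le_rfl t ⟨ht, le_rfl⟩
  rw [dist_eq_norm, dist_eq_norm, sub_zero] at h
  linarith [h, mul_comm ‖f 0 - g 0‖ (Real.exp (K * t))]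

/-- TARGET -/
theorem flow_facts {F : EE → EE} {φ : ℝ → EE → EE} {L : ℝ} (hL : 0 < L)
    (hs : ContDiff ℝ ((⊤ : ℕ∞) : WithTop ℕ∞) F) (hp : PerField L F) (hf : IsFlow F φ) :
    ∃ K B : ℝ, 0 < K ∧ 0 < B ∧ (∀ x y, ‖F x - F y‖ ≤ K * ‖x - y‖) ∧ (∀ x, ‖F x‖ ≤ B) ∧
      (∀ s t x, φ (s + t) x = φ s (φ t x)) ∧
      (∀ t x k, φ t (x + lat L k) = φ t x + lat L k) ∧
      (∀ t x y, ‖φ t x - φ t y‖ ≤ Real.exp (K * |t|) * ‖x - y‖) := by
  have hdiff : Differentiable ℝ F := hs.differentiable (by simp)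
  have hcd : Continuous (fderiv ℝ F) := hs.continuous_fderiv (by simp)
  obtain ⟨B, hB0, hB⟩ := Z04_bdd hL hdiff.continuous hp
  obtain ⟨C, hC0, hC⟩ := Z04_bdd (g := fderiv ℝ F) hL hcd (by
    intro x k
    have h1 : fderiv ℝ (fun y => F (y + lat L k)) x = fderiv ℝ F (x + lat L k) :=
      fderiv_comp_add_right (lat L k)
    rw [← h1]
    congr 1
    funext y
    exact hp y k)
  have hlip : LipschitzWith ⟨C, hC0.le⟩ F :=
    lipschitzWith_of_nnnorm_fderiv_le hdiff (fun x => by
      have := hC x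
      exact this)
  have hK2 : LipschitzWith ⟨C, hC0.le⟩ (fun x => - F x) := hlip.neg
  refine ⟨C, B, hC0, hB0, ?_, hB, ?_, ?_, ?_⟩
  · intro x y
    have := hlip.dist_le_mul x y
    rw [dist_eq_norm, dist_eq_norm] at this
    exact this
  · intro s t x
    have h := Z04_uniq hlip (f := fun s => φ (s + t) x) (g := fun s => φ s (φ t x))
      (fun u => by
        have := (hf.2 x (u + t))
        have h2 := this.comp_add_const u t
        exact h2)
      (fun u => hf.2 (φ t x) u)
      (by simp [hf.1])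
    exact congrFun h s
  · intro t x k
    have h := Z04_uniq hlip (f := fun s => φ s (x + lat L k)) (g := fun s => φ s x + lat L k)
      (fun u => hf.2 _ u)
      (fun u => by
        have := (hf.2 x u).add_const (lat L k)
        rw [hp]
        exact this)
      (by simp [hf.1])
    exact congrFun h t
  · intro t x y
    rcases le_total 0 t with ht | ht
    · have h := Z04_gron hlip (f := fun s => φ s x) (g := fun s => φ s y)
        (fun u => hf.2 _ u) (fun u => hf.2 _ u) ht
      simp only [hf.1] at h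
      rw [abs_of_nonneg ht]
      exact h
    · have ht' : 0 ≤ -t := by linarith
      have hr : ∀ z : EE, ∀ u : ℝ, HasDerivAt (fun s => φ (-s) z) (- F (φ (-u) z)) u := by
        intro z u
        have h1 := hf.2 z (-u)
        have h2 := h1.scomp u (hasDerivAt_neg u)
        rw [neg_one_smul] at h2
        exact h2
      have h := Z04_gron hK2 (f := fun s => φ (-s) x) (g := fun s => φ (-s) y)
        (fun u => hr x u) (fun u => hr y u) ht'
      simp only [neg_zero, neg_neg, hf.1] at h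
      rw [abs_of_nonpos ht]
      exact h

end Pool.Agent.Aub
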