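import Mathlib
import Pool.Agent.Helper961.Aub.Base
import Pool.Agent.Helper961.Aub.Mach
import Pool.Agent.Helper961.Aub.Sym
import Pool.Agent.Helper961.Aub.Torus
import Pool.Agent.Helper961.Aub.Phys
import Pool.Agent.Helper961.Aub.XReg

set_option autoImplicit false

open Set Filter Topology MeasureTheory

namespace Pool.Agent.Aub

theorem Z05_stp (a b t : ℝ) : 0 ≤ stp a b t ∧ stp a b t ≤ 1 :=
  ⟨Real.smoothTransition.nonneg _, Real.smoothTransition.le_one _⟩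

theorem Z05_mm : (mm : ℝ) = 4096 := by norm_num [mm]

theorem Z05_sum (g : ℕ → ℝ) (hg : ∀ j, 0 ≤ g j ∧ g j ≤ 1) :
    0 ≤ ∑ j ∈ Finset.range mm, g j ∧ ∑ j ∈ Finset.range mm, g j ≤ 4096 := by
  refine ⟨Finset.sum_nonneg fun j _ => (hg j).1, ?_⟩
  calc ∑ j ∈ Finset.range mm, g j ≤ ∑ j ∈ Finset.range mm, (1 : ℝ) :=
        Finset.sum_le_sum fun j _ => (hg j).2
    _ = 4096 := by simp [mm]

theorem Z05_Sc (t : ℝ) : 0 ≤ Sc t ∧ Sc t ≤ 1 := Z05_stp _ _ _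
theorem Z05_S1 (t : ℝ) : 0 ≤ S1 t ∧ S1 t ≤ 4096 := Z05_sum _ fun _ => Z05_stp _ _ _
theorem Z05_S2 (t : ℝ) : 0 ≤ S2 t ∧ S2 t ≤ 4096 := Z05_sum _ fun _ => Z05_stp _ _ _
theorem Z05_Qx (t : ℝ) : 0 ≤ Qx t ∧ Qx t ≤ 4096 := Z05_sum _ fun _ => Z05_stp _ _ _

theorem Z05_mul {a b : ℝ} (ha : 0 ≤ a ∧ a ≤ 1) (hb : 0 ≤ b ∧ b ≤ 1) :
    0 ≤ a * b ∧ a * b ≤ 1 :=
  ⟨mul_nonneg ha.1 hb.1, mul_le_one₀ ha.2 hb.1 hb.2⟩

theorem Z05_mulB {a b B : ℝ} (ha : 0 ≤ a ∧ a ≤ 1) (hb : 0 ≤ b ∧ b ≤ B) :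
    0 ≤ a * b ∧ a * b ≤ B := by
  refine ⟨mul_nonneg ha.1 hb.1, ?_⟩
  calc a * b ≤ 1 * b := mul_le_mul_of_nonneg_right ha.2 hb.1
    _ ≤ B := by rw [one_mul]; exact hb.2

theorem Z05_sub {a : ℝ} (ha : 0 ≤ a ∧ a ≤ 1) : 0 ≤ 1 - a ∧ 1 - a ≤ 1 :=
  ⟨by linarith [ha.2], by linarith [ha.1]⟩

theorem Z05_gT (t : ℝ) : 0 ≤ gT t ∧ gT t ≤ 1 :=
  Z05_sub (Z05_mul (Z05_stp _ _ _) (Z05_sub (Z05_stp _ _ _)))
theorem Z05_gt (t : ℝ) : 0 ≤ gt t ∧ gt t ≤ 1 :=
  Z05_sub (Z05_mul (Z05_stp _ _ _) (Z05_sub (Z05_stp _ _ _)))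
theorem Z05_cT (a b : ℝ) : 0 ≤ cT a b ∧ cT a b ≤ 1 :=
  Z05_mul (Z05_mul (Z05_stp _ _ _) (Z05_sub (Z05_stp _ _ _))) (Z05_sub (Z05_stp _ _ _))
theorem Z05_ct (a b : ℝ) : 0 ≤ ct a b ∧ ct a b ≤ 1 :=
  Z05_mul (Z05_mul (Z05_stp _ _ _) (Z05_sub (Z05_stp _ _ _))) (Z05_sub (Z05_stp _ _ _))

theorem Z05_Wt (b : Bool) (z : Zs) : 0 ≤ Wt b z ∧ Wt b z ≤ 1 := by
  unfold Wt
  cases b
  · simpa using Z05_sub (Z05_Sc (reg z 0))
  · simpa using Z05_Sc (reg z 0)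

theorem Z05_shear (f : Zs → Zs) (z : Zs) (hf : ∀ u : ℝ, f (z + u • f z) = f z)
    (A B : ℝ) (hA : ∀ i, |z i| ≤ A) (hB : ∀ i, |f z i| ≤ B) (hAB : A + B ≤ 2 ^ 38) :
    ∃ ζ : ℝ → Zs, ζ 0 = z ∧ ζ 1 = z + f z ∧ ∀ u ∈ Icc (0 : ℝ) 1,
      HasDerivAt ζ (f (ζ u)) u ∧ ∀ i, |ζ u i| ≤ 2 ^ 38 := by
  refine ⟨fun u => z + u • f z, by simp, by simp, fun u hu => ⟨?_, fun i => ?_⟩⟩
  · simp only [hf u]
    have h := ((hasDerivAt_id u).smul_const (f z)).const_add z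
    simpa using h
  · have h1 : |u * f z i| ≤ B := by
      rw [abs_mul, abs_of_nonneg hu.1]
      calc u * |f z i| ≤ 1 * |f z i| := mul_le_mul_of_nonneg_right hu.2 (abs_nonneg _)
        _ ≤ B := by rw [one_mul]; exact hB i
    calc |(z + u • f z) i| = |z i + u * f z i| := by simp
      _ ≤ |z i| + |u * f z i| := abs_add_le _ _
      _ ≤ A + B := add_le_add (hA i) h1
      _ ≤ 2 ^ 38 := hAB

/-- components -/
theorem Z05_mk_inl (S : Stk) (R : Fin 12 → ℝ) (i : Fin 3) (tr : Fin 5) :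
    mkz S R (Sum.inl (i, tr)) = S i tr := rfl
theorem Z05_mk_inr (S : Stk) (R : Fin 12 → ℝ) (k : Fin 12) :
    mkz S R (Sum.inr k) = R k := rfl
theorem Z05_stk_mk (S : Stk) (R : Fin 12 → ℝ) : stk (mkz S R) = S := rfl
theorem Z05_reg_mk (S : Stk) (R : Fin 12 → ℝ) : reg (mkz S R) = R := rfl
theorem Z05_mk_eta (z : Zs) : mkz (stk z) (reg z) = z := by
  funext i
  rcases i with ⟨i, tr⟩ | k <;> rfl

theorem Z05_stk_add (z w : Zs) (u : ℝ) (i : Fin 3) (tr : Fin 5) :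
    stk (z + u • w) i tr = stk z i tr + u * stk w i tr := rfl
theorem Z05_reg_add (z w : Zs) (u : ℝ) (k : Fin 12) :
    reg (z + u • w) k = reg z k + u * reg w k := rfl

theorem Z05_f1_shear (s d : Fin 3) (z : Zs) (u : ℝ) : f1 s d (z + u • f1 s d z) = f1 s d z := by
  have h : ∀ i tr, stk (z + u • f1 s d z) i tr = stk z i tr := by
    intro i tr
    rw [Z05_stk_add]
    simp [f1, Z05_stk_mk]
  unfold f1 at *
  simp only [h]

theorem Z05_f2_shear (d : Fin 3) (z : Zs) (u : ℝ) : f2 d (z + u • f2 d z) = f2 d z := by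
  have h : ∀ i tr, stk (z + u • f2 d z) i tr = stk z i tr := by
    intro i tr
    rw [Z05_stk_add]
    simp [f2, Z05_stk_mk]
  have h1 : reg (z + u • f2 d z) 1 = reg z 1 := by
    rw [Z05_reg_add]
    simp [f2, Z05_reg_mk]
  have h6 : reg (z + u • f2 d z) 6 = reg z 6 := by
    rw [Z05_reg_add]
    simp [f2, Z05_reg_mk]
  unfold f2 at *
  simp only [h, h1, h6]

theorem Z05_f3_shear (b : Bool) (s d : Fin 3) (z : Zs) (u : ℝ) :
    f3 b s d (z + u • f3 b s d z) = f3 b s d z := by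
  have h : ∀ k, reg (z + u • f3 b s d z) k = reg z k := by
    intro k
    rw [Z05_reg_add]
    simp [f3, Z05_reg_mk]
  have hW : Wt b (z + u • f3 b s d z) = Wt b z := by
    unfold Wt; rw [h]
  unfold f3 at *
  simp only [h, hW]

theorem Z05_f5_shear (b : Bool) (d : Fin 3) (r : ℝ) (z : Zs) (u : ℝ) :
    f5 b d r (z + u • f5 b d r z) = f5 b d r z := by
  have h : ∀ k, reg (z + u • f5 b d r z) k = reg z k := by
    intro k
    rw [Z05_reg_add]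
    simp [f5, Z05_reg_mk]
  have hW : Wt b (z + u • f5 b d r z) = Wt b z := by
    unfold Wt; rw [h]
  unfold f5 pushed at *
  simp only [h, hW]

theorem Z05_abs {a B : ℝ} (h : 0 ≤ a ∧ a ≤ B) : |a| ≤ B := by
  rw [abs_of_nonneg h.1]; exact h.2

theorem Z05_vec5 {a b c d e B : ℝ} (ha : 0 ≤ a ∧ a ≤ B) (hb : 0 ≤ b ∧ b ≤ B)
    (hc : 0 ≤ c ∧ c ≤ B) (hd : 0 ≤ d ∧ d ≤ B) (he : 0 ≤ e ∧ e ≤ B) (tr : Fin 5) :
    0 ≤ (![a, b, c, d, e] : Fin 5 → ℝ) tr ∧ (![a, b, c, d, e] : Fin 5 → ℝ) tr ≤ B := by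
  fin_cases tr
  · exact ha
  · exact hb
  · exact hc
  · exact hd
  · exact he

theorem Z05_f1_bd (s d : Fin 3) (z : Zs) (i : Ix) : |f1 s d z i| ≤ 4096 := by
  have hS : ∀ t, |Sc t| ≤ 4096 := fun t => (Z05_abs (Z05_Sc t)).trans (by norm_num)
  rcases i with ⟨i, tr⟩ | k
  · simp [f1, Z05_mk_inl]
  · simp only [f1, Z05_mk_inr]
    fin_cases k <;>
      simp [hS, Z05_abs (Z05_S1 _), Z05_abs (Z05_S2 _)]

theorem Z05_f2_bd (d : Fin 3) (z : Zs) (i : Ix) : |f2 d z i| ≤ 4096 := by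
  have h1 : ∀ a b c e f : ℝ, |(1 - Sc a) * gT b * cT c e| ≤ 4096 := fun a b c e f =>
    (Z05_abs (Z05_mul (Z05_mul (Z05_sub (Z05_Sc a)) (Z05_gT b)) (Z05_cT c e))).trans (by norm_num)
  have h2 : ∀ a b c e f : ℝ, |(1 - Sc a) * gt b * ct c e| ≤ 4096 := fun a b c e f =>
    (Z05_abs (Z05_mul (Z05_mul (Z05_sub (Z05_Sc a)) (Z05_gt b)) (Z05_ct c e))).trans (by norm_num)
  rcases i with ⟨i, tr⟩ | k
  · simp [f2, Z05_mk_inl]
  · simp only [f2, Z05_mk_inr]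
    fin_cases k
    any_goals (simp; done)
    · exact h1 _ _ _ _ 0
    · exact h2 _ _ _ _ 0

theorem Z05_f3_bd (b : Bool) (s d : Fin 3) (z : Zs) (i : Ix) : |f3 b s d z i| ≤ 4096 := by
  rcases i with ⟨i, tr⟩ | k
  · simp only [f3, Z05_mk_inl]
    split_ifs with h1 h2
    · rw [abs_neg]
      apply Z05_abs
      apply Z05_mulB (Z05_Wt b z)
      have hS : ∀ t, 0 ≤ Sc t ∧ Sc t ≤ 4096 := fun t =>
        ⟨(Z05_Sc t).1, (Z05_Sc t).2.trans (by norm_num)⟩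
      exact Z05_vec5 (hS _) (hS _) (Z05_Qx _) (Z05_Qx _) (Z05_Qx _) tr
    · rw [abs_neg]
      apply Z05_abs
      apply Z05_mulB (Z05_Wt b z)
      rw [Z05_mm]
      have := Z05_Sc (reg z 10)
      constructor <;> nlinarith [this.1, this.2]
    · simp
  · simp [f3, Z05_mk_inr]

theorem Z05_f5_bd (b : Bool) (d : Fin 3) (r : ℝ) (z : Zs) (i : Ix) : |f5 b d r z i| ≤ 4096 := by
  rcases i with ⟨i, tr⟩ | k
  · simp only [f5, Z05_mk_inl]
    split_ifs with h1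
    · apply Z05_abs
      apply Z05_mulB (Z05_Wt b z)
      have hS : ∀ t, 0 ≤ 1 - Sc t ∧ 1 - Sc t ≤ 4096 := fun t =>
        ⟨(Z05_sub (Z05_Sc t)).1, (Z05_sub (Z05_Sc t)).2.trans (by norm_num)⟩
      have hS2 : ∀ t t', 0 ≤ (1 - Sc t) * (1 - Sc t') ∧ (1 - Sc t) * (1 - Sc t') ≤ 4096 :=
        fun t t' =>
        ⟨(Z05_mul (Z05_sub (Z05_Sc t)) (Z05_sub (Z05_Sc t'))).1,
          (Z05_mul (Z05_sub (Z05_Sc t)) (Z05_sub (Z05_Sc t'))).2.trans (by norm_num)⟩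
      exact Z05_vec5 (hS _) (hS2 _ _) (Z05_Qx _) (Z05_Qx _) (Z05_Qx _) tr
    · simp
  · simp [f5, Z05_mk_inr]

theorem Z05_slot0 (cc : Clamp (5/4)) (cx : Clamp (mm + 1/2)) (s d : Fin 3) (z : Zs)
    (hS : ∀ i tr, |stk z i tr| ≤ 2 ^ 32) (hR : ∀ k, |reg z k| ≤ 2) :
    ∃ ζ : ℝ → Zs, ζ 0 = z ∧ ζ 1 = M0 cc cx s d z ∧ ∀ u ∈ Icc (0 : ℝ) 1,
      HasDerivAt ζ (f0 cc cx s d (ζ u)) u ∧ ∀ i, |ζ u i| ≤ 2 ^ 38 := by
  refine ⟨fun u => mkz (fun i tr => if i = s ∨ i = d then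
    (if tr.1 < 2 then cc.Φ u (stk z i tr) else cx.Φ u (stk z i tr)) else stk z i tr) (reg z),
    ?_, rfl, fun u hu => ⟨?_, ?_⟩⟩
  · funext i
    rcases i with ⟨i, tr⟩ | k
    · simp only [Z05_mk_inl, cc.zero, cx.zero]
      split_ifs <;> rfl
    · rfl
  · rw [hasDerivAt_pi]
    rintro (⟨i, tr⟩ | k)
    · simp only [Z05_mk_inl, f0, Z05_stk_mk]
      by_cases h : i = s ∨ i = d
      · by_cases h2 : tr.1 < 2
        · simp only [h, h2, if_true]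
          exact cc.deriv u _
        · simp only [h, h2, if_true, if_false]
          exact cx.deriv u _
      · simp only [h, if_false]
        exact hasDerivAt_const u _
    · simp only [Z05_mk_inr, f0]
      exact hasDerivAt_const u _
  · rintro (⟨i, tr⟩ | k)
    · simp only [Z05_mk_inl]
      split_ifs with h1 h2
      · exact (cc.bd u _ hu.1 hu.2 (hS i tr)).trans (by norm_num)
      · exact (cx.bd u _ hu.1 hu.2 (hS i tr)).trans (by norm_num)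
      · exact (hS i tr).trans (by norm_num)
    · simp only [Z05_mk_inr]
      exact (hR k).trans (by norm_num)

theorem Z05_exp_le {w : ℝ} (hw : 0 ≤ w ∧ w ≤ 1) {u : ℝ} (hu : u ∈ Icc (0:ℝ) 1) :
    Real.exp (u * (w * Real.log lam)) ≤ 131072 ∧ Real.exp (-(u * (w * Real.log lam))) ≤ 1 := by
  have hlog : 0 ≤ Real.log lam := Real.log_nonneg (by norm_num [lam])
  have hl : Real.exp (Real.log lam) = 131072 := by
    rw [Real.exp_log (by norm_num [lam])]; norm_num [lam]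
  constructor
  · rw [← hl]
    apply Real.exp_le_exp.mpr
    have h1 : w * Real.log lam ≤ Real.log lam := by nlinarith [hw.2]
    have h2 : 0 ≤ w * Real.log lam := mul_nonneg hw.1 hlog
    nlinarith [hu.1, hu.2]
  · rw [← Real.exp_zero]
    apply Real.exp_le_exp.mpr
    have h2 : 0 ≤ w * Real.log lam := mul_nonneg hw.1 hlog
    have h3 : 0 ≤ u * (w * Real.log lam) := mul_nonneg hu.1 h2
    linarith

theorem Z05_slot4 (b : Bool) (s d : Fin 3) (z : Zs)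
    (hS : ∀ i tr, |stk z i tr| ≤ 2 ^ 33) (hSs : ∀ tr, |stk z s tr| ≤ 2 ^ 20)
    (hR : ∀ k, |reg z k| ≤ 2 ^ 20) :
    ∃ ζ : ℝ → Zs, ζ 0 = z ∧ ζ 1 = M4 b s d z ∧ ∀ u ∈ Icc (0 : ℝ) 1,
      HasDerivAt ζ (f4 b s d (ζ u)) u ∧ ∀ i, |ζ u i| ≤ 2 ^ 38 := by
  refine ⟨fun u => mkz (fun i tr => if i = s then Real.exp (u * (Wt b z * Real.log lam)) * stk z i tr
    else if i = d then Real.exp (-(u * (Wt b z * Real.log lam))) * stk z i tr
    else stk z i tr) (reg z),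
    ?_, ?_, fun u hu => ⟨?_, ?_⟩⟩
  · funext i
    rcases i with ⟨i, tr⟩ | k
    · simp only [Z05_mk_inl, zero_mul, neg_zero, Real.exp_zero, one_mul]
      split_ifs <;> rfl
    · rfl
  · simp only [one_mul]
    rfl
  · rw [hasDerivAt_pi]
    have hW : ∀ S : Stk, Wt b (mkz S (reg z)) = Wt b z := fun S => rfl
    rintro (⟨i, tr⟩ | k)
    · simp only [Z05_mk_inl, f4, Z05_stk_mk, hW]
      by_cases h : i = s
      · simp only [h, if_true]
        have h1 : HasDerivAt (fun x : ℝ => x * (Wt b z * Real.log lam)) (Wt b z * Real.log lam) u := by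
          simpa using (hasDerivAt_id u).mul_const (Wt b z * Real.log lam)
        have h2 := (h1.exp).mul_const (stk z s tr)
        exact h2.congr_deriv (by ring)
      · by_cases h' : i = d
        · simp only [h, h', if_true, if_false]
          have h1 : HasDerivAt (fun x : ℝ => -(x * (Wt b z * Real.log lam)))
              (-(Wt b z * Real.log lam)) u := by
            simpa using ((hasDerivAt_id u).mul_const (Wt b z * Real.log lam)).fun_neg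
          have h2 := (h1.exp).mul_const (stk z d tr)
          by_cases hds : d = s
          · exact absurd (h'.trans hds) h
          simp only [hds, if_false]
          exact h2.congr_deriv (by ring)
        · simp only [h, h', if_false]
          exact hasDerivAt_const u _
    · simp only [Z05_mk_inr, f4]
      exact hasDerivAt_const u _
  · obtain ⟨he1, he2⟩ := Z05_exp_le (Z05_Wt b z) hu
    rintro (⟨i, tr⟩ | k)
    · simp only [Z05_mk_inl]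
      split_ifs with h1 h2
      · rw [abs_mul, abs_of_pos (Real.exp_pos _), h1]
        calc _ ≤ (131072 : ℝ) * 2 ^ 20 :=
              mul_le_mul he1 (hSs tr) (abs_nonneg _) (by norm_num)
          _ ≤ 2 ^ 38 := by norm_num
      · rw [abs_mul, abs_of_pos (Real.exp_pos _)]
        calc _ ≤ (1 : ℝ) * 2 ^ 33 :=
              mul_le_mul he2 (hS i tr) (abs_nonneg _) (by norm_num)
          _ ≤ 2 ^ 38 := by norm_num
      · exact (hS i tr).trans (by norm_num)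
    · simp only [Z05_mk_inr]
      exact (hR k).trans (by norm_num)

theorem Z05_slot6 (z : Zs) (hz : ∀ i, |z i| ≤ 2 ^ 38) :
    ∃ ζ : ℝ → Zs, ζ 0 = z ∧ ζ 1 = M6 z ∧ ∀ u ∈ Icc (0 : ℝ) 1,
      HasDerivAt ζ (f6 (ζ u)) u ∧ ∀ i, |ζ u i| ≤ 2 ^ 38 := by
  refine ⟨fun u => mkz (stk z) (fun k => if k = 0 then reg z 0 else Real.exp (-16 * u) * reg z k),
    ?_, ?_, fun u hu => ⟨?_, ?_⟩⟩
  · funext i
    rcases i with ⟨i, tr⟩ | k
    · rfl
    · simp only [Z05_mk_inr, mul_zero, Real.exp_zero, one_mul]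
      split_ifs with h
      · rw [h]; rfl
      · rfl
  · simp only [mul_one]
    rfl
  · rw [hasDerivAt_pi]
    rintro (⟨i, tr⟩ | k)
    · simp only [Z05_mk_inl, f6]
      exact hasDerivAt_const u _
    · simp only [Z05_mk_inr, f6, Z05_reg_mk]
      by_cases h : k = 0
      · simp only [h, if_true]
        exact hasDerivAt_const u _
      · simp only [h, if_false]
        have h1 : HasDerivAt (fun x : ℝ => -16 * x) (-16) u := by
          simpa using (hasDerivAt_id u).const_mul (-16 : ℝ)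
        have h2 := (h1.exp).mul_const (reg z k)
        exact h2.congr_deriv (by ring)
  · rintro (⟨i, tr⟩ | k)
    · exact hz _
    · simp only [Z05_mk_inr]
      split_ifs with h
      · exact hz (Sum.inr 0)
      · rw [abs_mul, abs_of_pos (Real.exp_pos _)]
        have h1 : Real.exp (-16 * u) ≤ 1 := by
          rw [← Real.exp_zero]
          exact Real.exp_le_exp.mpr (by linarith [hu.1])
        calc _ ≤ (1 : ℝ) * 2 ^ 38 := mul_le_mul h1 (hz (Sum.inr k)) (abs_nonneg _) (by norm_num)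
          _ = 2 ^ 38 := by norm_num

theorem Z05_stk_f1 (s d : Fin 3) (z : Zs) (i : Fin 3) (tr : Fin 5) :
    stk (z + f1 s d z) i tr = stk z i tr := by
  show z (Sum.inl (i, tr)) + f1 s d z (Sum.inl (i, tr)) = _
  simp [f1, Z05_mk_inl, stk]

theorem Z05_stk_f2 (d : Fin 3) (z : Zs) (i : Fin 3) (tr : Fin 5) :
    stk (z + f2 d z) i tr = stk z i tr := by
  show z (Sum.inl (i, tr)) + f2 d z (Sum.inl (i, tr)) = _
  simp [f2, Z05_mk_inl, stk]

theorem Z05_reg_f3 (b : Bool) (s d : Fin 3) (z : Zs) (k : Fin 12) :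
    reg (z + f3 b s d z) k = reg z k := by
  show z (Sum.inr k) + f3 b s d z (Sum.inr k) = _
  simp [f3, Z05_mk_inr, reg]

theorem Z05_add_bd {x y A B : ℝ} (hx : |x| ≤ A) (hy : |y| ≤ B) : |x + y| ≤ A + B :=
  (abs_add_le x y).trans (add_le_add hx hy)

/-- TARGET -/
theorem cm_reach (cc : Clamp (5/4)) (cx : Clamp (mm + 1/2)) (b : Bool) (s d : Fin 3)
    (hsd : s ≠ d) (r : ℝ) (z : Zs) (hS : ∀ i tr, |stk z i tr| ≤ 2 ^ 32)
    (hR : ∀ k, |reg z k| ≤ 2) :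
    ∃ c : Fin 8 → Zs, c 0 = z ∧ c 7 = cm cc cx b s d r z ∧ ∀ j : Fin 7, ∃ ζ : ℝ → Zs,
      ζ 0 = c j.castSucc ∧ ζ 1 = c j.succ ∧ ∀ u ∈ Icc (0 : ℝ) 1,
        HasDerivAt ζ ((![f0 cc cx s d, f1 s d, f2 d, f3 b s d, f4 b s d, f5 b d r, f6] :
          Fin 7 → Zs → Zs) j (ζ u)) u ∧ ∀ i, |ζ u i| ≤ 2 ^ 38 := by
  have hmm := Z05_mm
  obtain ⟨z0, hz0⟩ : ∃ w, w = M0 cc cx s d z := ⟨_, rfl⟩
  obtain ⟨z1, hz1⟩ : ∃ w, w = z0 + f1 s d z0 := ⟨_, rfl⟩
  obtain ⟨z2, hz2⟩ : ∃ w, w = z1 + f2 d z1 := ⟨_, rfl⟩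
  obtain ⟨z3, hz3⟩ : ∃ w, w = z2 + f3 b s d z2 := ⟨_, rfl⟩
  obtain ⟨z4, hz4⟩ : ∃ w, w = M4 b s d z3 := ⟨_, rfl⟩
  obtain ⟨z5, hz5⟩ : ∃ w, w = z4 + f5 b d r z4 := ⟨_, rfl⟩
  have hcm : cm cc cx b s d r z = M6 z5 := by
    subst hz5 hz4 hz3 hz2 hz1 hz0
    rfl
  -- bounds
  have hS0 : ∀ i tr, |stk z0 i tr| ≤ 2 ^ 32 := by
    intro i tr
    rw [hz0, M0, Z05_stk_mk]
    split_ifs with h1 h2
    · obtain ⟨h3, h4⟩ := cc.rng _ (hS i tr)
      rw [abs_le]; constructor <;> linarith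
    · obtain ⟨h3, h4⟩ := cx.rng _ (hS i tr)
      rw [abs_le]; constructor <;> linarith
    · exact hS i tr
  have hS0s : ∀ tr, |stk z0 s tr| ≤ 2 ^ 13 := by
    intro tr
    rw [hz0, M0, Z05_stk_mk, if_pos (Or.inl rfl)]
    split_ifs with h2
    · obtain ⟨h3, h4⟩ := cc.rng _ (hS s tr)
      rw [abs_le]; constructor <;> linarith
    · obtain ⟨h3, h4⟩ := cx.rng _ (hS s tr)
      rw [abs_le]; constructor <;> linarith
  have hR0 : ∀ k, |reg z0 k| ≤ 2 := by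
    intro k
    rw [hz0, M0, Z05_reg_mk]
    exact hR k
  have hR1 : ∀ k, |reg z1 k| ≤ 2 + 4096 := by
    intro k
    rw [hz1]
    exact Z05_add_bd (hR0 k) (Z05_f1_bd s d z0 _)
  have hS1 : ∀ i tr, stk z1 i tr = stk z0 i tr := fun i tr => by
    rw [hz1]; exact Z05_stk_f1 s d z0 i tr
  have hR2 : ∀ k, |reg z2 k| ≤ 2 + 4096 + 4096 := by
    intro k
    rw [hz2]
    exact Z05_add_bd (hR1 k) (Z05_f2_bd d z1 _)
  have hS2 : ∀ i tr, stk z2 i tr = stk z0 i tr := fun i tr => by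
    rw [hz2, Z05_stk_f2]; exact hS1 i tr
  have hR3 : ∀ k, |reg z3 k| ≤ 2 + 4096 + 4096 := by
    intro k
    rw [hz3, Z05_reg_f3]
    exact hR2 k
  have hS3 : ∀ i tr, |stk z3 i tr| ≤ 2 ^ 32 + 4096 := by
    intro i tr
    rw [hz3]
    have := hS0 i tr
    rw [← hS2] at this
    exact Z05_add_bd this (Z05_f3_bd b s d z2 _)
  have hS3s : ∀ tr, |stk z3 s tr| ≤ 2 ^ 13 + 4096 := by
    intro tr
    rw [hz3]
    have := hS0s tr
    rw [← hS2] at this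
    exact Z05_add_bd this (Z05_f3_bd b s d z2 _)
  have hR4 : ∀ k, |reg z4 k| ≤ 2 + 4096 + 4096 := by
    intro k
    rw [hz4, M4, Z05_reg_mk]
    exact hR3 k
  have hS4 : ∀ i tr, |stk z4 i tr| ≤ 2 ^ 33 := by
    intro i tr
    rw [hz4, M4, Z05_stk_mk]
    obtain ⟨he1, he2⟩ := Z05_exp_le (Z05_Wt b z3) (u := 1) ⟨zero_le_one, le_refl _⟩
    rw [one_mul] at he1 he2
    split_ifs with h1 h2
    · rw [abs_mul, abs_of_pos (Real.exp_pos _), h1]
      calc _ ≤ (131072 : ℝ) * (2 ^ 13 + 4096) :=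
            mul_le_mul he1 (hS3s tr) (abs_nonneg _) (by norm_num)
        _ ≤ 2 ^ 33 := by norm_num
    · rw [abs_mul, abs_of_pos (Real.exp_pos _)]
      calc _ ≤ (1 : ℝ) * (2 ^ 32 + 4096) :=
            mul_le_mul he2 (hS3 i tr) (abs_nonneg _) (by norm_num)
        _ ≤ 2 ^ 33 := by norm_num
    · exact (hS3 i tr).trans (by norm_num)
  have hz0b : ∀ i, |z0 i| ≤ 2 ^ 34 := by
    rintro (⟨i, tr⟩ | k)
    · exact (hS0 i tr).trans (by norm_num)
    · exact (hR0 k).trans (by norm_num)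
  have hz1b : ∀ i, |z1 i| ≤ 2 ^ 34 := by
    rintro (⟨i, tr⟩ | k)
    · have := hS0 i tr
      rw [← hS1] at this
      exact this.trans (by norm_num)
    · exact (hR1 k).trans (by norm_num)
  have hz2b : ∀ i, |z2 i| ≤ 2 ^ 34 := by
    rintro (⟨i, tr⟩ | k)
    · have := hS0 i tr
      rw [← hS2] at this
      exact this.trans (by norm_num)
    · exact (hR2 k).trans (by norm_num)
  have hz4b : ∀ i, |z4 i| ≤ 2 ^ 34 := by
    rintro (⟨i, tr⟩ | k)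
    · exact (hS4 i tr).trans (by norm_num)
    · exact (hR4 k).trans (by norm_num)
  have hz5b : ∀ i, |z5 i| ≤ 2 ^ 38 := by
    intro i
    rw [hz5]
    exact (Z05_add_bd (hz4b i) (Z05_f5_bd b d r z4 i)).trans (by norm_num)
  -- the slots
  have H0 := Z05_slot0 cc cx s d z hS hR
  rw [← hz0] at H0
  have H1 := Z05_shear (f1 s d) z0 (Z05_f1_shear s d z0) _ _ hz0b (Z05_f1_bd s d z0) (by norm_num)
  rw [← hz1] at H1
  have H2 := Z05_shear (f2 d) z1 (Z05_f2_shear d z1) _ _ hz1b (Z05_f2_bd d z1) (by norm_num)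
  rw [← hz2] at H2
  have H3 := Z05_shear (f3 b s d) z2 (Z05_f3_shear b s d z2) _ _ hz2b (Z05_f3_bd b s d z2)
    (by norm_num)
  rw [← hz3] at H3
  have H4 := Z05_slot4 b s d z3 (fun i tr => (hS3 i tr).trans (by norm_num))
    (fun tr => (hS3s tr).trans (by norm_num)) (fun k => (hR3 k).trans (by norm_num))
  rw [← hz4] at H4
  have H5 := Z05_shear (f5 b d r) z4 (Z05_f5_shear b d r z4) _ _ hz4b (Z05_f5_bd b d r z4)
    (by norm_num)
  rw [← hz5] at H5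
  have H6 := Z05_slot6 z5 hz5b
  refine ⟨![z, z0, z1, z2, z3, z4, z5, M6 z5], rfl, hcm.symm, ?_⟩
  intro j
  fin_cases j
  · exact H0
  · exact H1
  · exact H2
  · exact H3
  · exact H4
  · exact H5
  · exact H6

end Pool.Agent.Aub
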