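import Mathlib
import Pool.Agent.Helper961.Aub.Base
import Pool.Agent.Helper961.Aub.Mach
import Pool.Agent.Helper961.Aub.Sym
import Pool.Agent.Helper961.Aub.Torus
import Pool.Agent.Helper961.Aub.Phys
import Pool.Agent.Helper961.Aub.ZTick
import Pool.Agent.Helper961.Aub.ZFlow

set_option autoImplicit false

open Set Filter Topology MeasureTheory

namespace Pool.Agent.Aub

private theorem Z07_step (cc : Clamp (5/4)) (cx : Clamp (mm + 1/2)) (rh : Rho) {F : EE → EE}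
    {φ : ℝ → EE → EE} (h : Realz 97 (YY cc cx rh) LL F φ) (q : ℤ) (j : ℕ) (hj : j < 6)
    (y : ℝ) (c : ℕ → Zs) (i : Fin 16)
    (hc : ∃ ζ : ℝ → Zs, ζ 0 = c (i : ℕ) ∧ ζ 1 = c ((i : ℕ) + 1) ∧ ∀ u ∈ Icc (0 : ℝ) 1,
        HasDerivAt ζ (slotf cc cx (tyj j) (pj j) (rh.ρ y) i (ζ u)) u ∧ ∀ k, |ζ u k| ≤ 2 ^ 38) :
    φ 1 (mkp (c (i : ℕ)) y (q * LL + 16 * j + ((i : ℕ) : ℝ))) =
      mkp (c ((i : ℕ) + 1)) y (q * LL + 16 * j + (((i : ℕ) + 1 : ℕ) : ℝ)) := by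
  obtain ⟨ζ, h0, h1, hζ⟩ := hc
  have hi := i.2
  have hk : 16 * j + (i : ℕ) < 97 := by omega
  have hk' : 16 * j + (i : ℕ) < 96 := by omega
  have hd : (16 * j + (i : ℕ)) / 16 = j := by omega
  have hm : (16 * j + (i : ℕ)) % 16 = (i : ℕ) := by omega
  have key := h.slot ⟨16 * j + (i : ℕ), hk⟩ q ζ (fun _ => y) (by
    intro u hu
    obtain ⟨h2, h3⟩ := hζ u hu
    refine ⟨?_, ?_⟩
    · have e : YY cc cx rh ⟨16 * j + (i : ℕ), hk⟩ (ζ u, y) =
          (slotf cc cx (tyj j) (pj j) (rh.ρ y) i (ζ u), 0) := by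
        unfold YY
        rw [dif_pos hk']
        have e2 : (⟨(16 * j + (i : ℕ)) % 16, Nat.mod_lt _ (by norm_num)⟩ : Fin 16) = i :=
          Fin.ext hm
        simp only [hd, e2]
      rw [e]
      exact h2.prodMk (hasDerivAt_const u y)
    · intro k
      refine (h3 k).trans (le_of_eq ?_)
      unfold LL
      norm_num)
  rw [h0, h1] at key
  have c1 : (q : ℝ) * LL + ((((⟨16 * j + (i : ℕ), hk⟩ : Fin 97) : ℕ)) : ℝ) =
      q * LL + 16 * j + ((i : ℕ) : ℝ) := by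
    push_cast
    ring
  have c2 : (q : ℝ) * LL + ((((⟨16 * j + (i : ℕ), hk⟩ : Fin 97) : ℕ)) : ℝ) + 1 =
      q * LL + 16 * j + (((i : ℕ) + 1 : ℕ) : ℝ) := by
    push_cast
    ring
  rw [c2, c1] at key
  exact key

/-- TARGET -/
theorem slot_flow (cc : Clamp (5/4)) (cx : Clamp (mm + 1/2)) (rh : Rho) {F : EE → EE}
    {φ : ℝ → EE → EE} (h : Realz 97 (YY cc cx rh) LL F φ) (q : ℤ) (j : ℕ) (hj : j < 6)
    (z : Zs) (y : ℝ) (hS : ∀ i tr, |stk z i tr| ≤ 2 ^ 32) (hR : ∀ k, |reg z k| ≤ 1/16) :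
    φ 16 (mkp z y (q * LL + 16 * j)) =
      mkp (tick cc cx (tyj j) (pj j) (rh.ρ y) z) y (q * LL + 16 * (j + 1)) := by
  have hLL : (0 : ℝ) < LL := by
    unfold LL
    positivity
  obtain ⟨K, B, -, -, -, -, hadd, -, -⟩ := flow_facts hLL h.smooth h.per h.flow
  obtain ⟨c, hc0, hc16, hc⟩ := tick_reach cc cx (tyj j) (pj j) (rh.ρ y) z hS hR
  have ind : ∀ i : ℕ, i ≤ 16 → φ (i : ℝ) (mkp z y (q * LL + 16 * j)) =
      mkp (c i) y (q * LL + 16 * j + (i : ℝ)) := by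
    intro i
    induction i with
    | zero =>
      intro _
      rw [Nat.cast_zero, h.flow.1, hc0, add_zero]
    | succ i ih =>
      intro hi
      have hi' : i < 16 := by omega
      have e : ((i + 1 : ℕ) : ℝ) = 1 + (i : ℝ) := by
        push_cast
        ring
      have st := Z07_step cc cx rh h q j hj y c ⟨i, hi'⟩ (hc ⟨i, hi'⟩)
      rw [e, hadd, ih (by omega), ← e]
      exact st
  have fin := ind 16 le_rfl
  rw [hc16] at fin
  have e1 : ((16 : ℕ) : ℝ) = 16 := by norm_num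
  rw [e1] at fin
  rw [fin]
  congr 1
  ring

end Pool.Agent.Aub
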