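import Mathlib
import Pool.Agent.Helper961.Aub.Base
import Pool.Agent.Helper961.Aub.Mach
import Pool.Agent.Helper961.Aub.Sym
import Pool.Agent.Helper961.Aub.Torus
import Pool.Agent.Helper961.Aub.Phys
import Pool.Agent.Helper961.Aub.ZSlot
import Pool.Agent.Helper961.Aub.ZFlow
import Pool.Agent.Helper961.Aub.XTickE
import Pool.Agent.Helper961.Aub.XTick
import Pool.Agent.Helper961.Aub.XRange

set_option autoImplicit false

open Set Filter Topology MeasureTheory

namespace Pool.Agent.Aub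

theorem Z10_other_other (ty : Ty) : ty.other.other = ty := by cases ty <;> rfl

theorem Z10_tyn (ty : Ty) (j : ℕ) : tyn ty.other j = tyn ty (j + 1) := by
  unfold tyn
  rcases Nat.mod_two_eq_zero_or_one j with h | h
  · have h' : (j + 1) % 2 = 1 := by omega
    simp [h, h']
  · have h' : (j + 1) % 2 = 0 := by omega
    simp [h, h', Z10_other_other]

theorem Z10_run (r : Bool) (j : ℕ) : ∀ (ty : Ty) (l : List Cell),
    run (j + 1) (fun _ => r) ty l = st (tyn ty j) r (run j (fun _ => r) ty l) := by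
  induction j with
  | zero => intro ty l; rfl
  | succ j ih =>
    intro ty l
    have h1 := ih ty.other (st ty r l)
    rw [Z10_tyn] at h1
    exact h1

theorem Z10_tyj (j : ℕ) : (tyj j).other = tyj (j + 1) := by
  unfold tyj
  rcases Nat.mod_two_eq_zero_or_one j with h | h
  · have h' : (j + 1) % 2 = 1 := by omega
    simp [h, h', Ty.other]
  · have h' : (j + 1) % 2 = 0 := by omega
    simp [h, h', Ty.other]

theorem Z10_pj (j : ℕ) (hj : j < 6) : pj j + 1 = pj (j + 1) := by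
  interval_cases j <;> rfl

theorem Z10_stk (ty : Ty) (p : Fin 3) (l : List Cell) (hD : Dle l) (z : Zs)
    (hz : stk z = rl ty 1 p l) (i : Fin 3) (tr : Fin 5) : |stk z i tr| ≤ 4097 := by
  obtain ⟨h1, h2, _⟩ := rl_range l hD ty 1 p i tr
  rw [hz, abs_of_nonneg h1]
  have : (mm : ℝ) = 4096 := by norm_num [mm]
  rw [this] at h2
  linarith

theorem Z10_mkz (z : Zs) : mkz (stk z) (reg z) = z := by
  funext i
  rcases i with ⟨a, b⟩ | k <;> rfl

/-- TARGET -/
theorem period_exact (cc : Clamp (5/4)) (cx : Clamp (mm + 1/2)) (rh : Rho) {F : EE → EE}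
    {φ : ℝ → EE → EE} (h : Realz 97 (YY cc cx rh) LL F φ) (l : List Cell) (hD : Dle l)
    (hv : Val Ty.E l) (R : Fin 12 → ℝ) (hR : ∀ k, |R k| ≤ 1/16) (y y' : ℝ) (r : Bool)
    (hr : rh.ρ y = if r then 1 else 0)
    (hy : ∃ η : ℝ → ℝ, η 0 = y ∧ η 1 = y' ∧ ∀ u, HasDerivAt η (psi (η u)) u) :
    ∃ R' : Fin 12 → ℝ, (∀ k, |R' k| ≤ 1/32) ∧
      φ LL (pt l R y) = pt (run 6 (fun _ => r) Ty.E l) R' y' +
        lat LL (Pi.single (Sum.inr 1) 1) ∧
      Dle (run 6 (fun _ => r) Ty.E l) ∧ Val Ty.E (run 6 (fun _ => r) Ty.E l) := by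
  have hLL : (0 : ℝ) < LL := by unfold LL; positivity
  obtain ⟨_, _, _, _, _, _, hadd, _, _⟩ := flow_facts hLL h.smooth h.per h.flow
  have key : ∀ j : ℕ, j ≤ 6 → ∃ z : Zs, φ (16 * j) (pt l R y) = mkp z y (16 * j) ∧
      stk z = rl (tyj j) 1 (pj j) (run j (fun _ => r) Ty.E l) ∧ (∀ k, |reg z k| ≤ 1/16) ∧
      (0 < j → ∀ k, |reg z k| ≤ 1/32) ∧
      Dle (run j (fun _ => r) Ty.E l) ∧ Val (tyj j) (run j (fun _ => r) Ty.E l) := by
    intro j
    induction j with
    | zero =>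
      intro _
      refine ⟨mkz (rl Ty.E 1 0 l) R, ?_, ?_, ?_, ?_, hD, hv⟩
      · have : ((16 : ℝ) * ((0 : ℕ) : ℝ)) = 0 := by norm_num
        rw [this, h.flow.1]
        rfl
      · rfl
      · exact hR
      · intro h0; exact absurd h0 (lt_irrefl _)
    | succ j ih =>
      intro hj
      obtain ⟨z, h1, h2, h3, _, h5, h6⟩ := ih (by omega)
      have hS : ∀ i tr, |stk z i tr| ≤ 2 ^ 32 := fun i tr =>
        (Z10_stk _ _ _ h5 z h2 i tr).trans (by norm_num)
      have hsl := slot_flow cc cx rh h 0 j (by omega) z y hS h3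
      rw [hr] at hsl
      have hex := tick_exact cc cx (tyj j) (pj j) r _ h5 h6 z h3 h2
      have hrel := tick_rel cc cx (tyj j) (pj j) (if r then 1 else 0) (by split_ifs <;> norm_num)
        (by split_ifs <;> norm_num) z hS h3
      have hsv := st_val (tyj j) r _ h5 h6
      have hrun : run (j + 1) (fun _ => r) Ty.E l =
          st (tyj j) r (run j (fun _ => r) Ty.E l) := Z10_run r j Ty.E l
      refine ⟨tick cc cx (tyj j) (pj j) (if r then 1 else 0) z, ?_, ?_, ?_, ?_, ?_, ?_⟩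
      · have e1 : (16 : ℝ) * ((j + 1 : ℕ) : ℝ) = 16 + 16 * j := by push_cast; ring
        rw [e1, hadd, h1]
        have e2 : (16 : ℝ) * j = ((0 : ℤ) : ℝ) * LL + 16 * j := by push_cast; ring
        rw [e2, hsl]
        congr 1
        push_cast
        ring
      · rw [hex, hrun, Z10_tyj, Z10_pj j (by omega)]
      · intro k; exact (hrel.2.2 k).trans (by norm_num)
      · intro _ k; exact hrel.2.2 k
      · rw [hrun]; exact hsv.2
      · rw [hrun, ← Z10_tyj]; exact hsv.1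
  obtain ⟨z, h1, h2, h3, h4, h5, h6⟩ := key 6 le_rfl
  obtain ⟨η, hη0, hη1, hη⟩ := hy
  have hbd : ∀ i, |z i| ≤ LL / 4 := by
    have hL4 : (5000 : ℝ) ≤ LL / 4 := by unfold LL; norm_num
    intro i
    rcases i with ⟨a, b⟩ | k
    · exact (Z10_stk _ _ _ h5 z h2 a b).trans (by linarith)
    · exact (h3 k).trans (by linarith)
  have hslot := h.slot ⟨96, by norm_num⟩ 0 (fun _ => z) η (fun u _ => ⟨by
    have e : YY cc cx rh ⟨96, by norm_num⟩ (z, η u) = (0, psi (η u)) := by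
      unfold YY
      rw [dif_neg (by norm_num)]
    rw [e]
    exact (hasDerivAt_const u z).prodMk (hη u), hbd⟩)
  have hidle := h.idle 0 z y' (LL - 97) (by unfold LL; norm_num) (by norm_num)
  refine ⟨reg z, h4 (by norm_num), ?_, h5, h6⟩
  have e1 : (LL : ℝ) = (LL - 97) + (1 + 16 * ((6 : ℕ) : ℝ)) := by push_cast; ring
  have e2 : φ LL (pt l R y) = φ (LL - 97) (φ 1 (φ (16 * ((6 : ℕ) : ℝ)) (pt l R y))) := by
    conv_lhs => rw [e1]
    rw [hadd, hadd]
  rw [e2, h1]
  have e3 : (16 : ℝ) * ((6 : ℕ) : ℝ) =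
      ((0 : ℤ) : ℝ) * LL + (((⟨96, by norm_num⟩ : Fin 97) : ℕ) : ℝ) := by
    norm_num
  rw [e3]
  rw [hη0] at hslot
  rw [hslot, hη1]
  have e4 : ((0 : ℤ) : ℝ) * LL + (((⟨96, by norm_num⟩ : Fin 97) : ℕ) : ℝ) + 1 =
      ((0 : ℤ) : ℝ) * LL + ((97 : ℕ) : ℝ) := by
    norm_num
  rw [e4, hidle]
  have e5 : pt (run 6 (fun _ => r) Ty.E l) (reg z) y' = mkp z y' 0 := by
    have : rl Ty.E 1 0 (run 6 (fun _ => r) Ty.E l) = stk z := h2.symm
    unfold pt
    rw [this, Z10_mkz]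
  rw [e5]
  ext i
  rcases i with i | i
  · simp [mkp, lat]
  · fin_cases i
    · simp [mkp, lat]
    · simp [mkp, lat]

end Pool.Agent.Aub
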