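import Mathlib
import Pool.Agent.Helper961.Aub.Base
import Pool.Agent.Helper961.Aub.Mach
import Pool.Agent.Helper961.Aub.Sym
import Pool.Agent.Helper961.Aub.Torus
import Pool.Agent.Helper961.Aub.Phys

set_option autoImplicit false

open Set Filter Topology MeasureTheory

namespace Pool.Agent.Aub

theorem Z08_LLpos : (0:ℝ) < LL := by unfold LL; positivity

theorem Z08_psi (m : ℤ) (s : ℝ) :
    psi (m * LL + LL / 2 + LL / Real.pi * Real.arctan s) = 1 / (1 + s ^ 2) := by
  have hL : LL ≠ 0 := Z08_LLpos.ne'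
  have hpi : Real.pi ≠ 0 := Real.pi_ne_zero
  unfold psi
  have h1 : Real.pi * (m * LL + LL / 2 + LL / Real.pi * Real.arctan s) / LL =
      (Real.arctan s + m * Real.pi) + Real.pi / 2 := by
    field_simp
    ring
  rw [h1, Real.sin_add_pi_div_two, Real.cos_add_int_mul_pi, mul_pow, Real.cos_sq_arctan]
  have h2 : (((-1:ℝ) ^ m) ^ 2) = 1 := by
    rw [← zpow_natCast, ← zpow_mul, mul_comm, zpow_mul]
    norm_num
  rw [h2, one_mul]

theorem Z08_deriv (m : ℤ) (s : ℝ) (u : ℝ) :
    HasDerivAt (fun u : ℝ => m * LL + LL / 2 + LL / Real.pi * Real.arctan (s + Real.pi * u / LL))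
      (psi (m * LL + LL / 2 + LL / Real.pi * Real.arctan (s + Real.pi * u / LL))) u := by
  have hL : LL ≠ 0 := Z08_LLpos.ne'
  have hpi : Real.pi ≠ 0 := Real.pi_ne_zero
  rw [Z08_psi]
  have h1 : HasDerivAt (fun u : ℝ => s + Real.pi * u / LL) (Real.pi / LL) u := by
    have := (((hasDerivAt_id u).const_mul Real.pi).div_const LL).const_add s
    simpa using this
  have h2 := ((h1.arctan).const_mul (LL / Real.pi)).const_add (m * LL + LL / 2)
  have h3 : (1 + (s + Real.pi * u / LL) ^ 2) ≠ 0 := by positivity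
  have h4 : LL / Real.pi * (1 / (1 + (s + Real.pi * u / LL) ^ 2) * (Real.pi / LL)) =
      1 / (1 + (s + Real.pi * u / LL) ^ 2) := by
    rw [mul_comm (1 / _), ← mul_assoc]
    have : LL / Real.pi * (Real.pi / LL) = 1 := by field_simp
    rw [this, one_mul]
  rw [h4] at h2
  exact h2

/-- TARGET -/
theorem y_flow (y : ℝ) : ∃ η : ℝ → ℝ, η 0 = y ∧ ∀ u, HasDerivAt η (psi (η u)) u := by
  have hLp : 0 < LL := Z08_LLpos
  have hL : LL ≠ 0 := Z08_LLpos.ne'
  have hpi : Real.pi ≠ 0 := Real.pi_ne_zero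
  have hpip : 0 < Real.pi := Real.pi_pos
  obtain ⟨m, hm⟩ : ∃ m : ℤ, m = ⌊y / LL⌋ := ⟨_, rfl⟩
  have h1 : (m:ℝ) ≤ y / LL := by rw [hm]; exact Int.floor_le _
  have h2 : y / LL < m + 1 := by rw [hm]; exact Int.lt_floor_add_one _
  rcases h1.eq_or_lt with h3 | h3
  · refine ⟨fun _ => y, rfl, fun u => ?_⟩
    have h4 : psi y = 0 := by
      unfold psi
      have : Real.pi * y / LL = m * Real.pi := by
        rw [h3]; field_simp
      rw [this, Real.sin_int_mul_pi]
      norm_num
    rw [h4]
    exact hasDerivAt_const u y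
  · obtain ⟨θ, hθ⟩ : ∃ θ, θ = Real.pi * (y / LL - m) - Real.pi / 2 := ⟨_, rfl⟩
    have h5 : -(Real.pi / 2) < θ := by
      rw [hθ]
      have : 0 < Real.pi * (y / LL - m) := mul_pos hpip (by linarith)
      linarith
    have h6 : θ < Real.pi / 2 := by
      rw [hθ]
      have : Real.pi * (y / LL - m) < Real.pi * 1 := mul_lt_mul_of_pos_left (by linarith) hpip
      linarith
    refine ⟨fun u : ℝ => m * LL + LL / 2 + LL / Real.pi *
      Real.arctan (Real.tan θ + Real.pi * u / LL), ?_, fun u => Z08_deriv m _ u⟩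
    simp only [mul_zero, zero_div, add_zero]
    rw [Real.arctan_tan h5 h6, hθ]
    field_simp
    ring

/-- TARGET -/
theorem yo_facts :
    yo 0 = LL / 2 ∧ (∀ n, 0 < yo n ∧ yo n < LL) ∧ (∀ n, n ≠ 0 → 1/4 ≤ |yo n - LL / 2|) ∧
    (∀ ε > 0, ∃ n0 : ℕ, ∀ n : ℕ, n0 ≤ n → yo (-(n : ℤ)) < ε ∧ LL - ε < yo n) ∧
    (∀ n, ∃ η : ℝ → ℝ, η 0 = yo n ∧ η 1 = yo (n + 1) ∧
      ∀ u, HasDerivAt η (psi (η u)) u) ∧ psi 0 = 0 := by
  have hLp : 0 < LL := Z08_LLpos
  have hL : LL ≠ 0 := Z08_LLpos.ne'
  have hpi : Real.pi ≠ 0 := Real.pi_ne_zero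
  have hpip : 0 < Real.pi := Real.pi_pos
  have hLpi : 0 < LL / Real.pi := by positivity
  have hhalf : LL / Real.pi * (Real.pi / 2) = LL / 2 := by field_simp
  refine ⟨?_, ?_, ?_, ?_, ?_, ?_⟩
  · unfold yo; simp
  · intro n
    unfold yo
    have h1 := mul_lt_mul_of_pos_left (Real.arctan_lt_pi_div_two (Real.pi * n / LL)) hLpi
    have h2 := mul_lt_mul_of_pos_left (Real.neg_pi_div_two_lt_arctan (Real.pi * n / LL)) hLpi
    have h3 : LL / Real.pi * (-(Real.pi / 2)) = -(LL / 2) := by rw [mul_neg, hhalf]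
    constructor
    · linarith
    · linarith
  · intro n hn
    unfold yo
    rw [add_sub_cancel_left, abs_mul, abs_of_pos hLpi]
    have hx : 0 < Real.pi / LL := by positivity
    have hx1 : Real.pi / LL ≤ 1 := by
      rw [div_le_one hLp]
      have := Real.pi_lt_four
      unfold LL
      norm_num
      linarith
    have h1 : Real.pi / LL / 4 ≤ Real.arctan (Real.pi / LL) := by
      obtain ⟨x, hxx⟩ : ∃ x, x = Real.pi / LL := ⟨_, rfl⟩
      rw [← hxx] at hx hx1 ⊢
      have h2 : Real.arctan (Real.tan (x / 4)) = x / 4 :=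
        Real.arctan_tan (by linarith) (by linarith [Real.pi_gt_three])
      rw [← h2]
      apply Real.arctan_mono
      rw [Real.tan_eq_sin_div_cos]
      have h3 : Real.sin (x / 4) ≤ x / 4 := Real.sin_le (by linarith)
      have h4 : 1 - (x / 4) ^ 2 / 2 ≤ Real.cos (x / 4) := Real.one_sub_sq_div_two_le_cos
      have h5 : 1 / 2 ≤ Real.cos (x / 4) := by nlinarith
      rw [div_le_iff₀ (by linarith)]
      nlinarith
    have h2 : Real.arctan (Real.pi / LL) ≤ |Real.arctan (Real.pi * n / LL)| := by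
      rcases lt_or_gt_of_ne hn with h3 | h3
      · have h4 : (n:ℝ) ≤ -1 := by
          have : n ≤ -1 := by omega
          exact_mod_cast this
        have h5 : Real.arctan (Real.pi / LL) ≤ Real.arctan (-(Real.pi * n / LL)) := by
          apply Real.arctan_mono
          rw [← neg_div]
          apply div_le_div_of_nonneg_right _ hLp.le
          nlinarith
        rw [Real.arctan_neg] at h5
        exact h5.trans (neg_le_abs _)
      · have h4 : (1:ℝ) ≤ n := by
          have : 1 ≤ n := by omega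
          exact_mod_cast this
        have h5 : Real.arctan (Real.pi / LL) ≤ Real.arctan (Real.pi * n / LL) := by
          apply Real.arctan_mono
          apply div_le_div_of_nonneg_right _ hLp.le
          nlinarith
        exact h5.trans (le_abs_self _)
    calc (1:ℝ) / 4 = LL / Real.pi * (Real.pi / LL / 4) := by field_simp
      _ ≤ LL / Real.pi * |Real.arctan (Real.pi * n / LL)| :=
          mul_le_mul_of_nonneg_left (h1.trans h2) hLpi.le
  · intro ε hε
    have h1 : Tendsto (fun n : ℕ => Real.arctan (Real.pi * n / LL)) atTop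
        (𝓝 (Real.pi / 2)) := by
      have h2 : Tendsto (fun n : ℕ => Real.pi * (n:ℝ) / LL) atTop atTop := by
        have h3 : (fun n : ℕ => Real.pi * (n:ℝ) / LL) = fun n : ℕ => Real.pi / LL * (n:ℝ) := by
          funext n; ring
        rw [h3]
        exact tendsto_natCast_atTop_atTop.const_mul_atTop (by positivity)
      exact (tendsto_nhds_of_tendsto_nhdsWithin Real.tendsto_arctan_atTop).comp h2
    have h2 : Tendsto (fun n : ℕ => LL / Real.pi * Real.arctan (Real.pi * n / LL)) atTop
        (𝓝 (LL / 2)) := by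
      have := h1.const_mul (LL / Real.pi)
      rwa [hhalf] at this
    have h3 : ∀ᶠ n : ℕ in atTop, LL / 2 - ε < LL / Real.pi * Real.arctan (Real.pi * n / LL) :=
      h2.eventually (lt_mem_nhds (by linarith))
    obtain ⟨n0, hn0⟩ := eventually_atTop.mp h3
    refine ⟨n0, fun n hn => ?_⟩
    have h4 := hn0 n hn
    constructor
    · unfold yo
      push_cast
      have h5 : Real.pi * -(n:ℝ) / LL = -(Real.pi * n / LL) := by ring
      rw [h5, Real.arctan_neg]
      linarith
    · unfold yo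
      push_cast
      linarith
  · intro n
    refine ⟨fun u : ℝ => (0:ℤ) * LL + LL / 2 + LL / Real.pi *
      Real.arctan (Real.pi * n / LL + Real.pi * u / LL), ?_, ?_, fun u => Z08_deriv 0 _ u⟩
    · unfold yo; simp
    · unfold yo
      have h1 : Real.pi * (n:ℝ) / LL + Real.pi * 1 / LL = Real.pi * ((n + 1 : ℤ) : ℝ) / LL := by
        push_cast; ring
      simp only [h1]
      simp
  · unfold psi; simp

end Pool.Agent.Aub
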