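import Mathlib
import Pool.Agent.Helper961.Aub.Base
import Pool.Agent.Helper961.Aub.Mach
import Pool.Agent.Helper961.Aub.Sym
import Pool.Agent.Helper961.Aub.Torus
import Pool.Agent.Helper961.Aub.Phys
import Pool.Agent.Helper961.Aub.ZRun
import Pool.Agent.Helper961.Aub.XRaising
import Pool.Agent.Helper961.Aub.XClose
import Pool.Agent.Helper961.Aub.XRefill
import Pool.Agent.Helper961.Aub.XBase

set_option autoImplicit false

open Set Filter Topology MeasureTheory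

namespace Pool.Agent.Aub

theorem Z17_norm (N : ℕ) (l : List Cell) (hD : Dle l) (hb : base (6 * N) l) (R : Fin 12 → ℝ) :
    ‖pt l R 0 - pt (refill (6 * N) l) R 0‖ ≤ 4 * ((mm + 1) / lam ^ N) := by
  have hcl := rl_close N l hD hb
  set b : ℝ := (mm + 1) / lam ^ N with hbdef
  have hb0 : 0 ≤ b := by
    have : (0 : ℝ) < lam ^ N := by unfold lam; positivity
    positivity
  have h1 : ∀ q : Fin 3 × Fin 5, (pt l R 0 - pt (refill (6 * N) l) R 0) (Sum.inl (Sum.inl q)) =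
      rl Ty.E 1 0 l q.1 q.2 - rl Ty.E 1 0 (refill (6 * N) l) q.1 q.2 := by
    intro q; rfl
  have h2 : ∀ k : Fin 12, (pt l R 0 - pt (refill (6 * N) l) R 0) (Sum.inl (Sum.inr k)) = 0 := by
    intro k
    show R k - R k = 0
    exact sub_self _
  have h3 : ∀ k : Fin 2, (pt l R 0 - pt (refill (6 * N) l) R 0) (Sum.inr k) = 0 := by
    intro k
    show (![0, 0] : Fin 2 → ℝ) k - (![0, 0] : Fin 2 → ℝ) k = 0
    exact sub_self _
  have hsq : ‖pt l R 0 - pt (refill (6 * N) l) R 0‖ ^ 2 ≤ 15 * b ^ 2 := by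
    rw [EuclideanSpace.norm_sq_eq, Fintype.sum_sum_type, Fintype.sum_sum_type]
    simp only [h1, h2, h3, norm_zero]
    have h4 : ∑ q : Fin 3 × Fin 5, ‖rl Ty.E 1 0 l q.1 q.2 - rl Ty.E 1 0 (refill (6 * N) l) q.1 q.2‖ ^ 2 ≤
        ∑ _q : Fin 3 × Fin 5, b ^ 2 := by
      apply Finset.sum_le_sum
      intro q _
      rw [Real.norm_eq_abs]
      exact pow_le_pow_left₀ (abs_nonneg _) (hcl q.1 q.2) 2
    have h5 : ∑ _q : Fin 3 × Fin 5, b ^ 2 = 15 * b ^ 2 := by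
      simp
    rw [h5] at h4
    simpa using h4
  apply le_of_sq_le_sq _ (by positivity)
  nlinarith [sq_nonneg b]

/-- TARGET -/
theorem claimA (cc : Clamp (5/4)) (cx : Clamp (mm + 1/2)) (rh : Rho) {F : EE → EE}
    {φ : ℝ → EE → EE} (h : Realz 97 (YY cc cx rh) LL F φ) (ε T : ℝ) (hε : 0 < ε)
    (N : ℕ) (hN : (mm + 1) * 4 / lam ^ N < ε) (hN1 : 1 ≤ N) (l : List Cell)
    (hD : Dle l) (hv : Val Ty.E l) (hb : base (6 * N) l) (R : Fin 12 → ℝ)
    (hR : ∀ k, |R k| ≤ 1/32) :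
    ∃ (l' : List Cell) (R' : Fin 12 → ℝ), Dle l' ∧ Val Ty.E l' ∧ base (6 * N) l' ∧
      (∀ k, |R' k| ≤ 1/32) ∧ (∀ k, (hd l').D k = mm) ∧
      Relation.ReflTransGen (chstep LL φ ε T) (pt l R 0) (pt l' R' 0) := by
  obtain ⟨k', hk'⟩ := exists_nat_ge T
  have hLL : (1 : ℝ) ≤ LL := by unfold LL; norm_num
  have hm'T : T ≤ ((2 ^ (6 * N + 1) * (k' + 1) : ℕ) : ℝ) * LL := by
    have h1 : (k' : ℝ) ≤ ((2 ^ (6 * N + 1) * (k' + 1) : ℕ) : ℝ) := by
      have : k' ≤ 2 ^ (6 * N + 1) * (k' + 1) := by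
        have h2 : 1 ≤ 2 ^ (6 * N + 1) := Nat.one_le_two_pow
        nlinarith
      exact_mod_cast this
    have h3 : (0 : ℝ) ≤ ((2 ^ (6 * N + 1) * (k' + 1) : ℕ) : ℝ) := Nat.cast_nonneg _
    nlinarith
  obtain ⟨l', hD', hv', hb', ⟨R', hR', hchain⟩, hsat⟩ := raising (6 * N) (by omega)
    (6 * (2 ^ (6 * N + 1) * (k' + 1))) ⟨6 * (k' + 1), by ring⟩ (by positivity)
    (fun l' => ∃ R' : Fin 12 → ℝ, (∀ k, |R' k| ≤ 1/32) ∧
      Relation.ReflTransGen (chstep LL φ ε T) (pt l R 0) (pt l' R' 0))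
    (by
      rintro l1 hD1 hv1 hb1 ⟨R1, hR1, hch⟩
      obtain ⟨R2, m, hR2, heq, hD2, hv2⟩ := run_zero cc cx rh h (2 ^ (6 * N + 1) * (k' + 1)) l1 hD1 hv1
        R1 hR1
      have hb2 : base (6 * N) (run (6 * (2 ^ (6 * N + 1) * (k' + 1))) (fun _ => false) Ty.E l1) := by
        have h4 := run_base (6 * N) (fun _ => false) Ty.E l1 (6 * (k' + 1)) hb1
        have h5 : 2 ^ (6 * N + 1) * (6 * (k' + 1)) = 6 * (2 ^ (6 * N + 1) * (k' + 1)) := by ring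
        rwa [h5] at h4
      refine ⟨R2, hR2, hch.tail ?_⟩
      refine ⟨((2 ^ (6 * N + 1) * (k' + 1) : ℕ) : ℝ) * LL, hm'T, m, ?_⟩
      rw [heq]
      have h6 : ∀ a b c : EE, a + c - b - c = a - b := fun a b c => by abel
      rw [h6]
      refine lt_of_le_of_lt (Z17_norm N _ hD2 hb2 R2) ?_
      calc (4 : ℝ) * ((mm + 1) / lam ^ N) = (mm + 1) * 4 / lam ^ N := by ring
        _ < ε := hN)
    l hD hv hb ⟨R, hR, Relation.ReflTransGen.refl⟩
  exact ⟨l', R', hD', hv', hb', hR', hsat, hchain⟩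

end Pool.Agent.Aub
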