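import Mathlib
import Pool.Agent.Helper961.Aub.Base
import Pool.Agent.Helper961.Aub.Mach
import Pool.Agent.Helper961.Aub.Sym
import Pool.Agent.Helper961.Aub.Torus
import Pool.Agent.Helper961.Aub.Phys
import Pool.Agent.Helper961.Aub.ZRun
import Pool.Agent.Helper961.Aub.ZY
import Pool.Agent.Helper961.Aub.XBase
import Pool.Agent.Helper961.Aub.XHead
import Pool.Agent.Helper961.Aub.XRange

set_option autoImplicit false

open Set Filter Topology MeasureTheory

namespace Pool.Agent.Aub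

theorem Z18_ne {l : List Cell} (hs : ∀ k, (hd l).D k = mm) : l ≠ [] := by
  rintro rfl
  have h := hs 0
  have : (hd []).D 0 = 0 := rfl
  rw [this] at h
  exact absurd h (by unfold mm; norm_num)

theorem Z18_sat : ∀ (n : ℕ) (ty : Ty) (l : List Cell), (∀ k, (hd l).D k = mm) →
    ∀ k, (hd (run n (fun _ => false) ty l)).D k = mm
  | 0, _, _, hs => hs
  | n + 1, ty, l, hs => Z18_sat n ty.other (st ty false l) (head_sat ty l hs (Z18_ne hs))

theorem Z18_norm (l : List Cell) (R : Fin 12 → ℝ) (y y' : ℝ) :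
    ‖pt l R y - pt l R y'‖ = |y - y'| := by
  rw [EuclideanSpace.norm_eq, Fintype.sum_sum_type]
  simp only [pt, mkp, Fin.sum_univ_two, PiLp.sub_apply, Sum.elim_inl, Sum.elim_inr,
    Matrix.cons_val_zero, Matrix.cons_val_one, sub_self, norm_zero, Finset.sum_const_zero,
    zero_add, add_zero, ne_eq, OfNat.ofNat_ne_zero, not_false_eq_true, zero_pow]
  rw [Real.sqrt_sq (norm_nonneg _), Real.norm_eq_abs]

theorem Z18_lat_add (m m' : Jx → ℤ) : (lat LL (m + m') : EE) = lat LL m + lat LL m' := by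
  ext i
  simp [lat, mul_add]

theorem Z18_shift (l : List Cell) (R : Fin 12 → ℝ) (y : ℝ) :
    pt l R y - lat LL (Pi.single (Sum.inr 0) 1 : Jx → ℤ) = pt l R (y - LL) := by
  ext i
  rcases i with i | i
  · simp [pt, mkp, lat]
  · fin_cases i
    · simp [pt, mkp, lat]
    · simp [pt, mkp, lat]

theorem Z18_KK (l : List Cell) (R : Fin 12 → ℝ) (hD : Dle l) (hR : ∀ k, |R k| ≤ 1/32)
    (hs : ∀ k, (hd l).D k = mm) (hb : (hd l).b = false) : pt l R (LL / 2) ∈ KK := by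
  refine ⟨mkz (rl Ty.E 1 0 l) R, rfl, ?_, ?_, ?_⟩
  · intro i tr
    have h := rl_range l hD Ty.E 1 0 i tr
    have h1 : stk (mkz (rl Ty.E 1 0 l) R) i tr = rl Ty.E 1 0 l i tr := rfl
    have h2 : (mm : ℝ) = 4096 := by unfold mm; norm_num
    rw [h1, abs_of_nonneg h.1]
    refine h.2.1.trans ?_
    rw [h2]; norm_num
  · intro k
    exact hR k
  · obtain ⟨a, tl, rfl⟩ : ∃ a tl, l = a :: tl := by
      cases l with
      | nil => exact absurd rfl (Z18_ne hs)
      | cons a tl => exact ⟨a, tl, rfl⟩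
    have hb' : a.b = false := hb
    have hs' : ∀ k, a.D k = mm := hs
    have hDt : Dle tl := fun c hc => hD c (List.mem_cons_of_mem _ hc)
    have h2 : (mm : ℝ) = 4096 := by unfold mm; norm_num
    have hval : ∀ tr, stk (mkz (rl Ty.E 1 0 (a :: tl)) R) 2 tr =
        a.val tr + rl (sT Ty.E a.b) (-1) (subP 1 Ty.E 0) tl 2 tr / lam := by
      intro tr
      show rl Ty.E 1 0 (a :: tl) 2 tr = _
      have hp : (2 : Fin 3) = posn 1 Ty.E 0 := by
        unfold posn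
        simp
        rfl
      simp only [rl]
      rw [if_pos hp]
    have hr : ∀ tr, 0 ≤ rl (sT Ty.E a.b) (-1) (subP 1 Ty.E 0) tl 2 tr / lam ∧
        rl (sT Ty.E a.b) (-1) (subP 1 Ty.E 0) tl 2 tr / lam ≤ 1 / 16 := by
      intro tr
      have h := rl_range tl hDt (sT Ty.E a.b) (-1) (subP 1 Ty.E 0) 2 tr
      have hl : (0 : ℝ) < lam := by unfold lam; norm_num
      refine ⟨div_nonneg h.1 hl.le, ?_⟩
      rw [div_le_iff₀ hl]
      refine h.2.1.trans ?_
      rw [h2]; unfold lam; norm_num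
    refine ⟨?_, ?_, ?_⟩
    · rw [hval 0]
      have : a.val 0 = 0 := by simp [Cell.val, hb', vb]
      rw [this, zero_add]
      exact (hr 0).1
    · rw [hval 0]
      have : a.val 0 = 0 := by simp [Cell.val, hb', vb]
      rw [this, zero_add]
      exact (hr 0).2
    · intro k
      rw [hval (dt k)]
      have : a.val (dt k) = mm := by
        have h3 := hs' k
        fin_cases k <;> simpa [Cell.val, dt] using h3
      rw [this]
      have h4 := hr (dt k)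
      constructor <;> linarith [h4.1, h4.2]

/-- TARGET -/
theorem claimB (cc : Clamp (5/4)) (cx : Clamp (mm + 1/2)) (rh : Rho) {F : EE → EE}
    {φ : ℝ → EE → EE} (h : Realz 97 (YY cc cx rh) LL F φ) (ε T : ℝ) (hε : 0 < ε)
    (N : ℕ) (l : List Cell)
    (hD : Dle l) (hv : Val Ty.E l) (hb : base (N + 1) l) (R : Fin 12 → ℝ)
    (hR : ∀ k, |R k| ≤ 1/32) (hs : ∀ k, (hd l).D k = mm) :
    ∃ (w : EE) (l' : List Cell) (R' : Fin 12 → ℝ), w ∈ KK ∧ Dle l' ∧ Val Ty.E l' ∧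
      base (N + 1) l' ∧ (∀ k, |R' k| ≤ 1/32) ∧
      Relation.TransGen (chstep LL φ ε T) (pt l R 0) w ∧
      Relation.TransGen (chstep LL φ ε T) w (pt l' R' 0) := by
  set q : ℕ := 2 ^ (N + 1 + 1) with hq
  have hq1 : 1 ≤ q := Nat.one_le_two_pow
  have hLL : (1 : ℝ) ≤ LL := by unfold LL; norm_num
  have hLL0 : (0 : ℝ) < LL := by linarith
  obtain ⟨hy0, hyr, _, hye, _, _⟩ := yo_facts
  obtain ⟨n0, hn0⟩ := hye ε hε
  -- a common multiple
  obtain ⟨j, hj⟩ := exists_nat_ge T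
  set n1 : ℕ := q * (j + n0) with hn1
  have hn1n : n0 ≤ n1 := by
    calc n0 ≤ j + n0 := Nat.le_add_left _ _
      _ ≤ q * (j + n0) := Nat.le_mul_of_pos_left _ hq1
  have hn1j : j ≤ n1 := by
    calc j ≤ j + n0 := Nat.le_add_right _ _
      _ ≤ q * (j + n0) := Nat.le_mul_of_pos_left _ hq1
  have hT : T ≤ n1 * LL := by
    have h1 : (j : ℝ) ≤ n1 := by exact_mod_cast hn1j
    have h0 : (0 : ℝ) ≤ n1 := Nat.cast_nonneg _
    nlinarith
  have hmul : 6 * n1 = q * (6 * (j + n0)) := by rw [hn1]; ring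
  obtain ⟨hyL, hyR⟩ := hn0 n1 hn1n
  -- step (i)
  obtain ⟨R1, m1, hR1, hφ1, hD1, hv1⟩ := run_zero cc cx rh h n1 l hD hv R hR
  set l1 := run (6 * n1) (fun _ => false) Ty.E l with hl1
  have hb1 : base (N + 1) l1 := by
    rw [hl1, hmul]
    exact run_base (N + 1) _ Ty.E l _ hb
  have hs1 : ∀ k, (hd l1).D k = mm := Z18_sat _ Ty.E l hs
  have c1 : chstep LL φ ε T (pt l R 0) (pt l1 R1 (yo (-(n1 : ℤ)))) := by
    refine ⟨n1 * LL, hT, m1, ?_⟩
    rw [hφ1]
    have e1 : pt l1 R1 0 + lat LL m1 - pt l1 R1 (yo (-(n1 : ℤ))) - lat LL m1 =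
        pt l1 R1 0 - pt l1 R1 (yo (-(n1 : ℤ))) := by abel
    rw [e1, Z18_norm, zero_sub, abs_neg, abs_of_pos (hyr _).1]
    exact hyL
  -- step (ii)
  obtain ⟨l2, R2, m2, hR2, hφ2, hD2, hv2, _, hr2⟩ :=
    run_yo cc cx rh h n1 (-(n1 : ℤ)) l1 hD1 hv1 R1 hR1
  have hl2 := hr2 (by simp)
  rw [neg_add_cancel] at hφ2
  have hb2 : base (N + 1) l2 := by
    rw [hl2, hmul]
    exact run_base (N + 1) _ Ty.E l1 _ hb1
  have hs2 : ∀ k, (hd l2).D k = mm := by
    rw [hl2]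
    exact Z18_sat _ Ty.E l1 hs1
  have c2 : chstep LL φ ε T (pt l1 R1 (yo (-(n1 : ℤ)))) (pt l2 R2 (yo 0)) := by
    refine ⟨n1 * LL, hT, m2, ?_⟩
    rw [hφ2]
    have e1 : pt l2 R2 (yo 0) + lat LL m2 - pt l2 R2 (yo 0) - lat LL m2 = 0 := by abel
    rw [e1, norm_zero]
    exact hε
  -- step (iii)
  obtain ⟨l3, R3, m3, hR3, hφ3, hD3, hv3, ⟨r, hr3⟩, _⟩ :=
    run_yo cc cx rh h n1 0 l2 hD2 hv2 R2 hR2
  rw [zero_add] at hφ3
  have hb3 : base (N + 1) l3 := by
    rw [hr3, hmul]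
    exact run_base (N + 1) _ Ty.E l2 _ hb2
  have c3 : chstep LL φ ε T (pt l2 R2 (yo 0)) (pt l3 R3 0) := by
    refine ⟨n1 * LL, hT, m3 + Pi.single (Sum.inr 0) 1, ?_⟩
    rw [hφ3, Z18_lat_add]
    have e1 : pt l3 R3 (yo n1) + lat LL m3 - pt l3 R3 0 -
        (lat LL m3 + lat LL (Pi.single (Sum.inr 0) 1 : Jx → ℤ)) =
        (pt l3 R3 (yo n1) - lat LL (Pi.single (Sum.inr 0) 1 : Jx → ℤ)) - pt l3 R3 0 := by abel
    rw [e1, Z18_shift, Z18_norm, sub_zero]
    have h3 := (hyr n1).2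
    rw [abs_of_neg (by linarith)]
    linarith
  refine ⟨pt l2 R2 (yo 0), l3, R3, ?_, hD3, hv3, hb3, hR3, ?_, ?_⟩
  · rw [hy0]
    exact Z18_KK l2 R2 hD2 hR2 hs2 hb2.1
  · exact Relation.TransGen.tail (Relation.TransGen.single c1) c2
  · exact Relation.TransGen.single c3

end Pool.Agent.Aub
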