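import Mathlib
import Pool.Agent.Helper961.Aub.Base
import Pool.Agent.Helper961.Aub.Mach
import Pool.Agent.Helper961.Aub.Sym
import Pool.Agent.Helper961.Aub.Torus
import Pool.Agent.Helper961.Aub.Phys

set_option autoImplicit false

open Set Filter Topology MeasureTheory

namespace Pool.Agent.Aub

theorem Z14_mono {L : ℝ} {φ : ℝ → EE → EE} {ε ε' T T' : ℝ} (hε : ε ≤ ε') (hT : T' ≤ T) (a b : EE)
    (h : chstep L φ ε T a b) : chstep L φ ε' T' a b := by
  obtain ⟨t, ht, k, hk⟩ := h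
  exact ⟨t, hT.trans ht, k, lt_of_lt_of_le hk hε⟩

theorem Z14_monoT {L : ℝ} {φ : ℝ → EE → EE} {ε ε' T T' : ℝ} (hε : ε ≤ ε') (hT : T' ≤ T) {a b : EE}
    (h : Relation.TransGen (chstep L φ ε T) a b) : Relation.TransGen (chstep L φ ε' T') a b :=
  Relation.TransGen.mono (Z14_mono hε hT) _ _ h

theorem Z14_end {L : ℝ} {φ : ℝ → EE → EE} {ε δ T : ℝ} {a b b' : EE} (hb : ‖b - b'‖ < δ)
    (h : Relation.TransGen (chstep L φ ε T) a b) :
    Relation.TransGen (chstep L φ (ε + δ) T) a b' := by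
  have hδ : 0 ≤ δ := (norm_nonneg _).trans hb.le
  have step : ∀ c, chstep L φ ε T c b → chstep L φ (ε + δ) T c b' := by
    rintro c ⟨t, ht, k, hk⟩
    refine ⟨t, ht, k, ?_⟩
    have e : φ t c - b' - lat L k = (φ t c - b - lat L k) + (b - b') := by abel
    rw [e]
    exact lt_of_le_of_lt (norm_add_le _ _) (add_lt_add hk hb)
  cases h with
  | single h => exact Relation.TransGen.single (step _ h)
  | tail h1 h2 => exact Relation.TransGen.tail (Z14_monoT (by linarith) le_rfl h1) (step _ h2)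

theorem Z14_loop (L : ℝ) (φ : ℝ → EE → EE) (S : Set EE) (hS : IsCompact S)
    (h : ∀ ε > 0, ∀ T > 0, ∃ w : ℕ → EE, (∀ n, w n ∈ S) ∧
      ∀ n, Relation.TransGen (chstep L φ ε T) (w n) (w (n + 1))) (ε T : ℝ) (hε : 0 < ε) (hT : 0 < T) :
    ∃ x ∈ S, Relation.TransGen (chstep L φ ε T) x x := by
  obtain ⟨w, hw, hs⟩ := h (ε / 2) (by positivity) T hT
  obtain ⟨a, _, σ, hσ, hlim⟩ := hS.tendsto_subseq hw
  rw [Metric.tendsto_atTop] at hlim
  obtain ⟨N, hN⟩ := hlim (ε / 4) (by positivity)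
  have h1 := hN N le_rfl
  have h2 := hN (N + 1) (by omega)
  have hlt : σ N < σ (N + 1) := hσ (by omega)
  have htr : ∀ i j, i < j → Relation.TransGen (chstep L φ (ε / 2) T) (w i) (w j) := by
    intro i j hij
    induction j with
    | zero => omega
    | succ j ih =>
      rcases Nat.lt_succ_iff_lt_or_eq.1 hij with h | h
      · exact (ih h).trans (hs j)
      · rw [h]; exact hs j
  have hd : ‖w (σ (N + 1)) - w (σ N)‖ < ε / 2 := by
    rw [← dist_eq_norm]
    have := dist_triangle_right (w (σ (N + 1))) (w (σ N)) a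
    simp only [Function.comp] at h1 h2
    linarith
  refine ⟨w (σ N), hw _, ?_⟩
  have := Z14_end hd (htr _ _ hlt)
  rwa [add_halves] at this

/-- TARGET -/
theorem cr_compact (L : ℝ) (φ : ℝ → EE → EE)
    (hg : ∀ s t x, φ (s + t) x = φ s (φ t x))
    (hl : ∀ t x k, φ t (x + lat L k) = φ t x + lat L k)
    (hc : ∀ t, Continuous (φ t)) (S : Set EE) (hS : IsCompact S)
    (h : ∀ ε > 0, ∀ T > 0, ∃ w : ℕ → EE, (∀ n, w n ∈ S) ∧
      ∀ n, Relation.TransGen (chstep L φ ε T) (w n) (w (n + 1))) :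
    ∃ x ∈ S, ChainRec L φ x := by
  have h1 : ∀ n : ℕ, ∃ x ∈ S, Relation.TransGen (chstep L φ (1 / ((n : ℝ) + 1)) ((n : ℝ) + 1)) x x :=
    fun n => Z14_loop L φ S hS h _ _ (by positivity) (by positivity)
  choose w hw hloop using h1
  obtain ⟨x, hx, σ, hσ, hlim⟩ := hS.tendsto_subseq hw
  refine ⟨x, hx, ?_⟩
  intro ε hε T hT
  have hcT := Metric.continuous_iff.1 (hc T) x ε hε
  obtain ⟨δ, hδ, hδ'⟩ := hcT
  rw [Metric.tendsto_atTop] at hlim
  obtain ⟨N, hN⟩ := hlim (min δ (ε / 2)) (lt_min hδ (by positivity))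
  obtain ⟨N1, hN1⟩ := exists_nat_ge (2 * T)
  obtain ⟨N2, hN2⟩ := exists_nat_ge (2 / ε)
  obtain ⟨n, hn⟩ : ∃ n, n = N + N1 + N2 := ⟨_, rfl⟩
  have hn1 := hN n (by omega)
  have hσn : n ≤ σ n := hσ.id_le n
  obtain ⟨m, hm⟩ : ∃ m, m = σ n := ⟨_, rfl⟩
  simp only [Function.comp] at hn1
  rw [← hm] at hn1 hσn
  have hd1 : dist (w m) x < δ := lt_of_lt_of_le hn1 (min_le_left _ _)
  have hd2 : dist (w m) x < ε / 2 := lt_of_lt_of_le hn1 (min_le_right _ _)
  have hm1 : 2 * T ≤ (m : ℝ) + 1 := by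
    have : (N1 : ℝ) ≤ m := by exact_mod_cast (by omega : N1 ≤ m)
    linarith
  have hm2 : 1 / ((m : ℝ) + 1) ≤ ε / 2 := by
    have h3 : (N2 : ℝ) ≤ m := by exact_mod_cast (by omega : N2 ≤ m)
    have h4 : 2 / ε ≤ (m : ℝ) + 1 := by linarith
    rw [div_le_iff₀ hε] at h4
    rw [div_le_iff₀ (by positivity)]
    nlinarith
  have hl1 := Z14_monoT hm2 hm1 (hloop m)
  rw [dist_eq_norm] at hd2
  have hl2 := Z14_end hd2 hl1
  rw [add_halves] at hl2
  rw [Relation.TransGen.head'_iff] at hl2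
  obtain ⟨c, ⟨t, ht, k, hk⟩, hrest⟩ := hl2
  have s1 : chstep L φ ε T x (φ T (w m)) := by
    refine ⟨T, le_rfl, 0, ?_⟩
    have hz : lat L (0 : Jx → ℤ) = 0 := by
      unfold lat
      ext i
      simp
    rw [hz, sub_zero, ← dist_eq_norm, dist_comm]
    exact hδ' _ hd1
  have s2 : chstep L φ ε T (φ T (w m)) c := by
    refine ⟨t - T, by linarith, k, ?_⟩
    rw [← hg, sub_add_cancel]
    exact hk
  have s3 : Relation.ReflTransGen (chstep L φ ε T) c x :=
    Relation.ReflTransGen.mono (Z14_mono le_rfl (by linarith)) _ _ hrest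
  exact Relation.TransGen.head s1 (Relation.TransGen.head' s2 s3)

/-- TARGET -/
theorem KK_compact : IsCompact KK := by
  obtain ⟨Z, hZ⟩ : ∃ Z : Set Zs, Z = {z | (∀ i tr, |stk z i tr| ≤ 2 ^ 13) ∧
    (∀ k, |reg z k| ≤ 1/32) ∧ 0 ≤ stk z 2 0 ∧ stk z 2 0 ≤ 1/16 ∧
    ∀ k : Fin 3, (mm : ℝ) - 1/16 ≤ stk z 2 (dt k) ∧ stk z 2 (dt k) ≤ mm + 1/16} := ⟨_, rfl⟩
  have hst : ∀ i tr, Continuous (fun z : Zs => stk z i tr) := fun i tr => continuous_apply _
  have hrg : ∀ k, Continuous (fun z : Zs => reg z k) := fun k => continuous_apply _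
  have hcl : IsClosed Z := by
    rw [hZ]
    have e : {z : Zs | (∀ i tr, |stk z i tr| ≤ 2 ^ 13) ∧
      (∀ k, |reg z k| ≤ 1/32) ∧ 0 ≤ stk z 2 0 ∧ stk z 2 0 ≤ 1/16 ∧
      ∀ k : Fin 3, (mm : ℝ) - 1/16 ≤ stk z 2 (dt k) ∧ stk z 2 (dt k) ≤ mm + 1/16} =
      (⋂ i, ⋂ tr, {z : Zs | |stk z i tr| ≤ 2 ^ 13}) ∩ ((⋂ k, {z : Zs | |reg z k| ≤ 1/32}) ∩
        ({z : Zs | 0 ≤ stk z 2 0} ∩ ({z : Zs | stk z 2 0 ≤ 1/16} ∩
        (⋂ k : Fin 3, ({z : Zs | (mm : ℝ) - 1/16 ≤ stk z 2 (dt k)} ∩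
          {z : Zs | stk z 2 (dt k) ≤ mm + 1/16}))))) := by
      ext z
      simp only [Set.mem_ofPred_eq, Set.mem_inter_iff, Set.mem_iInter]
    rw [e]
    refine IsClosed.inter (isClosed_iInter fun i => isClosed_iInter fun tr =>
      isClosed_le (hst i tr).abs continuous_const) (IsClosed.inter (isClosed_iInter fun k =>
      isClosed_le (hrg k).abs continuous_const) (IsClosed.inter (isClosed_le continuous_const (hst 2 0))
      (IsClosed.inter (isClosed_le (hst 2 0) continuous_const) (isClosed_iInter fun k =>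
      IsClosed.inter (isClosed_le continuous_const (hst 2 _)) (isClosed_le (hst 2 _) continuous_const)))))
  have hbd : Bornology.IsBounded Z := by
    apply (Metric.isBounded_closedBall (x := (0 : Zs)) (r := 2 ^ 13)).subset
    intro z hz
    rw [hZ] at hz
    rw [mem_closedBall_zero_iff, pi_norm_le_iff_of_nonneg (by norm_num)]
    intro i
    rw [Real.norm_eq_abs]
    rcases i with ⟨i, tr⟩ | k
    · exact hz.1 i tr
    · exact (hz.2.1 k).trans (by norm_num)
  have hcomp : IsCompact Z := Metric.isCompact_of_isClosed_isBounded hcl hbd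
  have hcont : Continuous (fun z : Zs => mkp z (LL / 2) 0) := by
    unfold mkp
    apply (PiLp.continuous_toLp 2 (fun _ : Jx => ℝ)).comp
    apply continuous_pi
    intro i
    rcases i with i | i
    · exact continuous_apply i
    · exact continuous_const
  have him := hcomp.image hcont
  have e : KK = (fun z : Zs => mkp z (LL / 2) 0) '' Z := by
    ext x
    unfold KK
    rw [hZ]
    constructor
    · rintro ⟨z, hx, h⟩
      exact ⟨z, h, hx.symm⟩
    · rintro ⟨z, h, hx⟩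
      exact ⟨z, hx.symm, h⟩
  rw [e]
  exact him

end Pool.Agent.Aub
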