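import Mathlib
import Pool.Agent.Helper961.Aub.Base
import Pool.Agent.Helper961.Aub.Mach
import Pool.Agent.Helper961.Aub.Sym
import Pool.Agent.Helper961.Aub.Torus
import Pool.Agent.Helper961.Aub.Phys
import Pool.Agent.Helper961.Aub.ZSec
import Pool.Agent.Helper961.Aub.XTick
import Pool.Agent.Helper961.Aub.XReset
import Pool.Agent.Helper961.Aub.RMain

set_option autoImplicit false

open Set Filter Topology MeasureTheory

namespace Pool.Agent.Aub

theorem Z15_repr (x : EE) : x = mkp (pz x) (py x) (pth x) := by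
  ext i
  rcases i with i | i
  · simp [mkp, pz]
  · fin_cases i <;> simp [mkp, py, pth]

theorem Z15_pz (z : Zs) (y θ : ℝ) : pz (mkp z y θ) = z := by
  ext i; simp [mkp, pz]

theorem Z15_py (z : Zs) (y θ : ℝ) : py (mkp z y θ) = y := by
  simp [mkp, py]

theorem Z15_pth (z : Zs) (y θ : ℝ) : pth (mkp z y θ) = θ := by
  simp [mkp, pth]

theorem Z15_coord (x : EE) (i : Jx) : |x i| ≤ ‖x‖ := by
  have := PiLp.norm_apply_le x i
  simpa [Real.norm_eq_abs] using this

theorem Z15_Dg_nonneg (μ t : ℝ) : 0 ≤ Dg μ t := by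
  unfold Dg; exact le_max_left _ _

theorem Z15_Vz_nonneg (g : Fin 3 → ℤ) (h : ∀ k, 0 ≤ g k) : 0 ≤ Vz g := by
  unfold Vz
  have h0 : (0:ℝ) ≤ g 0 := by exact_mod_cast h 0
  have h1 : (0:ℝ) ≤ g 1 := by exact_mod_cast h 1
  have h2 : (0:ℝ) ≤ g 2 := by exact_mod_cast h 2
  positivity

theorem Z15_MM_pos : (0:ℝ) < MM := by unfold MM; norm_num

theorem Z15_UU_nonneg : ∀ (N : ℕ) (post : Bool) (δ : Fin 3) (ty : Ty) (p : Fin 3) (z : Stk),
    0 ≤ UU N post δ ty p z := by
  intro N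
  induction N with
  | zero => intro post δ ty p z; simp [UU]
  | succ N ih =>
    intro post δ ty p z
    unfold UU
    cases rb ty post (posn δ ty p) z with
    | none => simp
    | some β =>
      simp only
      have hM := Z15_MM_pos
      apply div_nonneg _ hM.le
      have h1 : 0 ≤ Vz (DD ty post (posn δ ty p) z) :=
        Z15_Vz_nonneg _ (fun k => Z15_Dg_nonneg _ _)
      split_ifs
      · linarith
      · have := ih post (-δ) (subTy ty β) (subP δ ty p) (sub δ ty post p β z)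
        linarith

theorem Z15_Dg_mm (t : ℝ) (h1 : (mm:ℝ) - 1/16 ≤ t) (h2 : t ≤ mm + 1/16) : Dg 0 t = mm := by
  unfold Dg hX
  have hm : (0:ℝ) ≤ (mm:ℝ) := by positivity
  have hmm : (mm:ℝ) = 4096 := by norm_num [mm]
  have e1 : min ((mm:ℝ) + 1/2) t = t := min_eq_right (by linarith)
  have e2 : max (-1/4 : ℝ) t = t := max_eq_right (by linarith)
  rw [e1, e2]
  have h3 : ⌈t - 5/8 + 0⌉ = (mm : ℤ) := by
    rw [Int.ceil_eq_iff]
    constructor
    · push_cast; linarith
    · push_cast; linarith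
  rw [h3]
  simp

theorem Z15_UU_one (N : ℕ) (z : Stk) (h20 : z 2 0 ≤ 1/16)
    (hD : ∀ k : Fin 3, (mm : ℝ) - 1/16 ≤ z 2 (dt k) ∧ z 2 (dt k) ≤ mm + 1/16) :
    1 ≤ UU (N + 1) true 1 Ty.E 0 z := by
  have hp : posn 1 Ty.E 0 = 2 := by unfold posn; simp; rfl
  unfold UU
  rw [hp]
  have hrb : rb Ty.E true 2 z = some 0 := by
    unfold rb
    rw [if_pos]
    unfold rho stg
    norm_num
    linarith
  rw [hrb]
  simp only
  have hmu : mu Ty.E true = 0 := by unfold mu stg; norm_num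
  have hDD : DD Ty.E true 2 z = fun _ => (mm : ℤ) := by
    funext k
    unfold DD
    rw [hmu]
    exact Z15_Dg_mm _ (hD k).1 (hD k).2
  have hV : Vz (DD Ty.E true 2 z) = (4096:ℝ)^3 + 4096^2 + 4096 := by
    rw [hDD]
    unfold Vz
    norm_num [mm]
  have hnb : ¬ broken Ty.E true 2 0 z := by
    unfold broken
    intro h
    exact absurd h.1 (by decide)
  rw [if_neg hnb, hV]
  have h0 := Z15_UU_nonneg N true (-1) (subTy Ty.E 0) (subP 1 Ty.E 0) (sub 1 Ty.E true 0 0 z)
  rw [le_div_iff₀ Z15_MM_pos]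
  have : MM = 4096^3 := by unfold MM; norm_num
  rw [this]
  linarith

theorem Z15_tyj_succ (n : ℕ) : tyj (n + 1) = (tyj n).other := by
  unfold tyj
  rcases Nat.even_or_odd n with h | h
  · have h1 : n % 2 = 0 := Nat.even_iff.mp h
    have h2 : (n + 1) % 2 = 1 := by omega
    simp [h1, h2, Ty.other]
  · have h1 : n % 2 = 1 := Nat.odd_iff.mp h
    have h2 : (n + 1) % 2 = 0 := by omega
    simp [h1, h2, Ty.other]

theorem Z15_pj_succ (n : ℕ) : pj (n + 1) = pj n + 1 := by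
  unfold pj
  apply Fin.ext
  simp [Fin.ofNat, Fin.val_add]

theorem Z15_Md (ty : Ty) (p : Fin 3) (ν : ℝ) (hν : 0 ≤ ν) (z z' : Stk)
    (h : ∀ i tr, |z' i tr - z i tr| ≤ ν) : Md ty p ν 0 false z z' := by
  refine ⟨hν, fun i => h i 0, fun i => Or.inl (h i 1), by simp, fun _ _ => 0, by simp, by simp, ?_⟩
  intro i k
  unfold Cd
  refine ⟨fun _ => Or.inr ?_, fun h' => absurd h'.1 (by decide)⟩
  have := abs_le.mp (h i (dt k))
  have := le_max_left (z i (dt k)) 0
  linarith [this, (abs_le.mp (h i (dt k))).2]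

/-- TARGET -/
theorem lower_disc (cc : Clamp (5/4)) (cx : Clamp (mm + 1/2)) (rh : Rho) {F : EE → EE}
    {φ : ℝ → EE → EE} (h : Realz 97 (YY cc cx rh) LL F φ) (x : EE) (hx : x ∈ KK) (J : ℕ)
    (hJ : 1 ≤ J) (P : ℕ → EE) (ν : ℕ → ℝ) (h0 : P 0 = x)
    (hth : ∀ n ≤ J, pth (P n) = Th n)
    (hν : ∀ n < J, ‖P (n + 1) - φ (Th (n + 1) - Th n) (P n)‖ ≤ ν n ∧ ν n ≤ 1/32)
    (k : Jx → ℤ) (hJ1 : P J = x + lat LL k) :
    (1 : ℝ) - 2 / MM ≤ 3072 * ∑ n ∈ Finset.range J, ν n ^ 2 := by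
  obtain ⟨z, hxz, hst, hrg, hb0, hb1, hdig⟩ := hx
  set Z : ℕ → Zs := fun n => pz (P n) with hZ
  set T : ℕ → Zs := fun n => tick cc cx (tyj n) (pj n) (rh.ρ (py (P n))) (Z n) with hT
  have hZ0 : Z 0 = z := by
    simp only [hZ]; rw [h0, hxz, Z15_pz]
  have hy0 : py (P 0) = LL / 2 := by rw [h0, hxz, Z15_py]
  -- one step
  have hstep : ∀ n < J, (∀ i tr, |stk (Z n) i tr| ≤ 2 ^ 32) → (∀ k, |reg (Z n) k| ≤ 1/16) →
      ∀ i, |Z (n + 1) i - T n i| ≤ ν n := by
    intro n hn hS hR i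
    obtain ⟨y', hy'⟩ := section_flow cc cx rh h n (Z n) (py (P n)) hS hR
    have hP : P n = mkp (Z n) (py (P n)) (Th n) := by
      have := Z15_repr (P n)
      rw [hth n hn.le] at this
      exact this
    have h1 := (hν n hn).1
    rw [← hP] at hy'
    rw [hy'] at h1
    have h2 := Z15_coord (P (n + 1) - mkp (tick cc cx (tyj n) (pj n) (rh.ρ (py (P n))) (Z n)) y'
      (Th (n + 1))) (Sum.inl i)
    have h3 : (P (n + 1) - mkp (tick cc cx (tyj n) (pj n) (rh.ρ (py (P n))) (Z n)) y'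
      (Th (n + 1))) (Sum.inl i) = Z (n + 1) i - T n i := by
      simp [hZ, hT, mkp, pz]
    rw [h3] at h2
    exact h2.trans h1
  have hνpos : ∀ n < J, 0 ≤ ν n := fun n hn => (norm_nonneg _).trans (hν n hn).1
  have hr0 : ∀ n, 0 ≤ rh.ρ (py (P n)) := fun n => rh.nonneg _
  have hr1 : ∀ n, rh.ρ (py (P n)) ≤ 1 := fun n => rh.le_one _
  -- invariants
  have hinv : ∀ n ≤ J, (∀ k, |reg (Z n) k| ≤ 1/16) ∧
      (∀ i tr, i ≠ pj n - 1 → |stk (Z n) i tr| ≤ 2 ^ 31 + 1/32) ∧
      (∀ i tr, |stk (Z n) i tr| ≤ 2 ^ 31 + 2/32) := by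
    intro n
    induction n with
    | zero =>
      intro _
      rw [hZ0]
      refine ⟨fun k => (hrg k).trans (by norm_num), fun i tr _ => (hst i tr).trans (by norm_num),
        fun i tr => (hst i tr).trans (by norm_num)⟩
    | succ n ih =>
      intro hn
      obtain ⟨hR, hS1, hS2⟩ := ih (by omega)
      have hS : ∀ i tr, |stk (Z n) i tr| ≤ 2 ^ 32 := fun i tr => (hS2 i tr).trans (by norm_num)
      have hs := hstep n (by omega) hS hR
      have hnn := (hν n (by omega)).2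
      obtain ⟨htr, hti, htg⟩ := tick_rel cc cx (tyj n) (pj n) (rh.ρ (py (P n))) (hr0 n) (hr1 n)
        (Z n) hS hR
      have hpp : pj (n + 1) - 1 = pj n := by rw [Z15_pj_succ]; simp
      have key : ∀ i tr, i ≠ pj n → |stk (Z (n + 1)) i tr| ≤ 2 ^ 31 + 1/32 := by
        intro i tr hi
        have h1 := hti i tr hi
        have h2 := hs (Sum.inl (i, tr))
        have h3 : |stk (Z (n + 1)) i tr - stk (T n) i tr| ≤ ν n := h2
        have h4 := abs_sub_abs_le_abs_sub (stk (Z (n + 1)) i tr) (stk (T n) i tr)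
        have h5 : |stk (T n) i tr| ≤ 2 ^ 31 := h1
        linarith
      refine ⟨?_, ?_, ?_⟩
      · intro k
        have h1 := htg k
        have h3 : |reg (Z (n + 1)) k - reg (T n) k| ≤ ν n := hs (Sum.inr k)
        have h4 := abs_sub_abs_le_abs_sub (reg (Z (n + 1)) k) (reg (T n) k)
        have h5 : |reg (T n) k| ≤ 1/32 := h1
        linarith
      · intro i tr hi
        rw [hpp] at hi
        exact key i tr hi
      · intro i tr
        by_cases hi : i = pj n
        · have h1 := htr.1 tr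
          have hne : pj n ≠ pj n - 1 := by
            generalize pj n = q
            revert q; decide
          have h2 := hS1 (pj n) tr hne
          have h3 : |stk (Z (n + 1)) (pj n) tr - stk (T n) (pj n) tr| ≤ ν n :=
            hs (Sum.inl (pj n, tr))
          have h4 := abs_sub_abs_le_abs_sub (stk (Z (n + 1)) (pj n) tr) (stk (T n) (pj n) tr)
          have h5 : stk (T n) (pj n) tr = stk (Z n) (pj n) tr := h1
          rw [h5] at h4 h3
          rw [hi]
          linarith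
        · have := key i tr hi
          linarith
  have hS : ∀ n ≤ J, ∀ i tr, |stk (Z n) i tr| ≤ 2 ^ 32 :=
    fun n hn i tr => ((hinv n hn).2.2 i tr).trans (by norm_num)
  have hR : ∀ n ≤ J, ∀ k, |reg (Z n) k| ≤ 1/16 := fun n hn => (hinv n hn).1
  have hnoise : ∀ n < J, ∀ i tr, |stk (Z (n + 1)) i tr - stk (T n) i tr| ≤ ν n :=
    fun n hn i tr => hstep n hn (hS n hn.le) (hR n hn.le) (Sum.inl (i, tr))
  -- the generalised trajectory
  have hTr : ∀ n, n + 1 ≤ J → Tr 1 Ty.F 1 (stk (T 0)) (tyj (n + 1)) (pj (n + 1))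
      (stk (Z (n + 1))) (∑ i ∈ Finset.range n, ν i ^ 2) (ν n) 0 0 n := by
    intro n
    induction n with
    | zero =>
      intro h1
      have hb := Tr.base (δ := 1) (ty0 := Ty.F) (p0 := 1) (z0 := stk (T 0)) (ν 0) 0 false
        (stk (Z 1)) (Z15_Md _ _ _ (hνpos 0 (by omega)) _ _ (hnoise 0 (by omega)))
      have e1 : tyj (0 + 1) = Ty.F := by simp [tyj]
      have e2 : pj (0 + 1) = 1 := by rfl
      rw [e1, e2]
      simpa using hb
    | succ n ih =>
      intro h1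
      have h2 := ih (by omega)
      have htr := (tick_rel cc cx (tyj (n + 1)) (pj (n + 1)) (rh.ρ (py (P (n + 1))))
        (hr0 _) (hr1 _) (Z (n + 1)) (hS _ (by omega)) (hR _ (by omega))).1
      have h3 := Tr.step _ _ _ _ _ _ _ _ h2 (stk (T (n + 1))) (stk (Z (n + 2))) htr
        (ν (n + 1)) 0 false (Z15_Md _ _ _ (hνpos (n + 1) (by omega)) _ _
          (hnoise (n + 1) (by omega)))
      rw [Z15_tyj_succ (n + 1), Z15_pj_succ (n + 1), Finset.sum_range_succ]
      simpa using h3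
  -- the end
  have hthJ : Th J = LL * (k (Sum.inr 1) : ℝ) := by
    rw [← hth J le_rfl, hJ1, hxz]
    simp [pth, mkp, lat]
  have hJ6 : J % 6 = 0 := by
    unfold Th LL at hthJ
    have h1 : (((J / 6 : ℕ) : ℤ) : ℝ) * 2 ^ 40 + 16 * (((J % 6 : ℕ) : ℤ) : ℝ)
        = 2 ^ 40 * (k (Sum.inr 1) : ℝ) := by
      push_cast at hthJ ⊢
      exact hthJ
    have h2 : ((J / 6 : ℕ) : ℤ) * 2 ^ 40 + 16 * ((J % 6 : ℕ) : ℤ) = 2 ^ 40 * k (Sum.inr 1) := by
      exact_mod_cast h1
    have h3 : J % 6 < 6 := Nat.mod_lt _ (by norm_num)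
    omega
  have htyJ : tyj J = Ty.E := by
    unfold tyj
    rw [if_pos (by omega)]
  have hpJ : pj J = 0 := by
    unfold pj
    apply Fin.ext
    simp [Fin.ofNat]
    omega
  have hzJ : stk (Z J) = stk z := by
    funext i tr
    have h1 : stk (Z J) i tr = stk z i tr + LL * (k (Sum.inl (Sum.inl (i, tr))) : ℝ) := by
      simp only [hZ]
      rw [hJ1, hxz]
      simp [stk, pz, mkp, lat]
    have h2 := abs_le.mp (hS J le_rfl i tr)
    have h3 := abs_le.mp (hst i tr)
    have h4 : k (Sum.inl (Sum.inl (i, tr))) = 0 := by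
      rw [h1] at h2
      unfold LL at h2
      have h5 : (k (Sum.inl (Sum.inl (i, tr))) : ℝ) < 1 := by nlinarith [h2.2, h3.1]
      have h6 : (-1 : ℝ) < (k (Sum.inl (Sum.inl (i, tr))) : ℝ) := by nlinarith [h2.1, h3.2]
      have h7 : k (Sum.inl (Sum.inl (i, tr))) < 1 := by exact_mod_cast h5
      have h8 : -1 < k (Sum.inl (Sum.inl (i, tr))) := by exact_mod_cast h6
      omega
    rw [h1, h4]
    simp
  -- the inequality for all `N`
  have hT0 : T 0 = tick cc cx Ty.E 0 1 z := by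
    simp only [hT]
    rw [hZ0, hy0, rh.one]
    rfl
  have hmain : ∀ N : ℕ, (1 : ℝ) ≤ 2 / MM + 3072 * ∑ n ∈ Finset.range J, ν n ^ 2 +
      J / MM ^ (N + 1) := by
    intro N
    obtain ⟨m, rfl⟩ : ∃ m, J = m + 1 := ⟨J - 1, by omega⟩
    have h1 := main_ineq (N + 1) 1 (by decide) _ _ _ _ _ _ _ _ _ _ _ (hTr m le_rfl)
    rw [htyJ, hpJ, hzJ] at h1
    have h2 := Z15_UU_one N (stk z) hb1 hdig
    have h3 := tick_reset cc cx 0 z (fun i tr => (hst i tr).trans (by norm_num))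
      (fun k => (hrg k).trans (by norm_num)) (hb1.trans (by norm_num)) (N + 1)
    have h4 : UU (N + 1) false 1 Ty.F 1 (stk (T 0)) ≤ 2 / MM := by
      rcases h3 with h3 | h3
      · rw [hT0]; simpa using h3
      · omega
    rw [Finset.sum_range_succ]
    push_cast at h1 ⊢
    linarith
  have hlim : Tendsto (fun N : ℕ => 2 / MM + 3072 * ∑ n ∈ Finset.range J, ν n ^ 2 +
      (J : ℝ) / MM ^ (N + 1)) atTop (𝓝 (2 / MM + 3072 * ∑ n ∈ Finset.range J, ν n ^ 2 + 0)) := by
    apply Tendsto.const_add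
    have h1 : Tendsto (fun N : ℕ => MM ^ (N + 1)) atTop atTop := by
      have hM1 : (1:ℝ) < MM := by unfold MM; norm_num
      exact (tendsto_pow_atTop_atTop_of_one_lt hM1).comp (tendsto_add_atTop_nat 1)
    exact Tendsto.div_atTop tendsto_const_nhds h1
  have := ge_of_tendsto' hlim hmain
  linarith

end Pool.Agent.Aub
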