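import Mathlib
import Pool.Agent.Helper961.Aub.Base
import Pool.Agent.Helper961.Aub.Mach
import Pool.Agent.Helper961.Aub.Sym
import Pool.Agent.Helper961.Aub.Torus
import Pool.Agent.Helper961.Aub.Phys

set_option autoImplicit false

open Set Filter Topology MeasureTheory

namespace Pool.Agent.Aub

/-- TARGET -/
theorem loop_theta (F : EE → EE) (hθ : ∀ x, F x (Sum.inr 1) = 1) (T A : ℝ) (hT : 1 ≤ T)
    (γ v : ℝ → EE) (hc : IsCurve γ v T) (hFc : Continuous F)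
    (hA : action F γ v T ≤ ENNReal.ofReal A) (hA1 : A ≤ 1/8) :
    0 < γ T (Sum.inr 1) - γ 0 (Sum.inr 1) := by
  obtain ⟨hv, hγ⟩ := hc
  have hT0 : (0:ℝ) ≤ T := by linarith
  have hcont : ContinuousOn γ (Icc 0 T) := by
    have h1 : ContinuousOn (fun s => ∫ u in (0:ℝ)..s, v u) (uIcc 0 T) := by
      apply intervalIntegral.continuousOn_primitive_interval
      rw [uIcc_of_le hT0]; exact hv
    rw [uIcc_of_le hT0] at h1
    have h2 : ContinuousOn (fun s => γ 0 + ∫ u in (0:ℝ)..s, v u) (Icc 0 T) :=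
      continuousOn_const.add h1
    exact h2.congr (fun s hs => hγ s hs)
  set μ := volume.restrict (Icc (0:ℝ) T) with hμ
  have hFm : AEStronglyMeasurable (fun s => F (γ s)) μ :=
    (hFc.comp_continuousOn hcont).aestronglyMeasurable measurableSet_Icc
  have hwm : AEStronglyMeasurable (fun s => ‖v s - F (γ s)‖ ^ 2 / 2) μ :=
    ((continuous_id.pow 2).div_const 2).comp_aestronglyMeasurable
      (hv.aestronglyMeasurable.sub hFm).norm
  have hnn : 0 ≤ᵐ[μ] fun s => ‖v s - F (γ s)‖ ^ 2 / 2 :=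
    Filter.Eventually.of_forall (fun s => by positivity)
  have hlt : ∫⁻ s, ENNReal.ofReal (‖v s - F (γ s)‖ ^ 2 / 2) ∂μ ≤ ENNReal.ofReal A := hA
  have hwi : Integrable (fun s => ‖v s - F (γ s)‖ ^ 2 / 2) μ :=
    ⟨hwm, (hasFiniteIntegral_iff_ofReal hnn).2 (lt_of_le_of_lt hlt ENNReal.ofReal_lt_top)⟩
  have hwle : ∫ s, ‖v s - F (γ s)‖ ^ 2 / 2 ∂μ ≤ 1 / 8 := by
    have h1 := ofReal_integral_eq_lintegral_ofReal hwi hnn
    rw [← h1] at hlt
    rcases (ENNReal.ofReal_le_ofReal_iff').1 hlt with h | h <;> linarith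
  have hcoord : γ T (Sum.inr 1) - γ 0 (Sum.inr 1) = ∫ s, v s (Sum.inr 1) ∂μ := by
    have h1 := hγ T ⟨hT0, le_rfl⟩
    have hvi : IntervalIntegrable v volume 0 T := by
      rw [intervalIntegrable_iff_integrableOn_Icc_of_le hT0]
      exact hv
    have h2 := (EuclideanSpace.proj (𝕜 := ℝ) (Sum.inr 1 : Jx) :
      EE →L[ℝ] ℝ).intervalIntegral_comp_comm hvi
    have h3 : (∫ u in (0:ℝ)..T, v u) (Sum.inr 1) = ∫ u in (0:ℝ)..T, v u (Sum.inr 1) := h2.symm
    rw [h1, PiLp.add_apply, h3, intervalIntegral.integral_of_le hT0, hμ,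
      integral_Icc_eq_integral_Ioc]
    ring
  rw [hcoord]
  have hvc : Integrable (fun s => v s (Sum.inr 1)) μ :=
    (EuclideanSpace.proj (𝕜 := ℝ) (Sum.inr 1 : Jx) : EE →L[ℝ] ℝ).integrable_comp hv
  have hfin : IsFiniteMeasure μ := by
    rw [hμ]; exact ⟨by simp⟩
  have hmono : ∫ s, (3/4 - 2 * (‖v s - F (γ s)‖ ^ 2 / 2)) ∂μ ≤ ∫ s, v s (Sum.inr 1) ∂μ := by
    apply integral_mono ((integrable_const _).sub (hwi.const_mul 2)) hvc
    intro s
    have h1 : |(v s - F (γ s)) (Sum.inr 1)| ≤ ‖v s - F (γ s)‖ :=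
      PiLp.norm_apply_le (v s - F (γ s)) (Sum.inr 1)
    have h2 : (v s - F (γ s)) (Sum.inr 1) = v s (Sum.inr 1) - 1 := by
      rw [PiLp.sub_apply, hθ]
    rw [h2] at h1
    have h3 := (abs_le.1 h1).1
    show 3/4 - 2 * (‖v s - F (γ s)‖ ^ 2 / 2) ≤ v s (Sum.inr 1)
    nlinarith [sq_nonneg (‖v s - F (γ s)‖ - 1/2)]
  have hval : ∫ s, (3/4 - 2 * (‖v s - F (γ s)‖ ^ 2 / 2)) ∂μ =
      3/4 * T - 2 * ∫ s, (‖v s - F (γ s)‖ ^ 2 / 2) ∂μ := by
    rw [integral_sub (integrable_const _) (hwi.const_mul 2), integral_const, integral_const_mul]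
    congr 1
    rw [hμ]
    simp [Measure.real, hT0]
    ring
  rw [hval] at hmono
  linarith

end Pool.Agent.Aub
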