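import Mathlib
import Pool.Agent.Helper961.Aub.Base
import Pool.Agent.Helper961.Aub.Mach
import Pool.Agent.Helper961.Aub.Sym
import Pool.Agent.Helper961.Aub.Torus
import Pool.Agent.Helper961.Aub.Phys

set_option autoImplicit false

open Set Filter Topology MeasureTheory

namespace Pool.Agent.Aub

theorem Z12_lip {F : EE → EE} {K : ℝ} (hK0 : 0 < K)
    (hK : ∀ x y, ‖F x - F y‖ ≤ K * ‖x - y‖) : LipschitzWith ⟨K, hK0.le⟩ F := by
  apply LipschitzWith.of_dist_le_mul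
  intro x y
  rw [dist_eq_norm, dist_eq_norm]
  exact hK x y

theorem Z12_amgm {X : Type} [NormedAddCommGroup X] {u : ℝ → X} {α β κ : ℝ} (hαβ : α ≤ β)
    (hκ : 0 < κ)
    (hu : IntervalIntegrable (fun s => ‖u s‖) volume α β)
    (hq : IntervalIntegrable (fun s => ‖u s‖ ^ 2 / 2) volume α β) :
    ∫ ρ in α..β, ‖u ρ‖ ≤ κ * (β - α) / 2 + (∫ ρ in α..β, ‖u ρ‖ ^ 2 / 2) / κ := by
  have h1 : ∫ ρ in α..β, ‖u ρ‖ ≤ ∫ ρ in α..β, (κ / 2 + κ⁻¹ * (‖u ρ‖ ^ 2 / 2)) := by
    apply intervalIntegral.integral_mono_on hαβ hu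
    · exact (intervalIntegrable_const).add (hq.const_mul _)
    · intro x _
      have h2 : 0 ≤ (‖u x‖ - κ) ^ 2 := sq_nonneg _
      have h3 : κ / 2 + κ⁻¹ * (‖u x‖ ^ 2 / 2) - ‖u x‖ = (‖u x‖ - κ) ^ 2 / (2 * κ) := by
        field_simp
        ring
      have h4 : 0 ≤ (‖u x‖ - κ) ^ 2 / (2 * κ) := by positivity
      linarith
  rw [intervalIntegral.integral_add intervalIntegrable_const (hq.const_mul _),
    intervalIntegral.integral_const_mul, intervalIntegral.integral_const] at h1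
  have h5 : (β - α) • (κ / 2) = κ * (β - α) / 2 := by rw [smul_eq_mul]; ring
  rw [h5] at h1
  rw [div_eq_mul_inv (∫ ρ in α..β, ‖u ρ‖ ^ 2 / 2) κ, mul_comm (∫ ρ in α..β, ‖u ρ‖ ^ 2 / 2)]
  exact h1

theorem Z12_step (F : EE → EE) (φ : ℝ → EE → EE) (K B : ℝ) (hK0 : 0 < K) (hB0 : 0 < B)
    (hK : ∀ x y, ‖F x - F y‖ ≤ K * ‖x - y‖) (hB : ∀ x, ‖F x‖ ≤ B)
    (hθ : ∀ x, F x (Sum.inr 1) = 1) (hφ : IsFlow F φ) (G : ℝ) (c u : ℝ → EE)
    (hc : Continuous c) (α β : ℝ) (hαβ : α < β)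
    (hu : IntervalIntegrable u volume α β)
    (hq : IntervalIntegrable (fun s => ‖u s‖ ^ 2 / 2) volume α β)
    (hcu : ∀ r ∈ Icc α β, c r = c α + (∫ ρ in α..r, F (c ρ)) + ∫ ρ in α..r, u ρ)
    (τ : ℝ) (hτ : (c β) (Sum.inr 1) - (c α) (Sum.inr 1) = τ) (hτ1 : 1 ≤ τ) (hτG : τ ≤ G)
    (ha : ∫ ρ in α..β, ‖u ρ‖ ^ 2 / 2 ≤ 1) :
    ‖c β - φ τ (c α)‖ ^ 2 ≤
      (Real.exp (K * (2 * G + 2)) + B) ^ 2 * (4 * G + 4) * ∫ ρ in α..β, ‖u ρ‖ ^ 2 / 2 := by
  have hlip := Z12_lip hK0 hK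
  have hFc : Continuous (fun ρ => F (c ρ)) := hlip.continuous.comp hc
  set U : ℝ := ∫ ρ in α..β, ‖u ρ‖ with hU
  set a : ℝ := ∫ ρ in α..β, ‖u ρ‖ ^ 2 / 2 with haa
  have hU0 : 0 ≤ U := intervalIntegral.integral_nonneg hαβ.le (fun _ _ => norm_nonneg _)
  have ha0 : 0 ≤ a := intervalIntegral.integral_nonneg hαβ.le (fun _ _ => by positivity)
  have hs : 0 < β - α := by linarith
  have hAG : ∀ κ : ℝ, 0 < κ → U ≤ κ * (β - α) / 2 + a / κ := fun κ hκ =>
    Z12_amgm hαβ.le hκ hu.norm hq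
  have hUr : ∀ r ∈ Icc α β, ‖∫ ρ in α..r, u ρ‖ ≤ U := by
    intro r hr
    calc ‖∫ ρ in α..r, u ρ‖ ≤ ∫ ρ in α..r, ‖u ρ‖ :=
          intervalIntegral.norm_integral_le_integral_norm hr.1
      _ ≤ U := intervalIntegral.integral_mono_interval le_rfl hr.1 hr.2
          (Filter.Eventually.of_forall (fun _ => norm_nonneg _)) hu.norm
  -- the clock
  have hclock : |τ - (β - α)| ≤ U := by
    have h1 := hcu β ⟨hαβ.le, le_rfl⟩
    let L : EE →L[ℝ] ℝ := EuclideanSpace.proj (Sum.inr 1)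
    have hL : ∀ x : EE, L x = x (Sum.inr 1) := fun x => rfl
    have h2 : L (∫ ρ in α..β, F (c ρ)) = β - α := by
      rw [← ContinuousLinearMap.intervalIntegral_comp_comm L (hFc.intervalIntegrable _ _)]
      have : ∀ ρ, L (F (c ρ)) = 1 := fun ρ => hθ _
      simp only [this]
      rw [intervalIntegral.integral_const, smul_eq_mul, mul_one]
    have h3 : L (c β) - L (c α) = (β - α) + L (∫ ρ in α..β, u ρ) := by
      rw [h1, map_add, map_add, h2]; ring
    have h4 : τ - (β - α) = L (∫ ρ in α..β, u ρ) := by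
      rw [← hτ, ← hL, ← hL, h3]; ring
    rw [h4]
    have h5 : ‖(∫ ρ in α..β, u ρ) (Sum.inr 1)‖ ≤ ‖∫ ρ in α..β, u ρ‖ := PiLp.norm_apply_le _ _
    calc |L (∫ ρ in α..β, u ρ)| = ‖(∫ ρ in α..β, u ρ) (Sum.inr 1)‖ := by
          rw [Real.norm_eq_abs]; rfl
      _ ≤ ‖∫ ρ in α..β, u ρ‖ := h5
      _ ≤ U := hUr β ⟨hαβ.le, le_rfl⟩
  have hcl := abs_le.1 hclock
  have hs2 : β - α ≤ 2 * G + 2 := by
    have h1 := hAG 1 one_pos
    rw [div_one, one_mul] at h1
    linarith [hcl.1, hcl.2]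
  have hU2 : U ^ 2 ≤ 2 * (β - α) * a := by
    rcases eq_or_lt_of_le hU0 with h | h
    · have h1 : (0:ℝ) ≤ 2 * (β - α) * a := mul_nonneg (by linarith) ha0
      have h2 : U ^ 2 = 0 := by rw [← h]; ring
      linarith
    · have h1 := hAG (U / (β - α)) (by positivity)
      have h2 : U / (β - α) * (β - α) / 2 = U / 2 := by field_simp
      have h3 : a / (U / (β - α)) = a * (β - α) / U := by field_simp
      rw [h2, h3] at h1
      have h4 : U / 2 ≤ a * (β - α) / U := by linarith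
      rw [le_div_iff₀ h] at h4
      nlinarith
  -- Gronwall
  let w : ℝ → EE := fun r => c α + ∫ ρ in α..r, F (c ρ)
  have hw : ∀ r, HasDerivAt w (F (c r)) r := by
    intro r
    exact ((hFc.integral_hasStrictDerivAt α r).hasDerivAt).const_add (c α)
  let g : ℝ → EE := fun r => φ (r - α) (c α)
  have hg : ∀ r, HasDerivAt g (F (g r)) r := by
    intro r
    have h1 := hφ.2 (c α) (r - α)
    have h2 : HasDerivAt (fun r : ℝ => r - α) 1 r := (hasDerivAt_id r).sub_const α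
    have h3 := HasDerivAt.scomp r h1 h2
    rw [one_smul] at h3
    exact h3
  have hcw : ∀ r ∈ Icc α β, ‖c r - w r‖ ≤ U := by
    intro r hr
    have : c r - w r = ∫ ρ in α..r, u ρ := by
      show c r - (c α + ∫ ρ in α..r, F (c ρ)) = ∫ ρ in α..r, u ρ
      rw [hcu r hr]
      abel
    rw [this]
    exact hUr r hr
  have hwc : Continuous w := continuous_iff_continuousAt.2 fun r => (hw r).continuousAt
  have hgc : Continuous g := continuous_iff_continuousAt.2 fun r => (hg r).continuousAt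
  have hgr := dist_le_of_approx_trajectories_ODE (v := fun _ => F) (K := ⟨K, hK0.le⟩) (f := w)
    (g := g) (f' := fun r => F (c r)) (g' := fun r => F (g r)) (a := α) (b := β)
    (εf := K * U) (εg := 0) (δ := 0) (fun _ => hlip) hwc.continuousOn
    (fun r _ => (hw r).hasDerivWithinAt)
    (fun r hr => by
      show dist (F (c r)) (F (w r)) ≤ K * U
      rw [dist_eq_norm]
      calc ‖F (c r) - F (w r)‖ ≤ K * ‖c r - w r‖ := hK _ _
        _ ≤ K * U := mul_le_mul_of_nonneg_left (hcw r ⟨hr.1, hr.2.le⟩) hK0.le)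
    hgc.continuousOn (fun r _ => (hg r).hasDerivWithinAt)
    (fun r _ => by rw [dist_self])
    (by
      show dist (c α + ∫ ρ in α..α, F (c ρ)) (φ (α - α) (c α)) ≤ 0
      rw [intervalIntegral.integral_same, add_zero, sub_self, hφ.1, dist_self])
    β ⟨hαβ.le, le_rfl⟩
  change dist (w β) (g β) ≤ gronwallBound 0 K (K * U + 0) (β - α) at hgr
  rw [gronwallBound_of_K_ne_0 hK0.ne', dist_eq_norm] at hgr
  have hgr' : ‖w β - φ (β - α) (c α)‖ ≤ U * (Real.exp (K * (β - α)) - 1) := by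
    calc ‖w β - φ (β - α) (c α)‖ ≤ 0 * Real.exp (K * (β - α)) + (K * U + 0) / K *
          (Real.exp (K * (β - α)) - 1) := hgr
      _ = U * (Real.exp (K * (β - α)) - 1) := by field_simp; ring
  have hflow : ‖φ (β - α) (c α) - φ τ (c α)‖ ≤ B * |τ - (β - α)| := by
    have h1 := Convex.norm_image_sub_le_of_norm_hasDerivWithin_le (𝕜 := ℝ)
      (f := fun s => φ s (c α)) (f' := fun s => F (φ s (c α))) (C := B) (s := univ)
      (x := τ) (y := β - α)
      (fun x _ => (hφ.2 (c α) x).hasDerivWithinAt) (fun x _ => hB _) convex_univ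
      (mem_univ _) (mem_univ _)
    rw [Real.norm_eq_abs, abs_sub_comm] at h1
    exact h1
  have hfin : ‖c β - φ τ (c α)‖ ≤ (Real.exp (K * (2 * G + 2)) + B) * U := by
    have h1 : c β - φ τ (c α) = (c β - w β) + (w β - φ (β - α) (c α)) +
        (φ (β - α) (c α) - φ τ (c α)) := by abel
    have h2 : Real.exp (K * (β - α)) ≤ Real.exp (K * (2 * G + 2)) :=
      Real.exp_le_exp.2 (mul_le_mul_of_nonneg_left hs2 hK0.le)
    calc ‖c β - φ τ (c α)‖ = ‖(c β - w β) + (w β - φ (β - α) (c α)) +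
        (φ (β - α) (c α) - φ τ (c α))‖ := by rw [← h1]
      _ ≤ ‖c β - w β‖ + ‖w β - φ (β - α) (c α)‖ + ‖φ (β - α) (c α) - φ τ (c α)‖ := norm_add₃_le
      _ ≤ U + U * (Real.exp (K * (β - α)) - 1) + B * |τ - (β - α)| :=
          add_le_add (add_le_add (hcw β ⟨hαβ.le, le_rfl⟩) hgr') hflow
      _ ≤ U + U * (Real.exp (K * (β - α)) - 1) + B * U := by
          have := mul_le_mul_of_nonneg_left hclock hB0.le
          linarith
      _ = (Real.exp (K * (β - α)) + B) * U := by ring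
      _ ≤ (Real.exp (K * (2 * G + 2)) + B) * U :=
          mul_le_mul_of_nonneg_right (by linarith) hU0
  calc ‖c β - φ τ (c α)‖ ^ 2 ≤ ((Real.exp (K * (2 * G + 2)) + B) * U) ^ 2 :=
        pow_le_pow_left₀ (norm_nonneg _) hfin 2
    _ = (Real.exp (K * (2 * G + 2)) + B) ^ 2 * U ^ 2 := by ring
    _ ≤ (Real.exp (K * (2 * G + 2)) + B) ^ 2 * (2 * (β - α) * a) :=
        mul_le_mul_of_nonneg_left hU2 (sq_nonneg _)
    _ ≤ (Real.exp (K * (2 * G + 2)) + B) ^ 2 * ((4 * G + 4) * a) := by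
        apply mul_le_mul_of_nonneg_left _ (sq_nonneg _)
        apply mul_le_mul_of_nonneg_right _ ha0
        linarith
    _ = (Real.exp (K * (2 * G + 2)) + B) ^ 2 * (4 * G + 4) * a := by ring


theorem Z12_times (g : ℝ → ℝ) (hg : Continuous g) (Θ : ℕ → ℝ) (hΘ : StrictMono Θ) (hg0 : g 0 = Θ 0) :
    ∀ (J : ℕ) (T : ℝ), 1 ≤ J → 0 < T → g T = Θ J →
      ∃ t : ℕ → ℝ, t 0 = 0 ∧ t J = T ∧ (∀ n ≤ J, 0 ≤ t n ∧ t n ≤ T ∧ g (t n) = Θ n) ∧
        ∀ n < J, t n < t (n + 1) := by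
  intro J
  induction J with
  | zero => intro T h; exact absurd h (by norm_num)
  | succ J ih =>
    intro T _ hT hgT
    rcases Nat.eq_zero_or_pos J with hJ | hJ
    · subst hJ
      refine ⟨fun n => if n = 0 then 0 else T, by simp, by simp, ?_, ?_⟩
      · intro n hn
        rcases Nat.eq_zero_or_pos n with h | h
        · subst h
          simp only [if_true]
          exact ⟨le_rfl, hT.le, hg0⟩
        · have : n = 1 := by omega
          subst this
          simp only [one_ne_zero, if_false]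
          exact ⟨hT.le, le_rfl, hgT⟩
      · intro n hn
        have : n = 0 := by omega
        subst this
        simp [hT]
    · have hmem : Θ J ∈ Icc (g 0) (g T) := by
        rw [hg0, hgT]
        exact ⟨(hΘ (by omega : 0 < J)).le, (hΘ (Nat.lt_succ_self J)).le⟩
      obtain ⟨s, hs, hgs⟩ := intermediate_value_Icc hT.le hg.continuousOn hmem
      have hs0 : 0 < s := lt_of_le_of_ne hs.1 (by
        rintro rfl
        rw [hg0] at hgs
        exact (hΘ (by omega : 0 < J)).ne hgs)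
      have hsT : s < T := lt_of_le_of_ne hs.2 (by
        rintro rfl
        rw [hgT] at hgs
        exact (hΘ (Nat.lt_succ_self J)).ne' hgs)
      obtain ⟨t, ht0, htJ, ht1, ht2⟩ := ih s hJ hs0 hgs
      refine ⟨fun n => if n ≤ J then t n else T, by simp [ht0], by simp, ?_, ?_⟩
      · intro n hn
        by_cases h : n ≤ J
        · simp only [if_pos h]
          obtain ⟨a1, a2, a3⟩ := ht1 n h
          exact ⟨a1, a2.trans hsT.le, a3⟩
        · simp only [if_neg h]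
          have : n = J + 1 := by omega
          subst this
          exact ⟨hT.le, le_rfl, hgT⟩
      · intro n hn
        by_cases h : n < J
        · simp only [if_pos h.le, if_pos (Nat.succ_le_of_lt h)]
          exact ht2 n h
        · have : n = J := by omega
          subst this
          simp only [le_refl, if_true]
          rw [if_neg (by omega), htJ]
          exact hsT

/-- TARGET -/
theorem sampling (F : EE → EE) (φ : ℝ → EE → EE) (K B : ℝ) (hK0 : 0 < K) (hB0 : 0 < B)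
    (hK : ∀ x y, ‖F x - F y‖ ≤ K * ‖x - y‖) (hB : ∀ x, ‖F x‖ ≤ B)
    (hθ : ∀ x, F x (Sum.inr 1) = 1) (hφ : IsFlow F φ) (Θ : ℕ → ℝ) (G : ℝ)
    (hΘ : ∀ n, 1 ≤ Θ (n + 1) - Θ n ∧ Θ (n + 1) - Θ n ≤ G) :
    ∃ C A0 : ℝ, 0 < C ∧ 0 < A0 ∧ ∀ (T : ℝ) (γ v : ℝ → EE) (J : ℕ) (A : ℝ), 0 < T → 1 ≤ J →
      IsCurve γ v T → γ 0 (Sum.inr 1) = Θ 0 → γ T (Sum.inr 1) = Θ J →
      action F γ v T ≤ ENNReal.ofReal A → 0 ≤ A → A ≤ A0 →
      ∃ (P : ℕ → EE) (a : ℕ → ℝ), P 0 = γ 0 ∧ P J = γ T ∧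
        (∀ n ≤ J, P n (Sum.inr 1) = Θ n) ∧
        (∀ n < J, ‖P (n + 1) - φ (Θ (n + 1) - Θ n) (P n)‖ ^ 2 ≤ C * a n) ∧
        (∀ n, 0 ≤ a n) ∧ ∑ n ∈ Finset.range J, a n ≤ A := by
  have hG : 1 ≤ G := (hΘ 0).1.trans (hΘ 0).2
  refine ⟨(Real.exp (K * (2 * G + 2)) + B) ^ 2 * (4 * G + 4), 1, by positivity, one_pos, ?_⟩
  intro T γ v J A hT hJ hcurve h0 hJT hact hA0 hA1
  have hlip := Z12_lip hK0 hK
  have hIcc : Set.uIcc 0 T = Icc 0 T := Set.uIcc_of_le hT.le
  -- continuity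
  have hγc : ContinuousOn γ (Icc 0 T) := by
    have h1 := intervalIntegral.continuousOn_primitive_interval (a := 0) (b := T)
      (f := v) (μ := volume) (by rw [hIcc]; exact hcurve.1)
    rw [hIcc] at h1
    have h2 : ContinuousOn (fun s => γ 0 + ∫ u in (0 : ℝ)..s, v u) (Icc 0 T) :=
      continuousOn_const.add h1
    exact h2.congr (fun s hs => hcurve.2 s hs)
  let c : ℝ → EE := fun t => γ (max 0 (min T t))
  have hmem : ∀ t : ℝ, max 0 (min T t) ∈ Icc 0 T := fun t =>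
    ⟨le_max_left _ _, max_le hT.le (min_le_left _ _)⟩
  have hc : Continuous c :=
    hγc.comp_continuous (continuous_const.max (continuous_const.min continuous_id)) hmem
  have hcI : ∀ t ∈ Icc (0:ℝ) T, c t = γ t := by
    intro t ht
    show γ (max 0 (min T t)) = γ t
    rw [min_eq_right ht.2, max_eq_right ht.1]
  have hFc : Continuous (fun s => F (c s)) := hlip.continuous.comp hc
  let u : ℝ → EE := fun s => v s - F (c s)
  have hFi : IntegrableOn (fun s => F (c s)) (Icc 0 T) := hFc.integrableOn_Icc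
  have hu : IntegrableOn u (Icc 0 T) := hcurve.1.sub hFi
  have hlin : ∫⁻ s in Icc (0 : ℝ) T, ENNReal.ofReal (‖u s‖ ^ 2 / 2) ≤ ENNReal.ofReal A := by
    refine le_trans (le_of_eq ?_) hact
    unfold action
    apply setLIntegral_congr_fun measurableSet_Icc
    intro s hs
    show ENNReal.ofReal (‖v s - F (c s)‖ ^ 2 / 2) = ENNReal.ofReal (‖v s - F (γ s)‖ ^ 2 / 2)
    rw [hcI s hs]
  have hqn : 0 ≤ᵐ[volume.restrict (Icc (0:ℝ) T)] fun s => ‖u s‖ ^ 2 / 2 :=
    Filter.Eventually.of_forall (fun s => by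
      show 0 ≤ ‖u s‖ ^ 2 / 2
      positivity)
  have hqm : AEStronglyMeasurable (fun s => ‖u s‖ ^ 2 / 2) (volume.restrict (Icc (0:ℝ) T)) :=
    ((hu.aestronglyMeasurable.norm.pow 2).mul_const (2⁻¹ : ℝ)).congr
      (Filter.Eventually.of_forall (fun s => by
        show ‖u s‖ ^ 2 * (2⁻¹ : ℝ) = ‖u s‖ ^ 2 / 2
        ring))
  have hq : IntegrableOn (fun s => ‖u s‖ ^ 2 / 2) (Icc 0 T) := by
    refine ⟨hqm, ?_⟩
    rw [hasFiniteIntegral_iff_ofReal hqn]
    exact lt_of_le_of_lt hlin ENNReal.ofReal_lt_top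
  have hqA : ∫ s in (0:ℝ)..T, ‖u s‖ ^ 2 / 2 ≤ A := by
    rw [intervalIntegral.integral_of_le hT.le, ← integral_Icc_eq_integral_Ioc,
      integral_eq_lintegral_of_nonneg_ae hqn hqm]
    exact ENNReal.toReal_le_of_le_ofReal hA0 hlin
  have hII : ∀ {X : Type} [NormedAddCommGroup X] {f : ℝ → X}, IntegrableOn f (Icc 0 T) →
      ∀ α β, α ∈ Icc (0:ℝ) T → β ∈ Icc (0:ℝ) T → IntervalIntegrable f volume α β := by
    intro X _ f hf α β hα hβ
    apply IntegrableOn.intervalIntegrable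
    exact hf.mono_set (Set.OrdConnected.uIcc_subset Set.ordConnected_Icc hα hβ)
  -- times
  have hΘm : StrictMono Θ := strictMono_nat_of_lt_succ (fun n => by linarith [(hΘ n).1])
  have h0m : (0:ℝ) ∈ Icc (0:ℝ) T := ⟨le_rfl, hT.le⟩
  have hTm : T ∈ Icc (0:ℝ) T := ⟨hT.le, le_rfl⟩
  have hgc : Continuous (fun s => (c s) (Sum.inr 1)) := by
    have h1 : Continuous (fun x : EE => x (Sum.inr 1)) := by
      let L : EE →L[ℝ] ℝ := EuclideanSpace.proj (Sum.inr 1)
      exact L.continuous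
    exact h1.comp hc
  obtain ⟨t, ht0, htJ, ht1, ht2⟩ := Z12_times (fun s => (c s) (Sum.inr 1)) hgc Θ hΘm
    (by show (c 0) (Sum.inr 1) = Θ 0; rw [hcI 0 h0m]; exact h0) J T hJ hT
    (by show (c T) (Sum.inr 1) = Θ J; rw [hcI T hTm]; exact hJT)
  have htm : ∀ n ≤ J, t n ∈ Icc (0:ℝ) T := fun n hn => ⟨(ht1 n hn).1, (ht1 n hn).2.1⟩
  refine ⟨fun n => c (t n), fun n => if n < J then ∫ ρ in (t n)..(t (n + 1)), ‖u ρ‖ ^ 2 / 2 else 0,
    ?_, ?_, ?_, ?_, ?_, ?_⟩
  · show c (t 0) = γ 0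
    rw [ht0, hcI 0 h0m]
  · show c (t J) = γ T
    rw [htJ, hcI T hTm]
  · intro n hn
    exact (ht1 n hn).2.2
  · intro n hn
    have hn1 := htm n hn.le
    have hn2 := htm (n + 1) hn
    have hlt := ht2 n hn
    simp only [if_pos hn]
    apply Z12_step F φ K B hK0 hB0 hK hB hθ hφ G c u hc (t n) (t (n + 1)) hlt
      (hII hu _ _ hn1 hn2) (hII hq _ _ hn1 hn2)
    · intro r hr
      have hrm : r ∈ Icc (0:ℝ) T := ⟨hn1.1.trans hr.1, hr.2.trans hn2.2⟩
      have e1 : c r = γ 0 + ∫ u in (0 : ℝ)..r, v u := by rw [hcI r hrm]; exact hcurve.2 r hrm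
      have e2 : c (t n) = γ 0 + ∫ u in (0 : ℝ)..(t n), v u := by
        rw [hcI _ hn1]; exact hcurve.2 _ hn1
      have e3 : ∫ u in (0 : ℝ)..r, v u = (∫ u in (0 : ℝ)..(t n), v u) +
          ∫ u in (t n)..r, v u :=
        (intervalIntegral.integral_add_adjacent_intervals
          (hII hcurve.1 _ _ h0m hn1) (hII hcurve.1 _ _ hn1 hrm)).symm
      have e4 : ∫ u in (t n)..r, v u = (∫ ρ in (t n)..r, F (c ρ)) + ∫ ρ in (t n)..r, u ρ := by
        rw [← intervalIntegral.integral_add (hII hFi _ _ hn1 hrm) (hII hu _ _ hn1 hrm)]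
        apply intervalIntegral.integral_congr
        intro s _
        show v s = F (c s) + (v s - F (c s))
        abel
      rw [e1, e3, e4, e2]
      abel
    · have a1 := (ht1 n hn.le).2.2
      have a2 := (ht1 (n + 1) hn).2.2
      simp only at a1 a2
      rw [a1, a2]
    · exact (hΘ n).1
    · exact (hΘ n).2
    · have h1 : ∫ ρ in (t n)..(t (n + 1)), ‖u ρ‖ ^ 2 / 2 ≤ ∫ ρ in (0:ℝ)..T, ‖u ρ‖ ^ 2 / 2 :=
        intervalIntegral.integral_mono_interval hn1.1 hlt.le hn2.2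
          (Filter.Eventually.of_forall (fun s => by
            show 0 ≤ ‖u s‖ ^ 2 / 2
            positivity)) (hII hq _ _ h0m hTm)
      linarith
  · intro n
    show 0 ≤ if n < J then ∫ ρ in (t n)..(t (n + 1)), ‖u ρ‖ ^ 2 / 2 else 0
    split_ifs with h
    · exact intervalIntegral.integral_nonneg (ht2 n h).le (fun _ _ => by positivity)
    · exact le_rfl
  · have h1 : ∑ n ∈ Finset.range J, (if n < J then ∫ ρ in (t n)..(t (n + 1)), ‖u ρ‖ ^ 2 / 2 else 0) =
        ∑ n ∈ Finset.range J, ∫ ρ in (t n)..(t (n + 1)), ‖u ρ‖ ^ 2 / 2 := by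
      apply Finset.sum_congr rfl
      intro n hn
      rw [if_pos (Finset.mem_range.1 hn)]
    rw [h1, intervalIntegral.sum_integral_adjacent_intervals
      (fun k hk => hII hq _ _ (htm k hk.le) (htm (k + 1) hk)), ht0, htJ]
    exact hqA

end Pool.Agent.Aub
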