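import Mathlib
import Pool.Agent.Helper961.Aub.Base
import Pool.Agent.Helper961.Aub.Mach
import Pool.Agent.Helper961.Aub.Sym
import Pool.Agent.Helper961.Aub.Torus
import Pool.Agent.Helper961.Aub.Phys
import Pool.Agent.Helper961.Aub.ZSamp
import Pool.Agent.Helper961.Aub.ZLoop
import Pool.Agent.Helper961.Aub.ZFlow
import Pool.Agent.Helper961.Aub.ZDisc

set_option autoImplicit false

open Set Filter Topology MeasureTheory

namespace Pool.Agent.Aub

theorem Z16_LL : LL = 1099511627776 := by norm_num [LL]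

theorem Z16_Th (n : ℕ) : 1 ≤ Th (n + 1) - Th n ∧ Th (n + 1) - Th n ≤ LL := by
  unfold Th
  have h6 : n % 6 < 6 := Nat.mod_lt _ (by norm_num)
  rcases Nat.lt_or_ge (n % 6) 5 with h | h
  · have h1 : (n + 1) / 6 = n / 6 := by omega
    have h2 : (n + 1) % 6 = n % 6 + 1 := by omega
    rw [h1, h2, Nat.cast_add, Nat.cast_one, Z16_LL]
    constructor <;> linarith
  · have h0 : n % 6 = 5 := by omega
    have h1 : (n + 1) / 6 = n / 6 + 1 := by omega
    have h2 : (n + 1) % 6 = 0 := by omega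
    rw [h0, h1, h2, Nat.cast_add, Nat.cast_one, Z16_LL]
    norm_num
    constructor <;> linarith

theorem Z16_Th6 (m : ℕ) : Th (6 * m) = LL * m := by
  unfold Th
  have h1 : 6 * m / 6 = m := by omega
  have h2 : 6 * m % 6 = 0 := by omega
  rw [h1, h2]
  push_cast
  ring

/-- TARGET -/
theorem lower (cc : Clamp (5/4)) (cx : Clamp (mm + 1/2)) (rh : Rho) {F : EE → EE}
    {φ : ℝ → EE → EE} (h : Realz 97 (YY cc cx rh) LL F φ) :
    ∃ c : ℝ, 0 < c ∧ ∀ x ∈ KK, ∀ (T : ℝ), 1 ≤ T → ∀ (γ v : ℝ → EE) (k : Jx → ℤ),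
      IsCurve γ v T → γ 0 = x → γ T = x + lat LL k →
      ENNReal.ofReal c ≤ action F γ v T := by
  have hLL : (0:ℝ) < LL := by rw [Z16_LL]; norm_num
  obtain ⟨K, B, hK0, hB0, hK, hB, -, -, -⟩ := flow_facts hLL h.smooth h.per h.flow
  obtain ⟨C, A0, hC, hA0, hsamp⟩ := sampling F φ K B hK0 hB0 hK hB h.theta h.flow Th LL Z16_Th
  have hMM : (0:ℝ) < 1 - 2 / MM := by
    unfold MM
    norm_num
  obtain ⟨c, hc0, hc1, hc2, hc3, hc4⟩ : ∃ c : ℝ, 0 < c ∧ c ≤ A0 ∧ c ≤ 1 / 8 ∧ C * c ≤ 1 / 1024 ∧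
      3072 * C * c ≤ (1 - 2 / MM) / 2 := by
    refine ⟨min A0 (min (1 / 8) (min (1 / (1024 * C)) ((1 - 2 / MM) / (2 * 3072 * C)))), ?_,
      min_le_left _ _, (min_le_right _ _).trans (min_le_left _ _), ?_, ?_⟩
    · exact lt_min hA0 (lt_min (by norm_num) (lt_min (by positivity) (by positivity)))
    · calc C * min A0 (min (1 / 8) (min (1 / (1024 * C)) ((1 - 2 / MM) / (2 * 3072 * C))))
          ≤ C * (1 / (1024 * C)) := mul_le_mul_of_nonneg_left
            ((min_le_right _ _).trans ((min_le_right _ _).trans (min_le_left _ _))) hC.le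
        _ = 1 / 1024 := by field_simp
    · calc 3072 * C * min A0 (min (1 / 8) (min (1 / (1024 * C)) ((1 - 2 / MM) / (2 * 3072 * C))))
          ≤ 3072 * C * ((1 - 2 / MM) / (2 * 3072 * C)) := mul_le_mul_of_nonneg_left
            ((min_le_right _ _).trans ((min_le_right _ _).trans (min_le_right _ _))) (by positivity)
        _ = (1 - 2 / MM) / 2 := by field_simp
  refine ⟨c, hc0, ?_⟩
  intro x hx T hT γ v k hcur hγ0 hγT
  by_contra hcon
  push Not at hcon
  have hfin : action F γ v T ≠ ⊤ := ne_top_of_lt hcon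
  obtain ⟨A, hAdef⟩ : ∃ A, A = (action F γ v T).toReal := ⟨_, rfl⟩
  have hA : action F γ v T = ENNReal.ofReal A := by
    rw [hAdef, ENNReal.ofReal_toReal hfin]
  have hAn : 0 ≤ A := by rw [hAdef]; exact ENNReal.toReal_nonneg
  have hAc : A < c := by
    rw [hA] at hcon
    exact (ENNReal.ofReal_lt_ofReal_iff hc0).1 hcon
  have hx1 : x (Sum.inr 1) = 0 := by
    obtain ⟨z, hz, -⟩ := hx
    rw [hz]
    rfl
  have hpos := loop_theta F h.theta T A hT γ v hcur h.smooth.continuous hA.le (by linarith)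
  have hγT1 : γ T (Sum.inr 1) = LL * (k (Sum.inr 1) : ℝ) := by
    rw [hγT]
    show x (Sum.inr 1) + LL * (k (Sum.inr 1) : ℝ) = _
    rw [hx1, zero_add]
  rw [hγ0, hx1, hγT1, sub_zero] at hpos
  have hkpos : (0:ℝ) < (k (Sum.inr 1) : ℝ) := by
    by_contra hneg
    push Not at hneg
    have := mul_nonpos_of_nonneg_of_nonpos hLL.le hneg
    linarith
  have hkpos' : 0 < k (Sum.inr 1) := by exact_mod_cast hkpos
  obtain ⟨m, hm⟩ : ∃ m : ℕ, k (Sum.inr 1) = (m : ℤ) := ⟨(k (Sum.inr 1)).toNat, by omega⟩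
  have hm1 : 1 ≤ m := by omega
  have hγT2 : γ T (Sum.inr 1) = Th (6 * m) := by
    rw [hγT1, hm, Z16_Th6]
    norm_cast
  obtain ⟨P, a, hP0, hPJ, hPth, hPa, ha0, hasum⟩ := hsamp T γ v (6 * m) A (by linarith) (by omega)
    hcur (by
      rw [hγ0, hx1]
      have := Z16_Th6 0
      simpa using this.symm) hγT2 hA.le hAn (by linarith)
  have haA : ∀ n < 6 * m, a n ≤ A := fun n hn =>
    (Finset.single_le_sum (fun i _ => ha0 i) (Finset.mem_range.2 hn)).trans hasum
  have hlow := lower_disc cc cx rh h x hx (6 * m) (by omega) P (fun n => Real.sqrt (C * a n))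
    (hP0.trans hγ0) (fun n hn => hPth n hn) (fun n hn => by
      refine ⟨Real.le_sqrt_of_sq_le (hPa n hn), ?_⟩
      rw [Real.sqrt_le_left (by norm_num)]
      have h1 : C * a n ≤ C * c := mul_le_mul_of_nonneg_left ((haA n hn).trans hAc.le) hC.le
      norm_num
      linarith) k (hPJ.trans hγT)
  have hsq : ∀ n ∈ Finset.range (6 * m), (Real.sqrt (C * a n)) ^ 2 = C * a n := fun n _ =>
    Real.sq_sqrt (mul_nonneg hC.le (ha0 n))
  rw [Finset.sum_congr rfl hsq, ← Finset.mul_sum] at hlow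
  have h2 : C * ∑ n ∈ Finset.range (6 * m), a n ≤ C * c :=
    mul_le_mul_of_nonneg_left (hasum.trans hAc.le) hC.le
  nlinarith

end Pool.Agent.Aub
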