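import Mathlib
import Pool.Agent.Helper961.Aub.Base
import Pool.Agent.Helper961.Aub.Mach
import Pool.Agent.Helper961.Aub.Sym
import Pool.Agent.Helper961.Aub.Torus
import Pool.Agent.Helper961.Aub.Phys
import Pool.Agent.H664.Flow

set_option autoImplicit false

open Set Filter Topology MeasureTheory

namespace Pool.Agent.Aub

/-! ### periodic bumps -/

noncomputable def Z02_g (L c w t : ℝ) : ℝ :=
  Real.smoothTransition (Real.cos (2 * Real.pi * (t - c) / L) - Real.cos (2 * Real.pi * w / L))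

theorem Z02_g_smooth (L c w : ℝ) : ContDiff ℝ ((⊤ : ℕ∞) : WithTop ℕ∞) (Z02_g L c w) := by
  unfold Z02_g
  refine Real.smoothTransition.contDiff.comp ?_
  refine (Real.contDiff_cos.comp ?_).sub contDiff_const
  fun_prop

theorem Z02_g_per (L c w : ℝ) (hL : 0 < L) (t : ℝ) (q : ℤ) :
    Z02_g L c w (t + q * L) = Z02_g L c w t := by
  unfold Z02_g
  have : 2 * Real.pi * (t + q * L - c) / L = 2 * Real.pi * (t - c) / L + q * (2 * Real.pi) := by
    field_simp
    ring
  rw [this, Real.cos_add_int_mul_two_pi]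

theorem Z02_g_nonneg (L c w t : ℝ) : 0 ≤ Z02_g L c w t := Real.smoothTransition.nonneg _

theorem Z02_g_zero (L c w t : ℝ) (hL : 0 < L) (hw : 0 ≤ w) (_hwL : w ≤ L / 2)
    (h1 : w ≤ |t - c|) (h2 : |t - c| ≤ L - w) : Z02_g L c w t = 0 := by
  unfold Z02_g
  apply Real.smoothTransition.zero_of_nonpos
  rw [sub_nonpos]
  have hpi := Real.pi_pos
  have e1 : Real.cos (2 * Real.pi * (t - c) / L) = Real.cos (2 * Real.pi * |t - c| / L) := by
    rcases abs_cases (t - c) with ⟨h, _⟩ | ⟨h, _⟩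
    · rw [h]
    · rw [h, mul_neg, neg_div, Real.cos_neg]
  rw [e1]
  set x := 2 * Real.pi * |t - c| / L with hx
  set y := 2 * Real.pi * w / L with hy
  have y0 : 0 ≤ y := by positivity
  have hyx : y ≤ x := by
    rw [hx, hy]
    gcongr
  have hx2 : x ≤ 2 * Real.pi - y := by
    have : 2 * Real.pi - y = 2 * Real.pi * (L - w) / L := by rw [hy]; field_simp
    rw [this, hx]
    gcongr
  rcases le_total x Real.pi with h | h
  · exact Real.cos_le_cos_of_nonneg_of_le_pi y0 h hyx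
  · have : Real.cos x = Real.cos (2 * Real.pi - x) := (Real.cos_two_pi_sub x).symm
    rw [this]
    exact Real.cos_le_cos_of_nonneg_of_le_pi y0 (by linarith) (by linarith)

theorem Z02_g_pos (L c w : ℝ) (hL : 0 < L) (hw : 0 < w) (hwL : w ≤ L / 2) :
    0 < Z02_g L c w c := by
  unfold Z02_g
  apply Real.smoothTransition.pos_of_pos
  rw [sub_self, mul_zero, zero_div, sub_pos]
  have hpi := Real.pi_pos
  have h1 : 0 < 2 * Real.pi * w / L := by positivity
  have h2 : 2 * Real.pi * w / L ≤ Real.pi := by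
    rw [div_le_iff₀ hL]
    nlinarith
  exact Real.cos_lt_cos_of_nonneg_of_le_pi le_rfl h2 h1

theorem Z02_g_int (L c w a b : ℝ) (hL : 0 < L) (hw : 0 < w) (hwL : w ≤ L / 2) (hac : a ≤ c)
    (hcb : c ≤ b) (hab : a < b) : 0 < ∫ t in a..b, Z02_g L c w t :=
  intervalIntegral.integral_pos hab (Z02_g_smooth L c w).continuous.continuousOn
    (fun x _ => Z02_g_nonneg L c w x) ⟨c, ⟨hac, hcb⟩, Z02_g_pos L c w hL hw hwL⟩

/-! ### slot weights -/

noncomputable def Z02_b (L : ℝ) (k : ℕ) (t : ℝ) : ℝ :=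
  (∫ s in (k : ℝ)..(k + 1), Z02_g L (k + 1 / 2) (3 / 8) s)⁻¹ * Z02_g L (k + 1 / 2) (3 / 8) t

theorem Z02_b_smooth (L : ℝ) (k : ℕ) : ContDiff ℝ ((⊤ : ℕ∞) : WithTop ℕ∞) (Z02_b L k) :=
  contDiff_const.mul (Z02_g_smooth _ _ _)

theorem Z02_b_per (L : ℝ) (hL : 0 < L) (k : ℕ) (t : ℝ) (q : ℤ) :
    Z02_b L k (t + q * L) = Z02_b L k t := by
  unfold Z02_b
  rw [Z02_g_per _ _ _ hL]

theorem Z02_b_pos (L : ℝ) (hL : 1 ≤ L) (k : ℕ) :
    0 < ∫ s in (k : ℝ)..(k + 1), Z02_g L (k + 1 / 2) (3 / 8) s :=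
  Z02_g_int L _ _ _ _ (by linarith) (by norm_num) (by linarith) (by linarith) (by linarith)
    (by linarith)

theorem Z02_b_nonneg (L : ℝ) (hL : 1 ≤ L) (k : ℕ) (t : ℝ) : 0 ≤ Z02_b L k t :=
  mul_nonneg (inv_nonneg.2 (Z02_b_pos L hL k).le) (Z02_g_nonneg _ _ _ _)

theorem Z02_b_int (L : ℝ) (hL : 1 ≤ L) (k : ℕ) :
    ∫ s in (k : ℝ)..(k + 1), Z02_b L k s = 1 := by
  unfold Z02_b
  rw [intervalIntegral.integral_const_mul, inv_mul_cancel₀ (Z02_b_pos L hL k).ne']

theorem Z02_b_zero (L : ℝ) (hL : 1 ≤ L) (k : ℕ) (t : ℝ) (h1 : 3 / 8 ≤ |t - (k + 1 / 2)|)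
    (h2 : |t - (k + 1 / 2)| ≤ L - 3 / 8) : Z02_b L k t = 0 := by
  unfold Z02_b
  rw [Z02_g_zero _ _ _ _ (by linarith) (by norm_num) (by linarith) h1 h2, mul_zero]

/-! ### truncation -/

noncomputable def Z02_h (L s : ℝ) : ℝ :=
  1 - (L / ∫ u in (0 : ℝ)..L, Z02_g L (L / 2) (L / 8) u) * Z02_g L (L / 2) (L / 8) s

noncomputable def Z02_t (L x : ℝ) : ℝ := ∫ s in (0 : ℝ)..x, Z02_h L s

theorem Z02_h_smooth (L : ℝ) : ContDiff ℝ ((⊤ : ℕ∞) : WithTop ℕ∞) (Z02_h L) :=
  contDiff_const.sub (contDiff_const.mul (Z02_g_smooth _ _ _))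

theorem Z02_t_deriv (L x : ℝ) : HasDerivAt (Z02_t L) (Z02_h L x) x :=
  ((Z02_h_smooth L).continuous.integral_hasStrictDerivAt 0 x).hasDerivAt

theorem Z02_t_smooth (L : ℝ) : ContDiff ℝ ((⊤ : ℕ∞) : WithTop ℕ∞) (Z02_t L) := by
  refine contDiff_infty_iff_deriv.2 ⟨fun x => (Z02_t_deriv L x).differentiableAt, ?_⟩
  have : deriv (Z02_t L) = Z02_h L := funext fun x => (Z02_t_deriv L x).deriv
  rw [this]
  exact Z02_h_smooth L

theorem Z02_t_per (L : ℝ) (hL : 0 < L) (x : ℝ) (q : ℤ) : Z02_t L (x + q * L) = Z02_t L x := by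
  have hc := (Z02_h_smooth L).continuous
  have hp : Function.Periodic (Z02_h L) L := by
    intro s
    unfold Z02_h
    have := Z02_g_per L (L / 2) (L / 8) hL s 1
    rw [Int.cast_one, one_mul] at this
    rw [this]
  have hi : ∫ s in (0 : ℝ)..L, Z02_h L s = 0 := by
    have h0 := Z02_g_int L (L / 2) (L / 8) 0 L hL (by positivity) (by linarith) (by linarith)
      (by linarith) hL
    have e0 : ∀ c : ℝ, ∫ s in (0 : ℝ)..L, (1 - c * Z02_g L (L / 2) (L / 8) s) =
        L - c * ∫ s in (0 : ℝ)..L, Z02_g L (L / 2) (L / 8) s := by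
      intro c
      rw [intervalIntegral.integral_sub (f := fun _ => (1 : ℝ))
        (g := fun s => c * Z02_g L (L / 2) (L / 8) s) intervalIntegrable_const
        ((continuous_const.mul (Z02_g_smooth _ _ _).continuous).intervalIntegrable _ _),
        intervalIntegral.integral_const_mul]
      simp
    unfold Z02_h
    rw [e0, div_mul_cancel₀ _ h0.ne', sub_self]
  have hT : Function.Periodic (Z02_t L) L := by
    intro y
    unfold Z02_t
    rw [← intervalIntegral.integral_add_adjacent_intervals (hc.intervalIntegrable 0 y)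
      (hc.intervalIntegrable y (y + L)), hp.intervalIntegral_add_eq y 0, zero_add, hi, add_zero]
  exact hT.int_mul q x

theorem Z02_t_id (L : ℝ) (hL : 0 < L) (x : ℝ) (hx : |x| ≤ L / 4) : Z02_t L x = x := by
  unfold Z02_t
  have h1 : ∀ s ∈ uIcc 0 x, Z02_h L s = 1 := by
    intro s hs
    have h2 : |s| ≤ L / 4 := by
      rw [mem_uIcc] at hs
      have h3 := abs_le.1 hx
      rcases hs with ⟨ha, hb⟩ | ⟨ha, hb⟩
      · exact abs_le.2 ⟨by linarith, by linarith⟩
      · exact abs_le.2 ⟨by linarith, by linarith⟩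
    have h3 := abs_le.1 h2
    unfold Z02_h
    rw [Z02_g_zero L _ _ _ hL (by positivity) (by linarith), mul_zero, sub_zero]
    · rw [abs_of_nonpos (by linarith)]; linarith
    · rw [abs_of_nonpos (by linarith)]; linarith
  rw [intervalIntegral.integral_congr h1]
  simp

/-! ### the field -/

noncomputable def Z02_F (n : ℕ) (L : ℝ) (Y : Fin n → Zs × ℝ → Zs × ℝ) (x : EE) : EE :=
  mkp (∑ k : Fin n, Z02_b L k (pth x) • (Y k (fun i => Z02_t L (pz x i), py x)).1)
    (∑ k : Fin n, Z02_b L k (pth x) * (Y k (fun i => Z02_t L (pz x i), py x)).2) 1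

theorem Z02_F_smooth (n : ℕ) (L : ℝ) (Y : Fin n → Zs × ℝ → Zs × ℝ)
    (hY : ∀ k, ContDiff ℝ ((⊤ : ℕ∞) : WithTop ℕ∞) (Y k)) :
    ContDiff ℝ ((⊤ : ℕ∞) : WithTop ℕ∞) (Z02_F n L Y) := by
  have hc : ∀ j : Jx, ContDiff ℝ ((⊤ : ℕ∞) : WithTop ℕ∞) (fun x : EE => x j) :=
    fun j => contDiff_euclidean.1 contDiff_id j
  have hG : ∀ k, ContDiff ℝ ((⊤ : ℕ∞) : WithTop ℕ∞)
      (fun x : EE => Y k (fun i => Z02_t L (pz x i), py x)) := fun k =>
    (hY k).comp ((contDiff_pi.2 fun i => (Z02_t_smooth L).comp (hc (Sum.inl i))).prodMk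
      (hc (Sum.inr 0)))
  have hb : ∀ k : Fin n, ContDiff ℝ ((⊤ : ℕ∞) : WithTop ℕ∞) (fun x : EE => Z02_b L k (pth x)) :=
    fun k => (Z02_b_smooth L k).comp (hc (Sum.inr 1))
  rw [contDiff_euclidean]
  rintro (i | i)
  · have e : (fun x : EE => Z02_F n L Y x (Sum.inl i)) = fun x : EE =>
        ∑ k : Fin n, Z02_b L k (pth x) * (Y k (fun i => Z02_t L (pz x i), py x)).1 i := by
      funext x
      simp [Z02_F, mkp, Finset.sum_apply]
    rw [e]
    exact ContDiff.sum fun k _ => (hb k).mul (contDiff_pi.1 (contDiff_fst.comp (hG k)) i)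
  · fin_cases i
    · show ContDiff ℝ ((⊤ : ℕ∞) : WithTop ℕ∞) (fun x : EE =>
        ∑ k : Fin n, Z02_b L k (pth x) * (Y k (fun i => Z02_t L (pz x i), py x)).2)
      exact ContDiff.sum fun k _ => (hb k).mul (contDiff_snd.comp (hG k))
    · exact contDiff_const

theorem Z02_F_per (n : ℕ) (L : ℝ) (hL : 0 < L) (Y : Fin n → Zs × ℝ → Zs × ℝ)
    (hper : ∀ k z y, Y k (z, y + L) = Y k (z, y)) : PerField L (Z02_F n L Y) := by
  intro x m
  have e1 : pth (x + lat L m) = pth x + m (Sum.inr 1) * L := by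
    show x (Sum.inr 1) + L * (m (Sum.inr 1) : ℝ) = _
    rw [mul_comm L]; rfl
  have e2 : py (x + lat L m) = py x + m (Sum.inr 0) * L := by
    show x (Sum.inr 0) + L * (m (Sum.inr 0) : ℝ) = _
    rw [mul_comm L]; rfl
  have e3 : ∀ i, pz (x + lat L m) i = pz x i + m (Sum.inl i) * L := by
    intro i
    show x (Sum.inl i) + L * (m (Sum.inl i) : ℝ) = _
    rw [mul_comm L]; rfl
  have hY' : ∀ k z (y : ℝ) (q : ℤ), Y k (z, y + q * L) = Y k (z, y) := by
    intro k z y q
    have hp : Function.Periodic (fun y : ℝ => Y k (z, y)) L := fun y => hper k z y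
    exact hp.int_mul q y
  unfold Z02_F
  simp only [e1, e2, e3, Z02_b_per L hL, Z02_t_per L hL, hY']

/-! ### bounds for periodic fields -/

theorem Z02_red (L : ℝ) (hL : 0 < L) (x : EE) :
    ∃ m : Jx → ℤ, x + lat L m ∈ (WithLp.toLp 2) '' (Set.pi univ (fun _ : Jx => Icc (0 : ℝ) L)) := by
  refine ⟨fun j => -⌊x j / L⌋, (x + lat L fun j => -⌊x j / L⌋).ofLp, ?_, rfl⟩
  intro j _
  show x j + L * ((-⌊x j / L⌋ : ℤ) : ℝ) ∈ Icc (0 : ℝ) L
  have h1 := Int.floor_le (x j / L)
  have h2 := (Int.lt_floor_add_one (x j / L)).le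
  rw [le_div_iff₀ hL] at h1
  rw [div_le_iff₀ hL] at h2
  push_cast
  constructor <;> linarith

theorem Z02_bdd (L : ℝ) (hL : 0 < L) (F : EE → EE)
    (hF : ContDiff ℝ ((⊤ : ℕ∞) : WithTop ℕ∞) F) (hper : PerField L F) :
    ∃ K M : NNReal, LipschitzWith K F ∧ ∀ x, ‖F x‖ ≤ M := by
  have hcomp : IsCompact ((WithLp.toLp 2) '' (Set.pi univ (fun _ : Jx => Icc (0 : ℝ) L)) : Set EE) :=
    (isCompact_univ_pi fun _ => isCompact_Icc).image (PiLp.continuous_toLp 2 _)
  obtain ⟨M, hM⟩ := hcomp.exists_bound_of_continuousOn hF.continuous.continuousOn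
  obtain ⟨K, hK⟩ := hcomp.exists_bound_of_continuousOn
    ((hF.continuous_fderiv (by simp)).continuousOn)
  refine ⟨Real.toNNReal K, Real.toNNReal M, ?_, ?_⟩
  · refine lipschitzWith_of_nnnorm_fderiv_le (𝕜 := ℝ) (hF.differentiable (by simp)) ?_
    intro x
    obtain ⟨m, hm⟩ := Z02_red L hL x
    have h1 : fderiv ℝ F x = fderiv ℝ F (x + lat L m) := by
      rw [← fderiv_comp_add_right]
      congr 1
      funext w
      exact (hper w m).symm
    rw [h1, ← NNReal.coe_le_coe, coe_nnnorm]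
    exact (hK _ hm).trans (Real.le_coe_toNNReal K)
  · intro x
    obtain ⟨m, hm⟩ := Z02_red L hL x
    rw [← hper x m]
    exact (hM _ hm).trans (Real.le_coe_toNNReal M)

/-! ### derivatives of curves -/

noncomputable def Z02_M : (Zs × ℝ × ℝ) →L[ℝ] EE :=
  LinearMap.toContinuousLinearMap
    { toFun := fun p => mkp p.1 p.2.1 p.2.2
      map_add' := by
        intro a b
        ext j
        rcases j with j | j
        · rfl
        · fin_cases j <;> rfl
      map_smul' := by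
        intro c a
        ext j
        rcases j with j | j
        · rfl
        · fin_cases j <;> rfl }

theorem Z02_mkp (z : ℝ → Zs) (y θ : ℝ → ℝ) (z' : Zs) (y' θ' : ℝ) (t : ℝ)
    (hz : HasDerivAt z z' t) (hy : HasDerivAt y y' t) (hθ : HasDerivAt θ θ' t) :
    HasDerivAt (fun s => mkp (z s) (y s) (θ s)) (mkp z' y' θ') t :=
  Z02_M.hasFDerivAt.comp_hasDerivAt t (hz.prodMk (hy.prodMk hθ))

theorem Z02_F_mkp (n : ℕ) (L : ℝ) (Y : Fin n → Zs × ℝ → Zs × ℝ) (z : Zs) (y θ : ℝ) :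
    Z02_F n L Y (mkp z y θ) =
      mkp (∑ k : Fin n, Z02_b L k θ • (Y k (fun i => Z02_t L (z i), y)).1)
        (∑ k : Fin n, Z02_b L k θ * (Y k (fun i => Z02_t L (z i), y)).2) 1 := rfl

theorem Z02_uniq (F : EE → EE) (K : NNReal) (hK : LipschitzWith K F) (φ : ℝ → EE → EE)
    (hφ : IsFlow F φ) (τ : ℝ) (hτ : 0 ≤ τ) (x : ℝ → EE)
    (hx : ∀ t ∈ Icc 0 τ, HasDerivAt x (F (x t)) t) : φ τ (x 0) = x τ := by
  have key := ODE_solution_unique_of_mem_Icc_right (v := fun _ => F) (s := fun _ => univ)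
    (K := K) (a := 0) (b := τ) (f := fun s => φ s (x 0)) (g := x)
    (fun t _ => hK.lipschitzOnWith)
    (fun t _ => (hφ.2 (x 0) t).continuousAt.continuousWithinAt)
    (fun t _ => (hφ.2 (x 0) t).hasDerivWithinAt) (fun t _ => mem_univ _)
    (fun t ht => (hx t ht).continuousAt.continuousWithinAt)
    (fun t ht => (hx t ⟨ht.1, ht.2.le⟩).hasDerivWithinAt) (fun t _ => mem_univ _)
    (hφ.1 (x 0))
  exact key ⟨hτ, le_rfl⟩

/-- TARGET -/
theorem realize (n : ℕ) (L : ℝ) (hL : (n : ℝ) + 1 ≤ L) (Y : Fin n → Zs × ℝ → Zs × ℝ)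
    (hY : ∀ k, ContDiff ℝ ((⊤ : ℕ∞) : WithTop ℕ∞) (Y k))
    (hper : ∀ k z y, Y k (z, y + L) = Y k (z, y)) :
    ∃ (F : EE → EE) (φ : ℝ → EE → EE), Realz n Y L F φ := by
  have hL1 : 1 ≤ L := by
    have : (0 : ℝ) ≤ n := Nat.cast_nonneg n
    linarith
  have hL0 : 0 < L := by linarith
  have hsm := Z02_F_smooth n L Y hY
  have hpf := Z02_F_per n L hL0 Y hper
  obtain ⟨K, M, hK, hM⟩ := Z02_bdd L hL0 _ hsm hpf
  choose γ h0 h1 using Pool.Agent.H664.Flow.exists_solution hK hM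
  have hflow : IsFlow (Z02_F n L Y) (fun t x => γ x t) := ⟨h0, h1⟩
  refine ⟨Z02_F n L Y, fun t x => γ x t, hsm, hpf, fun x => rfl, hflow, ?_, ?_⟩
  · intro k q ζ η hζ
    have hkn : (k : ℝ) + 1 ≤ n := by exact_mod_cast k.2
    have hbc := (Z02_b_smooth L k).continuous
    have hbc' : Continuous fun s : ℝ => Z02_b L k (k + s) := by fun_prop
    obtain ⟨B, hB⟩ : ∃ B : ℝ → ℝ, B = fun t => ∫ s in (0 : ℝ)..t, Z02_b L k (k + s) := ⟨_, rfl⟩
    have hBd : ∀ t, HasDerivAt B (Z02_b L k (k + t)) t := by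
      intro t
      rw [hB]
      exact (hbc'.integral_hasStrictDerivAt 0 t).hasDerivAt
    have hB0 : B 0 = 0 := by rw [hB]; simp
    have hB1 : B 1 = 1 := by
      rw [hB]
      simp only
      rw [intervalIntegral.integral_comp_add_left (fun s => Z02_b L k s) (k : ℝ), add_zero]
      exact Z02_b_int L hL1 k
    have hmono : Monotone B := by
      refine monotone_of_deriv_nonneg (fun t => (hBd t).differentiableAt) fun t => ?_
      rw [(hBd t).deriv]
      exact Z02_b_nonneg L hL1 k _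
    have hBm : ∀ t ∈ Icc (0 : ℝ) 1, B t ∈ Icc (0 : ℝ) 1 := fun t ht =>
      ⟨by rw [← hB0]; exact hmono ht.1, by rw [← hB1]; exact hmono ht.2⟩
    have hz : ∀ j : Fin n, j ≠ k → ∀ t ∈ Icc (0 : ℝ) 1, Z02_b L j (q * L + k + t) = 0 := by
      intro j hj t ht
      have e : (q : ℝ) * L + k + t = (k + t) + q * L := by ring
      rw [e, Z02_b_per L hL0]
      have hjn : (j : ℝ) + 1 ≤ n := by exact_mod_cast j.2
      have hj0 : (0 : ℝ) ≤ j := Nat.cast_nonneg _
      have hk0 : (0 : ℝ) ≤ k := Nat.cast_nonneg _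
      rcases lt_or_gt_of_ne (fun h => hj (Fin.ext h) : (j : ℕ) ≠ k) with h | h
      · have h' : (j : ℝ) + 1 ≤ k := by exact_mod_cast h
        apply Z02_b_zero L hL1
        · rw [abs_of_nonneg (by linarith [ht.1])]; linarith [ht.1]
        · rw [abs_of_nonneg (by linarith [ht.1])]; linarith [ht.2]
      · have h' : (k : ℝ) + 1 ≤ j := by exact_mod_cast h
        apply Z02_b_zero L hL1
        · rw [abs_of_nonpos (by linarith [ht.2])]; linarith [ht.2]
        · rw [abs_of_nonpos (by linarith [ht.2])]; linarith [ht.1]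
    have key := Z02_uniq _ K hK _ hflow 1 zero_le_one
      (fun t => mkp (ζ (B t)) (η (B t)) (q * L + k + t)) (by
        intro t ht
        obtain ⟨hd, hbd⟩ := hζ (B t) (hBm t ht)
        have hcomp := hd.scomp t (hBd t)
        have hd1 : HasDerivAt (fun s => ζ (B s)) (Z02_b L k (k + t) • (Y k (ζ (B t), η (B t))).1) t :=
          (ContinuousLinearMap.fst ℝ Zs ℝ).hasFDerivAt.comp_hasDerivAt t hcomp
        have hd2 : HasDerivAt (fun s => η (B s)) (Z02_b L k (k + t) • (Y k (ζ (B t), η (B t))).2) t :=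
          (ContinuousLinearMap.snd ℝ Zs ℝ).hasFDerivAt.comp_hasDerivAt t hcomp
        have hd3 : HasDerivAt (fun s : ℝ => (q : ℝ) * L + k + s) 1 t :=
          (hasDerivAt_id t).const_add _
        have hd4 := Z02_mkp _ _ _ _ _ _ t hd1 hd2 hd3
        have hT : (fun i => Z02_t L (ζ (B t) i)) = ζ (B t) :=
          funext fun i => Z02_t_id L hL0 _ (hbd i)
        have e : (q : ℝ) * L + k + t = (k + t) + q * L := by ring
        have hbk : Z02_b L k (q * L + k + t) = Z02_b L k (k + t) := by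
          rw [e, Z02_b_per L hL0]
        have hF : Z02_F n L Y (mkp (ζ (B t)) (η (B t)) (q * L + k + t)) =
            mkp (Z02_b L k (k + t) • (Y k (ζ (B t), η (B t))).1)
              (Z02_b L k (k + t) • (Y k (ζ (B t), η (B t))).2) 1 := by
          rw [Z02_F_mkp, hT]
          rw [Finset.sum_eq_single k, Finset.sum_eq_single k, hbk]
          · rfl
          · intro j _ hj
            rw [hz j hj t ht, zero_mul]
          · intro h; exact absurd (Finset.mem_univ k) h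
          · intro j _ hj
            rw [hz j hj t ht, zero_smul]
          · intro h; exact absurd (Finset.mem_univ k) h
        rw [hF]
        exact hd4)
    simp only [hB0, hB1, add_zero] at key
    exact key
  · intro q z y t ht0 htL
    have key := Z02_uniq _ K hK _ hflow t ht0 (fun s => mkp z y (q * L + n + s)) (by
      intro s hs
      have hd := Z02_mkp (fun _ => z) (fun _ => y) (fun s : ℝ => (q : ℝ) * L + n + s) 0 0 1 s
        (hasDerivAt_const _ _) (hasDerivAt_const _ _) ((hasDerivAt_id s).const_add _)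
      have hz : ∀ j : Fin n, Z02_b L j (q * L + n + s) = 0 := by
        intro j
        have e : (q : ℝ) * L + n + s = (n + s) + q * L := by ring
        rw [e, Z02_b_per L hL0]
        have hjn : (j : ℝ) + 1 ≤ n := by exact_mod_cast j.2
        have hj0 : (0 : ℝ) ≤ j := Nat.cast_nonneg _
        apply Z02_b_zero L hL1
        · rw [abs_of_nonneg (by linarith [hs.1])]; linarith [hs.1]
        · rw [abs_of_nonneg (by linarith [hs.1])]; linarith [hs.2]
      have hF : Z02_F n L Y (mkp z y (q * L + n + s)) = mkp 0 0 1 := by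
        rw [Z02_F_mkp]
        simp only [hz, zero_smul, zero_mul, Finset.sum_const_zero]
      rw [hF]
      exact hd)
    simp only [add_zero] at key
    exact key

end Pool.Agent.Aub
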