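import Mathlib
import Pool.Agent.Helper961.Aub.Base
import Pool.Agent.Helper961.Aub.Mach
import Pool.Agent.Helper961.Aub.Sym
import Pool.Agent.Helper961.Aub.Torus
import Pool.Agent.Helper961.Aub.Phys

set_option autoImplicit false

open Set Filter Topology MeasureTheory

namespace Pool.Agent.Aub

theorem Z01_LLpos : 0 < LL := by unfold LL; positivity

theorem Z01_LLge : 1 ≤ LL := by unfold LL; exact one_le_pow₀ (by norm_num)

/-- the threshold value of the cosine -/
noncomputable def Z01_c0 : ℝ := Real.cos (2 * Real.pi * (1 / 4) / LL)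

theorem Z01_c0_lt : Z01_c0 < 1 := by
  have hL := Z01_LLge
  have hL0 := Z01_LLpos
  have hpi := Real.pi_pos
  have h1 : 0 < 2 * Real.pi * (1 / 4) / LL := by positivity
  have h2 : 2 * Real.pi * (1 / 4) / LL ≤ Real.pi := by
    rw [div_le_iff₀ hL0]
    nlinarith
  have := Real.cos_lt_cos_of_nonneg_of_le_pi (le_refl 0) h2 h1
  rw [Real.cos_zero] at this
  exact this

/-- the argument of the smooth transition -/
noncomputable def Z01_u (y : ℝ) : ℝ := (-Real.cos (2 * Real.pi * y / LL) - Z01_c0) / (1 - Z01_c0)

/-- TARGET -/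
theorem rho_exists : Nonempty Rho := by
  have hL := Z01_LLge
  have hL0 := Z01_LLpos
  have hpi := Real.pi_pos
  have hc : 0 < 1 - Z01_c0 := by linarith [Z01_c0_lt]
  refine ⟨{ ρ := fun y => Real.smoothTransition (Z01_u y), smooth := ?_, per := ?_, nonneg := ?_,
            le_one := ?_, one := ?_, zero := ?_ }⟩
  · apply Real.smoothTransition.contDiff.comp
    unfold Z01_u
    apply ContDiff.div_const
    apply ContDiff.sub _ contDiff_const
    apply ContDiff.neg
    apply Real.contDiff_cos.comp
    exact (contDiff_const.mul contDiff_id).div_const _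
  · intro y
    have h1 : 2 * Real.pi * (y + LL) / LL = 2 * Real.pi * y / LL + 2 * Real.pi := by
      field_simp
    have h2 : Z01_u (y + LL) = Z01_u y := by
      unfold Z01_u
      rw [h1, Real.cos_add_two_pi]
    simp only [h2]
  · intro y; exact Real.smoothTransition.nonneg _
  · intro y; exact Real.smoothTransition.le_one _
  · have h1 : 2 * Real.pi * (LL / 2) / LL = Real.pi := by field_simp
    have h2 : Z01_u (LL / 2) = 1 := by
      unfold Z01_u
      rw [h1, Real.cos_pi, neg_neg, div_self hc.ne']
    simp only [h2]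
    exact Real.smoothTransition.one
  · intro y hy0 hyL hd
    apply Real.smoothTransition.zero_of_nonpos
    unfold Z01_u
    apply div_nonpos_of_nonpos_of_nonneg _ hc.le
    have h1 : 2 * Real.pi * y / LL = 2 * Real.pi * (y - LL / 2) / LL + Real.pi := by
      field_simp
      ring
    rw [h1, Real.cos_add_pi, neg_neg, ← Real.cos_abs]
    have h2 : |2 * Real.pi * (y - LL / 2) / LL| = 2 * Real.pi * |y - LL / 2| / LL := by
      rw [abs_div, abs_mul, abs_of_pos hL0, abs_of_pos (by positivity : 0 < 2 * Real.pi)]
    rw [h2]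
    have h3 : |y - LL / 2| ≤ LL / 2 := by
      rw [abs_le]; constructor <;> linarith
    have h4 : 2 * Real.pi * |y - LL / 2| / LL ≤ Real.pi := by
      rw [div_le_iff₀ hL0]
      nlinarith
    have h5 : 2 * Real.pi * (1 / 4) / LL ≤ 2 * Real.pi * |y - LL / 2| / LL := by
      apply div_le_div_of_nonneg_right _ hL0.le
      nlinarith
    have h6 := Real.cos_le_cos_of_nonneg_of_le_pi (by positivity) h4 h5
    unfold Z01_c0
    linarith

end Pool.Agent.Aub
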