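import Mathlib
import Pool.Agent.Helper961.Aub.Base
import Pool.Agent.Helper961.Aub.Mach
import Pool.Agent.Helper961.Aub.Sym
import Pool.Agent.Helper961.Aub.Torus
import Pool.Agent.Helper961.Aub.Phys

set_option autoImplicit false

open Set Filter Topology MeasureTheory

namespace Pool.Agent.Aub


section Z03
variable {E : Type*} [NormedAddCommGroup E] [NormedSpace ℝ E]


@[fun_prop] theorem Z03_stp (a b : ℝ) {f : E → ℝ} (hf : ContDiff ℝ ((⊤ : ℕ∞) : WithTop ℕ∞) f) :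
    ContDiff ℝ ((⊤ : ℕ∞) : WithTop ℕ∞) (fun x => stp a b (f x)) := by
  unfold stp
  exact (Real.smoothTransition.contDiff (n := (⊤ : ℕ∞))).comp ((hf.sub contDiff_const).div_const _)

@[fun_prop] theorem Z03_Sc {f : E → ℝ} (hf : ContDiff ℝ ((⊤ : ℕ∞) : WithTop ℕ∞) f) :
    ContDiff ℝ ((⊤ : ℕ∞) : WithTop ℕ∞) (fun x => Sc (f x)) := by
  unfold Sc
  exact Z03_stp _ _ hf

@[fun_prop] theorem Z03_S1 {f : E → ℝ} (hf : ContDiff ℝ ((⊤ : ℕ∞) : WithTop ℕ∞) f) :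
    ContDiff ℝ ((⊤ : ℕ∞) : WithTop ℕ∞) (fun x => S1 (f x)) := by
  unfold S1
  exact ContDiff.sum (fun j _ => Z03_stp _ _ hf)

@[fun_prop] theorem Z03_S2 {f : E → ℝ} (hf : ContDiff ℝ ((⊤ : ℕ∞) : WithTop ℕ∞) f) :
    ContDiff ℝ ((⊤ : ℕ∞) : WithTop ℕ∞) (fun x => S2 (f x)) := by
  unfold S2
  exact ContDiff.sum (fun j _ => Z03_stp _ _ hf)

@[fun_prop] theorem Z03_Qx {f : E → ℝ} (hf : ContDiff ℝ ((⊤ : ℕ∞) : WithTop ℕ∞) f) :
    ContDiff ℝ ((⊤ : ℕ∞) : WithTop ℕ∞) (fun x => Qx (f x)) := by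
  unfold Qx
  exact ContDiff.sum (fun j _ => Z03_stp _ _ hf)

attribute [local irreducible] S1 S2 Qx Sc

@[fun_prop] theorem Z03_gT {f : E → ℝ} (hf : ContDiff ℝ ((⊤ : ℕ∞) : WithTop ℕ∞) f) :
    ContDiff ℝ ((⊤ : ℕ∞) : WithTop ℕ∞) (fun x => gT (f x)) := by
  unfold gT
  fun_prop

@[fun_prop] theorem Z03_gt {f : E → ℝ} (hf : ContDiff ℝ ((⊤ : ℕ∞) : WithTop ℕ∞) f) :
    ContDiff ℝ ((⊤ : ℕ∞) : WithTop ℕ∞) (fun x => gt (f x)) := by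
  unfold gt
  fun_prop

@[fun_prop] theorem Z03_cT {f g : E → ℝ} (hf : ContDiff ℝ ((⊤ : ℕ∞) : WithTop ℕ∞) f) (hg : ContDiff ℝ ((⊤ : ℕ∞) : WithTop ℕ∞) g) :
    ContDiff ℝ ((⊤ : ℕ∞) : WithTop ℕ∞) (fun x => cT (f x) (g x)) := by
  unfold cT
  fun_prop

@[fun_prop] theorem Z03_ct {f g : E → ℝ} (hf : ContDiff ℝ ((⊤ : ℕ∞) : WithTop ℕ∞) f) (hg : ContDiff ℝ ((⊤ : ℕ∞) : WithTop ℕ∞) g) :
    ContDiff ℝ ((⊤ : ℕ∞) : WithTop ℕ∞) (fun x => ct (f x) (g x)) := by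
  unfold ct
  fun_prop

theorem Z03_GG {f0 f1 f2 t : E → ℝ} (h0 : ContDiff ℝ ((⊤ : ℕ∞) : WithTop ℕ∞) f0) (h1 : ContDiff ℝ ((⊤ : ℕ∞) : WithTop ℕ∞) f1)
    (h2 : ContDiff ℝ ((⊤ : ℕ∞) : WithTop ℕ∞) f2) (ht : ContDiff ℝ ((⊤ : ℕ∞) : WithTop ℕ∞) t) (k : Fin 3) :
    ContDiff ℝ ((⊤ : ℕ∞) : WithTop ℕ∞) (fun x => GG (f0 x) (f1 x) (f2 x) (t x) k) := by
  unfold GG carryHi carryLo
  fin_cases k
  · show ContDiff ℝ ((⊤ : ℕ∞) : WithTop ℕ∞) (fun x => f0 x + ct (f0 x) (f1 x + ct (f1 x) (f2 x + t x)))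
    fun_prop
  · show ContDiff ℝ ((⊤ : ℕ∞) : WithTop ℕ∞) (fun x => (f1 x + ct (f1 x) (f2 x + t x)) - mm * cT (f0 x) (f1 x + ct (f1 x) (f2 x + t x)))
    fun_prop
  · show ContDiff ℝ ((⊤ : ℕ∞) : WithTop ℕ∞) (fun x => (f2 x + t x) - mm * cT (f1 x) (f2 x + t x))
    fun_prop

@[fun_prop] theorem Z03_stk {z : E → Zs} (hz : ContDiff ℝ ((⊤ : ℕ∞) : WithTop ℕ∞) z) (i : Fin 3) (tr : Fin 5) :
    ContDiff ℝ ((⊤ : ℕ∞) : WithTop ℕ∞) (fun x => stk (z x) i tr) := by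
  unfold stk
  exact contDiff_pi.1 hz _

@[fun_prop] theorem Z03_reg {z : E → Zs} (hz : ContDiff ℝ ((⊤ : ℕ∞) : WithTop ℕ∞) z) (k : Fin 12) :
    ContDiff ℝ ((⊤ : ℕ∞) : WithTop ℕ∞) (fun x => reg (z x) k) := by
  unfold reg
  exact contDiff_pi.1 hz _

@[fun_prop] theorem Z03_Wt {z : E → Zs} (hz : ContDiff ℝ ((⊤ : ℕ∞) : WithTop ℕ∞) z) (b : Bool) :
    ContDiff ℝ ((⊤ : ℕ∞) : WithTop ℕ∞) (fun x => Wt b (z x)) := by
  unfold Wt
  cases b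
  · simp only [Bool.false_eq_true, if_false]
    fun_prop
  · simp only [if_true]
    fun_prop

theorem Z03_mkz {S : E → Stk} {R : E → Fin 12 → ℝ} (hS : ∀ i tr, ContDiff ℝ ((⊤ : ℕ∞) : WithTop ℕ∞) (fun x => S x i tr))
    (hR : ∀ k, ContDiff ℝ ((⊤ : ℕ∞) : WithTop ℕ∞) (fun x => R x k)) : ContDiff ℝ ((⊤ : ℕ∞) : WithTop ℕ∞) (fun x => mkz (S x) (R x)) := by
  rw [contDiff_pi]
  rintro (⟨i, tr⟩ | k)
  · exact hS i tr
  · exact hR k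

theorem Z03_f0 (cc : Clamp (5/4)) (cx : Clamp (mm + 1/2)) (s d : Fin 3) {z : E → Zs}
    (hz : ContDiff ℝ ((⊤ : ℕ∞) : WithTop ℕ∞) z) : ContDiff ℝ ((⊤ : ℕ∞) : WithTop ℕ∞) (fun x => f0 cc cx s d (z x)) := by
  unfold f0
  refine Z03_mkz (fun i tr => ?_) (fun k => contDiff_const)
  split_ifs
  · exact cc.smooth.comp (Z03_stk hz i tr)
  · exact cx.smooth.comp (Z03_stk hz i tr)
  · exact contDiff_const

theorem Z03_f1 (s d : Fin 3) {z : E → Zs}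
    (hz : ContDiff ℝ ((⊤ : ℕ∞) : WithTop ℕ∞) z) : ContDiff ℝ ((⊤ : ℕ∞) : WithTop ℕ∞) (fun x => f1 s d (z x)) := by
  unfold f1
  refine Z03_mkz (fun i tr => contDiff_const) (fun k => ?_)
  fin_cases k
  · exact contDiff_const
  · exact Z03_Sc (Z03_stk hz _ _)
  · exact Z03_Sc (Z03_stk hz _ _)
  · exact Z03_Sc (Z03_stk hz _ _)
  · exact Z03_S1 (Z03_stk hz _ _)
  · exact Z03_S1 (Z03_stk hz _ _)
  · exact Z03_S1 (Z03_stk hz _ _)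
  · exact Z03_S2 (Z03_stk hz _ _)
  · exact Z03_S2 (Z03_stk hz _ _)
  · exact Z03_S2 (Z03_stk hz _ _)
  · exact contDiff_const
  · exact contDiff_const

theorem Z03_f2 (d : Fin 3) {z : E → Zs}
    (hz : ContDiff ℝ ((⊤ : ℕ∞) : WithTop ℕ∞) z) : ContDiff ℝ ((⊤ : ℕ∞) : WithTop ℕ∞) (fun x => f2 d (z x)) := by
  unfold f2
  refine Z03_mkz (fun i tr => contDiff_const) (fun k => ?_)
  fin_cases k
  · exact contDiff_const
  · exact contDiff_const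
  · exact contDiff_const
  · exact contDiff_const
  · exact contDiff_const
  · exact contDiff_const
  · exact contDiff_const
  · exact contDiff_const
  · exact contDiff_const
  · exact contDiff_const
  · show ContDiff ℝ ((⊤ : ℕ∞) : WithTop ℕ∞) (fun x => (1 - Sc (reg (z x) 1)) * gT (stk (z x) d 0) * cT (Qx (reg (z x) 6)) (stk (z x) d 2))
    fun_prop
  · show ContDiff ℝ ((⊤ : ℕ∞) : WithTop ℕ∞) (fun x => (1 - Sc (reg (z x) 1)) * gt (stk (z x) d 0) * ct (Qx (reg (z x) 6)) (stk (z x) d 2))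
    fun_prop

theorem Z03_f3 (b : Bool) (s d : Fin 3) {z : E → Zs}
    (hz : ContDiff ℝ ((⊤ : ℕ∞) : WithTop ℕ∞) z) : ContDiff ℝ ((⊤ : ℕ∞) : WithTop ℕ∞) (fun x => f3 b s d (z x)) := by
  unfold f3
  refine Z03_mkz (fun i tr => ?_) (fun k => contDiff_const)
  split_ifs
  · refine ContDiff.neg (ContDiff.mul (Z03_Wt hz b) ?_)
    fin_cases tr
    · exact Z03_Sc (Z03_reg hz _)
    · exact Z03_Sc (Z03_reg hz _)
    · exact Z03_Qx (Z03_reg hz _)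
    · exact Z03_Qx (Z03_reg hz _)
    · exact Z03_Qx (Z03_reg hz _)
  · fun_prop
  · exact contDiff_const

theorem Z03_f4 (b : Bool) (s d : Fin 3) {z : E → Zs}
    (hz : ContDiff ℝ ((⊤ : ℕ∞) : WithTop ℕ∞) z) : ContDiff ℝ ((⊤ : ℕ∞) : WithTop ℕ∞) (fun x => f4 b s d (z x)) := by
  unfold f4
  refine Z03_mkz (fun i tr => ?_) (fun k => contDiff_const)
  split_ifs
  · fun_prop
  · fun_prop
  · exact contDiff_const

theorem Z03_pushed {r : E → ℝ} {z : E → Zs} (hr : ContDiff ℝ ((⊤ : ℕ∞) : WithTop ℕ∞) r)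
    (hz : ContDiff ℝ ((⊤ : ℕ∞) : WithTop ℕ∞) z) (tr : Fin 5) : ContDiff ℝ ((⊤ : ℕ∞) : WithTop ℕ∞) (fun x => pushed (r x) (z x) tr) := by
  have hG : ∀ k, ContDiff ℝ ((⊤ : ℕ∞) : WithTop ℕ∞) (fun x =>
      GG (Qx (reg (z x) 4)) (Qx (reg (z x) 5)) (Qx (reg (z x) 6)) (Sc (reg (z x) 11)) k) :=
    fun k => Z03_GG (Z03_Qx (Z03_reg hz _)) (Z03_Qx (Z03_reg hz _)) (Z03_Qx (Z03_reg hz _))
      (Z03_Sc (Z03_reg hz _)) k
  unfold pushed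
  fin_cases tr
  · show ContDiff ℝ ((⊤ : ℕ∞) : WithTop ℕ∞) (fun x => 1 - Sc (reg (z x) 1))
    fun_prop
  · show ContDiff ℝ ((⊤ : ℕ∞) : WithTop ℕ∞) (fun x => (1 - Sc (reg (z x) 1)) * (1 - Sc (reg (z x) 3)))
    fun_prop
  · exact Z03_Qx ((hG 0).mul (contDiff_const.sub hr))
  · exact Z03_Qx ((hG 1).mul (contDiff_const.sub hr))
  · exact Z03_Qx ((hG 2).mul (contDiff_const.sub hr))

theorem Z03_f5 (b : Bool) (d : Fin 3) {r : E → ℝ} {z : E → Zs} (hr : ContDiff ℝ ((⊤ : ℕ∞) : WithTop ℕ∞) r)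
    (hz : ContDiff ℝ ((⊤ : ℕ∞) : WithTop ℕ∞) z) : ContDiff ℝ ((⊤ : ℕ∞) : WithTop ℕ∞) (fun x => f5 b d (r x) (z x)) := by
  unfold f5
  refine Z03_mkz (fun i tr => ?_) (fun k => contDiff_const)
  split_ifs
  · exact (Z03_Wt hz b).mul (Z03_pushed hr hz tr)
  · exact contDiff_const

theorem Z03_f6 {z : E → Zs} (hz : ContDiff ℝ ((⊤ : ℕ∞) : WithTop ℕ∞) z) : ContDiff ℝ ((⊤ : ℕ∞) : WithTop ℕ∞) (fun x => f6 (z x)) := by
  unfold f6
  refine Z03_mkz (fun i tr => contDiff_const) (fun k => ?_)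
  split_ifs
  · exact contDiff_const
  · fun_prop

theorem Z03_g0 (ty : Ty) (p : Fin 3) {z : E → Zs} (hz : ContDiff ℝ ((⊤ : ℕ∞) : WithTop ℕ∞) z) :
    ContDiff ℝ ((⊤ : ℕ∞) : WithTop ℕ∞) (fun x => g0 ty p (z x)) := by
  unfold g0
  refine Z03_mkz (fun i tr => contDiff_const) (fun k => ?_)
  split_ifs
  · exact contDiff_const
  · fun_prop
  · exact contDiff_const

theorem Z03_g1 {z : E → Zs} (hz : ContDiff ℝ ((⊤ : ℕ∞) : WithTop ℕ∞) z) : ContDiff ℝ ((⊤ : ℕ∞) : WithTop ℕ∞) (fun x => g1 (z x)) := by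
  unfold g1
  refine Z03_mkz (fun i tr => contDiff_const) (fun k => ?_)
  split_ifs
  · fun_prop
  · exact contDiff_const

theorem Z03_slotf (cc : Clamp (5/4)) (cx : Clamp (mm + 1/2)) (ty : Ty) (p : Fin 3) {r : E → ℝ}
    {z : E → Zs} (hr : ContDiff ℝ ((⊤ : ℕ∞) : WithTop ℕ∞) r) (hz : ContDiff ℝ ((⊤ : ℕ∞) : WithTop ℕ∞) z) (j : Fin 16) :
    ContDiff ℝ ((⊤ : ℕ∞) : WithTop ℕ∞) (fun x => slotf cc cx ty p (r x) j (z x)) := by
  unfold slotf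
  fin_cases j
  · exact Z03_g0 ty p hz
  · exact Z03_f0 cc cx _ _ hz
  · exact Z03_f1 _ _ hz
  · exact Z03_f2 _ hz
  · exact Z03_f3 _ _ _ hz
  · exact Z03_f4 _ _ _ hz
  · show ContDiff ℝ ((⊤ : ℕ∞) : WithTop ℕ∞) (fun x => f5 true (p + 1) (if ty = Ty.E then r x else 0) (z x))
    refine Z03_f5 _ _ ?_ hz
    split_ifs
    · exact hr
    · exact contDiff_const
  · exact Z03_f6 hz
  · exact Z03_f0 cc cx _ _ hz
  · exact Z03_f1 _ _ hz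
  · exact Z03_f2 _ hz
  · exact Z03_f3 _ _ _ hz
  · exact Z03_f4 _ _ _ hz
  · exact Z03_f5 (r := fun _ => 0) _ _ contDiff_const hz
  · exact Z03_f6 hz
  · exact Z03_g1 hz

end Z03

/-- TARGET -/
theorem YY_smooth (cc : Clamp (5/4)) (cx : Clamp (mm + 1/2)) (rh : Rho) :
    (∀ k, ContDiff ℝ ((⊤ : ℕ∞) : WithTop ℕ∞) (YY cc cx rh k)) ∧
    ∀ k z y, YY cc cx rh k (z, y + LL) = YY cc cx rh k (z, y) := by
  constructor
  · intro k
    unfold YY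
    by_cases h : k.1 < 96
    · simp only [h, dif_pos]
      exact (Z03_slotf cc cx _ _ (rh.smooth.comp contDiff_snd) contDiff_fst _).prodMk contDiff_const
    · simp only [h, dif_neg, not_false_eq_true]
      refine contDiff_const.prodMk ?_
      unfold psi
      exact ((Real.contDiff_sin.of_le le_top).comp ((contDiff_const.mul contDiff_snd).div_const _)).pow 2
  · intro k z y
    unfold YY
    simp only []
    rw [rh.per]
    have hL : LL ≠ 0 := by unfold LL; positivity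
    have hp : psi (y + LL) = psi y := by
      unfold psi
      have : Real.pi * (y + LL) / LL = Real.pi * y / LL + Real.pi := by
        field_simp
      rw [this, Real.sin_add_pi]
      ring
    rw [hp]


end Pool.Agent.Aub
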