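import Mathlib
import Pool.Agent.Helper961.Aub.Base
import Pool.Agent.Helper961.Aub.Mach
import Pool.Agent.Helper961.Aub.Sym
import Pool.Agent.Helper961.Aub.Torus
import Pool.Agent.Helper961.Aub.Phys
import Pool.Agent.Helper961.Aub.ZA
import Pool.Agent.Helper961.Aub.ZB

set_option autoImplicit false

open Set Filter Topology MeasureTheory

namespace Pool.Agent.Aub

theorem Z19_base : ∀ N : ℕ, base N [] := by
  intro N
  induction N with
  | zero => trivial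
  | succ N ih => exact ⟨rfl, ih⟩

/-- TARGET -/
theorem upper (cc : Clamp (5/4)) (cx : Clamp (mm + 1/2)) (rh : Rho) {F : EE → EE}
    {φ : ℝ → EE → EE} (h : Realz 97 (YY cc cx rh) LL F φ) :
    ∀ ε > 0, ∀ T > 0, ∃ w : ℕ → EE, (∀ n, w n ∈ KK) ∧
      ∀ n, Relation.TransGen (chstep LL φ ε T) (w n) (w (n + 1)) := by
  intro ε hε T _
  have hc : (0 : ℝ) < ((mm : ℝ) + 1) * 4 := by positivity
  obtain ⟨n, hn⟩ : ∃ n : ℕ, (1 / lam : ℝ) ^ n < ε / (((mm : ℝ) + 1) * 4) :=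
    exists_pow_lt_of_lt_one (by positivity) (by norm_num [lam])
  have hlam : (1 : ℝ) < lam := by norm_num [lam]
  have hlam0 : (0 : ℝ) < lam := by linarith
  obtain ⟨N, hN1, hN⟩ : ∃ N : ℕ, 1 ≤ N ∧ ((mm : ℝ) + 1) * 4 / lam ^ N < ε := by
    refine ⟨n + 1, by omega, ?_⟩
    have h1 : (1 : ℝ) ≤ lam ^ n := one_le_pow₀ hlam.le
    have h2 : ((mm : ℝ) + 1) * 4 / lam ^ (n + 1) ≤ ((mm : ℝ) + 1) * 4 / lam ^ n := by
      apply div_le_div_of_nonneg_left hc.le (by positivity)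
      exact pow_le_pow_right₀ hlam.le (by omega)
    refine lt_of_le_of_lt h2 ?_
    rw [one_div, inv_pow, lt_div_iff₀ hc] at hn
    rw [div_eq_mul_inv, mul_comm]
    exact hn
  let G := {g : List Cell × (Fin 12 → ℝ) // Dle g.1 ∧ Val Ty.E g.1 ∧ base (6 * N) g.1 ∧
    ∀ k, |g.2 k| ≤ 1/32}
  have step : ∀ g : G, ∃ (w : EE) (g' : G), w ∈ KK ∧
      Relation.TransGen (chstep LL φ ε T) (pt g.1.1 g.1.2 0) w ∧
      Relation.TransGen (chstep LL φ ε T) w (pt g'.1.1 g'.1.2 0) := by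
    rintro ⟨⟨l, R⟩, hD, hv, hb, hR⟩
    obtain ⟨l1, R1, hD1, hv1, hb1, hR1, hs1, hch1⟩ :=
      claimA cc cx rh h ε T hε N hN hN1 l hD hv hb R hR
    have e6 : 6 * N = (6 * N - 1) + 1 := by omega
    rw [e6] at hb1
    obtain ⟨w, l2, R2, hw, hD2, hv2, hb2, hR2, hch2, hch3⟩ :=
      claimB cc cx rh h ε T hε (6 * N - 1) l1 hD1 hv1 hb1 R1 hR1 hs1
    rw [← e6] at hb2
    exact ⟨w, ⟨⟨l2, R2⟩, hD2, hv2, hb2, hR2⟩, hw, Relation.TransGen.trans_right hch1 hch2, hch3⟩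
  choose W nx hK h1 h2 using step
  let g0 : G := ⟨⟨[], 0⟩, by intro a ha; simp at ha, trivial, Z19_base _, by
    intro k
    simp⟩
  refine ⟨fun n => W (nx^[n] g0), fun n => hK _, fun n => ?_⟩
  have e := h2 (nx^[n] g0)
  rw [← Function.iterate_succ_apply' nx n g0] at e
  exact e.trans (h1 _)

end Pool.Agent.Aub
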