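import Mathlib
import Pool.Agent.Helper961.Aub.Base
import Pool.Agent.Helper961.Aub.Mach
import Pool.Agent.Helper961.Aub.Sym
import Pool.Agent.Helper961.Aub.Torus
import Pool.Agent.Helper961.Aub.Phys
import Pool.Agent.Helper961.Aub.XClamp
import Pool.Agent.Helper961.Aub.ZRho
import Pool.Agent.Helper961.Aub.ZSmooth
import Pool.Agent.Helper961.Aub.ZReal
import Pool.Agent.Helper961.Aub.ZFlow
import Pool.Agent.Helper961.Aub.ZUpper
import Pool.Agent.Helper961.Aub.ZLower
import Pool.Agent.Helper961.Aub.ZCr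

set_option autoImplicit false

open Set Filter Topology MeasureTheory

namespace Pool.Agent.Aub

/-- TARGET -/
theorem final : ∃ (F : EE → EE) (φ : ℝ → EE → EE),
    ContDiff ℝ ((⊤ : ℕ∞) : WithTop ℕ∞) F ∧ PerField LL F ∧ IsFlow F φ ∧
    ∃ x, ChainRec LL φ x ∧ x ∉ AubrySet LL F := by
  obtain ⟨cc⟩ := clamp_exists (5/4) (by norm_num) (by norm_num)
  obtain ⟨cx⟩ := clamp_exists (mm + 1/2) (by norm_num [mm]) (by norm_num [mm])
  obtain ⟨rh⟩ := rho_exists
  obtain ⟨hY, hP⟩ := YY_smooth cc cx rh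
  obtain ⟨F, φ, h⟩ := realize 97 LL (by norm_num [LL]) (YY cc cx rh) hY hP
  have hLpos : (0:ℝ) < LL := by norm_num [LL]
  obtain ⟨K, B, hK, hB, hl1, hl2, hg, hlat, hc⟩ := flow_facts hLpos h.smooth h.per h.flow
  have hcont : ∀ t, Continuous (φ t) := by
    intro t
    refine (LipschitzWith.of_dist_le_mul (K := ⟨Real.exp (K * |t|), (Real.exp_pos _).le⟩) ?_).continuous
    intro x y
    rw [dist_eq_norm, dist_eq_norm]
    exact hc t x y
  obtain ⟨x, hx, hcr⟩ := cr_compact LL φ hg hlat hcont KK KK_compact (upper cc cx rh h)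
  obtain ⟨c, hcpos, hlow⟩ := lower cc cx rh h
  refine ⟨F, φ, h.smooth, h.per, h.flow, x, hcr, ?_⟩
  intro hA
  have hA' : barrier LL F x x = 0 := hA
  have h1 : ENNReal.ofReal c ≤ barrier LL F x x := by
    unfold barrier
    refine le_liminf_of_le (by isBoundedDefault) ?_
    filter_upwards [eventually_ge_atTop (1:ℝ)] with T hT1
    unfold hT
    refine le_iInf fun γ => le_iInf fun v => le_iInf fun hcu => le_iInf fun h0 => le_iInf fun hk => ?_
    obtain ⟨k, hk⟩ := hk
    exact hlow x hx T hT1 γ v k hcu h0 hk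
  rw [hA'] at h1
  have h2 : (0 : ENNReal) < ENNReal.ofReal c := ENNReal.ofReal_pos.mpr hcpos
  exact absurd (lt_of_lt_of_le h2 h1) (lt_irrefl _)

end Pool.Agent.Aub
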